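import Pool.Agent.Helper381.Defs

/-! Spheres and mod 2 cohomology spheres. -/

set_option autoImplicit false

namespace Pool.Agent.V7H7.SZ

open Module

/-- `M` is homeomorphic to the unit sphere of dimension `m`, or has at least the mod 2 singular
cohomology of this sphere. -/
def SphereLike (M : Type) [TopologicalSpace M] (m : ℕ) : Prop :=
  Nonempty (M ≃ₜ Metric.sphere (0 : EuclideanSpace ℝ (Fin (m + 1))) 1) ∨
  ∀ n : ℕ, finrank (ZMod 2) (Pool.Agent.Helper381.SingularCohomology (ZMod 2) M n) =
    (if n = 0 then 1 else 0) + (if n = m then 1 else 0)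

end Pool.Agent.V7H7.SZ
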