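import Pool.Agent.V7H7.SZ.Sph

/-! Spaces homeomorphic to spheres are mod 2 cohomology spheres. -/

set_option autoImplicit false

namespace Pool.Agent.V7H7.SZ.Sph

open Module
open Pool.Agent.H904R2 (Pc)
open Pool.Agent.Helper922.HB.Sc (slice)

/-- the unit sphere of dimension `m` -/
abbrev S (m : ℕ) : Type := Metric.sphere (0 : EuclideanSpace ℝ (Fin (m + 1))) 1

theorem sphere_ne {m : ℕ} (x : S m) : (WithLp.ofLp x.1 : Fin (m + 1) → ℝ) ≠ 0 := by
  intro h
  have h1 : x.1 = 0 := by
    ext i
    exact congrFun h i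
  have h2 := x.2
  rw [mem_sphere_zero_iff_norm, h1, norm_zero] at h2
  exact zero_ne_one h2

theorem toLp_ne {m : ℕ} (v : Pc (m + 1)) :
    (WithLp.toLp 2 v.1 : EuclideanSpace ℝ (Fin (m + 1))) ≠ 0 := by
  intro h
  apply v.2
  funext i
  have h2 := congrArg (fun w : EuclideanSpace ℝ (Fin (m + 1)) => w i) h
  exact h2

/-- inclusion -/
noncomputable def fS (m : ℕ) : C(S m, Pc (m + 1)) :=
  ⟨fun x => ⟨WithLp.ofLp x.1, sphere_ne x⟩, by
    refine Continuous.subtype_mk ?_ _
    exact (PiLp.continuous_ofLp 2 _).comp continuous_subtype_val⟩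

/-- the length of a vector -/
noncomputable def len {m : ℕ} (v : Pc (m + 1)) : ℝ :=
  ‖(WithLp.toLp 2 v.1 : EuclideanSpace ℝ (Fin (m + 1)))‖

theorem len_pos {m : ℕ} (v : Pc (m + 1)) : 0 < len v := norm_pos_iff.2 (toLp_ne v)

theorem continuous_len (m : ℕ) : Continuous (len (m := m)) :=
  ((PiLp.continuous_toLp 2 _).comp continuous_subtype_val).norm

/-- projection -/
noncomputable def gS (m : ℕ) : C(Pc (m + 1), S m) :=
  ⟨fun v => ⟨(len v)⁻¹ • (WithLp.toLp 2 v.1 : EuclideanSpace ℝ (Fin (m + 1))), by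
    rw [mem_sphere_zero_iff_norm, norm_smul, norm_inv, Real.norm_eq_abs,
      abs_of_pos (len_pos v)]
    exact inv_mul_cancel₀ (len_pos v).ne'⟩, by
    refine Continuous.subtype_mk ?_ _
    exact ((continuous_len m).inv₀ (fun v => (len_pos v).ne')).smul
      ((PiLp.continuous_toLp 2 _).comp continuous_subtype_val)⟩

theorem gf (m : ℕ) : (gS m).comp (fS m) = ContinuousMap.id _ := by
  apply ContinuousMap.ext
  intro x
  apply Subtype.ext
  have h1 : len ((fS m) x) = 1 := by
    have h2 := x.2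
    rw [mem_sphere_zero_iff_norm] at h2
    exact h2
  change (len ((fS m) x))⁻¹ • (WithLp.toLp 2 ((fS m) x).1 : EuclideanSpace ℝ (Fin (m + 1))) = x.1
  rw [h1, inv_one, one_smul]
  rfl

/-- the scaling factor -/
noncomputable def fac {m : ℕ} (p : Pc (m + 1) × unitInterval) : ℝ :=
  (1 - (p.2 : ℝ)) + (p.2 : ℝ) * (len p.1)⁻¹

theorem fac_pos {m : ℕ} (p : Pc (m + 1) × unitInterval) : 0 < fac p := by
  obtain ⟨v, t⟩ := p
  have h1 := t.2.1
  have h2 := t.2.2
  have h3 : 0 < (len v)⁻¹ := inv_pos.2 (len_pos v)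
  change 0 < (1 - (t : ℝ)) + (t : ℝ) * (len v)⁻¹
  rcases h1.lt_or_eq with h4 | h4
  · have := mul_pos h4 h3
    linarith
  · rw [← h4]
    norm_num

/-- the homotopy -/
noncomputable def HSp (m : ℕ) : C(Pc (m + 1) × unitInterval, Pc (m + 1)) :=
  ⟨fun p => ⟨fac p • p.1.1, fun h => p.1.2 (by
    rcases smul_eq_zero.1 h with h | h
    · exact absurd h (fac_pos p).ne'
    · exact h)⟩, by
    refine Continuous.subtype_mk ?_ _
    have h0 : Continuous (fun p : Pc (m + 1) × unitInterval => p.1.1) :=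
      continuous_subtype_val.comp continuous_fst
    have h1 : Continuous (fun p : Pc (m + 1) × unitInterval => (p.2 : ℝ)) :=
      continuous_subtype_val.comp continuous_snd
    have h2 : Continuous (fun p : Pc (m + 1) × unitInterval => fac p) :=
      (continuous_const.sub h1).add (h1.mul
        (((continuous_len m).inv₀ (fun v => (len_pos v).ne')).comp continuous_fst))
    exact h2.smul h0⟩

theorem hs_sphere (m : ℕ) : HS (S m) m := by
  refine (hs_pc m).transfer (fS m) (gS m) (gf m) (HSp m) ?_ ?_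
  · apply ContinuousMap.ext
    intro v
    apply Subtype.ext
    change fac (v, 0) • v.1 = v.1
    have : fac (v, (0 : unitInterval)) = 1 := by
      unfold fac
      simp
    rw [this, one_smul]
  · apply ContinuousMap.ext
    intro v
    apply Subtype.ext
    change fac (v, 1) • v.1 = WithLp.ofLp
      ((len v)⁻¹ • (WithLp.toLp 2 v.1 : EuclideanSpace ℝ (Fin (m + 1))))
    have : fac (v, (1 : unitInterval)) = (len v)⁻¹ := by
      unfold fac
      simp
    rw [this]
    rfl

theorem punctured {X : Type} [TopologicalSpace X] {m : ℕ} (hm : 0 < m) (h : X ≃ₜ S m) (y : X) :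
    Subsingleton (Pool.Agent.Helper381.SingularCohomology (ZMod 2) {x : X // x ≠ y} m) := by
  let v : EuclideanSpace ℝ (Fin (m + 1)) := (h y).1
  have hv : ‖v‖ = 1 := mem_sphere_zero_iff_norm.1 (h y).2
  let st := stereographic hv
  have hsrc : st.source = {h y}ᶜ := stereographic_source hv
  let e1 : {x : X // x ≠ y} ≃ₜ st.source :=
    h.subtype (fun x => by
      rw [hsrc, Set.mem_compl_iff, Set.mem_singleton_iff, h.injective.eq_iff])
  let e2 : st.source ≃ₜ st.target := st.toHomeomorphSourceTarget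
  let e3 : st.target ≃ₜ (ℝ ∙ v)ᗮ :=
    (Homeomorph.setCongr (stereographic_target hv)).trans (Homeomorph.Set.univ _)
  let e : {x : X // x ≠ y} ≃ₜ (ℝ ∙ v)ᗮ := (e1.trans e2).trans e3
  refine coh_contr (fun p => e.symm ((1 - (p.2 : ℝ)) • e p.1)) ?_ (e.symm 0) ?_ ?_ hm
  · have h1 : Continuous (fun p : {x : X // x ≠ y} × unitInterval => (p.2 : ℝ)) :=
      continuous_subtype_val.comp continuous_snd
    have h2 : Continuous (fun p : {x : X // x ≠ y} × unitInterval => (1 - (p.2 : ℝ)) • e p.1) :=
      (continuous_const.sub h1).smul (e.continuous.comp continuous_fst)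
    exact e.symm.continuous.comp h2
  · intro y
    simp
  · intro y
    simp

theorem mod2Sphere {X : Type} [TopologicalSpace X] {m : ℕ} (hm : 0 < m) (h : X ≃ₜ S m) :
    Mod2Sphere X m where
  coh := by
    have hn : Nonempty (S m) := by
      have : Nontrivial (EuclideanSpace ℝ (Fin (m + 1))) := inferInstance
      exact (NormedSpace.sphere_nonempty.2 zero_le_one).to_subtype
    have : Nonempty X := hn.map h.symm
    have h1 : HS X m := (hs_sphere m).transfer ⟨h, h.continuous⟩ ⟨h.symm, h.symm.continuous⟩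
      (ContinuousMap.ext fun x => h.symm_apply_apply x)
      ⟨fun p => p.1, continuous_fst⟩ rfl (ContinuousMap.ext fun x => (h.apply_symm_apply x).symm)
    exact h1.coh hm
  pt := fun y => punctured hm h y

end Pool.Agent.V7H7.SZ.Sph
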