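import Pool.Agent.V7H7.SZ.Ct4
import Pool.Agent.V7H7.SZ.Sph2
import Pool.Agent.V7H7.SZ.Def2

/-! Closed connected manifolds with the mod 2 cohomology of a sphere. -/

set_option autoImplicit false

namespace Pool.Agent.V7H7.SZ

open Module

variable {E : Type} [NormedAddCommGroup E] [NormedSpace ℝ E] [FiniteDimensional ℝ E]
  {M : Type} [TopologicalSpace M] [ChartedSpace E M]

variable (E) in
theorem SphereLike.mod2 [T2Space M] [ConnectedSpace M] (hm : 0 < finrank ℝ E)
    (h : SphereLike M (finrank ℝ E)) : Mod2Sphere M (finrank ℝ E) := by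
  rcases h with ⟨⟨h⟩⟩ | h
  · exact Sph.mod2Sphere hm h
  · exact ⟨h, fun y => Sph.top_zero hm y⟩

end Pool.Agent.V7H7.SZ
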