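import Pool.Agent.V7H7.SZ.Oct

/-! Albert algebras over commutative rings and their automorphism groups. -/

set_option autoImplicit false
set_option linter.unusedSectionVars false

namespace Pool.Agent.V7H7.SZ.Mnl

open scoped Manifold ContDiff
open Module Pool.Agent.Helper381 Pool.Agent.H185.ZM

variable {R : Type} [CommRing R]

theorem am_inl (a b : J27 → R) (i : Fin 3) : am a b (Sum.inl i) =
    2 * (a (Sum.inl i) * b (Sum.inl i)) +
    2 * (jx a (i + 1) ⬝ᵥ jx b (i + 1) + jx a (i + 2) ⬝ᵥ jx b (i + 2)) := rfl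

theorem am_inr (a b : J27 → R) (i : Fin 3) (z : I3) : am a b (Sum.inr (i, z)) =
    (a (Sum.inl (i + 1)) + a (Sum.inl (i + 2))) * b (Sum.inr (i, z)) +
    (b (Sum.inl (i + 1)) + b (Sum.inl (i + 2))) * a (Sum.inr (i, z)) +
    sgn R (κ z) * (om (jx b (i + 1)) (jx a (i + 2)) z +
      om (jx a (i + 1)) (jx b (i + 2)) z) := rfl

/-- the automorphism group of the Albert algebra over `R` -/
def autA (R : Type) [CommRing R] : Subgroup ((J27 → R) ≃ₗ[R] (J27 → R)) where
  carrier := {g | ∀ a b, g (am a b) = am (g a) (g b)}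
  one_mem' := fun _ _ => rfl
  mul_mem' := fun {g h} hg hh a b => by
    change g (h (am a b)) = am (g (h a)) (g (h b))
    rw [hh, hg]
  inv_mem' := fun {g} hg a b => by
    apply g.injective
    have h2 : ∀ c, g (g⁻¹ c) = c := by
      intro c
      rw [← LinearEquiv.mul_apply, mul_inv_cancel]
      rfl
    rw [hg, h2, h2, h2]

/-- the automorphisms of the Albert algebra over `R` which preserve the cubic form -/
def autC (R : Type) [CommRing R] : Subgroup ((J27 → R) ≃ₗ[R] (J27 → R)) where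
  carrier := {g | (∀ a b, g (am a b) = am (g a) (g b)) ∧ ∀ a, cub (g a) = cub a}
  one_mem' := ⟨fun _ _ => rfl, fun _ => rfl⟩
  mul_mem' := fun {g h} hg hh => ⟨fun a b => by
    change g (h (am a b)) = am (g (h a)) (g (h b))
    rw [hh.1, hg.1], fun a => by
    change cub (g (h a)) = cub a
    rw [hg.2, hh.2]⟩
  inv_mem' := fun {g} hg => by
    have h2 : ∀ c, g (g⁻¹ c) = c := by
      intro c
      rw [← LinearEquiv.mul_apply, mul_inv_cancel]
      rfl
    refine ⟨fun a b => ?_, fun a => ?_⟩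
    · apply g.injective
      rw [hg.1, h2, h2, h2]
    · rw [← hg.2, h2]

theorem spe_dot (s : I3 → ZMod 2) (σ : Equiv.Perm I3) (a b : I3 → R) :
    spe R s σ a ⬝ᵥ spe R s σ b = a ⬝ᵥ b := by
  unfold dotProduct
  rw [← Equiv.sum_comp σ]
  refine Finset.sum_congr rfl fun z _ => ?_
  rw [spe_apply', spe_apply']
  calc sgn R (s z) * a z * (sgn R (s z) * b z) = (sgn R (s z) * sgn R (s z)) * (a z * b z) := by
        ring
    _ = a z * b z := by rw [sgn_mul_self, one_mul]

theorem q_kap : ∀ v : I3, q v v = κ v := by decide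

theorem q_cyc : ∀ v b : I3, q (v + b) v + q b b = q v b + q (v + b) (v + b) := by decide

theorem tri (x y z : I3 → R) : om (om x y) z 0 =
    ∑ p, ∑ v, sgn R (q p v + q (p + v) (p + v)) * (x p * y v * z (p + v)) := by
  unfold om
  simp only [add_zero, Finset.sum_mul, Finset.mul_sum]
  rw [Finset.sum_comm]
  refine Finset.sum_congr rfl fun p _ => ?_
  rw [← Equiv.sum_comp (Equiv.addLeft p)]
  refine Finset.sum_congr rfl fun v _ => ?_
  rw [Equiv.coe_addLeft, I3.add_add, sgn_add]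
  ring

theorem tri_cyc (x y z : I3 → R) : om (om z x) y 0 = om (om x y) z 0 := by
  rw [tri, tri, Finset.sum_comm]
  refine Finset.sum_congr rfl fun v _ => ?_
  rw [← Equiv.sum_comp (Equiv.addLeft v)]
  refine Finset.sum_congr rfl fun b _ => ?_
  have h : v + b + v = b := by
    rw [add_comm v b, add_assoc, I3.add_self, add_zero]
  rw [Equiv.coe_addLeft, h, q_cyc]
  ring

theorem cub_spe {s : J27 → ZMod 2} {σ : Equiv.Perm J27} (σ' : Fin 3 → Equiv.Perm I3)
    (hs : ∀ i, s (Sum.inl i) = 0) (hl : ∀ i, σ (Sum.inl i) = Sum.inl i)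
    (hr : ∀ i z, σ (Sum.inr (i, z)) = Sum.inr (i, σ' i z))
    (h1 : ∀ i x y, σ' i (x + y) = σ' (i + 1) x + σ' (i + 2) y)
    (h2 : ∀ i x y, s (Sum.inr (i + 1, x)) + s (Sum.inr (i + 2, y)) +
      q (σ' (i + 1) x) (σ' (i + 2) y) =
      q x y + (κ (x + y) + κ (σ' i (x + y)) + s (Sum.inr (i, x + y)))) (a : J27 → R) :
    cub (spe R s σ a) = cub a := by
  have e1 : ∀ (i : Fin 3), spe R s σ a (Sum.inl i) = a (Sum.inl i) := by
    intro i
    have h := spe_apply' R s σ a (Sum.inl i)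
    rw [hl, hs, sgn_zero, one_mul] at h
    exact h
  have e3 : ∀ (i : Fin 3), jx (spe R s σ a) i =
      spe R (fun z => s (Sum.inr (i, z))) (σ' i) (jx a i) := by
    intro i
    funext z
    obtain ⟨z, rfl⟩ := (σ' i).surjective z
    rw [spe_apply']
    have h := spe_apply' R s σ a (Sum.inr (i, z))
    rw [hr] at h
    exact h
  have e4 : om (spe R (fun z => s (Sum.inr (0, z))) (σ' 0) (jx a 0))
      (spe R (fun z => s (Sum.inr (1, z))) (σ' 1) (jx a 1)) =
      spe R (fun z => κ z + κ (σ' 2 z) + s (Sum.inr (2, z))) (σ' 2) (om (jx a 0) (jx a 1)) :=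
    om_spe (h1 2) (h2 2) _ _
  have e5 : om (om (jx (spe R s σ a) 0) (jx (spe R s σ a) 1)) (jx (spe R s σ a) 2) 0 =
      om (om (jx a 0) (jx a 1)) (jx a 2) 0 := by
    rw [e3, e3, e3, e4]
    generalize om (jx a 0) (jx a 1) = u
    unfold om
    simp only [add_zero]
    rw [← Equiv.sum_comp (σ' 2)]
    refine Finset.sum_congr rfl fun v _ => ?_
    rw [spe_apply', spe_apply', q_kap, q_kap]
    have h3 : κ (σ' 2 v) + κ (σ' 2 v) = 0 := CharTwo.add_self_eq_zero _
    have h4 : s (Sum.inr (2, v)) + s (Sum.inr (2, v)) = 0 := CharTwo.add_self_eq_zero _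
    have h5 : sgn R (κ (σ' 2 v)) * sgn R (κ v + κ (σ' 2 v) + s (Sum.inr (2, v))) *
        sgn R (s (Sum.inr (2, v))) = sgn R (κ v) := by
      rw [← sgn_add, ← sgn_add]
      congr 1
      linear_combination h3 + h4
    calc sgn R (κ (σ' 2 v)) * (sgn R (κ v + κ (σ' 2 v) + s (Sum.inr (2, v))) * u v *
          (sgn R (s (Sum.inr (2, v))) * jx a 2 v))
        = (sgn R (κ (σ' 2 v)) * sgn R (κ v + κ (σ' 2 v) + s (Sum.inr (2, v))) *
          sgn R (s (Sum.inr (2, v)))) * (u v * jx a 2 v) := by ring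
      _ = sgn R (κ v) * (u v * jx a 2 v) := by rw [h5]
  unfold cub
  rw [e5, e1, e1, e1]
  simp only [e1, e3, spe_dot]

theorem mem_autA {s : J27 → ZMod 2} {σ : Equiv.Perm J27} (σ' : Fin 3 → Equiv.Perm I3)
    (hs : ∀ i, s (Sum.inl i) = 0) (hl : ∀ i, σ (Sum.inl i) = Sum.inl i)
    (hr : ∀ i z, σ (Sum.inr (i, z)) = Sum.inr (i, σ' i z))
    (h1 : ∀ i x y, σ' i (x + y) = σ' (i + 1) x + σ' (i + 2) y)
    (h2 : ∀ i x y, s (Sum.inr (i + 1, x)) + s (Sum.inr (i + 2, y)) +
      q (σ' (i + 1) x) (σ' (i + 2) y) =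
      q x y + (κ (x + y) + κ (σ' i (x + y)) + s (Sum.inr (i, x + y)))) :
    spe R s σ ∈ autA R := by
  intro a b
  have e1 : ∀ (a : J27 → R) (i : Fin 3), spe R s σ a (Sum.inl i) = a (Sum.inl i) := by
    intro a i
    have h := spe_apply' R s σ a (Sum.inl i)
    rw [hl, hs, sgn_zero, one_mul] at h
    exact h
  have e2 : ∀ (a : J27 → R) (i : Fin 3) (z : I3), spe R s σ a (Sum.inr (i, σ' i z)) =
      sgn R (s (Sum.inr (i, z))) * a (Sum.inr (i, z)) := by
    intro a i z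
    have h := spe_apply' R s σ a (Sum.inr (i, z))
    rw [hr] at h
    exact h
  have e3 : ∀ (a : J27 → R) (i : Fin 3), jx (spe R s σ a) i =
      spe R (fun z => s (Sum.inr (i, z))) (σ' i) (jx a i) := by
    intro a i
    funext z
    obtain ⟨z, rfl⟩ := (σ' i).surjective z
    rw [spe_apply']
    exact e2 a i z
  have e4 : ∀ (i : Fin 3) (x y : I3 → R), om
      (spe R (fun z => s (Sum.inr (i + 1, z))) (σ' (i + 1)) x)
      (spe R (fun z => s (Sum.inr (i + 2, z))) (σ' (i + 2)) y) =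
      spe R (fun z => κ z + κ (σ' i z) + s (Sum.inr (i, z))) (σ' i) (om x y) := by
    intro i x y
    exact om_spe (h1 i) (h2 i) x y
  have e5 : ∀ (i : Fin 3) (z : I3), sgn R (κ (σ' i z)) *
      sgn R (κ z + κ (σ' i z) + s (Sum.inr (i, z))) = sgn R (s (Sum.inr (i, z))) * sgn R (κ z) := by
    intro i z
    rw [← sgn_add, ← sgn_add]
    congr 1
    have h : κ (σ' i z) + κ (σ' i z) = 0 := CharTwo.add_self_eq_zero _
    calc κ (σ' i z) + (κ z + κ (σ' i z) + s (Sum.inr (i, z)))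
        = (κ (σ' i z) + κ (σ' i z)) + (s (Sum.inr (i, z)) + κ z) := by ring
      _ = s (Sum.inr (i, z)) + κ z := by rw [h, zero_add]
  funext j
  rcases j with i | ⟨i, z⟩
  · rw [e1, am_inl, am_inl, e1, e1, e3, e3, e3, e3, spe_dot, spe_dot]
  · obtain ⟨z, rfl⟩ := (σ' i).surjective z
    rw [e2, am_inr, am_inr, e1, e1, e1, e1, e2, e2, e3, e3, e3, e3, e4, e4, spe_apply', spe_apply']
    linear_combination (-(om (jx b (i + 1)) (jx a (i + 2)) z +
      om (jx a (i + 1)) (jx b (i + 2)) z)) * e5 i z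

theorem mem_autC {s : J27 → ZMod 2} {σ : Equiv.Perm J27} (σ' : Fin 3 → Equiv.Perm I3)
    (hs : ∀ i, s (Sum.inl i) = 0) (hl : ∀ i, σ (Sum.inl i) = Sum.inl i)
    (hr : ∀ i z, σ (Sum.inr (i, z)) = Sum.inr (i, σ' i z))
    (h1 : ∀ i x y, σ' i (x + y) = σ' (i + 1) x + σ' (i + 2) y)
    (h2 : ∀ i x y, s (Sum.inr (i + 1, x)) + s (Sum.inr (i + 2, y)) +
      q (σ' (i + 1) x) (σ' (i + 2) y) =
      q x y + (κ (x + y) + κ (σ' i (x + y)) + s (Sum.inr (i, x + y)))) :
    spe R s σ ∈ autC R :=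
  ⟨mem_autA σ' hs hl hr h1 h2, cub_spe σ' hs hl hr h1 h2⟩

/-- the rotation of the three places -/
def rot : Equiv.Perm J27 where
  toFun := Sum.map (fun i => i + 1) (fun p => (p.1 + 1, p.2))
  invFun := Sum.map (fun i => i + 2) (fun p => (p.1 + 2, p.2))
  left_inv := by
    have h : ∀ i : Fin 3, i + 1 + 2 = i := by decide
    rintro (i | ⟨i, z⟩)
    · simp only [Sum.map_inl, h]
    · simp only [Sum.map_inr, h]
  right_inv := by
    have h : ∀ i : Fin 3, i + 2 + 1 = i := by decide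
    rintro (i | ⟨i, z⟩)
    · simp only [Sum.map_inl, h]
    · simp only [Sum.map_inr, h]

theorem rot_mem : spe R (fun _ => 0) rot ∈ autA R := by
  intro a b
  have e1 : ∀ (a : J27 → R) (i : Fin 3), spe R (fun _ => 0) rot a (Sum.inl (i + 1)) =
      a (Sum.inl i) := by
    intro a i
    have h := spe_apply' R (fun _ => 0) rot a (Sum.inl i)
    rw [sgn_zero, one_mul] at h
    exact h
  have e2 : ∀ (a : J27 → R) (i : Fin 3) (z : I3),
      spe R (fun _ => 0) rot a (Sum.inr (i + 1, z)) = a (Sum.inr (i, z)) := by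
    intro a i z
    have h := spe_apply' R (fun _ => 0) rot a (Sum.inr (i, z))
    rw [sgn_zero, one_mul] at h
    exact h
  have e3 : ∀ (a : J27 → R) (i : Fin 3), jx (spe R (fun _ => 0) rot a) (i + 1) = jx a i := by
    intro a i
    funext z
    exact e2 a i z
  have e4 : ∀ i : Fin 3, i + 1 + 2 = i + 2 + 1 := fun i => add_right_comm i 1 2
  funext j
  obtain ⟨j, rfl⟩ := rot.surjective j
  rw [spe_apply', sgn_zero, one_mul]
  rcases j with i | ⟨i, z⟩
  · change am a b (Sum.inl i) = am _ _ (Sum.inl (i + 1))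
    rw [am_inl, am_inl, e4, e1, e1, e3, e3, e3, e3]
  · change am a b (Sum.inr (i, z)) = am _ _ (Sum.inr (i + 1, z))
    rw [am_inr, am_inr, e4, e1, e1, e1, e1, e2, e2, e3, e3, e3, e3]

theorem rot_mem' : spe R (fun _ => 0) rot ∈ autC R := by
  refine ⟨rot_mem, fun a => ?_⟩
  have e1 : ∀ (i : Fin 3), spe R (fun _ => 0) rot a (Sum.inl (i + 1)) = a (Sum.inl i) := by
    intro i
    have h := spe_apply' R (fun _ => 0) rot a (Sum.inl i)
    rw [sgn_zero, one_mul] at h
    exact h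
  have e3 : ∀ (i : Fin 3), jx (spe R (fun _ => 0) rot a) (i + 1) = jx a i := by
    intro i
    funext z
    have h := spe_apply' R (fun _ => 0) rot a (Sum.inr (i, z))
    rw [sgn_zero, one_mul] at h
    exact h
  have a0 : spe R (fun _ => 0) rot a (Sum.inl 0) = a (Sum.inl 2) := e1 2
  have a1 : spe R (fun _ => 0) rot a (Sum.inl 1) = a (Sum.inl 0) := e1 0
  have a2 : spe R (fun _ => 0) rot a (Sum.inl 2) = a (Sum.inl 1) := e1 1
  have b0 : jx (spe R (fun _ => 0) rot a) 0 = jx a 2 := e3 2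
  have b1 : jx (spe R (fun _ => 0) rot a) 1 = jx a 0 := e3 0
  have b2 : jx (spe R (fun _ => 0) rot a) 2 = jx a 1 := e3 1
  unfold cub
  rw [Fin.sum_univ_three, Fin.sum_univ_three, a0, a1, a2, b0, b1, b2, tri_cyc]
  ring

/-- translations -/
def tr (u : I3) : Equiv.Perm I3 := Equiv.addRight u

theorem tr_apply (u z : I3) : tr u z = z + u := rfl

/-- the shifts -/
def shf (u : I3) (i : Fin 3) : I3 := if i = 2 then 0 else u

/-- the permutation which belongs to the multiplications with `e_u` -/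
def mperm (u : I3) : Equiv.Perm J27 where
  toFun := Sum.map id (fun p => (p.1, p.2 + shf u p.1))
  invFun := Sum.map id (fun p => (p.1, p.2 + shf u p.1))
  left_inv := by
    rintro (i | ⟨i, z⟩)
    · rfl
    · simp only [Sum.map_inr, add_assoc, I3.add_self, add_zero]
  right_inv := by
    rintro (i | ⟨i, z⟩)
    · rfl
    · simp only [Sum.map_inr, add_assoc, I3.add_self, add_zero]

/-- its signs -/
def msgn (u : I3) : J27 → ZMod 2 := Sum.elim (fun _ => 0)
  (fun p => if p.1 = 0 then q u p.2 else if p.1 = 1 then q p.2 u else q u p.2 + q (u + p.2) u)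

theorem mid0 : ∀ u x y : I3, q x u + (q u y + q (u + y) u) + q (x + u) y =
    q x y + (κ (x + y) + κ (x + y + u) + q u (x + y)) := by
  decide

theorem mid1 : ∀ u x y : I3, (q u x + q (u + x) u) + q u y + q x (y + u) =
    q x y + (κ (x + y) + κ (x + y + u) + q (x + y) u) := by
  decide

theorem mid2 : ∀ u x y : I3, q u x + q y u + q (x + u) (y + u) =
    q x y + (κ (x + y) + κ (x + y) + (q u (x + y) + q (u + (x + y)) u)) := by
  decide

theorem m_mem (u : I3) : spe R (msgn u) (mperm u) ∈ autC R := by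
  refine mem_autC (fun i => tr (shf u i)) (fun _ => rfl) (fun _ => rfl) (fun _ _ => rfl) ?_ ?_
  · intro i x y
    simp only [tr_apply]
    have h : ∀ (i : Fin 3), shf u i = shf u (i + 1) + shf u (i + 2) := by
      intro i
      fin_cases i
      · change u = u + 0
        rw [add_zero]
      · change u = 0 + u
        rw [zero_add]
      · change 0 = u + u
        rw [I3.add_self]
    rw [h i]
    abel
  · intro i x y
    simp only [tr_apply]
    fin_cases i
    · change q x u + (q u y + q (u + y) u) + q (x + u) (y + 0) =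
        q x y + (κ (x + y) + κ (x + y + u) + q u (x + y))
      rw [add_zero y]
      exact mid0 u x y
    · change (q u x + q (u + x) u) + q u y + q (x + 0) (y + u) =
        q x y + (κ (x + y) + κ (x + y + u) + q (x + y) u)
      rw [add_zero x]
      exact mid1 u x y
    · change q u x + q y u + q (x + u) (y + u) =
        q x y + (κ (x + y) + κ (x + y + 0) + (q u (x + y) + q (u + (x + y)) u))
      rw [add_zero (x + y)]
      exact mid2 u x y

/-- the weights -/
def wA : J27 → Fin 3 ⊕ Fin 3 → ZMod 2 := Sum.elim (fun _ => 0)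
  (fun p => Sum.elim (wO p.2) (fun j => if j = p.1 then 0 else 1))

theorem wA_inl (i : Fin 3) (v : Fin 3 ⊕ Fin 3 → ZMod 2) : wA (Sum.inl i) ⬝ᵥ v = 0 :=
  zero_dotProduct v

theorem off_dot (i : Fin 3) (d : Fin 3 → ZMod 2) :
    (fun j => if j = i then (0 : ZMod 2) else 1) ⬝ᵥ d = d (i + 1) + d (i + 2) := by
  revert i d
  decide

theorem wA_inr (i : Fin 3) (z : I3) (v : Fin 3 ⊕ Fin 3 → ZMod 2) :
    wA (Sum.inr (i, z)) ⬝ᵥ v = wO z ⬝ᵥ (fun j => v (Sum.inl j)) +
      (v (Sum.inr (i + 1)) + v (Sum.inr (i + 2))) := by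
  rw [← off_dot i (fun j => v (Sum.inr j))]
  unfold dotProduct
  rw [Fintype.sum_sum_type]
  rfl

theorem dgA_mem (v : Fin 3 ⊕ Fin 3 → ZMod 2) : dg R wA v ∈ autC R := by
  refine mem_autC (fun _ => 1) (fun i => wA_inl i v) (fun _ => rfl) (fun _ _ => rfl)
    (fun _ _ _ => rfl) ?_
  intro i x y
  simp only [wA_inr, Equiv.Perm.one_apply, wO_add, add_dotProduct]
  have h1 : κ (x + y) + κ (x + y) = 0 := CharTwo.add_self_eq_zero _
  have h2 : ∀ c : ZMod 2, c + c = 0 := CharTwo.add_self_eq_zero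
  have h3 : i + 1 + 2 = i := by
    revert i
    decide
  have h4 : i + 2 + 1 = i := by
    revert i
    decide
  have h5 : i + 1 + 1 = i + 2 := by
    revert i
    decide
  have h6 : i + 2 + 2 = i + 1 := by
    revert i
    decide
  rw [h1, h3, h4, h5, h6]
  linear_combination h2 (v (Sum.inr i))

theorem dgA_mem' (v : Fin 3 ⊕ Fin 3 → ZMod 2) : dg R wA v ∈ stabB (autC R) :=
  ⟨dgA_mem v, spe_mem R _ _⟩

/-- the rotation of sign changes -/
def ρr : (Fin 3 ⊕ Fin 3 → ZMod 2) ≃ (Fin 3 ⊕ Fin 3 → ZMod 2) where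
  toFun v := Sum.elim (fun j => v (Sum.inl j)) (fun j => v (Sum.inr (j + 2)))
  invFun v := Sum.elim (fun j => v (Sum.inl j)) (fun j => v (Sum.inr (j + 1)))
  left_inv := by
    have h : ∀ j : Fin 3, j + 1 + 2 = j := by decide
    intro v
    funext j
    rcases j with j | j
    · rfl
    · change v (Sum.inr (j + 1 + 2)) = v (Sum.inr j)
      rw [h]
  right_inv := by
    have h : ∀ j : Fin 3, j + 2 + 1 = j := by decide
    intro v
    funext j
    rcases j with j | j
    · rfl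
    · change v (Sum.inr (j + 2 + 1)) = v (Sum.inr j)
      rw [h]

theorem ρr_spec (j : J27) (v : Fin 3 ⊕ Fin 3 → ZMod 2) : wA (rot j) ⬝ᵥ ρr v = wA j ⬝ᵥ v := by
  rcases j with i | ⟨i, z⟩
  · exact (wA_inl _ _).trans (wA_inl _ _).symm
  · have h1 : i + 1 + 1 + 2 = i + 1 := by
      revert i
      decide
    have h2 : i + 1 + 2 + 2 = i + 2 := by
      revert i
      decide
    change wA (Sum.inr (i + 1, z)) ⬝ᵥ ρr v = _
    rw [wA_inr, wA_inr]
    change wO z ⬝ᵥ (fun j => v (Sum.inl j)) + (v (Sum.inr (i + 1 + 1 + 2)) +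
      v (Sum.inr (i + 1 + 2 + 2))) = _
    rw [h1, h2]

/-- the shift of sign changes -/
def shv (u : I3) (v : Fin 3 ⊕ Fin 3 → ZMod 2) : Fin 3 ⊕ Fin 3 → ZMod 2 :=
  Sum.elim (fun j => v (Sum.inl j))
    (fun j => v (Sum.inr j) + if j = 2 then wO u ⬝ᵥ (fun j => v (Sum.inl j)) else 0)

theorem shv_shv (u : I3) (v : Fin 3 ⊕ Fin 3 → ZMod 2) : shv u (shv u v) = v := by
  funext j
  rcases j with j | j
  · rfl
  · change v (Sum.inr j) + (if j = 2 then wO u ⬝ᵥ (fun j => v (Sum.inl j)) else 0) +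
      (if j = 2 then wO u ⬝ᵥ (fun j => v (Sum.inl j)) else 0) = v (Sum.inr j)
    rw [add_assoc, CharTwo.add_self_eq_zero, add_zero]

/-- the shift of sign changes, as a permutation -/
def ρm (u : I3) : (Fin 3 ⊕ Fin 3 → ZMod 2) ≃ (Fin 3 ⊕ Fin 3 → ZMod 2) where
  toFun := shv u
  invFun := shv u
  left_inv := shv_shv u
  right_inv := shv_shv u

theorem ρm_spec (u : I3) (j : J27) (v : Fin 3 ⊕ Fin 3 → ZMod 2) :
    wA (mperm u j) ⬝ᵥ ρm u v = wA j ⬝ᵥ v := by
  rcases j with i | ⟨i, z⟩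
  · exact (wA_inl _ _).trans (wA_inl _ _).symm
  · change wA (Sum.inr (i, z + shf u i)) ⬝ᵥ shv u v = _
    rw [wA_inr, wA_inr, wO_add, add_dotProduct]
    have h2 : ∀ c : ZMod 2, c + c = 0 := CharTwo.add_self_eq_zero
    set v' : Fin 3 → ZMod 2 := fun j => v (Sum.inl j)
    fin_cases i
    · change wO z ⬝ᵥ v' + wO u ⬝ᵥ v' + (v (Sum.inr 1) + 0 + (v (Sum.inr 2) + wO u ⬝ᵥ v')) =
        wO z ⬝ᵥ v' + (v (Sum.inr 1) + v (Sum.inr 2))
      linear_combination h2 (wO u ⬝ᵥ v')
    · change wO z ⬝ᵥ v' + wO u ⬝ᵥ v' + (v (Sum.inr 2) + wO u ⬝ᵥ v' + (v (Sum.inr 0) + 0)) =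
        wO z ⬝ᵥ v' + (v (Sum.inr 2) + v (Sum.inr 0))
      linear_combination h2 (wO u ⬝ᵥ v')
    · change wO z ⬝ᵥ v' + wO 0 ⬝ᵥ v' + (v (Sum.inr 0) + 0 + (v (Sum.inr 1) + 0)) =
        wO z ⬝ᵥ v' + (v (Sum.inr 0) + v (Sum.inr 1))
      have h0 : wO 0 = 0 := by decide
      rw [h0, zero_dotProduct, add_zero, add_zero, add_zero]

theorem wA_classify (c' c'' : Fin 3 → ZMod 2) (h : c'' 0 + c'' 1 + c'' 2 = 0) : c'' = 0 ∨
    ∃ (i : Fin 3) (z : I3), wO z = c' ∧ (fun j => if j = i then (0 : ZMod 2) else 1) = c'' := by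
  obtain ⟨z, hz⟩ := exists_wO c'
  have h1 : ∀ c'' : Fin 3 → ZMod 2, c'' 0 + c'' 1 + c'' 2 = 0 → c'' = 0 ∨
      ∃ i : Fin 3, (fun j => if j = i then (0 : ZMod 2) else 1) = c'' := by
    decide
  rcases h1 c'' h with h2 | ⟨i, hi⟩
  · exact Or.inl h2
  · exact Or.inr ⟨i, z, hz, hi⟩

/-- the diagonal sign changes -/
def dv (d : Fin 3 → ZMod 2) : Fin 3 ⊕ Fin 3 → ZMod 2 := Sum.elim 0 d

variable {E : Type} [NormedAddCommGroup E] [NormedSpace ℝ E] [FiniteDimensional ℝ E]
  {M : Type} [TopologicalSpace M] [ChartedSpace E M] [IsManifold 𝓘(ℝ, E) ∞ M]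

/-- **Automorphism groups of Albert algebras acting on spheres of dimension at most 22.** -/
theorem alb_trivial [CompactSpace M] [T2Space M] [ConnectedSpace M]
    (hM : Mod2Sphere M (finrank ℝ E)) (hm : 0 < finrank ℝ E) (hlt : finrank ℝ E + 1 < 24)
    {G : Subgroup ((J27 → R) ≃ₗ[R] (J27 → R))} (hG : stabB (autC R) ≤ G)
    {α : G → (M ≃ₘ^∞⟮𝓘(ℝ, E), 𝓘(ℝ, E)⟯ M)} (hα : IsHom α) (d : Fin 3 → ZMod 2) (x : M) :
    α ⟨dg R wA (dv d), hG (dgA_mem' _)⟩ x = x := by
  classical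
  obtain ⟨T, hT1, hT2, hT3, hT4⟩ := monomial_weights hM hm hα wA (fun v => hG (dgA_mem' v))
  have hno : ∀ (i : Fin 3) (z : I3), wA (Sum.inr (i, z)) ∉ T := by
    intro i z hz
    have hrot : ∀ (i : Fin 3) (z : I3), wA (Sum.inr (i, z)) ∈ T →
        wA (Sum.inr (i + 1, z)) ∈ T :=
      fun i z h => hT4 _ rot ρr (hG ⟨rot_mem', spe_mem R _ _⟩) ρr_spec (Sum.inr (i, z)) h
    have hrot2 : ∀ (i k : Fin 3) (z : I3), wA (Sum.inr (i, z)) ∈ T →
        wA (Sum.inr (k, z)) ∈ T := by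
      intro i k z h
      have h3 : ∀ i k : Fin 3, k = i ∨ k = i + 1 ∨ k = i + 1 + 1 := by decide
      rcases h3 i k with rfl | rfl | rfl
      · exact h
      · exact hrot _ _ h
      · exact hrot _ _ (hrot _ _ h)
    have hall : ∀ (k : Fin 3) (y : I3), wA (Sum.inr (k, y)) ∈ T := by
      intro k y
      apply hrot2 0 k y
      have h4 := hT4 _ (mperm (z + y)) (ρm (z + y)) (hG ⟨m_mem (z + y), spe_mem R _ _⟩)
        (ρm_spec (z + y))
        (Sum.inr (0, z)) (hrot2 i 0 z hz)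
      have h5 : mperm (z + y) (Sum.inr (0, z)) = Sum.inr (0, y) := by
        change (Sum.inr (0, z + (z + y)) : J27) = Sum.inr (0, y)
        rw [I3.add_add]
      rw [h5] at h4
      exact h4
    have hinj : Function.Injective (fun p : Fin 3 × I3 => wA (Sum.inr p)) := by
      rintro ⟨i, z⟩ ⟨k, y⟩ h
      have e1 : wO z = wO y := by
        funext j
        exact congrFun h (Sum.inl j)
      have e2 : ∀ j : Fin 3, (if j = i then (0 : ZMod 2) else 1) = if j = k then 0 else 1 := by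
        intro j
        exact congrFun h (Sum.inr j)
      have e3 : i = k := by
        by_contra hne
        have h6 := e2 i
        rw [if_pos rfl, if_neg hne] at h6
        exact absurd h6 (by decide)
      rw [wO_injective e1, e3]
    have hsub : Finset.univ.image (fun p : Fin 3 × I3 => wA (Sum.inr p)) ⊆ T := by
      intro c hc
      obtain ⟨⟨k, y⟩, -, rfl⟩ := Finset.mem_image.1 hc
      exact hall k y
    have h7 := Finset.card_le_card hsub
    rw [Finset.card_image_of_injective _ hinj, Finset.card_univ] at h7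
    have h8 : Fintype.card (Fin 3 × I3) = 24 := by decide
    omega
  apply hT2
  intro c hc
  have hsum : ∀ w : Fin 3 ⊕ Fin 3 → ZMod 2, c ⬝ᵥ w =
      (fun j => c (Sum.inl j)) ⬝ᵥ (fun j => w (Sum.inl j)) +
      (fun j => c (Sum.inr j)) ⬝ᵥ (fun j => w (Sum.inr j)) := by
    intro w
    unfold dotProduct
    rw [Fintype.sum_sum_type]
  have h1 := hT3 c hc (dv 1) (by
    rintro (i | ⟨i, z⟩)
    · exact wA_inl i _
    · rw [wA_inr]
      change wO z ⬝ᵥ (0 : Fin 3 → ZMod 2) + ((1 : ZMod 2) + 1) = 0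
      rw [dotProduct_zero, zero_add]
      decide)
  rw [hsum] at h1
  change (fun j => c (Sum.inl j)) ⬝ᵥ (0 : Fin 3 → ZMod 2) +
    (fun j => c (Sum.inr j)) ⬝ᵥ (1 : Fin 3 → ZMod 2) = 0 at h1
  rw [dotProduct_zero, zero_add, dotProduct_one, Fin.sum_univ_three] at h1
  rcases wA_classify (fun j => c (Sum.inl j)) (fun j => c (Sum.inr j)) h1 with h2 | ⟨i, z, h2, h3⟩
  · rw [hsum, h2]
    change (fun j => c (Sum.inl j)) ⬝ᵥ (0 : Fin 3 → ZMod 2) + (0 : Fin 3 → ZMod 2) ⬝ᵥ _ = 0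
    rw [dotProduct_zero, zero_dotProduct, add_zero]
  · exfalso
    apply hno i z
    have h4 : wA (Sum.inr (i, z)) = c := by
      funext j
      rcases j with j | j
      · exact congrFun h2 j
      · exact congrFun h3 j
    rw [h4]
    exact hc

theorem alb_finite [CompactSpace M] [T2Space M] [ConnectedSpace M]
    (hM : Mod2Sphere M (finrank ℝ E)) (hm : 0 < finrank ℝ E) (hlt : finrank ℝ E + 1 < 24)
    (h1 : (1 : R) ≠ -1) {G : Subgroup ((J27 → R) ≃ₗ[R] (J27 → R))} (hG : stabB (autC R) ≤ G)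
    {α : G → (M ≃ₘ^∞⟮𝓘(ℝ, E), 𝓘(ℝ, E)⟯ M)} (hα : IsHom α)
    (hNS : ∀ N : Subgroup G, N.Normal → N ≤ Subgroup.center G ∨ Finite (G ⧸ N)) :
    (Set.range α).Finite := by
  refine hα.finite_range ?_
  rcases hNS (actKer hα.action) inferInstance with h2 | h2
  · exfalso
    let v : Fin 3 ⊕ Fin 3 → ZMod 2 := dv ![1, 0, 0]
    have h3 : (⟨dg R wA v, hG (dgA_mem' v)⟩ : G) ∈ actKer hα.action :=
      fun x => alb_trivial hM hm hlt hG hα _ x
    have h4 := Subgroup.mem_center_iff.1 (h2 h3)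
      ⟨spe R (fun _ => 0) rot, hG ⟨rot_mem', spe_mem R _ _⟩⟩
    have h5 : spe R (fun _ => 0) rot * dg R wA v = dg R wA v * spe R (fun _ => 0) rot :=
      congrArg Subtype.val h4
    have h6 := conj_dg wA (fun _ => 0) rot ρr ρr_spec (R := R) v
    rw [h5, mul_inv_cancel_right] at h6
    exact dg_ne h1 wA (j := Sum.inr (0, 0)) (by decide) h6
  · exact h2

end Pool.Agent.V7H7.SZ.Mnl
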