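import Pool.Agent.V7H7.SZ.Mon

/-! Groups which contain the elementary group, acting on mod 2 homology spheres. -/

set_option autoImplicit false
set_option linter.unusedSectionVars false

namespace Pool.Agent.V7H7.SZ

open scoped Manifold ContDiff
open Module Matrix Pool.Agent.Helper381 Pool.Agent.H185.ZM Pool.Agent.N287.NC

section zv

variable {Q : Type} [Group Q] {ι : Type} [DecidableEq ι]

theorem zv_add {z : Q} (hz : z * z = 1) (v w : ι → ZMod 2) :
    zv z (v + w) = zv z v * zv z w :=
  (zvHom (ι := ι) z hz).map_mul (Multiplicative.ofAdd v) (Multiplicative.ofAdd w)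

theorem zv_zero (z : Q) : zv z (0 : ι → ZMod 2) = 1 := by
  funext i
  exact if_pos rfl

theorem v2_add_self (v : ι → ZMod 2) : v + v = 0 := by
  funext i
  exact CharTwo.add_self_eq_zero (v i)

/-- the element with entries `x` and `x⁻¹` -/
def pr2 (x : Q) (i j : ι) : ι → Q := Pi.mulSingle i x * Pi.mulSingle j x⁻¹

theorem pr2_i (x : Q) {i j : ι} (h : i ≠ j) : pr2 x i j i = x := by
  unfold pr2
  rw [Pi.mul_apply, Pi.mulSingle_eq_same, Pi.mulSingle_eq_of_ne h, mul_one]

theorem pr2_j (x : Q) {i j : ι} (h : i ≠ j) : pr2 x i j j = x⁻¹ := by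
  unfold pr2
  rw [Pi.mul_apply, Pi.mulSingle_eq_same, Pi.mulSingle_eq_of_ne h.symm, one_mul]

theorem pr2_k (x : Q) {i j k : ι} (hi : k ≠ i) (hj : k ≠ j) : pr2 x i j k = 1 := by
  unfold pr2
  rw [Pi.mul_apply, Pi.mulSingle_eq_of_ne hi, Pi.mulSingle_eq_of_ne hj, mul_one]

theorem zv_pair {z : Q} (hz : z * z = 1) {i j : ι} (h : i ≠ j) :
    zv z (Pi.single i 1 + Pi.single j 1) = pr2 z i j := by
  have h01 : (1 : ZMod 2) ≠ 0 := by decide
  funext k
  unfold zv
  rw [Pi.add_apply]
  by_cases hi : k = i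
  · subst hi
    rw [Pi.single_eq_same, Pi.single_eq_of_ne h, add_zero, if_neg h01, pr2_i z h]
  · by_cases hj : k = j
    · subst hj
      rw [Pi.single_eq_same, Pi.single_eq_of_ne hi, zero_add, if_neg h01, pr2_j z h,
        inv_eq_of_mul_eq_one_left hz]
    · rw [Pi.single_eq_of_ne hi, Pi.single_eq_of_ne hj, add_zero, if_pos rfl, pr2_k z hi hj]

theorem pr2_sq {x z : Q} (hx : x * x = z) {i j : ι} (h : i ≠ j) :
    pr2 x i j * pr2 x i j = pr2 z i j := by
  funext k
  rw [Pi.mul_apply]
  by_cases hi : k = i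
  · subst hi
    rw [pr2_i x h, pr2_i z h, hx]
  · by_cases hj : k = j
    · subst hj
      rw [pr2_j x h, pr2_j z h, ← _root_.mul_inv_rev, hx]
    · rw [pr2_k x hi hj, pr2_k z hi hj, mul_one]

theorem pr2_conj {x y : Q} (hyx : y * x * y⁻¹ = x⁻¹) {i j : ι} (h : i ≠ j) :
    pr2 y i j * pr2 x i j * (pr2 y i j)⁻¹ = (pr2 x i j)⁻¹ := by
  funext k
  rw [Pi.mul_apply, Pi.mul_apply, Pi.inv_apply, Pi.inv_apply]
  by_cases hi : k = i
  · subst hi
    rw [pr2_i x h, pr2_i y h, hyx]
  · by_cases hj : k = j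
    · subst hj
      rw [pr2_j x h, pr2_j y h, inv_inv, inv_inv, ← hyx]
      group
    · rw [pr2_k x hi hj, pr2_k y hi hj]
      simp

theorem zv_comm {z : Q} (hz : ∀ q : Q, z * q = q * z) (v : ι → ZMod 2) (g : ι → Q) :
    g * zv z v = zv z v * g := by
  funext k
  rw [Pi.mul_apply, Pi.mul_apply]
  unfold zv
  split_ifs
  · rw [mul_one, one_mul]
  · exact (hz _).symm

end zv

variable {E : Type} [NormedAddCommGroup E] [NormedSpace ℝ E] [FiniteDimensional ℝ E]
  {M : Type} [TopologicalSpace M] [ChartedSpace E M] [IsManifold 𝓘(ℝ, E) ∞ M]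
  {n : ℕ} {O : Type} [Ring O] {Γ : Subgroup (Matrix (Fin n) (Fin n) O)ˣ}

/-- **Even sign changes act trivially.** -/
theorem even_trivial [CompactSpace M] [T2Space M] [ConnectedSpace M]
    (hM : Mod2Sphere M (finrank ℝ E)) (hm : 0 < finrank ℝ E) (hn : 3 ≤ n)
    {Q : Type} [Group Q] [Finite Q] {z : Q} {δ : ℕ} (hz : QType Q z δ) (u : Q →* O)
    (huz : u z = -1) (hE : EN n O ≤ Γ) {a : Γ → M → M} (ha : SmoothAction E a)
    (hlt : finrank ℝ E + 1 < δ * cnt n) (i j : Fin n) :
    dd u (zv z (Pi.single i 1 + Pi.single j 1)) ∈ kN ha := by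
  classical
  have hzz := hz.sq
  let P : Subgroup (Matrix (Fin n) (Fin n) O)ˣ := mono u ⊓ Γ
  have hPfin : Finite P :=
    Finite.of_injective (Subgroup.inclusion (inf_le_left : P ≤ mono u))
      (Subgroup.inclusion_injective _)
  have hpr : ∀ (x : Q) (i j : Fin n), i ≠ j → dd u (pr2 x i j) ∈ P := fun x i j h =>
    ⟨dd_mem u _, hE (diag_mem u x h)⟩
  have hymem : ∀ p : Fin n × Fin n, dd u (zv z (Pi.single p.1 1 + Pi.single p.2 1)) ∈ P := by
    rintro ⟨i, j⟩
    by_cases h : i = j
    · subst h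
      rw [v2_add_self, zv_zero, map_one]
      exact P.one_mem
    · rw [zv_pair hzz h]
      exact hpr z i j h
  let y : Fin n × Fin n → P := fun p =>
    ⟨dd u (zv z (Pi.single p.1 1 + Pi.single p.2 1)), hymem p⟩
  have hdd : ∀ v w : Fin n → ZMod 2, dd u (zv z v) * dd u (zv z w) = dd u (zv z (v + w)) := by
    intro v w
    rw [← map_mul, zv_add hzz]
  have hy : ∀ p, y p * y p = 1 := fun p => Subtype.ext (by
    change dd u _ * dd u _ = 1
    rw [hdd, v2_add_self, zv_zero, map_one])
  have hc : ∀ p q, y p * y q = y q * y p := fun p q => Subtype.ext (by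
    change dd u _ * dd u _ = dd u _ * dd u _
    rw [hdd, hdd, add_comm])
  let φ := mkφ y hy hc
  have hφ : ∀ p, φ (Multiplicative.ofAdd (Pi.single p 1)) = y p := mkφ_single y hy hc
  -- elements which commute with the sign changes
  have hcent : ∀ X : P, (∀ p, X * y p = y p * X) → ∀ q ∈ Set.range φ, X * q = q * X := by
    rintro X hX _ ⟨v, rfl⟩
    have h1 := hom_ext_single ((MulAut.conj X).toMonoidHom.comp φ) φ (by
      intro p
      change X * φ (Multiplicative.ofAdd (Pi.single p 1)) * X⁻¹ = _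
      rw [hφ, hX, mul_inv_cancel_right]) v.toAdd
    have h2 : X * φ v * X⁻¹ = φ v := h1
    rw [mul_inv_eq_iff_eq_mul] at h2
    exact h2
  have hprc : ∀ (x : Q) (i j : Fin n) (h : i ≠ j), ∀ q ∈ Set.range φ,
      (⟨dd u (pr2 x i j), hpr x i j h⟩ : P) * q = q * ⟨dd u (pr2 x i j), hpr x i j h⟩ :=
    fun x i j h => hcent _ (fun p => Subtype.ext (by
      change dd u _ * dd u _ = dd u _ * dd u _
      rw [← map_mul, ← map_mul, zv_comm hz.central]))
  have hLB : ∀ p, LB (φ (Multiplicative.ofAdd (Pi.single p 1))) (Set.range φ) δ := by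
    rintro ⟨i, j⟩
    rw [hφ]
    by_cases h : i = j
    · subst h
      have h1 : y (i, i) = 1 := Subtype.ext (by
        change dd u (zv z (Pi.single i 1 + Pi.single i 1)) = 1
        rw [v2_add_self, zv_zero, map_one])
      rw [h1]
      rcases hz.typ with h2 | ⟨h2, -⟩ | ⟨h2, -⟩
      · exact Or.inl h2
      · exact Or.inr (Or.inl ⟨h2, 1, one_mul 1, fun q _ => by rw [one_mul, mul_one]⟩)
      · exact Or.inr (Or.inr ⟨h2, 1, 1, one_mul 1, one_mul 1, by simp,
          fun q _ => by rw [one_mul, mul_one], fun q _ => by rw [one_mul, mul_one]⟩)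
    · have h1 : y (i, j) = ⟨dd u (pr2 z i j), hpr z i j h⟩ := Subtype.ext (by
        change dd u (zv z (Pi.single i 1 + Pi.single j 1)) = dd u (pr2 z i j)
        rw [zv_pair hzz h])
      rw [h1]
      rcases hz.typ with h2 | ⟨h2, x, hx⟩ | ⟨h2, x, x', hx, hx', hxx⟩
      · exact Or.inl h2
      · refine Or.inr (Or.inl ⟨h2, ⟨dd u (pr2 x i j), hpr x i j h⟩, Subtype.ext ?_,
          hprc x i j h⟩)
        change dd u _ * dd u _ = dd u _
        rw [← map_mul, pr2_sq hx h]
      · refine Or.inr (Or.inr ⟨h2, ⟨dd u (pr2 x i j), hpr x i j h⟩,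
          ⟨dd u (pr2 x' i j), hpr x' i j h⟩, Subtype.ext ?_, Subtype.ext ?_, Subtype.ext ?_,
          hprc x i j h, hprc x' i j h⟩)
        · change dd u _ * dd u _ = dd u _
          rw [← map_mul, pr2_sq hx h]
        · change dd u _ * dd u _ = dd u _
          rw [← map_mul, pr2_sq hx' h]
        · change dd u _ * dd u _ * (dd u _)⁻¹ = (dd u _)⁻¹
          rw [← map_inv, ← map_inv, ← map_mul, ← map_mul, pr2_conj hxx h]
  have hadd : ∀ i j k : Fin n, φ (Multiplicative.ofAdd (Pi.single (i, j) 1)) *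
      φ (Multiplicative.ofAdd (Pi.single (j, k) 1)) =
        φ (Multiplicative.ofAdd (Pi.single (i, k) 1)) := by
    intro i j k
    rw [hφ, hφ, hφ]
    apply Subtype.ext
    change dd u (zv z (Pi.single i 1 + Pi.single j 1)) *
      dd u (zv z (Pi.single j 1 + Pi.single k 1)) = dd u (zv z (Pi.single i 1 + Pi.single k 1))
    rw [hdd]
    have h1 : (Pi.single i 1 + Pi.single j 1 + (Pi.single j 1 + Pi.single k 1) : Fin n → ZMod 2) =
        Pi.single i 1 + Pi.single k 1 + (Pi.single j 1 + Pi.single j 1) := by abel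
    rw [h1, v2_add_self, add_zero]
  have hx : ∀ k l : Fin n, k ≠ l → ∃ x : P, ∀ v : Fin n × Fin n → ZMod 2,
      x * φ (Multiplicative.ofAdd v) * x⁻¹ =
        φ (Multiplicative.ofAdd (fun p => v (Equiv.swap k l p.1, Equiv.swap k l p.2))) := by
    intro k l hkl
    let X : P := ⟨dd u (Pi.mulSingle l z) * pm (Equiv.swap k l),
      mul_mem (dd_mem u _) (pm_mem u _), hE (sgn_mem u huz hkl)⟩
    let L : (Fin n × Fin n → ZMod 2) →+ (Fin n × Fin n → ZMod 2) :=
      { toFun := fun v p => v (Equiv.swap k l p.1, Equiv.swap k l p.2)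
        map_zero' := rfl
        map_add' := fun _ _ => rfl }
    refine ⟨X, fun v => ?_⟩
    have h1 := hom_ext_single ((MulAut.conj X).toMonoidHom.comp φ)
      (φ.comp (AddMonoidHom.toMultiplicative L)) (by
        rintro ⟨i, j⟩
        change X * φ (Multiplicative.ofAdd (Pi.single (i, j) 1)) * X⁻¹ =
          φ (Multiplicative.ofAdd (L (Pi.single (i, j) 1)))
        have hsw : ∀ a : Fin n, (fun b => (Pi.single a 1 : Fin n → ZMod 2) (Equiv.swap k l b)) =
            Pi.single (Equiv.swap k l a) 1 := by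
          intro a
          funext b
          by_cases hb : b = Equiv.swap k l a
          · rw [hb, Equiv.swap_apply_self, Pi.single_eq_same, Pi.single_eq_same]
          · have hb' : Equiv.swap k l b ≠ a := fun h => hb (by rw [← h, Equiv.swap_apply_self])
            rw [Pi.single_eq_of_ne hb', Pi.single_eq_of_ne hb]
        have hL : L (Pi.single (i, j) 1) = Pi.single (Equiv.swap k l i, Equiv.swap k l j) 1 := by
          funext p
          change (Pi.single (i, j) 1 : Fin n × Fin n → ZMod 2)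
            (Equiv.swap k l p.1, Equiv.swap k l p.2) = _
          by_cases hp : p = (Equiv.swap k l i, Equiv.swap k l j)
          · rw [hp, Equiv.swap_apply_self, Equiv.swap_apply_self, Pi.single_eq_same,
              Pi.single_eq_same]
          · have hp' : (Equiv.swap k l p.1, Equiv.swap k l p.2) ≠ (i, j) := by
              intro h
              apply hp
              have h3 := congrArg Prod.fst h
              have h4 := congrArg Prod.snd h
              change Equiv.swap k l p.1 = i at h3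
              change Equiv.swap k l p.2 = j at h4
              rw [← h3, ← h4, Equiv.swap_apply_self, Equiv.swap_apply_self]
            rw [Pi.single_eq_of_ne hp', Pi.single_eq_of_ne hp]
        rw [hL, hφ, hφ]
        apply Subtype.ext
        change dd u (Pi.mulSingle l z) * pm (Equiv.swap k l) *
          dd u (zv z (Pi.single i 1 + Pi.single j 1)) *
          (dd u (Pi.mulSingle l z) * pm (Equiv.swap k l))⁻¹ =
          dd u (zv z (Pi.single (Equiv.swap k l i) 1 + Pi.single (Equiv.swap k l j) 1))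
        have h2 : (fun b => zv z (Pi.single i 1 + Pi.single j 1 : Fin n → ZMod 2)
            ((Equiv.swap k l)⁻¹ b)) =
            zv z (Pi.single (Equiv.swap k l i) 1 + Pi.single (Equiv.swap k l j) 1) := by
          rw [← hsw i, ← hsw j, Equiv.swap_inv]
          rfl
        rw [mul_assoc (dd u (Pi.mulSingle l z)), pm_dd, h2, _root_.mul_inv_rev]
        have h3 : dd u (Pi.mulSingle l z) *
            dd u (zv z (Pi.single (Equiv.swap k l i) 1 + Pi.single (Equiv.swap k l j) 1)) =
            dd u (zv z (Pi.single (Equiv.swap k l i) 1 + Pi.single (Equiv.swap k l j) 1)) *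
              dd u (Pi.mulSingle l z) := by
          rw [← map_mul, ← map_mul, zv_comm hz.central]
        have h4 : ∀ A B C : (Matrix (Fin n) (Fin n) O)ˣ,
            A * (B * C) * (C⁻¹ * A⁻¹) = A * B * A⁻¹ := by
          intro A B C
          group
        rw [h4, h3, mul_inv_cancel_right])
      v
    exact h1
  have h1 := mono_pairs hM hm (ha.comp (Subgroup.inclusion (inf_le_right : P ≤ Γ))) hn φ hLB
    hadd hx hlt (Pi.single (i, j) 1)
  rw [hφ] at h1
  rw [mem_kN]
  exact ⟨(hymem (i, j)).2, h1⟩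

/-- the ideal of the kernel contains `2` -/
theorem two_mem_of_even (hn : 3 ≤ n) {N : Subgroup (Matrix (Fin n) (Fin n) O)ˣ} (hN : Pool.Agent.N287.NC.ENorm N)
    {Q : Type} [Group Q] {z : Q} (hzz : z * z = 1) (u : Q →* O) (huz : u z = -1) {i j : Fin n}
    (hij : i ≠ j) (h : dd u (zv z (Pi.single i 1 + Pi.single j 1)) ∈ N) : (2 : O) ∈ idl N := by
  classical
  obtain ⟨k, hki, hkj⟩ := third hn i j
  have h1 := diag_mem_idl hN hn (Ne.symm hki) h _ (dd_coe u _) 1 (-1) (by
    rw [zv_pair hzz hij, pr2_i z hij, pr2_k z hki hkj, huz, map_one])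
  have h2 := AddSubgroup.neg_mem _ h1
  have h3 : -((-1 : O) - 1) = 2 := by norm_num
  rwa [h3] at h2

end Pool.Agent.V7H7.SZ
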