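import Pool.Agent.V7H7.SZ.Wf
import Pool.Agent.V7H7.SZ.Ele

/-! Monomial subgroups of `(SU(6) × SU(2)) / ±1` acting on mod 2 homology spheres. -/

set_option autoImplicit false
set_option linter.unusedSectionVars false

namespace Pool.Agent.V7H7.SZ

open scoped Manifold ContDiff
open Module Matrix Pool.Agent.Helper381 Pool.Agent.H185.ZM Pool.Agent.N287.NC

section count

/-- the character given by a vector -/
def chr (d : Fin 6 → ZMod 2) : Fin 6 × Fin 6 → ZMod 2 := fun p => d p.1 + d p.2

/-- the vector with two entries `1` -/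
def pr6 (a b : Fin 6) : Fin 6 → ZMod 2 := fun i => (if i = a then 1 else 0) + if i = b then 1 else 0

theorem even_cases : ∀ d : Fin 6 → ZMod 2, d 0 + d 1 + (d 2 + d 3) + (d 4 + d 5) = 0 →
    (∀ i j, d i = d j) ∨ ∃ a b : Fin 6, a ≠ b ∧ ∀ i j, d i + d j = pr6 a b i + pr6 a b j := by
  decide +kernel

theorem e2_inj : ∀ a b a' b' : Fin 6, a < b → a' < b' →
    (∀ i j, pr6 a b i + pr6 a b j = pr6 a' b' i + pr6 a' b' j) → a = a' ∧ b = b' := by
  decide +kernel

theorem e2_swap (k l a b i : Fin 6) :
    pr6 a b (Equiv.swap k l i) = pr6 (Equiv.swap k l a) (Equiv.swap k l b) i := by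
  unfold pr6
  have h : ∀ a : Fin 6, Equiv.swap k l i = a ↔ i = Equiv.swap k l a := by
    intro a
    constructor
    · rintro rfl
      rw [Equiv.swap_apply_self]
    · rintro rfl
      rw [Equiv.swap_apply_self]
  rw [if_congr (h a) rfl rfl, if_congr (h b) rfl rfl]

theorem card_lt_pairs : (Finset.univ.filter fun p : Fin 6 × Fin 6 => p.1 < p.2).card = 15 := by
  decide

theorem exists_filter {α : Type} [Fintype α] (p : α → Prop) :
    ∃ T : Finset α, ∀ c, c ∈ T ↔ p c := by
  classical
  exact ⟨Finset.univ.filter p, fun c => by simp⟩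

theorem count_six (f : (Fin 6 × Fin 6 → ZMod 2) → ℕ) (hsum : ∑ c, f c < 24)
    (hsw : ∀ k l : Fin 6, k ≠ l → ∀ c,
      f (fun p : Fin 6 × Fin 6 => c (Equiv.swap k l p.1, Equiv.swap k l p.2)) = f c)
    (hadd : ∀ c, f c ≠ 0 → ∀ i j k, c (i, j) + c (j, k) = c (i, k))
    (h2 : ∀ c, f c ≠ 0 → c ≠ 0 → 2 ≤ f c)
    (h4 : ∀ c, f c ≠ 0 → c (0, 1) + c (2, 3) + c (4, 5) = 1 → 4 ≤ f c)
    (c : Fin 6 × Fin 6 → ZMod 2) (hc : f c ≠ 0) : c = 0 := by
  classical
  by_contra hc0
  have hself : ∀ c, f c ≠ 0 → ∀ i, c (i, i) = 0 := by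
    intro c hc i
    have h1 := hadd c hc i i i
    have h2 : c (i, i) + c (i, i) = 0 := CharTwo.add_self_eq_zero _
    rw [← h1, h2]
  have hcc : ∀ c, f c ≠ 0 → ∀ i j, c (i, j) = c (i, 0) + c (j, 0) := by
    intro c hc i j
    have h1 := hadd c hc j 0 j
    rw [hself c hc] at h1
    have h2 : c (0, j) = c (j, 0) := by
      have h3 : c (j, 0) + c (0, j) = c (j, 0) + c (j, 0) := by
        rw [h1, CharTwo.add_self_eq_zero]
      exact add_left_cancel h3
    rw [← hadd c hc i 0 j, h2]
  have hsw' : ∀ (k l : Fin 6) (c : Fin 6 × Fin 6 → ZMod 2),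
      f (fun p : Fin 6 × Fin 6 => c (Equiv.swap k l p.1, Equiv.swap k l p.2)) = f c := by
    intro k l c
    by_cases h : k = l
    · subst h
      congr 1
      funext p
      rw [Equiv.swap_self]
      rfl
    · exact hsw k l h c
  rcases v2_cases (c (0, 1) + c (2, 3) + c (4, 5)) with h1 | h1
  · -- even characters
    have hd := even_cases (fun i => c (i, 0)) (by
      rw [hcc c hc 0 1, hcc c hc 2 3, hcc c hc 4 5] at h1
      exact h1)
    rcases hd with hd | ⟨a, b, hab, hd⟩
    · apply hc0
      funext p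
      rw [show c p = c (p.1, p.2) from rfl, hcc c hc, show c (p.1, 0) = c (p.2, 0) from hd _ _,
        CharTwo.add_self_eq_zero]
      rfl
    · have hc1 : c = chr (pr6 a b) := by
        funext p
        rw [show c p = c (p.1, p.2) from rfl, hcc c hc]
        exact hd _ _
      have hG : ∀ (k l a b : Fin 6), f (chr (pr6 (Equiv.swap k l a) (Equiv.swap k l b))) =
          f (chr (pr6 a b)) := by
        intro k l a b
        rw [← hsw' k l (chr (pr6 a b))]
        congr 1
        funext p
        change _ = pr6 a b (Equiv.swap k l p.1) + pr6 a b (Equiv.swap k l p.2)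
        rw [e2_swap, e2_swap]
        rfl
      have hall : ∀ a' b' : Fin 6, a' ≠ b' → f (chr (pr6 a' b')) = f (chr (pr6 a b)) := by
        intro a' b' hab'
        have e1 := hG a a' a b
        rw [Equiv.swap_apply_left] at e1
        have e2' := hG (Equiv.swap a a' b) b' a' (Equiv.swap a a' b)
        have e3 : a' ≠ Equiv.swap a a' b := by
          intro h
          apply hab
          have h5 := congrArg (Equiv.swap a a') h
          rw [Equiv.swap_apply_right, Equiv.swap_apply_self] at h5
          exact h5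
        rw [Equiv.swap_apply_left, Equiv.swap_apply_of_ne_of_ne e3 hab'] at e2'
        rw [e2', e1]
      have hinj : Set.InjOn (fun p : Fin 6 × Fin 6 => chr (pr6 p.1 p.2))
          (Finset.univ.filter fun p : Fin 6 × Fin 6 => p.1 < p.2 : Finset (Fin 6 × Fin 6)) := by
        rintro ⟨a1, b1⟩ hp ⟨a3, b3⟩ hq h
        have h5 := e2_inj a1 b1 a3 b3 (Finset.mem_filter.1 hp).2 (Finset.mem_filter.1 hq).2
          (fun i j => congrFun h (i, j))
        rw [h5.1, h5.2]
      have h5 : ∑ p ∈ (Finset.univ.filter fun p : Fin 6 × Fin 6 => p.1 < p.2),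
          f (chr (pr6 p.1 p.2)) ≤ ∑ c, f c := by
        rw [← Finset.sum_image (f := f) hinj]
        exact Finset.sum_le_sum_of_subset (Finset.subset_univ _)
      have h6 : ∑ p ∈ (Finset.univ.filter fun p : Fin 6 × Fin 6 => p.1 < p.2),
          f (chr (pr6 p.1 p.2)) = 15 * f c := by
        rw [← card_lt_pairs, ← smul_eq_mul, ← Finset.sum_const]
        refine Finset.sum_congr rfl fun p hp => ?_
        rw [hall _ _ (ne_of_lt (Finset.mem_filter.1 hp).2), hc1]
      have h7 := h2 c hc hc0
      omega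
  · -- odd characters
    obtain ⟨T, hTm⟩ := exists_filter (fun c : Fin 6 × Fin 6 → ZMod 2 =>
      f c ≠ 0 ∧ c (0, 1) + c (2, 3) + c (4, 5) = 1)
    have hpar : ∀ (k l : Fin 6) (d : Fin 6 → ZMod 2), d (Equiv.swap k l 0) +
        d (Equiv.swap k l 1) + (d (Equiv.swap k l 2) + d (Equiv.swap k l 3)) +
        (d (Equiv.swap k l 4) + d (Equiv.swap k l 5)) =
        d 0 + d 1 + (d 2 + d 3) + (d 4 + d 5) := by
      intro k l d
      have h6 : ∀ g : Fin 6 → ZMod 2, g 0 + g 1 + (g 2 + g 3) + (g 4 + g 5) = ∑ i, g i := by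
        intro g
        rw [Fin.sum_univ_six]
        ring
      rw [h6, ← Equiv.sum_comp (Equiv.swap k l) d, ← h6]
    have hst : ∀ k l : Fin 6, k ≠ l → ∀ c ∈ T,
        (fun p : Fin 6 × Fin 6 => c (Equiv.swap k l p.1, Equiv.swap k l p.2)) ∈ T := by
      intro k l hkl c hc
      rw [hTm] at hc ⊢
      refine ⟨by rw [hsw k l hkl]; exact hc.1, ?_⟩
      have h5 := hc.2
      rw [hcc c hc.1 0 1, hcc c hc.1 2 3, hcc c hc.1 4 5] at h5
      have h6 := (hpar k l (fun i => c (i, 0))).trans h5
      have e1 := hcc c hc.1 (Equiv.swap k l 0) (Equiv.swap k l 1)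
      have e2 := hcc c hc.1 (Equiv.swap k l 2) (Equiv.swap k l 3)
      have e3 := hcc c hc.1 (Equiv.swap k l 4) (Equiv.swap k l 5)
      show c (Equiv.swap k l 0, Equiv.swap k l 1) + c (Equiv.swap k l 2, Equiv.swap k l 3) +
        c (Equiv.swap k l 4, Equiv.swap k l 5) = 1
      rw [e1, e2, e3]
      exact h6
    have hT := count_pairs (n := 6) (by norm_num) (by norm_num) T hst ((hTm c).2 ⟨hc, h1⟩)
      (hadd c hc) hc0
    have h5 : ∑ c ∈ T, f c ≤ ∑ c, f c := Finset.sum_le_sum_of_subset (Finset.subset_univ _)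
    have h6 : T.card * 4 ≤ ∑ c ∈ T, f c := by
      rw [← smul_eq_mul]
      refine Finset.card_nsmul_le_sum T f 4 fun c hc => ?_
      rw [hTm] at hc
      exact h4 c hc.1 hc.2
    omega

end count

section phi

variable {O : Type} [Ring O] {n : ℕ}

/-- the even sign changes in the group of monomial matrices in `E_n(O)` -/
theorem exists_phi {Q : Type} [Group Q] [Finite Q] {z x₀ : Q} (hzz : z * z = 1)
    (hzc : ∀ q : Q, z * q = q * z) (hx₀ : x₀ * x₀ = z) (u : Q →* O) (huz : u z = -1) :
    ∃ φ : Multiplicative (Fin n × Fin n → ZMod 2) →* (mono u ⊓ EN n O : Subgroup _),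
      (∀ i j, ((φ (Multiplicative.ofAdd (Pi.single (i, j) 1)) : (mono u ⊓ EN n O : Subgroup _)) :
        (Matrix (Fin n) (Fin n) O)ˣ) = dd u (zv z (Pi.single i 1 + Pi.single j 1))) ∧
      (∀ p, ∃ x, x * x = φ (Multiplicative.ofAdd (Pi.single p 1)) ∧
        ∀ q ∈ Set.range φ, x * q = q * x) ∧
      (∀ i j k : Fin n, φ (Multiplicative.ofAdd (Pi.single (i, j) 1)) *
        φ (Multiplicative.ofAdd (Pi.single (j, k) 1)) =
          φ (Multiplicative.ofAdd (Pi.single (i, k) 1))) ∧
      ∀ k l : Fin n, k ≠ l → ∃ x, ∀ v : Fin n × Fin n → ZMod 2,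
        x * φ (Multiplicative.ofAdd v) * x⁻¹ =
          φ (Multiplicative.ofAdd (fun p => v (Equiv.swap k l p.1, Equiv.swap k l p.2))) := by
  classical
  let P : Subgroup (Matrix (Fin n) (Fin n) O)ˣ := mono u ⊓ EN n O
  have hPfin : Finite P :=
    Finite.of_injective (Subgroup.inclusion (inf_le_left : P ≤ mono u))
      (Subgroup.inclusion_injective _)
  have hpr : ∀ (x : Q) (i j : Fin n), i ≠ j → dd u (pr2 x i j) ∈ P := fun x i j h =>
    ⟨dd_mem u _, diag_mem u x h⟩
  have hymem : ∀ p : Fin n × Fin n, dd u (zv z (Pi.single p.1 1 + Pi.single p.2 1)) ∈ P := by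
    rintro ⟨i, j⟩
    by_cases h : i = j
    · subst h
      rw [v2_add_self, zv_zero, map_one]
      exact P.one_mem
    · rw [zv_pair hzz h]
      exact hpr z i j h
  let y : Fin n × Fin n → P := fun p =>
    ⟨dd u (zv z (Pi.single p.1 1 + Pi.single p.2 1)), hymem p⟩
  have hdd : ∀ v w : Fin n → ZMod 2, dd u (zv z v) * dd u (zv z w) = dd u (zv z (v + w)) := by
    intro v w
    rw [← map_mul, zv_add hzz]
  have hy : ∀ p, y p * y p = 1 := fun p => Subtype.ext (by
    change dd u _ * dd u _ = 1
    rw [hdd, v2_add_self, zv_zero, map_one])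
  have hc : ∀ p q, y p * y q = y q * y p := fun p q => Subtype.ext (by
    change dd u _ * dd u _ = dd u _ * dd u _
    rw [hdd, hdd, add_comm])
  let φ := mkφ y hy hc
  have hφ : ∀ p, φ (Multiplicative.ofAdd (Pi.single p 1)) = y p := mkφ_single y hy hc
  -- elements which commute with the sign changes
  have hcent : ∀ X : P, (∀ p, X * y p = y p * X) → ∀ q ∈ Set.range φ, X * q = q * X := by
    rintro X hX _ ⟨v, rfl⟩
    have h1 := hom_ext_single ((MulAut.conj X).toMonoidHom.comp φ) φ (by
      intro p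
      change X * φ (Multiplicative.ofAdd (Pi.single p 1)) * X⁻¹ = _
      rw [hφ, hX, mul_inv_cancel_right]) v.toAdd
    have h2 : X * φ v * X⁻¹ = φ v := h1
    rw [mul_inv_eq_iff_eq_mul] at h2
    exact h2
  have hprc : ∀ (x : Q) (i j : Fin n) (h : i ≠ j), ∀ q ∈ Set.range φ,
      (⟨dd u (pr2 x i j), hpr x i j h⟩ : P) * q = q * ⟨dd u (pr2 x i j), hpr x i j h⟩ :=
    fun x i j h => hcent _ (fun p => Subtype.ext (by
      change dd u _ * dd u _ = dd u _ * dd u _
      rw [← map_mul, ← map_mul, zv_comm hzc]))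
  have hsq : ∀ p, ∃ x : P, x * x = φ (Multiplicative.ofAdd (Pi.single p 1)) ∧
      ∀ q ∈ Set.range φ, x * q = q * x := by
    rintro ⟨i, j⟩
    rw [hφ]
    by_cases h : i = j
    · subst h
      have h1 : y (i, i) = 1 := Subtype.ext (by
        change dd u (zv z (Pi.single i 1 + Pi.single i 1)) = 1
        rw [v2_add_self, zv_zero, map_one])
      rw [h1]
      exact ⟨1, one_mul 1, fun q _ => by rw [one_mul, mul_one]⟩
    · have h1 : y (i, j) = ⟨dd u (pr2 z i j), hpr z i j h⟩ := Subtype.ext (by
        change dd u (zv z (Pi.single i 1 + Pi.single j 1)) = dd u (pr2 z i j)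
        rw [zv_pair hzz h])
      rw [h1]
      refine ⟨⟨dd u (pr2 x₀ i j), hpr x₀ i j h⟩, Subtype.ext ?_, hprc x₀ i j h⟩
      change dd u _ * dd u _ = dd u _
      rw [← map_mul, pr2_sq hx₀ h]
  have hadd : ∀ i j k : Fin n, φ (Multiplicative.ofAdd (Pi.single (i, j) 1)) *
      φ (Multiplicative.ofAdd (Pi.single (j, k) 1)) =
        φ (Multiplicative.ofAdd (Pi.single (i, k) 1)) := by
    intro i j k
    rw [hφ, hφ, hφ]
    apply Subtype.ext
    change dd u (zv z (Pi.single i 1 + Pi.single j 1)) *
      dd u (zv z (Pi.single j 1 + Pi.single k 1)) = dd u (zv z (Pi.single i 1 + Pi.single k 1))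
    rw [hdd]
    have h1 : (Pi.single i 1 + Pi.single j 1 + (Pi.single j 1 + Pi.single k 1) : Fin n → ZMod 2) =
        Pi.single i 1 + Pi.single k 1 + (Pi.single j 1 + Pi.single j 1) := by abel
    rw [h1, v2_add_self, add_zero]
  have hx : ∀ k l : Fin n, k ≠ l → ∃ x : P, ∀ v : Fin n × Fin n → ZMod 2,
      x * φ (Multiplicative.ofAdd v) * x⁻¹ =
        φ (Multiplicative.ofAdd (fun p => v (Equiv.swap k l p.1, Equiv.swap k l p.2))) := by
    intro k l hkl
    let X : P := ⟨dd u (Pi.mulSingle l z) * pm (Equiv.swap k l),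
      mul_mem (dd_mem u _) (pm_mem u _), sgn_mem u huz hkl⟩
    let L : (Fin n × Fin n → ZMod 2) →+ (Fin n × Fin n → ZMod 2) :=
      { toFun := fun v p => v (Equiv.swap k l p.1, Equiv.swap k l p.2)
        map_zero' := rfl
        map_add' := fun _ _ => rfl }
    refine ⟨X, fun v => ?_⟩
    have h1 := hom_ext_single ((MulAut.conj X).toMonoidHom.comp φ)
      (φ.comp (AddMonoidHom.toMultiplicative L)) (by
        rintro ⟨i, j⟩
        change X * φ (Multiplicative.ofAdd (Pi.single (i, j) 1)) * X⁻¹ =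
          φ (Multiplicative.ofAdd (L (Pi.single (i, j) 1)))
        have hsw : ∀ a : Fin n, (fun b => (Pi.single a 1 : Fin n → ZMod 2) (Equiv.swap k l b)) =
            Pi.single (Equiv.swap k l a) 1 := by
          intro a
          funext b
          by_cases hb : b = Equiv.swap k l a
          · rw [hb, Equiv.swap_apply_self, Pi.single_eq_same, Pi.single_eq_same]
          · have hb' : Equiv.swap k l b ≠ a := fun h => hb (by rw [← h, Equiv.swap_apply_self])
            rw [Pi.single_eq_of_ne hb', Pi.single_eq_of_ne hb]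
        have hL : L (Pi.single (i, j) 1) = Pi.single (Equiv.swap k l i, Equiv.swap k l j) 1 := by
          funext p
          change (Pi.single (i, j) 1 : Fin n × Fin n → ZMod 2)
            (Equiv.swap k l p.1, Equiv.swap k l p.2) = _
          by_cases hp : p = (Equiv.swap k l i, Equiv.swap k l j)
          · rw [hp, Equiv.swap_apply_self, Equiv.swap_apply_self, Pi.single_eq_same,
              Pi.single_eq_same]
          · have hp' : (Equiv.swap k l p.1, Equiv.swap k l p.2) ≠ (i, j) := by
              intro h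
              apply hp
              have h3 := congrArg Prod.fst h
              have h4 := congrArg Prod.snd h
              change Equiv.swap k l p.1 = i at h3
              change Equiv.swap k l p.2 = j at h4
              rw [← h3, ← h4, Equiv.swap_apply_self, Equiv.swap_apply_self]
            rw [Pi.single_eq_of_ne hp', Pi.single_eq_of_ne hp]
        rw [hL, hφ, hφ]
        apply Subtype.ext
        change dd u (Pi.mulSingle l z) * pm (Equiv.swap k l) *
          dd u (zv z (Pi.single i 1 + Pi.single j 1)) *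
          (dd u (Pi.mulSingle l z) * pm (Equiv.swap k l))⁻¹ =
          dd u (zv z (Pi.single (Equiv.swap k l i) 1 + Pi.single (Equiv.swap k l j) 1))
        have h2 : (fun b => zv z (Pi.single i 1 + Pi.single j 1 : Fin n → ZMod 2)
            ((Equiv.swap k l)⁻¹ b)) =
            zv z (Pi.single (Equiv.swap k l i) 1 + Pi.single (Equiv.swap k l j) 1) := by
          rw [← hsw i, ← hsw j, Equiv.swap_inv]
          rfl
        rw [mul_assoc (dd u (Pi.mulSingle l z)), pm_dd, h2, _root_.mul_inv_rev]
        have h3 : dd u (Pi.mulSingle l z) *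
            dd u (zv z (Pi.single (Equiv.swap k l i) 1 + Pi.single (Equiv.swap k l j) 1)) =
            dd u (zv z (Pi.single (Equiv.swap k l i) 1 + Pi.single (Equiv.swap k l j) 1)) *
              dd u (Pi.mulSingle l z) := by
          rw [← map_mul, ← map_mul, zv_comm hzc]
        have h4 : ∀ A B C : (Matrix (Fin n) (Fin n) O)ˣ,
            A * (B * C) * (C⁻¹ * A⁻¹) = A * B * A⁻¹ := by
          intro A B C
          group
        rw [h4, h3, mul_inv_cancel_right])
      v
    exact h1
  exact ⟨φ, fun i j => congrArg Subtype.val (hφ (i, j)), hsq, hadd, hx⟩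

end phi

section main

variable {O : Type} [Ring O] {Q : Type} [Group Q] [Finite Q] {z : Q}

theorem phi_even (hzz : z * z = 1) (u : Q →* O)
    (φ : Multiplicative (Fin 6 × Fin 6 → ZMod 2) →* (mono u ⊓ EN 6 O : Subgroup _))
    (hφ : ∀ i j, ((φ (Multiplicative.ofAdd (Pi.single (i, j) 1)) :
      (mono u ⊓ EN 6 O : Subgroup _)) : (Matrix (Fin 6) (Fin 6) O)ˣ) =
        dd u (zv z (Pi.single i 1 + Pi.single j 1))) (v : Fin 6 → ZMod 2) (hv : ∑ i, v i = 0) :
    ∃ w, ((φ (Multiplicative.ofAdd w) : (mono u ⊓ EN 6 O : Subgroup _)) :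
      (Matrix (Fin 6) (Fin 6) O)ˣ) = dd u (zv z v) := by
  let L : (Fin 6 → ZMod 2) →+ (Fin 6 × Fin 6 → ZMod 2) :=
    { toFun := fun v p => if p.2 = 0 then v p.1 else 0
      map_zero' := by
        funext p
        change (if p.2 = 0 then (0 : ZMod 2) else 0) = 0
        split_ifs <;> rfl
      map_add' := fun v w => by
        funext p
        change (if p.2 = 0 then v p.1 + w p.1 else 0) = (if p.2 = 0 then v p.1 else 0) +
          (if p.2 = 0 then w p.1 else 0)
        split_ifs
        · rfl
        · rw [add_zero] }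
  let K : (Fin 6 → ZMod 2) →+ (Fin 6 → ZMod 2) :=
    { toFun := fun v => v + fun i => if i = 0 then ∑ j, v j else 0
      map_zero' := by
        funext i
        change (0 : ZMod 2) + (if i = 0 then ∑ j : Fin 6, (0 : ZMod 2) else 0) = 0
        split_ifs <;> simp
      map_add' := fun v w => by
        funext i
        change v i + w i + (if i = 0 then ∑ j, (v j + w j) else 0) =
          v i + (if i = 0 then ∑ j, v j else 0) + (w i + if i = 0 then ∑ j, w j else 0)
        split_ifs
        · rw [Finset.sum_add_distrib]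
          ring
        · ring }
  have h1 := hom_ext_single
    (((mono u ⊓ EN 6 O : Subgroup _).subtype.comp φ).comp (AddMonoidHom.toMultiplicative L))
    (((dd u).comp (zvHom (ι := Fin 6) z hzz)).comp (AddMonoidHom.toMultiplicative K)) (by
      intro i
      change ((φ (Multiplicative.ofAdd (L (Pi.single i 1))) : (mono u ⊓ EN 6 O : Subgroup _)) :
        (Matrix (Fin 6) (Fin 6) O)ˣ) = dd u (zv z (K (Pi.single i 1)))
      have e1 : L (Pi.single i 1) = Pi.single (i, 0) 1 := by
        funext p
        change (if p.2 = 0 then (Pi.single i 1 : Fin 6 → ZMod 2) p.1 else 0) = _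
        by_cases h : p = (i, 0)
        · rw [h, Pi.single_eq_same, if_pos rfl, Pi.single_eq_same]
        · rw [Pi.single_eq_of_ne h]
          split_ifs with h2
          · exact Pi.single_eq_of_ne (fun h3 => h (Prod.ext h3 h2)) _
          · rfl
      have e2 : K (Pi.single i 1) = Pi.single i 1 + Pi.single 0 1 := by
        funext j
        change (Pi.single i 1 : Fin 6 → ZMod 2) j +
          (if j = 0 then ∑ k, (Pi.single i 1 : Fin 6 → ZMod 2) k else 0) =
          (Pi.single i 1 : Fin 6 → ZMod 2) j + (Pi.single 0 1 : Fin 6 → ZMod 2) j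
        congr 1
        by_cases h : j = 0
        · rw [h, if_pos rfl, Pi.single_eq_same]
          simp
        · rw [if_neg h, Pi.single_eq_of_ne h]
      rw [e1, e2]
      exact hφ i 0) v
  refine ⟨L v, ?_⟩
  have h2 : K v = v := by
    funext i
    change v i + (if i = 0 then ∑ j, v j else 0) = v i
    rw [hv]
    split_ifs <;> rw [add_zero]
  refine Eq.trans h1 ?_
  change dd u (zv z (K v)) = _
  rw [h2]

variable {E : Type} [NormedAddCommGroup E] [NormedSpace ℝ E] [FiniteDimensional ℝ E]
  {M : Type} [TopologicalSpace M] [ChartedSpace E M] [IsManifold 𝓘(ℝ, E) ∞ M]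

/-- **Monomial subgroups of `(SU(6) × SU(2)) / ±1` acting on spheres of dimension at most 22.** -/
theorem six_trivial [CompactSpace M] [T2Space M] [ConnectedSpace M]
    (hM : Mod2Sphere M (finrank ℝ E)) (hm : 0 < finrank ℝ E) (hlt : finrank ℝ E + 1 < 24)
    {x₀ : Q} (hzz : z * z = 1) (hzc : ∀ q : Q, z * q = q * z) (hx₀ : x₀ * x₀ = z) (u : Q →* O)
    (huz : u z = -1) {Γ : Type} [Group Γ]
    (ψ : (mono u ⊓ EN 6 O : Subgroup _) × QuaternionGroup 2 →* Γ)
    (hψ : ∀ g : (mono u ⊓ EN 6 O : Subgroup _), (g : (Matrix (Fin 6) (Fin 6) O)ˣ) =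
      dd u (fun _ => z) → ψ (g, QuaternionGroup.a 2) = 1)
    {a : Γ → M → M} (ha : SmoothAction E a) (g : (mono u ⊓ EN 6 O : Subgroup _))
    (v : Fin 6 → ZMod 2) (hv : ∑ i, v i = 0)
    (hg : (g : (Matrix (Fin 6) (Fin 6) O)ˣ) = dd u (zv z v)) (x : M) : a (ψ (g, 1)) x = x := by
  classical
  have hfin : Finite (mono u ⊓ EN 6 O : Subgroup _) :=
    Finite.of_injective (Subgroup.inclusion (inf_le_left : mono u ⊓ EN 6 O ≤ mono u))
      (Subgroup.inclusion_injective _)
  obtain ⟨φ, hφ, hsq, hadd, hx⟩ := exists_phi hzz hzc hx₀ u huz (n := 6)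
  obtain ⟨w, hw⟩ := phi_even hzz u φ hφ v hv
  have hQ : Finite (QuaternionGroup 2) := inferInstance
  have hprod : Finite ((mono u ⊓ EN 6 O : Subgroup _) × QuaternionGroup 2) := inferInstance
  have hPfin : Finite ψ.range := Finite.of_surjective ψ.rangeRestrict ψ.rangeRestrict_surjective
  let r : (mono u ⊓ EN 6 O : Subgroup _) × QuaternionGroup 2 →* ψ.range := ψ.rangeRestrict
  let Φ : Multiplicative (Fin 6 × Fin 6 → ZMod 2) →* ψ.range :=
    (r.comp (MonoidHom.inl _ _)).comp φ
  have hΦ : ∀ v, Φ v = r (φ v, 1) := fun v => rfl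
  have hrange : ∀ q ∈ Set.range Φ, ∃ p ∈ Set.range φ, q = r (p, 1) := by
    rintro _ ⟨v, rfl⟩
    exact ⟨φ v, ⟨v, rfl⟩, rfl⟩
  obtain ⟨f, hf1, hf2, hf3, hf4, hf5⟩ := smooth_weights_f hM hm (ha.comp ψ.range.subtype) Φ
  have hfadd : ∀ c, f c ≠ 0 → ∀ i j k, c (i, j) + c (j, k) = c (i, k) := by
    intro c hc i j k
    have h1 := hf3 c hc (Pi.single (i, j) 1 + Pi.single (j, k) 1 + Pi.single (i, k) 1) (by
      rw [hΦ, ofAdd_add, ofAdd_add, map_mul, map_mul, hadd, ← map_mul, ← ofAdd_add]
      have h2 : (Pi.single (i, k) 1 + Pi.single (i, k) 1 : Fin 6 × Fin 6 → ZMod 2) = 0 := by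
        funext p
        exact CharTwo.add_self_eq_zero _
      rw [h2]
      exact map_one Φ)
    rw [dotProduct_add, dotProduct_add, dotProduct_single, dotProduct_single, dotProduct_single,
      mul_one, mul_one, mul_one] at h1
    have h3 : c (i, j) + c (j, k) + c (i, k) = c (i, k) + c (i, k) := by
      rw [h1, CharTwo.add_self_eq_zero]
    exact add_right_cancel h3
  have hzero : ∀ c, f c ≠ 0 → c = 0 := by
    refine count_six f (by omega) ?_ hfadd ?_ ?_
    · intro k l hkl c
      obtain ⟨y, hy⟩ := hx k l hkl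
      let σ : (Fin 6 × Fin 6 → ZMod 2) ≃ (Fin 6 × Fin 6 → ZMod 2) :=
        { toFun := fun v p => v (Equiv.swap k l p.1, Equiv.swap k l p.2)
          invFun := fun v p => v (Equiv.swap k l p.1, Equiv.swap k l p.2)
          left_inv := fun v => by funext p; simp
          right_inv := fun v => by funext p; simp }
      refine hf4 (r (y, 1)) σ ?_ c _ (fun v => Equiv.sum_comp
        ((Equiv.swap k l).prodCongr (Equiv.swap k l)) (fun p => c p * v p))
      intro v
      rw [hΦ, hΦ, ← map_mul, ← map_inv, ← map_mul]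
      congr 1
      refine Prod.ext ?_ ?_
      · exact hy v
      · change (1 : QuaternionGroup 2) * 1 * 1⁻¹ = 1
        simp
    · intro c hc hc0
      obtain ⟨p, hp⟩ : ∃ p, c p = 1 := by
        by_contra hcon
        push Not at hcon
        apply hc0
        funext p
        rcases v2_cases (c p) with h1 | h1
        · exact h1
        · exact absurd h1 (hcon p)
      obtain ⟨y, hy1, hy2⟩ := hsq p
      refine hf5 c (Pi.single p 1) 2 (by rw [dotProduct_single, mul_one, hp])
        (Or.inr (Or.inl ⟨rfl, r (y, 1), ?_, ?_⟩)) hc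
      · rw [hΦ, ← map_mul, ← hy1]
        rfl
      · intro q hq
        obtain ⟨p', hp', rfl⟩ := hrange q hq
        rw [← map_mul, ← map_mul]
        congr 1
        exact Prod.ext (hy2 p' hp') rfl
    · intro c hc hc1
      have hcomm : ∀ (s : QuaternionGroup 2), ∀ q ∈ Set.range Φ, r (1, s) * q = q * r (1, s) := by
        intro s q hq
        obtain ⟨p', hp', rfl⟩ := hrange q hq
        rw [← map_mul, ← map_mul]
        congr 1
        refine Prod.ext ?_ ?_
        · change 1 * p' = p' * 1
          rw [one_mul, mul_one]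
        · change s * 1 = 1 * s
          rw [one_mul, mul_one]
      let W : Fin 6 × Fin 6 → ZMod 2 := Pi.single (0, 1) 1 + Pi.single (2, 3) 1 + Pi.single (4, 5) 1
      have hW : ((φ (Multiplicative.ofAdd W) : (mono u ⊓ EN 6 O : Subgroup _)) :
          (Matrix (Fin 6) (Fin 6) O)ˣ) = dd u (fun _ => z) := by
        change ((φ (Multiplicative.ofAdd (Pi.single (0, 1) 1 + Pi.single (2, 3) 1 +
          Pi.single (4, 5) 1)) : (mono u ⊓ EN 6 O : Subgroup _)) :
          (Matrix (Fin 6) (Fin 6) O)ˣ) = _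
        rw [ofAdd_add, ofAdd_add, map_mul, map_mul, Subgroup.coe_mul, Subgroup.coe_mul, hφ, hφ, hφ,
          ← map_mul, ← map_mul, ← zv_add hzz, ← zv_add hzz]
        congr 1
        funext i
        unfold zv
        have h5 : ∀ i : Fin 6, ((Pi.single 0 1 + Pi.single 1 1 + (Pi.single 2 1 + Pi.single 3 1) +
            (Pi.single 4 1 + Pi.single 5 1) : Fin 6 → ZMod 2) i) ≠ 0 := by
          decide
        rw [if_neg (h5 i)]
      have hz1 : r (φ (Multiplicative.ofAdd W), 1) = r (1, QuaternionGroup.a 2) := by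
        have h6 : r (φ (Multiplicative.ofAdd W), QuaternionGroup.a 2) = 1 :=
          Subtype.ext (hψ _ hW)
        have h7 : ((φ (Multiplicative.ofAdd W), 1) :
            (mono u ⊓ EN 6 O : Subgroup _) × QuaternionGroup 2) =
            (φ (Multiplicative.ofAdd W), QuaternionGroup.a 2) * (1, QuaternionGroup.a 2) := by
          refine Prod.ext ?_ ?_
          · change _ = φ (Multiplicative.ofAdd W) * 1
            rw [mul_one]
          · change (1 : QuaternionGroup 2) = QuaternionGroup.a 2 * QuaternionGroup.a 2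
            decide
        rw [h7, map_mul, h6, one_mul]
      have hmul : ∀ s t : QuaternionGroup 2, r (1, s) * r (1, t) = r (1, s * t) := by
        intro s t
        rw [← map_mul, Prod.mk_mul_mk, one_mul]
      have hinv : ∀ s : QuaternionGroup 2, (r (1, s))⁻¹ = r (1, s⁻¹) := by
        intro s
        rw [← map_inv, Prod.inv_mk, inv_one]
      refine hf5 c W 4 ?_ (Or.inr (Or.inr ⟨rfl, r (1, QuaternionGroup.a 1),
        r (1, QuaternionGroup.xa 0), ?_, ?_, ?_, hcomm _, hcomm _⟩)) hc
      · change c ⬝ᵥ (Pi.single (0, 1) 1 + Pi.single (2, 3) 1 + Pi.single (4, 5) 1) = 1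
        rw [dotProduct_add, dotProduct_add, dotProduct_single, dotProduct_single,
          dotProduct_single, mul_one, mul_one, mul_one]
        exact hc1
      · rw [hΦ, hz1, hmul]
        congr 2
      · rw [hΦ, hz1, hmul]
        congr 2
      · rw [hinv, hinv, hmul, hmul]
        congr 2
  have h8 := hf2 w (fun c hc => by rw [hzero c hc, zero_dotProduct]) x
  have h9 : φ (Multiplicative.ofAdd w) = g := Subtype.ext (hw.trans hg.symm)
  rw [hΦ, h9] at h8
  exact h8

end main

end Pool.Agent.V7H7.SZ
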