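import Pool.Agent.V7H7.SZ.Smith

/-! The formula of Borel for two commuting involutions on a mod 2 cohomology sphere. -/

set_option autoImplicit false
set_option linter.unusedSectionVars false

namespace Pool.Agent.V7H7.SZ

open Module Pool.Agent.Helper381

universe u v w

/-- simplicial involution -/
structure Invol {S : ℕ → Type v} (face : ∀ n, Fin (n + 2) → S (n + 1) → S n)
    (γ : ∀ n, S n → S n) : Prop where
  gg : ∀ n σ, γ n (γ n σ) = σ
  gf : ∀ n i σ, γ n (face n i σ) = face n i (γ (n + 1) σ)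

/-- subobject, stable under the involution -/
structure SubS {S : ℕ → Type v} (face : ∀ n, Fin (n + 2) → S (n + 1) → S n)
    (γ : ∀ n, S n → S n) {F : ℕ → Type v} (faceF : ∀ n, Fin (n + 2) → F (n + 1) → F n)
    (γF : ∀ n, F n → F n) (ι : ∀ n, F n → S n) : Prop where
  inj : ∀ n, Function.Injective (ι n)
  fc : ∀ n i x, ι n (faceF n i x) = face n i (ι (n + 1) x)
  g : ∀ n x, ι n (γF n x) = γ n (ι n x)

/-- the simplicial identity -/
def FF {S : ℕ → Type v} (face : ∀ n, Fin (n + 2) → S (n + 1) → S n) : Prop :=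
  ∀ n (i j : Fin (n + 2)) (σ : S (n + 2)), i ≤ j →
      face n i (face (n + 1) j.succ σ) = face n j (face (n + 1) i.castSucc σ)

section

variable {S : ℕ → Type v} {face : ∀ n, Fin (n + 2) → S (n + 1) → S n}
  {γ : ∀ n, S n → S n} {F : ℕ → Type v} {faceF : ∀ n, Fin (n + 2) → F (n + 1) → F n}
  {γF : ∀ n, F n → F n} {ι : ∀ n, F n → S n}

theorem SubS.ff (h : SubS face γ faceF γF ι) (hf : FF face) : FF faceF := by
  intro n i j σ hij
  apply h.inj
  rw [h.fc, h.fc, h.fc, h.fc]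
  exact hf n i j _ hij

theorem SubS.invol (h : SubS face γ faceF γF ι) (hγ : Invol face γ) : Invol faceF γF := by
  refine ⟨fun n σ => ?_, fun n i σ => ?_⟩
  · apply h.inj
    rw [h.g, h.g, hγ.gg]
  · apply h.inj
    rw [h.g, h.fc, h.fc, h.g, hγ.gf]

/-- restriction of invariant cochains -/
def rE (h : SubS face γ faceF γF ι) (n : ℕ) : Isub γ n →ₗ[ZMod 2] Isub γF n where
  toFun f := ⟨fun x => f.1 (ι n x), by
    refine ⟨fun x => ?_, fun x hx => ?_⟩
    · change f.1 (ι n (γF n x)) = f.1 (ι n x)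
      rw [h.g, f.2.1]
    · apply f.2.2
      rw [← h.g, hx]⟩
  map_add' _ _ := rfl
  map_smul' _ _ := rfl

end

section G

variable {S : ℕ → Type v} (face : ∀ n, Fin (n + 2) → S (n + 1) → S n)
  (γ η : ∀ n, S n → S n)

/-- cochains invariant under both involutions which vanish on all simplices with non trivial
stabilizer -/
def Gsub (n : ℕ) : Submodule (ZMod 2) (S n → ZMod 2) where
  carrier := {f | ((∀ σ, f (γ n σ) = f σ) ∧ ∀ σ, γ n σ = σ → f σ = 0) ∧
    (∀ σ, f (η n σ) = f σ) ∧ (∀ σ, η n σ = σ → f σ = 0) ∧ ∀ σ, η n (γ n σ) = σ → f σ = 0}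
  add_mem' := by
    rintro f g ⟨⟨h1, h2⟩, h3, h4, h5⟩ ⟨⟨k1, k2⟩, k3, k4, k5⟩
    refine ⟨⟨fun σ => ?_, fun σ hσ => ?_⟩, fun σ => ?_, fun σ hσ => ?_, fun σ hσ => ?_⟩
    · simp [h1, k1]
    · simp [h2 σ hσ, k2 σ hσ]
    · simp [h3, k3]
    · simp [h4 σ hσ, k4 σ hσ]
    · simp [h5 σ hσ, k5 σ hσ]
  zero_mem' := ⟨⟨fun _ => rfl, fun _ _ => rfl⟩, fun _ => rfl, fun _ _ => rfl, fun _ _ => rfl⟩
  smul_mem' := by
    rintro c f ⟨⟨h1, h2⟩, h3, h4, h5⟩
    refine ⟨⟨fun σ => ?_, fun σ hσ => ?_⟩, fun σ => ?_, fun σ hσ => ?_, fun σ hσ => ?_⟩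
    · simp [h1]
    · simp [h2 σ hσ]
    · simp [h3]
    · simp [h4 σ hσ]
    · simp [h5 σ hσ]

variable {face γ η}

theorem Gsub_le (n : ℕ) : Gsub γ η n ≤ Isub γ n := fun _ hf => hf.1

theorem Gsub_d (hγ : Invol face γ) (hη : Invol face η) (n : ℕ) :
    ∀ f ∈ Gsub γ η n, altd (ZMod 2) face n f ∈ Gsub γ η (n + 1) := by
  rintro f ⟨h0, h3, h4, h5⟩
  refine ⟨Isub_d face γ hγ.gf n f h0, fun σ => ?_, fun σ hσ => ?_, fun σ hσ => ?_⟩
  · rw [altd_apply, altd_apply]
    refine Finset.sum_congr rfl fun i _ => ?_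
    rw [← hη.gf, h3]
  · rw [altd_apply]
    apply Finset.sum_eq_zero
    intro i _
    rw [h4 _ (by rw [hη.gf, hσ]), mul_zero]
  · rw [altd_apply]
    apply Finset.sum_eq_zero
    intro i _
    rw [h5 _ (by rw [hγ.gf, hη.gf, hσ]), mul_zero]

/-- the coboundary -/
def dG (hγ : Invol face γ) (hη : Invol face η) (n : ℕ) :
    Gsub γ η n →ₗ[ZMod 2] Gsub γ η (n + 1) :=
  (altd (ZMod 2) face n).restrict (Gsub_d hγ hη n)

/-- the transfer -/
def smG (hη : Invol face η) (hc : ∀ n σ, γ n (η n σ) = η n (γ n σ)) (n : ℕ) :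
    Isub γ n →ₗ[ZMod 2] Gsub γ η n where
  toFun f := ⟨fun σ => f.1 σ + f.1 (η n σ), by
    obtain ⟨f, h1, h2⟩ := f
    refine ⟨⟨fun σ => ?_, fun σ hσ => ?_⟩, fun σ => ?_, fun σ hσ => ?_, fun σ hσ => ?_⟩
    · change f (γ n σ) + f (η n (γ n σ)) = f σ + f (η n σ)
      rw [← hc, h1, h1]
    · change f σ + f (η n σ) = 0
      rw [h2 σ hσ, h2 (η n σ) (by rw [hc, hσ]), add_zero]
    · change f (η n σ) + f (η n (η n σ)) = f σ + f (η n σ)
      rw [hη.gg, add_comm]
    · change f σ + f (η n σ) = 0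
      rw [hσ, zmod2_add_self]
    · change f σ + f (η n σ) = 0
      have h3 : η n σ = γ n σ := by
        conv_lhs => rw [← hσ]
        rw [hη.gg]
      rw [h3, h1, zmod2_add_self]⟩
  map_add' := by
    intro f g
    apply Subtype.ext
    funext σ
    change f.1 σ + g.1 σ + (f.1 (η n σ) + g.1 (η n σ)) =
      f.1 σ + f.1 (η n σ) + (g.1 σ + g.1 (η n σ))
    ring
  map_smul' := by
    intro c f
    apply Subtype.ext
    funext σ
    change c * f.1 σ + c * f.1 (η n σ) = c * (f.1 σ + f.1 (η n σ))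
    ring

variable [∀ n, Finite (S n)]

/-- a cochain with given transfer -/
theorem exists_half (hγ : Invol face γ) (hη : Invol face η)
    (hc : ∀ n σ, γ n (η n σ) = η n (γ n σ)) (n : ℕ) (u : S n → ZMod 2) (hu : u ∈ Gsub γ η n) :
    ∃ c : S n → ZMod 2, (∀ σ, c (γ n σ) = c σ) ∧ (∀ σ, c σ + c (η n σ) = u σ) ∧
      ∀ σ, u σ = 0 → c σ = 0 := by
  classical
  have := Fintype.ofFinite (S n)
  let e := Fintype.equivFin (S n)
  let m : S n → ℕ := fun σ => min (e σ : ℕ) (e (γ n σ) : ℕ)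
  obtain ⟨⟨h1, h2⟩, h3, h4, h5⟩ := hu
  have hmγ : ∀ σ, m (γ n σ) = m σ := by
    intro σ
    change min (e (γ n σ) : ℕ) (e (γ n (γ n σ)) : ℕ) = min (e σ : ℕ) (e (γ n σ) : ℕ)
    rw [hγ.gg, min_comm]
  have hne : ∀ σ, u σ ≠ 0 → m σ ≠ m (η n σ) := by
    intro σ hσ hm
    have h6 : η n σ ≠ σ := fun h => hσ (h4 σ h)
    have h7 : η n (γ n σ) ≠ σ := fun h => hσ (h5 σ h)
    have a1 : (e σ : ℕ) ≠ (e (η n σ) : ℕ) := fun h => h6 (e.injective (Fin.ext h)).symm
    have a2 : (e σ : ℕ) ≠ (e (γ n (η n σ)) : ℕ) := fun h => h7 (by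
      rw [← hc]; exact (e.injective (Fin.ext h)).symm)
    have a3 : (e (γ n σ) : ℕ) ≠ (e (η n σ) : ℕ) := fun h => by
      have h8 := e.injective (Fin.ext h)
      apply h7
      rw [h8, hη.gg]
    have a4 : (e (γ n σ) : ℕ) ≠ (e (γ n (η n σ)) : ℕ) := fun h => by
      have h8 := e.injective (Fin.ext h)
      apply h6
      have h9 := congrArg (γ n) h8
      rw [hγ.gg, hγ.gg] at h9
      exact h9.symm
    have hm' : min (e σ : ℕ) (e (γ n σ) : ℕ) = min (e (η n σ) : ℕ) (e (γ n (η n σ)) : ℕ) := hm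
    omega
  refine ⟨fun σ => if m σ < m (η n σ) then u σ else 0, fun σ => ?_, fun σ => ?_, fun σ hσ => ?_⟩
  · change (if m (γ n σ) < m (η n (γ n σ)) then u (γ n σ) else 0) =
      if m σ < m (η n σ) then u σ else 0
    rw [← hc, hmγ, hmγ, h1]
  · change (if m σ < m (η n σ) then u σ else 0) +
      (if m (η n σ) < m (η n (η n σ)) then u (η n σ) else 0) = u σ
    rw [hη.gg, h3]
    by_cases hσ : u σ = 0
    · rw [hσ]; simp
    · rcases lt_trichotomy (m σ) (m (η n σ)) with h | h | h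
      · rw [if_pos h, if_neg (by omega), add_zero]
      · exact absurd h (hne σ hσ)
      · rw [if_neg (by omega), if_pos h, zero_add]
  · change (if m σ < m (η n σ) then u σ else 0) = 0
    rw [hσ, ite_self]

variable {F : ℕ → Type v} {faceF : ∀ n, Fin (n + 2) → F (n + 1) → F n} [∀ n, Finite (F n)]
  {γF : ∀ n, F n → F n} {ι : ∀ n, F n → S n}
  {K : ℕ → Type v} {faceK : ∀ n, Fin (n + 2) → K (n + 1) → K n} [∀ n, Finite (K n)]
  {γK : ∀ n, K n → K n} {κ : ∀ n, K n → S n}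

theorem prod_surj (hγ : Invol face γ) (hη : Invol face η)
    (hc : ∀ n σ, γ n (η n σ) = η n (γ n σ)) (hF : SubS face γ faceF γF ι)
    (hK : SubS face γ faceK γK κ) (hFfix : ∀ n σ, η n σ = σ ↔ ∃ x, ι n x = σ)
    (hKfix : ∀ n σ, η n (γ n σ) = σ ↔ ∃ x, κ n x = σ) (n : ℕ) :
    Function.Surjective ((smG hη hc n).prod ((rE hF n).prod (rE hK n))) := by
  classical
  rintro ⟨⟨u, hu⟩, ⟨f', hf1, hf2⟩, ⟨g', hg1, hg2⟩⟩
  obtain ⟨c, hc1, hc2, hc3⟩ := exists_half hγ hη hc n u hu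
  obtain ⟨⟨h1, h2⟩, h3, h4, h5⟩ := hu
  let f : S n → ZMod 2 := fun σ =>
    if hσ : ∃ x, ι n x = σ then f' hσ.choose
    else if hσ : ∃ x, κ n x = σ then g' hσ.choose else c σ
  have e1 : ∀ x, f (ι n x) = f' x := by
    intro x
    have h6 : ∃ y, ι n y = ι n x := ⟨x, rfl⟩
    have h7 : f (ι n x) = f' h6.choose := dif_pos h6
    rw [h7]
    congr 1
    exact hF.inj n h6.choose_spec
  have e2 : ∀ x, (¬ ∃ y, ι n y = κ n x) → f (κ n x) = g' x := by
    intro x hx
    have h6 : ∃ y, κ n y = κ n x := ⟨x, rfl⟩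
    have h7 : f (κ n x) = g' h6.choose := by
      change (if hσ : ∃ y, ι n y = κ n x then f' hσ.choose
        else if hσ : ∃ y, κ n y = κ n x then g' hσ.choose else c (κ n x)) = _
      rw [dif_neg hx, dif_pos h6]
    rw [h7]
    congr 1
    exact hK.inj n h6.choose_spec
  have e3 : ∀ σ, (¬ ∃ y, ι n y = σ) → (¬ ∃ y, κ n y = σ) → f σ = c σ := by
    intro σ h6 h7
    change (if hσ : ∃ y, ι n y = σ then f' hσ.choose
        else if hσ : ∃ y, κ n y = σ then g' hσ.choose else c σ) = _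
    rw [dif_neg h6, dif_neg h7]
  -- stability
  have s1 : ∀ σ, (∃ y, ι n y = γ n σ) → ∃ y, ι n y = σ := by
    rintro σ ⟨y, hy⟩
    refine ⟨γF n y, ?_⟩
    rw [hF.g, hy, hγ.gg]
  have s2 : ∀ σ, (∃ y, κ n y = γ n σ) → ∃ y, κ n y = σ := by
    rintro σ ⟨y, hy⟩
    refine ⟨γK n y, ?_⟩
    rw [hK.g, hy, hγ.gg]
  have s3 : ∀ σ, (∃ y, ι n y = η n σ) → ∃ y, ι n y = σ := by
    intro σ hσ
    rw [← hFfix] at hσ ⊢
    rw [hη.gg] at hσ
    exact hσ.symm
  have s4 : ∀ σ, (∃ y, κ n y = η n σ) → ∃ y, κ n y = σ := by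
    intro σ hσ
    rw [← hKfix] at hσ ⊢
    rw [hc, hη.gg] at hσ
    rw [hσ, hη.gg]
  -- both
  have t1 : ∀ x, (∃ y, ι n y = κ n x) → γK n x = x := by
    intro x hx
    apply hK.inj
    rw [hK.g]
    rw [← hFfix] at hx
    have h6 := (hKfix n (κ n x)).2 ⟨x, rfl⟩
    rw [← hc, hx] at h6
    exact h6
  have t2 : ∀ x y, ι n y = κ n x → γF n y = y := by
    intro x y hxy
    apply hF.inj
    rw [hF.g, hxy, ← hK.g, t1 x ⟨y, hxy⟩]
  have hfI : f ∈ Isub γ n := by
    refine ⟨fun σ => ?_, fun σ hσ => ?_⟩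
    · by_cases h6 : ∃ y, ι n y = σ
      · obtain ⟨y, rfl⟩ := h6
        rw [← hF.g, e1, e1, hf1]
      · by_cases h7 : ∃ y, κ n y = σ
        · obtain ⟨y, rfl⟩ := h7
          have h8 : ¬ ∃ z, ι n z = κ n (γK n y) := by
            rw [hK.g]
            exact fun h9 => h6 (s1 _ h9)
          rw [← hK.g, e2 _ h8, e2 _ h6, hg1]
        · rw [e3 _ h6 h7, e3 _ (fun h => h6 (s1 _ h)) (fun h => h7 (s2 _ h)), hc1]
    · by_cases h6 : ∃ y, ι n y = σ
      · obtain ⟨y, rfl⟩ := h6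
        rw [e1]
        apply hf2
        apply hF.inj
        rw [hF.g, hσ]
      · by_cases h7 : ∃ y, κ n y = σ
        · obtain ⟨y, rfl⟩ := h7
          rw [e2 _ h6]
          apply hg2
          apply hK.inj
          rw [hK.g, hσ]
        · rw [e3 _ h6 h7]
          exact hc3 _ (h2 σ hσ)
  refine ⟨⟨f, hfI⟩, ?_⟩
  apply Prod.ext
  · apply Subtype.ext
    funext σ
    change f σ + f (η n σ) = u σ
    by_cases h6 : ∃ y, ι n y = σ
    · have h8 := (hFfix n σ).2 h6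
      rw [h8, zmod2_add_self, h4 σ h8]
    · by_cases h7 : ∃ y, κ n y = σ
      · have h8 := (hKfix n σ).2 h7
        have h9 : η n σ = γ n σ := by
          conv_lhs => rw [← h8]
          rw [hη.gg]
        rw [h9, hfI.1, zmod2_add_self, h5 σ h8]
      · rw [e3 _ h6 h7, e3 _ (fun h => h6 (s3 _ h)) (fun h => h7 (s4 _ h)), hc2]
  · apply Prod.ext
    · apply Subtype.ext
      funext x
      exact e1 x
    · apply Subtype.ext
      funext x
      change f (κ n x) = g' x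
      by_cases h6 : ∃ y, ι n y = κ n x
      · obtain ⟨y, hy⟩ := h6
        rw [← hy, e1, hf2 y (t2 x y hy), hg2 x (t1 x ⟨y, hy⟩)]
      · exact e2 x h6

/-- the rank -/
noncomputable def rk (hγ : Invol face γ) (hη : Invol face η) (n : ℕ) : ℕ :=
  rho (dG hγ hη) (dE face γ hγ.gf) (fun n => Submodule.inclusion (Gsub_le (γ := γ) (η := η) n)) n

/-- the dimension of the cohomology -/
noncomputable def hG (hγ : Invol face γ) (hη : Invol face η) (n : ℕ) : ℕ :=
  finrank (ZMod 2) (Coh (ZMod 2) (fun n => Gsub γ η n) (dG hγ hη) n)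

theorem dE_dE (hf : FF face) (hγ : Invol face γ) (n : ℕ) (x : Isub γ n) :
    dE face γ hγ.gf (n + 1) (dE face γ hγ.gf n x) = 0 := by
  apply Subtype.ext
  exact altd_altd face hf n x.1

theorem dG_dG (hf : FF face) (hγ : Invol face γ) (hη : Invol face η) (n : ℕ) (x : Gsub γ η n) :
    dG hγ hη (n + 1) (dG hγ hη n x) = 0 := by
  apply Subtype.ext
  exact altd_altd face hf n x.1

theorem borel_les (hf : FF face) (hγ : Invol face γ) (hη : Invol face η)
    (hc : ∀ n σ, γ n (η n σ) = η n (γ n σ)) (hF : SubS face γ faceF γF ι)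
    (hK : SubS face γ faceK γK κ) (hFfix : ∀ n σ, η n σ = σ ↔ ∃ x, ι n x = σ)
    (hKfix : ∀ n σ, η n (γ n σ) = σ ↔ ∃ x, κ n x = σ) (n : ℕ) :
    (hG hγ hη n + (hE faceF γF (hF.invol hγ).gf n + hE faceK γK (hK.invol hγ).gf n)) +
      rk hγ hη n + rk hγ hη (n + 1) = hE face γ hγ.gf n + hG hγ hη (n + 1) := by
  have hdF : ∀ n x, dE faceF γF (hF.invol hγ).gf (n + 1) (dE faceF γF (hF.invol hγ).gf n x) = 0 :=
    dE_dE (hF.ff hf) (hF.invol hγ)
  have hdK : ∀ n x, dE faceK γK (hK.invol hγ).gf (n + 1) (dE faceK γK (hK.invol hγ).gf n x) = 0 :=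
    dE_dE (hK.ff hf) (hK.invol hγ)
  have hdG : ∀ n x, dG hγ hη (n + 1) (dG hγ hη n x) = 0 := dG_dG hf hγ hη
  have hdE : ∀ n x, dE face γ hγ.gf (n + 1) (dE face γ hγ.gf n x) = 0 := dE_dE hf hγ
  let dFK := fun n => (dE faceF γF (hF.invol hγ).gf n).prodMap (dE faceK γK (hK.invol hγ).gf n)
  have hdFK : ∀ n (x : Isub γF n × Isub γK n), dFK (n + 1) (dFK n x) = 0 := by
    intro n x
    apply Prod.ext
    · exact hdF n x.1
    · exact hdK n x.2
  have h1 := les_eq (dG hγ hη) (dE face γ hγ.gf)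
    (C := fun n => Gsub γ η n × (Isub γF n × Isub γK n))
    (fun n => (dG hγ hη n).prodMap (dFK n))
    (fun n => Submodule.inclusion (Gsub_le (γ := γ) (η := η) n))
    (fun n => (smG hη hc n).prod ((rE hF n).prod (rE hK n)))
    (fun n => Submodule.inclusion_injective _)
    (prod_surj hγ hη hc hF hK hFfix hKfix) ?_ ?_ (fun n a => rfl) ?_ hdG hdE ?_ n
  · rw [finrank_coh_prod (dG hγ hη) dFK hdG hdFK,
      finrank_coh_prod (dE faceF γF (hF.invol hγ).gf) (dE faceK γK (hK.invol hγ).gf) hdF hdK] at h1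
    exact h1
  · rintro n ⟨f, hf1, hf2⟩ hf0
    have h2 : ∀ σ, f σ + f (η n σ) = 0 := fun σ =>
      congrArg (fun p : Gsub γ η n × (Isub γF n × Isub γK n) => p.1.1 σ) hf0
    have h3 : ∀ x, f (ι n x) = 0 := fun x =>
      congrArg (fun p : Gsub γ η n × (Isub γF n × Isub γK n) => p.2.1.1 x) hf0
    have h4 : ∀ x, f (κ n x) = 0 := fun x =>
      congrArg (fun p : Gsub γ η n × (Isub γF n × Isub γK n) => p.2.2.1 x) hf0
    refine ⟨⟨f, ⟨hf1, hf2⟩, fun σ => ?_, fun σ hσ => ?_, fun σ hσ => ?_⟩, rfl⟩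
    · have h5 := h2 σ
      rw [← zmod2_add_self (f σ)] at h5
      exact add_left_cancel h5
    · obtain ⟨x, rfl⟩ := (hFfix n σ).1 hσ
      exact h3 x
    · obtain ⟨x, rfl⟩ := (hKfix n σ).1 hσ
      exact h4 x
  · rintro n ⟨f, ⟨hf1, hf2⟩, hf3, hf4, hf5⟩
    apply Prod.ext
    · apply Subtype.ext
      funext σ
      change f σ + f (η n σ) = 0
      rw [hf3, zmod2_add_self]
    · apply Prod.ext
      · apply Subtype.ext
        funext x
        exact hf4 _ ((hFfix n _).2 ⟨x, rfl⟩)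
      · apply Subtype.ext
        funext x
        exact hf5 _ ((hKfix n _).2 ⟨x, rfl⟩)
  · intro n f
    apply Prod.ext
    · apply Subtype.ext
      funext σ
      change altd (ZMod 2) face n (fun σ => f.1 σ + f.1 (η n σ)) σ =
        altd (ZMod 2) face n f.1 σ + altd (ZMod 2) face n f.1 (η (n + 1) σ)
      rw [altd_apply, altd_apply, altd_apply, ← Finset.sum_add_distrib]
      refine Finset.sum_congr rfl fun i _ => ?_
      rw [hη.gf]
      ring
    · apply Prod.ext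
      · apply Subtype.ext
        funext x
        change altd (ZMod 2) faceF n (fun x => f.1 (ι n x)) x =
          altd (ZMod 2) face n f.1 (ι (n + 1) x)
        rw [altd_apply, altd_apply]
        refine Finset.sum_congr rfl fun i _ => ?_
        rw [hF.fc]
      · apply Subtype.ext
        funext x
        change altd (ZMod 2) faceK n (fun x => f.1 (κ n x)) x =
          altd (ZMod 2) face n f.1 (κ (n + 1) x)
        rw [altd_apply, altd_apply]
        refine Finset.sum_congr rfl fun i _ => ?_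
        rw [hK.fc]
  · intro n x
    apply Prod.ext
    · exact hdG n x.1
    · exact hdFK n x.2

end G

end Pool.Agent.V7H7.SZ
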