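import Pool.Agent.V7H7.SZ.Sph

/-! Mod 2 singular chains: supports, push forward, homotopies, small simplices. -/

set_option autoImplicit false

namespace Pool.Agent.V7H7.SZ.Sph

open Finsupp Module
open Pool.Agent.H904R2 (Ch IsCyc IsBdy RAcyc psh)
open Pool.Agent.H904R2.Sph (sup sbd_mem_sup inc inc_injective exists_lift psh_inc_mem sbd_psh psh_single
  sub_res_mem res res_mem)
open Pool.Agent.Helper922.HB.Sc (Sing sface sbd sbd_sbd slice PD sbd_PD sbd_PD_zero rho rho_small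
  rho_succ DD DD_single mm_small smallSet supported_map)

variable {X Y Z : Type} [TopologicalSpace X] [TopologicalSpace Y] [TopologicalSpace Z]

theorem sp_map {α W : Type} [AddCommGroup W] [Module (ZMod 2) W] {S : Set α}
    (L : (α →₀ ZMod 2) →ₗ[ZMod 2] W) (N : Submodule (ZMod 2) W)
    (h : ∀ a ∈ S, L (single a 1) ∈ N) : ∀ z ∈ Finsupp.supported (ZMod 2) (ZMod 2) S, L z ∈ N := by
  intro z hz
  rw [Finsupp.supported_eq_span_single] at hz
  have h2 : Submodule.span (ZMod 2) ((fun i : α => single i (1 : ZMod 2)) '' S) ≤ N.comap L :=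
    Submodule.span_le.2 (by
      rintro _ ⟨a, ha, rfl⟩
      exact h a ha)
  exact h2 hz

/-- mod 2 chains supported in `O` -/
noncomputable def sp (O : Set X) (m : ℕ) : Submodule (ZMod 2) (C2 X m) :=
  Finsupp.supported (ZMod 2) (ZMod 2) {σ : Sing X m | Set.range σ ⊆ O}

theorem sp_mono {O O' : Set X} (h : O ⊆ O') (m : ℕ) : sp O m ≤ sp O' m :=
  Finsupp.supported_mono fun _ hσ => Set.Subset.trans hσ h

theorem sp_inter {O₁ O₂ : Set X} {m : ℕ} {z : C2 X m} (h1 : z ∈ sp O₁ m) (h2 : z ∈ sp O₂ m) :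
    z ∈ sp (O₁ ∩ O₂) m := by
  unfold sp at *
  rw [Finsupp.mem_supported] at *
  intro σ hσ
  exact Set.subset_inter (h1 hσ) (h2 hσ)

theorem mem_sp_univ {m : ℕ} (z : C2 X m) : z ∈ sp Set.univ m := by
  unfold sp
  rw [Finsupp.mem_supported]
  intro σ _
  exact Set.subset_univ _

theorem sp_lift {O : Set X} {m : ℕ} {z : C2 X m} (hz : z ∈ sp O m) :
    ∃ c ∈ sup O m, red X m c = z := by
  refine ⟨z.mapRange (fun a : ZMod 2 => (a.val : ℤ)) (by simp), ?_, ?_⟩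
  · unfold sup
    rw [Finsupp.mem_supported]
    unfold sp at hz
    rw [Finsupp.mem_supported] at hz
    intro σ hσ
    exact hz (Finsupp.support_mapRange hσ)
  · ext σ
    simp only [red, Finsupp.mapRange.addMonoidHom_apply, mapRange_apply]
    change (((z σ).val : ℤ) : ZMod 2) = z σ
    rw [Int.cast_natCast, ZMod.natCast_zmod_val]

theorem red_mem {O : Set X} {m : ℕ} {c : Ch X m} (hc : c ∈ sup O m) : red X m c ∈ sp O m := by
  unfold sp
  rw [Finsupp.mem_supported]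
  unfold sup at hc
  rw [Finsupp.mem_supported] at hc
  intro σ hσ
  exact hc (Finsupp.support_mapRange (hf := map_zero _) hσ)

theorem bd2_bd2 (m : ℕ) (z : C2 X (m + 2)) : bd2 X m (bd2 X (m + 1) z) = 0 := by
  obtain ⟨c, rfl⟩ := red_surj (m + 2) z
  rw [← red_sbd, ← red_sbd, sbd_sbd, map_zero]

theorem bd2_mem {O : Set X} {m : ℕ} {z : C2 X (m + 1)} (hz : z ∈ sp O (m + 1)) :
    bd2 X m z ∈ sp O m := by
  obtain ⟨c, hc, rfl⟩ := sp_lift hz
  rw [← red_sbd]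
  exact red_mem (sbd_mem_sup hc)

/-- push forward -/
noncomputable def psh2 (f : C(X, Y)) (m : ℕ) : C2 X m →ₗ[ZMod 2] C2 Y m :=
  Finsupp.lmapDomain (ZMod 2) (ZMod 2) (fun σ => f.comp σ)

theorem psh2_single (f : C(X, Y)) (m : ℕ) (σ : Sing X m) (a : ZMod 2) :
    psh2 f m (single σ a) = single (f.comp σ) a := by
  simp [psh2]

theorem psh2_red (f : C(X, Y)) (m : ℕ) (c : Ch X m) :
    psh2 f m (red X m c) = red Y m (psh f m c) := by
  induction c using Finsupp.induction_linear with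
  | zero => simp only [map_zero]
  | add f g hf hg => simp only [map_add, hf, hg]
  | single σ a => rw [red_single, psh2_single, psh_single, red_single]

theorem bd2_psh2 (f : C(X, Y)) (m : ℕ) (z : C2 X (m + 1)) :
    bd2 Y m (psh2 f (m + 1) z) = psh2 f m (bd2 X m z) := by
  obtain ⟨c, rfl⟩ := red_surj (m + 1) z
  rw [psh2_red, ← red_sbd, sbd_psh, ← red_sbd, psh2_red]

theorem psh2_comp (f : C(X, Y)) (g : C(Y, Z)) (m : ℕ) (z : C2 X m) :
    psh2 g m (psh2 f m z) = psh2 (g.comp f) m z := by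
  induction z using Finsupp.induction_linear with
  | zero => simp only [map_zero]
  | add f g hf hg => simp only [map_add, hf, hg]
  | single σ a =>
    rw [psh2_single, psh2_single, psh2_single]
    rfl

theorem psh2_id (m : ℕ) (z : C2 X m) : psh2 (ContinuousMap.id X) m z = z := by
  induction z using Finsupp.induction_linear with
  | zero => simp only [map_zero]
  | add f g hf hg => simp only [map_add, hf, hg]
  | single σ a =>
    rw [psh2_single]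
    rfl

theorem psh2_mem (f : C(X, Y)) {O : Set X} {O' : Set Y} (h : ∀ x ∈ O, f x ∈ O') {m : ℕ}
    {z : C2 X m} (hz : z ∈ sp O m) : psh2 f m z ∈ sp O' m := by
  refine sp_map (psh2 f m) _ ?_ z hz
  intro σ hσ
  rw [psh2_single]
  refine Finsupp.single_mem_supported (ZMod 2) 1 ?_
  rintro _ ⟨t, rfl⟩
  exact h _ (hσ ⟨t, rfl⟩)

theorem comp_inj (f : C(X, Y)) (hf : Function.Injective f) (m : ℕ) :
    Function.Injective (fun σ : Sing X m => f.comp σ) := by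
  intro σ τ h
  apply ContinuousMap.ext
  intro t
  exact hf (congrArg (fun ρ : Sing Y m => ρ t) h)

theorem psh2_mem_inv (f : C(X, Y)) (hf : Function.Injective f) {O' : Set Y} {m : ℕ}
    {z : C2 X m} (hz : psh2 f m z ∈ sp O' m) : z ∈ sp (f ⁻¹' O') m := by
  unfold sp at hz ⊢
  rw [Finsupp.mem_supported] at hz ⊢
  intro σ hσ
  have h1 : psh2 f m z (f.comp σ) = z σ := Finsupp.mapDomain_apply (comp_inj f hf m) z σ
  have h2 : (f.comp σ) ∈ (psh2 f m z).support := by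
    rw [Finsupp.mem_support_iff, h1]
    exact Finsupp.mem_support_iff.1 hσ
  have h3 : Set.range (f.comp σ) ⊆ O' := hz h2
  rintro _ ⟨t, rfl⟩
  exact h3 ⟨t, rfl⟩

theorem psh2_injective (f : C(X, Y)) (hf : Function.Injective f) (m : ℕ) :
    Function.Injective (psh2 f m) :=
  Finsupp.mapDomain_injective (comp_inj f hf m)

theorem exists_lift2 {O : Set X} {m : ℕ} {z : C2 X m} (hz : z ∈ sp O m) :
    ∃ z' : C2 O m, psh2 (inc O) m z' = z := by
  obtain ⟨c, hc, rfl⟩ := sp_lift hz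
  obtain ⟨c', rfl⟩ := exists_lift hc
  exact ⟨red O m c', psh2_red _ _ _⟩

theorem psh2_inc_mem (O : Set X) {m : ℕ} (z : C2 O m) : psh2 (inc O) m z ∈ sp O m :=
  psh2_mem (inc O) (fun x _ => x.2) (mem_sp_univ z)

theorem red_two (m : ℕ) (c : Ch X m) : red X m ((2 : ℤ) • c) = 0 := by
  rw [red_zsmul]
  have : ((2 : ℤ) : ZMod 2) = 0 := by decide
  rw [this, zero_smul]

/-- homotopies, degree zero -/
theorem homotopy2_zero (H : C(X × unitInterval, Y)) (z : C2 X 0) :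
    ∃ w, bd2 Y 0 w = psh2 (slice H 1) 0 z - psh2 (slice H 0) 0 z := by
  obtain ⟨c, rfl⟩ := red_surj 0 z
  refine ⟨red Y 1 (PD H 0 c), ?_⟩
  rw [← red_sbd, sbd_PD_zero, map_sub, psh2_red, psh2_red]
  rfl

/-- homotopies, positive degree -/
theorem homotopy2_succ (H : C(X × unitInterval, Y)) {m : ℕ} (z : C2 X (m + 1))
    (hz : bd2 X m z = 0) :
    ∃ w, bd2 Y (m + 1) w = psh2 (slice H 1) (m + 1) z - psh2 (slice H 0) (m + 1) z := by
  obtain ⟨c, rfl⟩ := red_surj (m + 1) z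
  rw [← red_sbd] at hz
  obtain ⟨e, he⟩ := red_ker _ _ hz
  refine ⟨red Y (m + 2) (PD H (m + 1) c), ?_⟩
  have h1 := sbd_PD H m c
  rw [← red_sbd, psh2_red, psh2_red, ← map_sub]
  have h2 : sbd Y (m + 1) (PD H (m + 1) c) = psh (slice H 1) (m + 1) c -
      psh (slice H 0) (m + 1) c - PD H m (sbd X m c) := by
    rw [eq_sub_iff_add_eq]
    exact h1
  rw [h2, he, map_smul, map_sub, red_two, sub_zero]

/-- small simplices, the whole space -/
theorem split_univ {O₁ O₂ : Set X} (h₁ : IsOpen O₁) (h₂ : IsOpen O₂)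
    (hc : ∀ x, x ∈ O₁ ∨ x ∈ O₂) {k : ℕ} (t : C2 X (k + 1))
    (ht : ∃ a₁ ∈ sp O₁ k, ∃ a₂ ∈ sp O₂ k, bd2 X k t = a₁ + a₂) :
    ∃ t₁ ∈ sp O₁ (k + 1), ∃ t₂ ∈ sp O₂ (k + 1), ∃ v, t = t₁ + t₂ + bd2 X (k + 1) v := by
  have hopen : ∀ C ∈ ({O₁, O₂} : Set (Set X)), IsOpen C := by
    intro C hC
    simp only [Set.mem_insert_iff, Set.mem_singleton_iff] at hC
    rcases hC with rfl | rfl
    · exact h₁
    · exact h₂
  have hcov : ∀ x : X, ∃ C ∈ ({O₁, O₂} : Set (Set X)), x ∈ C := by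
    intro x
    rcases hc x with h | h
    · exact ⟨O₁, by simp, h⟩
    · exact ⟨O₂, by simp, h⟩
  have hD : ∀ O ∈ ({O₁, O₂} : Set (Set X)), ∀ c ∈ sup O k, DD {O₁, O₂} k c = 0 := by
    intro O hO c hc
    have h3 := supported_map {σ : Sing X k | Set.range σ ⊆ O} (DD {O₁, O₂} k) ⊥ (by
      intro σ hσ
      rw [DD_single, mm_small _ σ ⟨O, hO, hσ⟩, Finset.sum_range_zero]
      exact Submodule.zero_mem _) c hc
    rwa [Submodule.mem_bot] at h3
  obtain ⟨c, rfl⟩ := red_surj (k + 1) t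
  obtain ⟨a₁, ha₁, a₂, ha₂, ha⟩ := ht
  obtain ⟨c₁, hc₁, rfl⟩ := sp_lift ha₁
  obtain ⟨c₂, hc₂, rfl⟩ := sp_lift ha₂
  rw [← red_sbd] at ha
  obtain ⟨e, he⟩ := red_ker k (sbd X k c - (c₁ + c₂)) (by rw [map_sub, map_add, ha, sub_self])
  have he' : sbd X k c = (c₁ + c₂) + (2 : ℤ) • e := by
    rw [← he]
    abel
  have hDD : DD {O₁, O₂} k (sbd X k c) = (2 : ℤ) • DD {O₁, O₂} k e := by
    rw [he', map_add, map_add, hD O₁ (by simp) c₁ hc₁, hD O₂ (by simp) c₂ hc₂, map_smul]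
    simp
  have hr := rho_succ ({O₁, O₂} : Set (Set X)) k c
  have hsm := rho_small {O₁, O₂} hopen hcov (k + 1) c
  refine ⟨red X (k + 1) (res O₁ (k + 1) (rho {O₁, O₂} (k + 1) c)), red_mem (res_mem _ _),
    red X (k + 1) (rho {O₁, O₂} (k + 1) c - res O₁ (k + 1) (rho {O₁, O₂} (k + 1) c)),
    red_mem (sub_res_mem O₁ O₂ hsm), red X (k + 2) (DD {O₁, O₂} (k + 1) c), ?_⟩
  rw [← red_sbd, ← map_add, ← map_add, add_sub_cancel, hr, hDD]
  have e1 : c - sbd X (k + 1) (DD {O₁, O₂} (k + 1) c) - (2 : ℤ) • DD {O₁, O₂} k e +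
      sbd X (k + 1) (DD {O₁, O₂} (k + 1) c) = c - (2 : ℤ) • DD {O₁, O₂} k e := by abel
  rw [e1, map_sub, red_two, sub_zero]

/-- small simplices -/
theorem split {O₁ O₂ : Set X} (h₁ : IsOpen O₁) (h₂ : IsOpen O₂) {k : ℕ} (t : C2 X (k + 1))
    (htO : t ∈ sp (O₁ ∪ O₂) (k + 1)) (ht : ∃ a₁ ∈ sp O₁ k, ∃ a₂ ∈ sp O₂ k, bd2 X k t = a₁ + a₂) :
    ∃ t₁ ∈ sp O₁ (k + 1), ∃ t₂ ∈ sp O₂ (k + 1), ∃ v, t = t₁ + t₂ + bd2 X (k + 1) v := by
  obtain ⟨t', rfl⟩ := exists_lift2 htO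
  obtain ⟨a₁, ha₁, a₂, ha₂, ha⟩ := ht
  obtain ⟨b₁, hb₁⟩ := exists_lift2 (sp_mono Set.subset_union_left k ha₁ : a₁ ∈ sp (O₁ ∪ O₂) k)
  obtain ⟨b₂, hb₂⟩ := exists_lift2 (sp_mono Set.subset_union_right k ha₂ : a₂ ∈ sp (O₁ ∪ O₂) k)
  have hinj := inc_injective (O₁ ∪ O₂)
  have hb : bd2 _ k t' = b₁ + b₂ := by
    apply psh2_injective _ hinj k
    rw [← bd2_psh2, ha, map_add, hb₁, hb₂]
  obtain ⟨t₁, ht₁, t₂, ht₂, v, hv⟩ := split_univ (O₁ := inc (O₁ ∪ O₂) ⁻¹' O₁)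
    (O₂ := inc (O₁ ∪ O₂) ⁻¹' O₂) (h₁.preimage (inc (O₁ ∪ O₂)).continuous)
    (h₂.preimage (inc (O₁ ∪ O₂)).continuous) (fun x => x.2) t'
    ⟨b₁, psh2_mem_inv _ hinj (by rwa [hb₁]), b₂, psh2_mem_inv _ hinj (by rwa [hb₂]), hb⟩
  refine ⟨psh2 (inc (O₁ ∪ O₂)) (k + 1) t₁, psh2_mem _ (fun x hx => hx) ht₁,
    psh2 (inc (O₁ ∪ O₂)) (k + 1) t₂, psh2_mem _ (fun x hx => hx) ht₂,
    psh2 (inc (O₁ ∪ O₂)) (k + 2) v, ?_⟩
  rw [hv, map_add, map_add, bd2_psh2]

end Pool.Agent.V7H7.SZ.Sph
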