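import Pool.Agent.V7H7.SZ.Ct1

/-! Relative mod 2 homology of pairs `(X, X - A)`, unions, convex sets. -/

set_option autoImplicit false

namespace Pool.Agent.V7H7.SZ.Sph

open Finsupp Module
open Pool.Agent.H904R2 (Ch IsCyc IsBdy RAcyc psh Pc)
open Pool.Agent.H904R2.Sph (inc inc_injective contr_acyc)
open Pool.Agent.Helper922.HB.Sc (Sing sface slice)

variable {X Y : Type} [TopologicalSpace X] [TopologicalSpace Y]

/-- `z` is homologous to zero modulo the complement of `A` -/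
def Rel {k : ℕ} (z : C2 X (k + 1)) (A : Set X) : Prop :=
  ∃ w : C2 X (k + 2), z - bd2 X (k + 1) w ∈ sp Aᶜ (k + 1)

theorem rel_mono {k : ℕ} {z : C2 X (k + 1)} {A B : Set X} (h : A ⊆ B) (hz : Rel z B) :
    Rel z A := by
  obtain ⟨w, hw⟩ := hz
  exact ⟨w, sp_mono (Set.compl_subset_compl.2 h) _ hw⟩

theorem rel_empty {k : ℕ} (z : C2 X (k + 1)) : Rel z (∅ : Set X) := by
  refine ⟨0, ?_⟩
  rw [Set.compl_empty]
  exact mem_sp_univ _

theorem rel_union {A B : Set X} (hA : IsClosed A) (hB : IsClosed B) {k : ℕ} {z : C2 X (k + 1)}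
    (h1 : Rel z A) (h2 : Rel z B)
    (hP : ∀ u : C2 X (k + 2), bd2 X (k + 1) u ∈ sp (A ∩ B)ᶜ (k + 1) → Rel u (A ∩ B)) :
    Rel z (A ∪ B) := by
  obtain ⟨w1, h1⟩ := h1
  obtain ⟨w2, h2⟩ := h2
  have hu : bd2 X (k + 1) (w2 - w1) =
      (z - bd2 X (k + 1) w1) + -(z - bd2 X (k + 1) w2) := by
    rw [map_sub]
    abel
  have hm : bd2 X (k + 1) (w2 - w1) ∈ sp (A ∩ B)ᶜ (k + 1) := by
    rw [hu]
    exact Submodule.add_mem _ (sp_mono (Set.compl_subset_compl.2 Set.inter_subset_left) _ h1)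
      (Submodule.neg_mem _ (sp_mono (Set.compl_subset_compl.2 Set.inter_subset_right) _ h2))
  obtain ⟨v, hv⟩ := hP _ hm
  have hbt : bd2 X (k + 1) (w2 - w1 - bd2 X (k + 2) v) =
      (z - bd2 X (k + 1) w1) + -(z - bd2 X (k + 1) w2) := by
    rw [map_sub, bd2_bd2, sub_zero, hu]
  rw [Set.compl_inter] at hv
  obtain ⟨t1, ht1, t2, ht2, v', hv'⟩ := split hA.isOpen_compl hB.isOpen_compl _ hv
    ⟨_, h1, _, Submodule.neg_mem _ h2, hbt⟩
  rw [hv', map_add, map_add, bd2_bd2, add_zero] at hbt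
  refine ⟨w1 + t1, ?_⟩
  have e1 : z - bd2 X (k + 1) (w1 + t1) = (z - bd2 X (k + 1) w1) - bd2 X (k + 1) t1 := by
    rw [map_add]
    abel
  have e2 : z - bd2 X (k + 1) (w1 + t1) = (z - bd2 X (k + 1) w2) + bd2 X (k + 1) t2 := by
    have h3 : bd2 X (k + 1) t2 = (z - bd2 X (k + 1) w1) + -(z - bd2 X (k + 1) w2) -
        bd2 X (k + 1) t1 := by
      rw [← hbt]
      abel
    rw [h3, map_add]
    abel
  rw [Set.compl_union]
  apply sp_inter
  · rw [e1]
    exact Submodule.sub_mem _ h1 (bd2_mem ht1)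
  · rw [e2]
    exact Submodule.add_mem _ h2 (bd2_mem ht2)

/-- vanishing above the dimension -/
def PP (n : ℕ) (A : Set X) : Prop :=
  ∀ k, n + 1 ≤ k → ∀ z : C2 X (k + 1), bd2 X k z ∈ sp Aᶜ k → Rel z A

/-- detection by points in the top dimension -/
def QQ (n : ℕ) (A : Set X) : Prop :=
  ∀ z : C2 X (n + 1), bd2 X n z ∈ sp Aᶜ n → (∀ x ∈ A, Rel z {x}) → Rel z A

/-- both -/
def PQ (n : ℕ) (A : Set X) : Prop := PP n A ∧ QQ n A

theorem pq_empty (n : ℕ) : PQ n (∅ : Set X) :=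
  ⟨fun _ _ z _ => rel_empty z, fun z _ _ => rel_empty z⟩

theorem pq_union {n : ℕ} {A B : Set X} (hA : IsClosed A) (hB : IsClosed B) (h1 : PQ n A)
    (h2 : PQ n B) (h3 : PP n (A ∩ B)) : PQ n (A ∪ B) := by
  have hsA : ∀ k, sp (A ∪ B)ᶜ k ≤ sp Aᶜ k := fun k =>
    sp_mono (Set.compl_subset_compl.2 Set.subset_union_left) k
  have hsB : ∀ k, sp (A ∪ B)ᶜ k ≤ sp Bᶜ k := fun k =>
    sp_mono (Set.compl_subset_compl.2 Set.subset_union_right) k
  refine ⟨fun k hk z hz => ?_, fun z hz hx => ?_⟩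
  · exact rel_union hA hB (h1.1 k hk z (hsA k hz)) (h2.1 k hk z (hsB k hz))
      (fun u hu => h3 (k + 1) (by omega) u hu)
  · exact rel_union hA hB (h1.2 z (hsA n hz) (fun x hx' => hx x (Or.inl hx')))
      (h2.2 z (hsB n hz) (fun x hx' => hx x (Or.inr hx')))
      (fun u hu => h3 (n + 1) le_rfl u hu)

theorem bound2 {k : ℕ} (hN : NT X k) (hA : RAcyc X (k + 1)) (z : C2 X (k + 1))
    (hz : bd2 X k z = 0) : ∃ w, bd2 X (k + 1) w = z := by
  obtain ⟨c, rfl, hc⟩ := lift_cyc hN z hz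
  obtain ⟨w, hw⟩ := hA c hc
  exact ⟨red X (k + 2) w, by rw [← red_sbd, hw]⟩

/-- Euclidean space -/
abbrev V (n : ℕ) : Type := Fin (n + 1) → ℝ

theorem acyc_V (n k : ℕ) : RAcyc (V n) k := by
  refine contr_acyc (⟨fun p => (1 - (p.2 : ℝ)) • p.1, ?_⟩ : C(V n × unitInterval, V n)) 0 ?_ ?_ k
  · have h1 : Continuous (fun p : V n × unitInterval => (p.2 : ℝ)) :=
      continuous_subtype_val.comp continuous_snd
    exact (continuous_const.sub h1).smul continuous_fst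
  · apply ContinuousMap.ext
    intro v
    change (1 - ((0 : unitInterval) : ℝ)) • v = v
    simp
  · apply ContinuousMap.ext
    intro v
    change (1 - ((1 : unitInterval) : ℝ)) • v = 0
    simp

theorem bound_V {n k : ℕ} (z : C2 (V n) (k + 1)) (hz : bd2 _ k z = 0) :
    ∃ w, bd2 _ (k + 1) w = z :=
  bound2 (nt_of_acyc (acyc_V n k)) (acyc_V n (k + 1)) z hz

/-- punctured Euclidean space is acyclic in degrees `≥ n + 1` -/
theorem bound_compl {n k : ℕ} (hk : n ≤ k) (x : V n) {z : C2 (V n) (k + 1)}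
    (hz : z ∈ sp {x}ᶜ (k + 1)) (hb : bd2 _ k z = 0) :
    ∃ q ∈ sp {x}ᶜ (k + 2), bd2 (V n) (k + 1) q = z := by
  obtain ⟨z', rfl⟩ := exists_lift2 hz
  have hb' : bd2 _ k z' = 0 := by
    apply psh2_injective _ (inc_injective _) k
    rw [← bd2_psh2, hb, map_zero]
  let f : C(({x}ᶜ : Set (V n)), Pc (n + 1)) :=
    ⟨fun v => ⟨v.1 - x, fun h => v.2 (sub_eq_zero.1 h)⟩,
      (continuous_subtype_val.sub continuous_const).subtype_mk _⟩
  let g : C(Pc (n + 1), ({x}ᶜ : Set (V n))) :=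
    ⟨fun v => ⟨v.1 + x, fun h => v.2 (by
      have h2 : v.1 + x = x := h
      simpa using h2)⟩,
      (continuous_subtype_val.add continuous_const).subtype_mk _⟩
  have hgf : g.comp f = ContinuousMap.id _ := by
    apply ContinuousMap.ext
    intro v
    apply Subtype.ext
    change v.1 - x + x = v.1
    abel
  obtain ⟨w, hw⟩ := bound2 ((hs_pc n).nt k) ((hs_pc n).ac (k + 1) (by omega)) (psh2 f (k + 1) z')
    (by rw [bd2_psh2, hb', map_zero])
  refine ⟨psh2 (inc _) (k + 2) (psh2 g (k + 2) w), psh2_inc_mem _ _, ?_⟩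
  rw [bd2_psh2, bd2_psh2, hw, psh2_comp f g, hgf, psh2_id]

/-- the boundary of a chain, seen in a subspace, is compatible with homotopies -/
theorem homotopy_bd {A : Set X} (H : C(A × unitInterval, A)) {k : ℕ} (z : C2 X (k + 1))
    (b : C2 A k) (hb : psh2 (inc A) k b = bd2 X k z) :
    ∃ w, bd2 A k w = psh2 (slice H 1) k b - psh2 (slice H 0) k b := by
  cases k with
  | zero => exact homotopy2_zero H b
  | succ k =>
    apply homotopy2_succ H b
    apply psh2_injective _ (inc_injective _) k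
    rw [← bd2_psh2, hb, bd2_bd2, map_zero]

/-- radial expansion -/
noncomputable def rad {n : ℕ} (x : V n) (R : ℝ) (t : ℝ) (v : V n) : V n :=
  v + (t * (R / ‖v - x‖)) • (v - x)

theorem rad_sub {n : ℕ} (x : V n) (R t : ℝ) (v : V n) :
    rad x R t v - x = (1 + t * (R / ‖v - x‖)) • (v - x) := by
  unfold rad
  rw [add_smul, one_smul]
  abel

theorem rad_not_mem {n : ℕ} {A : Set (V n)} (hA : Convex ℝ A) {x : V n} (hx : x ∈ A) {R t : ℝ}
    (hR : 0 ≤ R) (ht : 0 ≤ t) {v : V n} (hv : v ∉ A) : rad x R t v ∉ A := by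
  intro h
  apply hv
  have hne : v - x ≠ 0 := fun h0 => hv (by rw [sub_eq_zero.1 h0]; exact hx)
  have hpos : 0 < ‖v - x‖ := norm_pos_iff.2 hne
  have hc : 0 ≤ t * (R / ‖v - x‖) := mul_nonneg ht (div_nonneg hR hpos.le)
  have h1 : 0 < 1 + t * (R / ‖v - x‖) := by linarith
  have h2 := hA hx h (a := 1 - (1 + t * (R / ‖v - x‖))⁻¹) (b := (1 + t * (R / ‖v - x‖))⁻¹)
    (by
      have h3 : (1 + t * (R / ‖v - x‖))⁻¹ ≤ 1 := inv_le_one_of_one_le₀ (by linarith)
      linarith) (inv_nonneg.2 h1.le) (by ring)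
  have h4 : (1 - (1 + t * (R / ‖v - x‖))⁻¹) • x + (1 + t * (R / ‖v - x‖))⁻¹ • rad x R t v = v := by
    have h5 : rad x R t v = x + (1 + t * (R / ‖v - x‖)) • (v - x) := by
      rw [← rad_sub]
      abel
    rw [h5, smul_add, smul_smul, inv_mul_cancel₀ h1.ne', one_smul, sub_smul, one_smul]
    abel
  rw [h4] at h2
  exact h2

theorem rad_far {n : ℕ} {A : Set (V n)} {x : V n} {R : ℝ} (hR0 : 0 ≤ R)
    (hR : ∀ y ∈ A, ‖y - x‖ ≤ R) {v : V n} (hv : v ≠ x) : rad x R 1 v ∉ A := by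
  intro h
  have hpos : 0 < ‖v - x‖ := norm_pos_iff.2 (sub_ne_zero.2 hv)
  have h1 := hR _ h
  have hc : 0 ≤ R / ‖v - x‖ := div_nonneg hR0 hpos.le
  rw [rad_sub, one_mul, norm_smul, Real.norm_eq_abs, abs_of_nonneg (by linarith), add_mul, one_mul,
    div_mul_cancel₀ _ hpos.ne'] at h1
  linarith

theorem continuous_rad {n : ℕ} (x : V n) (R : ℝ) {T : Type} [TopologicalSpace T] (f : T → V n)
    (t : T → ℝ) (hf : Continuous f) (ht : Continuous t) (hne : ∀ s, f s ≠ x) :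
    Continuous (fun s => rad x R (t s) (f s)) := by
  unfold rad
  have h1 : Continuous (fun s => ‖f s - x‖) := (hf.sub continuous_const).norm
  have h2 : Continuous (fun s => R / ‖f s - x‖) :=
    continuous_const.div h1 (fun s => norm_ne_zero_iff.2 (sub_ne_zero.2 (hne s)))
  exact hf.add ((ht.mul h2).smul (hf.sub continuous_const))

/-- convex compact sets: a relative cycle is null modulo the complement if its boundary bounds in
the complement of one point -/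
theorem base {n : ℕ} {A : Set (V n)} (hA : Convex ℝ A) (hAc : IsCompact A) {x : V n} (hx : x ∈ A)
    {k : ℕ} (z q : C2 (V n) (k + 1)) (hz : bd2 _ k z ∈ sp Aᶜ k) (hq : q ∈ sp {x}ᶜ (k + 1))
    (hqz : bd2 _ k q = bd2 _ k z) : Rel z A := by
  obtain ⟨R, hR0, hR⟩ : ∃ R : ℝ, 0 ≤ R ∧ ∀ y ∈ A, ‖y - x‖ ≤ R := by
    obtain ⟨R, hR⟩ := hAc.isBounded.subset_closedBall x
    refine ⟨max R 0, le_max_right _ _, fun y hy => ?_⟩
    have := hR hy
    rw [Metric.mem_closedBall, dist_eq_norm] at this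
    exact this.trans (le_max_left _ _)
  have hAx : ∀ v : (Aᶜ : Set (V n)), v.1 ≠ x := fun v h => v.2 (by rw [h]; exact hx)
  -- the homotopy
  let H : C((Aᶜ : Set (V n)) × unitInterval, (Aᶜ : Set (V n))) :=
    ⟨fun p => ⟨rad x R p.2 p.1.1, rad_not_mem hA hx hR0 p.2.2.1 p.1.2⟩,
      (continuous_rad x R (fun p : (Aᶜ : Set (V n)) × unitInterval => p.1.1) (fun p => (p.2 : ℝ))
        (continuous_subtype_val.comp continuous_fst) (continuous_subtype_val.comp continuous_snd)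
        (fun p => hAx p.1)).subtype_mk _⟩
  let g : C(({x}ᶜ : Set (V n)), (Aᶜ : Set (V n))) :=
    ⟨fun v => ⟨rad x R 1 v.1, rad_far hR0 hR v.2⟩,
      (continuous_rad x R (fun v : ({x}ᶜ : Set (V n)) => v.1) (fun _ => 1)
        continuous_subtype_val continuous_const (fun v => v.2)).subtype_mk _⟩
  let i : C((Aᶜ : Set (V n)), ({x}ᶜ : Set (V n))) :=
    ⟨fun v => ⟨v.1, hAx v⟩, continuous_subtype_val.subtype_mk _⟩
  have hH0 : slice H 0 = ContinuousMap.id _ := by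
    apply ContinuousMap.ext
    intro v
    apply Subtype.ext
    change rad x R ((0 : unitInterval) : ℝ) v.1 = v.1
    unfold rad
    simp
  have hH1 : slice H 1 = g.comp i := by
    apply ContinuousMap.ext
    intro v
    apply Subtype.ext
    rfl
  obtain ⟨b, hb⟩ := exists_lift2 hz
  obtain ⟨q', hq'⟩ := exists_lift2 hq
  obtain ⟨w0, hw0⟩ := homotopy_bd H z b hb
  have hbq : bd2 _ k q' = psh2 i k b := by
    apply psh2_injective _ (inc_injective _) k
    rw [← bd2_psh2, hq', hqz, ← hb, psh2_comp]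
    rfl
  have hb2 : b = bd2 _ k (psh2 g (k + 1) q' - w0) := by
    rw [map_sub, bd2_psh2, hbq, hw0, hH0, hH1, psh2_id, psh2_comp]
    abel
  obtain ⟨w, hw⟩ := bound_V (z - psh2 (inc (Aᶜ : Set (V n))) (k + 1) (psh2 g (k + 1) q' - w0)) (by
    rw [map_sub, bd2_psh2, ← hb2, hb, sub_self])
  refine ⟨w, ?_⟩
  rw [hw, sub_sub_cancel]
  exact psh2_inc_mem _ _

theorem rel_ball {n : ℕ} {A : Set (V n)} (hA : Convex ℝ A) (hAc : IsCompact A) {x : V n}
    (hx : x ∈ A) {k : ℕ} (z : C2 (V n) (k + 1)) (hz : bd2 _ k z ∈ sp Aᶜ k) (h : Rel z {x}) :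
    Rel z A := by
  obtain ⟨w, hw⟩ := h
  refine base hA hAc hx z _ hz hw ?_
  rw [map_sub, bd2_bd2, sub_zero]

theorem pq_conv {n : ℕ} {A : Set (V n)} (hA : Convex ℝ A) (hAc : IsCompact A) : PQ n A := by
  rcases A.eq_empty_or_nonempty with rfl | ⟨x, hx⟩
  · exact pq_empty n
  · refine ⟨fun k hk z hz => ?_, fun z hz h => rel_ball hA hAc hx z hz (h x hx)⟩
    obtain ⟨k, rfl⟩ : ∃ j, k = j + 1 := ⟨k - 1, by omega⟩
    obtain ⟨q, hq, hqz⟩ := bound_compl (n := n) (k := k) (by omega) x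
      (sp_mono (Set.compl_subset_compl.2 (Set.singleton_subset_iff.2 hx)) _ hz) (bd2_bd2 _ _)
    exact base hA hAc hx z q hz hq hqz

end Pool.Agent.V7H7.SZ.Sph
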