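import Pool.Agent.V7H7.SZ.Ct2

/-! Compact sets in Euclidean space and in locally Euclidean spaces. -/

set_option autoImplicit false

namespace Pool.Agent.V7H7.SZ.Sph

open Finsupp Module
open Pool.Agent.H904R2.Sph (inc inc_injective)
open Pool.Agent.Helper922.HB.Sc (Sing sface slice)

variable {X Y : Type} [TopologicalSpace X] [TopologicalSpace Y]

/-- union of a list of sets -/
def UU {α : Type} (l : List (Set α)) : Set α := l.foldr (fun A B => A ∪ B) ∅

theorem UU_cons {α : Type} (A : Set α) (l : List (Set α)) : UU (A :: l) = A ∪ UU l := rfl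

theorem mem_UU {α : Type} {l : List (Set α)} {x : α} : x ∈ UU l ↔ ∃ A ∈ l, x ∈ A := by
  induction l with
  | nil =>
    change x ∈ (∅ : Set α) ↔ _
    simp
  | cons A l ih =>
    rw [UU_cons, Set.mem_union, ih]
    simp

theorem inter_UU {α : Type} (B : Set α) (l : List (Set α)) :
    B ∩ UU l = UU (l.map (fun A => B ∩ A)) := by
  ext x
  rw [Set.mem_inter_iff, mem_UU, mem_UU]
  constructor
  · rintro ⟨h, A, hA, hx⟩
    exact ⟨B ∩ A, List.mem_map.2 ⟨A, hA, rfl⟩, h, hx⟩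
  · rintro ⟨C, hC, hx⟩
    obtain ⟨A, hA, rfl⟩ := List.mem_map.1 hC
    exact ⟨hx.1, A, hA, hx.2⟩

theorem compact_UU {l : List (Set X)} (h : ∀ A ∈ l, IsCompact A) : IsCompact (UU l) := by
  induction l with
  | nil => exact isCompact_empty
  | cons A l ih =>
    rw [UU_cons]
    exact (h A (by simp)).union (ih fun B hB => h B (List.mem_cons_of_mem _ hB))

theorem pq_list {n : ℕ} (N : ℕ) : ∀ l : List (Set (V n)), l.length = N →
    (∀ A ∈ l, Convex ℝ A ∧ IsCompact A) → PQ n (UU l) := by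
  induction N with
  | zero =>
    intro l hl _
    rw [List.length_eq_zero_iff.1 hl]
    exact pq_empty n
  | succ N ih =>
    intro l hl h
    obtain ⟨A, l, rfl⟩ := List.exists_cons_of_length_eq_add_one hl
    have hA := h A (by simp)
    have hl' : ∀ B ∈ l, Convex ℝ B ∧ IsCompact B := fun B hB => h B (List.mem_cons_of_mem _ hB)
    rw [UU_cons]
    have hlen : l.length = N := by simpa using hl
    refine pq_union hA.2.isClosed (compact_UU fun B hB => (hl' B hB).2).isClosed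
      (pq_conv hA.1 hA.2) (ih l hlen hl') ?_
    rw [inter_UU]
    refine (ih (l.map (fun B => A ∩ B)) (by rw [List.length_map, hlen]) ?_).1
    intro C hC
    obtain ⟨B, hB, rfl⟩ := List.mem_map.1 hC
    exact ⟨hA.1.inter (hl' B hB).1, hA.2.inter_right (hl' B hB).2.isClosed⟩

/-- the carrier of a chain -/
def car {m : ℕ} (z : C2 X m) : Set X := ⋃ σ ∈ z.support, Set.range σ

theorem mem_sp_iff {m : ℕ} {z : C2 X m} {O : Set X} : z ∈ sp O m ↔ car z ⊆ O := by
  unfold sp car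
  rw [Finsupp.mem_supported, Set.iUnion₂_subset_iff]
  rfl

theorem compact_car {m : ℕ} (z : C2 X m) : IsCompact (car z) := by
  unfold car
  refine z.support.finite_toSet.isCompact_biUnion fun σ _ => ?_
  exact isCompact_range σ.continuous

theorem cover_balls {n : ℕ} {A C : Set (V n)} (hA : IsCompact A) (hC : IsClosed C)
    (h : A ⊆ Cᶜ) : ∃ l : List (Set (V n)), (∀ B ∈ l, Convex ℝ B ∧ IsCompact B ∧
      B ⊆ Cᶜ ∧ ∃ a ∈ A, a ∈ B) ∧ A ⊆ UU l := by
  have h1 : ∀ a ∈ A, ∃ ε : ℝ, 0 < ε ∧ Metric.closedBall a ε ⊆ Cᶜ := by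
    intro a ha
    exact Metric.nhds_basis_closedBall.mem_iff.1 (hC.isOpen_compl.mem_nhds (h ha))
  choose! ε hε hεC using h1
  obtain ⟨t, ht, htA⟩ := hA.elim_nhds_subcover (fun a => Metric.closedBall a (ε a))
    (fun a ha => Metric.closedBall_mem_nhds a (hε a ha))
  refine ⟨t.toList.map (fun a => Metric.closedBall a (ε a)), ?_, ?_⟩
  · intro B hB
    obtain ⟨a, ha, rfl⟩ := List.mem_map.1 hB
    have ha' := ht a (Finset.mem_toList.1 ha)
    exact ⟨convex_closedBall a _, isCompact_closedBall a _, hεC a ha', a, ha',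
      Metric.mem_closedBall_self (hε a ha').le⟩
  · intro x hx
    obtain ⟨a, ha, hxa⟩ := Set.mem_iUnion₂.1 (htA hx)
    exact mem_UU.2 ⟨_, List.mem_map.2 ⟨a, Finset.mem_toList.2 ha, rfl⟩, hxa⟩

theorem pq_compact_V {n : ℕ} {A : Set (V n)} (hA : IsCompact A) : PQ n A := by
  have key : ∀ {k : ℕ} (z : C2 (V n) (k + 1)), bd2 _ k z ∈ sp Aᶜ k →
      ∃ l : List (Set (V n)), (∀ B ∈ l, Convex ℝ B ∧ IsCompact B ∧
        bd2 _ k z ∈ sp Bᶜ k ∧ ∃ a ∈ A, a ∈ B) ∧ A ⊆ UU l ∧ bd2 _ k z ∈ sp (UU l)ᶜ k := by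
    intro k z hz
    rw [mem_sp_iff] at hz
    obtain ⟨l, hl, hAl⟩ := cover_balls hA (compact_car (bd2 _ k z)).isClosed
      (Set.subset_compl_comm.1 hz)
    refine ⟨l, fun B hB => ⟨(hl B hB).1, (hl B hB).2.1, ?_, (hl B hB).2.2.2⟩, hAl, ?_⟩
    · rw [mem_sp_iff]
      exact Set.subset_compl_comm.1 (hl B hB).2.2.1
    · rw [mem_sp_iff]
      intro x hx hx'
      obtain ⟨B, hB, hxB⟩ := mem_UU.1 hx'
      exact (hl B hB).2.2.1 hxB hx
  refine ⟨fun k hk z hz => ?_, fun z hz hx => ?_⟩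
  · obtain ⟨l, hl, hAl, hzl⟩ := key z hz
    exact rel_mono hAl ((pq_list _ l rfl fun B hB => ⟨(hl B hB).1, (hl B hB).2.1⟩).1 k hk z hzl)
  · obtain ⟨l, hl, hAl, hzl⟩ := key z hz
    refine rel_mono hAl ((pq_list _ l rfl fun B hB => ⟨(hl B hB).1, (hl B hB).2.1⟩).2 z hzl ?_)
    intro x hxl
    obtain ⟨B, hB, hxB⟩ := mem_UU.1 hxl
    obtain ⟨hBc, hBk, hzB, a, ha, haB⟩ := hl B hB
    exact rel_mono (Set.singleton_subset_iff.2 hxB) (rel_ball hBc hBk haB z hzB (hx a ha))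

/-- transport to a chart -/
theorem chart {n : ℕ} {U A : Set X} (hU : IsOpen U) (hA : IsClosed A) (hAU : A ⊆ U)
    (j : C(V n, X)) (e : C(U, V n)) (hj : Function.Injective j) (hje : j.comp e = inc U)
    (hjU : ∀ v, j v ∈ U) {k : ℕ} (z : C2 X (k + 1)) (hz : bd2 _ k z ∈ sp Aᶜ k) :
    ∃ z' : C2 (V n) (k + 1), bd2 _ k z' ∈ sp (j ⁻¹' A)ᶜ k ∧
      ∀ B : Set X, IsClosed B → B ⊆ A → (Rel z B ↔ Rel z' (j ⁻¹' B)) := by
  have lift : ∀ {m : ℕ} {c : C2 X m}, c ∈ sp U m → ∃ c' : C2 (V n) m, psh2 j m c' = c := by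
    intro m c hc
    obtain ⟨c', rfl⟩ := exists_lift2 hc
    exact ⟨psh2 e m c', by rw [psh2_comp, hje]⟩
  obtain ⟨z1, hz1, z2, hz2, v, hv⟩ := split_univ hU hA.isOpen_compl
    (fun x => by
      by_cases h : x ∈ A
      · exact Or.inl (hAU h)
      · exact Or.inr h) z ⟨0, Submodule.zero_mem _, _, hz, by rw [zero_add]⟩
  obtain ⟨z', rfl⟩ := lift hz1
  have hbz1 : bd2 _ k (psh2 j (k + 1) z') ∈ sp Aᶜ k := by
    have h1 : bd2 _ k (psh2 j (k + 1) z') = bd2 _ k z - bd2 _ k z2 := by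
      rw [hv, map_add, map_add, bd2_bd2]
      abel
    rw [h1]
    exact Submodule.sub_mem _ hz (bd2_mem hz2)
  refine ⟨z', ?_, fun B hB hBA => ⟨fun h => ?_, fun h => ?_⟩⟩
  · rw [bd2_psh2] at hbz1
    exact psh2_mem_inv j hj hbz1
  · obtain ⟨w, hw⟩ := h
    have hs : psh2 j (k + 1) z' - bd2 _ (k + 1) (w - v) ∈ sp Bᶜ (k + 1) := by
      have h1 : psh2 j (k + 1) z' - bd2 _ (k + 1) (w - v) = (z - bd2 _ (k + 1) w) - z2 := by
        rw [hv, map_sub]
        abel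
      rw [h1]
      exact Submodule.sub_mem _ hw (sp_mono (Set.compl_subset_compl.2 hBA) _ hz2)
    obtain ⟨u1, hu1, u2, hu2, v', hv'⟩ := split_univ hU hB.isOpen_compl
      (fun x => by
        by_cases h : x ∈ B
        · exact Or.inl (hAU (hBA h))
        · exact Or.inr h) (w - v) ⟨_, hz1, _, Submodule.neg_mem _ hs, by abel⟩
    obtain ⟨u', rfl⟩ := lift hu1
    refine ⟨u', ?_⟩
    apply psh2_mem_inv j hj (O' := Bᶜ)
    have h2 : psh2 j (k + 1) (z' - bd2 _ (k + 1) u') =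
        (psh2 j (k + 1) z' - bd2 _ (k + 1) (w - v)) + bd2 _ (k + 1) u2 := by
      rw [hv', map_add, map_add, bd2_bd2, add_zero, map_sub, ← bd2_psh2]
      abel
    rw [h2]
    exact Submodule.add_mem _ hs (bd2_mem hu2)
  · obtain ⟨w', hw'⟩ := h
    refine ⟨psh2 j (k + 2) w' + v, ?_⟩
    have h1 : z - bd2 _ (k + 1) (psh2 j (k + 2) w' + v) =
        psh2 j (k + 1) (z' - bd2 _ (k + 1) w') + z2 := by
      rw [hv, map_sub, map_add, bd2_psh2]
      abel
    rw [h1]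
    exact Submodule.add_mem _ (psh2_mem j (O := (j ⁻¹' B)ᶜ) (O' := Bᶜ) (fun x hx => hx) hw')
      (sp_mono (Set.compl_subset_compl.2 hBA) _ hz2)

/-- charts onto Euclidean space -/
structure Ch1 (n : ℕ) (X : Type) [TopologicalSpace X] where
  U : Set X
  hU : IsOpen U
  j : C(V n, X)
  e : C(U, V n)
  hj : Function.Injective j
  hje : j.comp e = inc U
  hjU : ∀ v, j v ∈ U

theorem Ch1.ej {n : ℕ} (c : Ch1 n X) (v : V n) (h : c.j v ∈ c.U) : c.e ⟨c.j v, h⟩ = v := by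
  apply c.hj
  exact congrArg (fun f : C(c.U, X) => f ⟨c.j v, h⟩) c.hje

theorem Ch1.compact_preimage {n : ℕ} (c : Ch1 n X) {A : Set X} (hA : IsCompact A)
    (hAU : A ⊆ c.U) : IsCompact (c.j ⁻¹' A) := by
  have h1 : IsCompact ((Subtype.val : c.U → X) ⁻¹' A) := by
    rw [Subtype.isCompact_iff, Subtype.image_preimage_coe, Set.inter_eq_right.2 hAU]
    exact hA
  have h2 : c.j ⁻¹' A = c.e '' ((Subtype.val : c.U → X) ⁻¹' A) := by
    ext v
    constructor
    · intro hv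
      exact ⟨⟨c.j v, hAU hv⟩, hv, c.ej v _⟩
    · rintro ⟨u, hu, rfl⟩
      have h3 : c.j (c.e u) = u.1 := congrArg (fun f : C(c.U, X) => f u) c.hje
      change c.j (c.e u) ∈ A
      rw [h3]
      exact hu
  rw [h2]
  exact h1.image c.e.continuous

theorem pq_chart {n : ℕ} [T2Space X] (c : Ch1 n X) {A : Set X} (hA : IsCompact A)
    (hAU : A ⊆ c.U) : PQ n A := by
  have hV := pq_compact_V (c.compact_preimage hA hAU)
  refine ⟨fun k hk z hz => ?_, fun z hz hx => ?_⟩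
  · obtain ⟨z', hz', h⟩ := chart c.hU hA.isClosed hAU c.j c.e c.hj c.hje c.hjU z hz
    exact (h A hA.isClosed subset_rfl).2 (hV.1 k hk z' hz')
  · obtain ⟨z', hz', h⟩ := chart c.hU hA.isClosed hAU c.j c.e c.hj c.hje c.hjU z hz
    refine (h A hA.isClosed subset_rfl).2 (hV.2 z' hz' fun v hv => ?_)
    have h1 := (h {c.j v} isClosed_singleton (Set.singleton_subset_iff.2 hv)).1 (hx _ hv)
    have h2 : c.j ⁻¹' {c.j v} = {v} := by
      ext w
      exact c.hj.eq_iff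
    rwa [h2] at h1

/-- local constancy -/
theorem rel_chart_ball {n : ℕ} [T2Space X] (c : Ch1 n X) {B : Set (V n)} (hB : Convex ℝ B)
    (hBc : IsCompact B) {v : V n} (hv : v ∈ B) {k : ℕ} (z : C2 X (k + 1)) (hz : bd2 _ k z = 0)
    (h : Rel z {c.j v}) : Rel z (c.j '' B) := by
  have hAc : IsCompact (c.j '' B) := hBc.image c.j.continuous
  obtain ⟨z', hz', h'⟩ := chart c.hU hAc.isClosed (by
    rintro _ ⟨w, _, rfl⟩
    exact c.hjU w) c.j c.e c.hj c.hje c.hjU z (by rw [hz]; exact Submodule.zero_mem _)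
  have h1 := (h' {c.j v} isClosed_singleton (Set.singleton_subset_iff.2 ⟨v, hv, rfl⟩)).1 h
  have h2 : c.j ⁻¹' {c.j v} = {v} := by
    ext w
    exact c.hj.eq_iff
  rw [h2] at h1
  have h3 : c.j ⁻¹' (c.j '' B) = B := Set.preimage_image_eq B c.hj
  rw [h3] at hz'
  have h4 := (h' _ hAc.isClosed subset_rfl).2
  rw [h3] at h4
  exact h4 (rel_ball hB hBc hv z' hz' h1)

end Pool.Agent.V7H7.SZ.Sph
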