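import Pool.Agent.V7H7.SZ.Ct3

/-! The top cohomology of non compact connected manifolds vanishes. -/

set_option autoImplicit false

namespace Pool.Agent.V7H7.SZ.Sph

open Finsupp Module Topology
open Pool.Agent.H904R2.Sph (inc inc_injective)
open Pool.Agent.Helper922.HB.Sc (Sing sface slice altd ev_altd)
open Pool.Agent.Helper381 (SingularCohomology cocycles coboundaries)

variable {X Y : Type} [TopologicalSpace X] [TopologicalSpace Y]

/-- locally Euclidean spaces -/
def LE (n : ℕ) (X : Type) [TopologicalSpace X] : Prop := ∀ x : X, ∃ c : Ch1 n X, ∃ v, c.j v = x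

theorem Ch1.nhd {n : ℕ} (c : Ch1 n X) (v : V n) : c.j '' Metric.closedBall v 1 ∈ 𝓝 (c.j v) := by
  have h1 : IsOpen ((Subtype.val : c.U → X) '' (c.e ⁻¹' Metric.ball v 1)) :=
    c.hU.isOpenMap_subtype_val _ (Metric.isOpen_ball.preimage c.e.continuous)
  have h2 : c.j v ∈ (Subtype.val : c.U → X) '' (c.e ⁻¹' Metric.ball v 1) := by
    refine ⟨⟨c.j v, c.hjU v⟩, ?_, rfl⟩
    rw [Set.mem_preimage, c.ej]
    exact Metric.mem_ball_self one_pos
  refine Filter.mem_of_superset (h1.mem_nhds h2) ?_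
  rintro _ ⟨u, hu, rfl⟩
  have h3 : c.j (c.e u) = u.1 := congrArg (fun f : C(c.U, X) => f u) c.hje
  exact ⟨c.e u, Metric.ball_subset_closedBall hu, h3⟩

theorem pq_list' {n : ℕ} [T2Space X] (l : List (Set X))
    (h : ∀ A ∈ l, IsCompact A ∧ ∃ c : Ch1 n X, A ⊆ c.U) : PQ n (UU l) := by
  induction l with
  | nil => exact pq_empty n
  | cons A l ih =>
    obtain ⟨hA, c, hAc⟩ := h A (by simp)
    have hl : ∀ B ∈ l, IsCompact B ∧ ∃ c : Ch1 n X, B ⊆ c.U :=
      fun B hB => h B (List.mem_cons_of_mem _ hB)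
    have hUl := compact_UU fun B hB => (hl B hB).1
    rw [UU_cons]
    exact pq_union hA.isClosed hUl.isClosed (pq_chart c hA hAc) (ih hl)
      (pq_chart c (hA.inter_right hUl.isClosed) (Set.inter_subset_left.trans hAc)).1

theorem pq_compact {n : ℕ} [T2Space X] (hX : LE n X) {A : Set X} (hA : IsCompact A) : PQ n A := by
  choose c v hv using hX
  obtain ⟨t, -, htA⟩ := hA.elim_nhds_subcover (fun a => (c a).j '' Metric.closedBall (v a) 1)
    (fun a _ => by
      have h1 := (c a).nhd (v a)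
      rwa [hv] at h1)
  have e : A = UU (t.toList.map (fun a => A ∩ (c a).j '' Metric.closedBall (v a) 1)) := by
    ext x
    rw [mem_UU]
    constructor
    · intro hx
      obtain ⟨a, ha, hxa⟩ := Set.mem_iUnion₂.1 (htA hx)
      exact ⟨_, List.mem_map.2 ⟨a, Finset.mem_toList.2 ha, rfl⟩, hx, hxa⟩
    · rintro ⟨B, hB, hx⟩
      obtain ⟨a, -, rfl⟩ := List.mem_map.1 hB
      exact hx.1
  rw [e]
  apply pq_list'
  intro B hB
  obtain ⟨a, -, rfl⟩ := List.mem_map.1 hB
  refine ⟨hA.inter_right ((isCompact_closedBall (v a) 1).image (c a).j.continuous).isClosed,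
    c a, ?_⟩
  rintro _ ⟨-, w, -, rfl⟩
  exact (c a).hjU w

theorem sp_empty {m : ℕ} {z : C2 X m} (hz : z ∈ sp (∅ : Set X) m) : z = 0 := by
  rw [mem_sp_iff] at hz
  by_contra h
  obtain ⟨σ, hσ⟩ := Finsupp.support_nonempty_iff.2 h
  exact hz (Set.mem_biUnion hσ ⟨stdSimplex.vertex 0, rfl⟩)

theorem top_bound {n : ℕ} [T2Space X] (hX : LE n X)
    (hc : ∀ W : Set X, IsOpen W → IsCompact W → W = ∅) (z : C2 X (n + 1)) (hz : bd2 X n z = 0) :
    ∃ w, bd2 X (n + 1) w = z := by
  have hlc : WeaklyLocallyCompactSpace X := ⟨fun x => by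
    obtain ⟨c, v, rfl⟩ := hX x
    exact ⟨_, (isCompact_closedBall v 1).image c.j.continuous, c.nhd v⟩⟩
  have hball : ∀ (c : Ch1 n X) (v w : V n), w ∈ Metric.closedBall v 1 → Rel z {c.j w} →
      ∀ y ∈ c.j '' Metric.closedBall v 1, Rel z {y} := by
    intro c v w hw h y hy
    exact rel_mono (Set.singleton_subset_iff.2 hy)
      (rel_chart_ball c (convex_closedBall v 1) (isCompact_closedBall v 1) hw z hz h)
  have hop : IsOpen {x : X | ¬ Rel z {x}} := by
    rw [isOpen_iff_mem_nhds]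
    intro x hx
    obtain ⟨c, v, rfl⟩ := hX x
    refine Filter.mem_of_superset (c.nhd v) ?_
    rintro _ ⟨w, hw, rfl⟩ hy
    exact hx (hball c v w hw hy _ ⟨v, Metric.mem_closedBall_self zero_le_one, rfl⟩)
  have hcl : IsClosed {x : X | ¬ Rel z {x}} := by
    rw [← isOpen_compl_iff, isOpen_iff_mem_nhds]
    intro x hx
    obtain ⟨c, v, rfl⟩ := hX x
    refine Filter.mem_of_superset (c.nhd v) ?_
    intro y hy hy'
    have hx' : Rel z {c.j v} := not_not.1 hx
    exact hy' (hball c v v (Metric.mem_closedBall_self zero_le_one) hx' y hy)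
  have hsub : {x : X | ¬ Rel z {x}} ⊆ car z := by
    intro x hx
    by_contra h
    apply hx
    refine ⟨0, ?_⟩
    rw [map_zero, sub_zero, mem_sp_iff]
    exact Set.subset_compl_singleton_iff.2 h
  have hemp := hc _ hop ((compact_car z).of_isClosed_subset hcl hsub)
  have hall : ∀ x, Rel z {x} := by
    intro x
    by_contra h
    have h1 : x ∈ {x : X | ¬ Rel z {x}} := h
    rw [hemp] at h1
    exact h1
  obtain ⟨K, hK, hzK⟩ := exists_compact_superset (compact_car z)
  obtain ⟨w, hw⟩ := (pq_compact hX hK).2 z (by rw [hz]; exact Submodule.zero_mem _)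
    (fun x _ => hall x)
  have hzU : z ∈ sp (interior K) (n + 1) := mem_sp_iff.2 hzK
  have hBc : (K \ interior K)ᶜ = interior K ∪ Kᶜ := by
    ext x
    simp only [Set.mem_compl_iff, Set.mem_sdiff, Set.mem_union]
    tauto
  have hbw : bd2 X (n + 1) w = z + -(z - bd2 X (n + 1) w) := by abel
  obtain ⟨w', hw'⟩ := (pq_compact hX (hK.diff isOpen_interior)).1 (n + 1) le_rfl w (by
    rw [hBc, hbw]
    exact Submodule.add_mem _ (sp_mono Set.subset_union_left _ hzU)
      (Submodule.neg_mem _ (sp_mono Set.subset_union_right _ hw)))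
  rw [hBc] at hw'
  obtain ⟨t1, ht1, t2, ht2, v, hv⟩ := split isOpen_interior hK.isClosed.isOpen_compl _ hw'
    ⟨z, hzU, _, Submodule.neg_mem _ hw, by rw [map_sub, bd2_bd2, sub_zero]; exact hbw⟩
  have e1 : bd2 X (n + 1) t1 + bd2 X (n + 1) t2 = z + -(z - bd2 X (n + 1) w) := by
    rw [← hbw]
    have h2 := congrArg (bd2 X (n + 1)) hv
    rw [map_sub, bd2_bd2, sub_zero, map_add, map_add, bd2_bd2, add_zero] at h2
    exact h2.symm
  refine ⟨t1, ?_⟩
  have e2 : bd2 X (n + 1) t1 - z = -(z - bd2 X (n + 1) w) - bd2 X (n + 1) t2 := by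
    rw [sub_eq_iff_eq_add]
    have h3 : bd2 X (n + 1) t1 = z + -(z - bd2 X (n + 1) w) - bd2 X (n + 1) t2 := by
      rw [← e1]
      abel
    rw [h3]
    abel
  have e3 : bd2 X (n + 1) t1 - z ∈ sp (interior K ∩ Kᶜ) (n + 1) := by
    apply sp_inter
    · exact Submodule.sub_mem _ (bd2_mem ht1) hzU
    · rw [e2]
      exact Submodule.sub_mem _ (Submodule.neg_mem _ hw) (bd2_mem ht2)
  have e4 : interior K ∩ Kᶜ = ∅ := by
    ext x
    simp only [Set.mem_inter_iff, Set.mem_compl_iff, Set.mem_empty_iff_false, iff_false, not_and,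
      not_not]
    exact fun h => interior_subset h
  rw [e4] at e3
  exact sub_eq_zero.1 (sp_empty e3)

theorem coh_of_bound {k : ℕ} (h : ∀ z : C2 X (k + 1), bd2 X k z = 0 → ∃ w, bd2 X (k + 1) w = z) :
    Subsingleton (SingularCohomology (ZMod 2) X (k + 1)) := by
  apply sub_of
  intro f hf
  have hf' : altd (ZMod 2) (sface (X := X)) (k + 1) f = 0 := LinearMap.mem_ker.1 hf
  obtain ⟨G, hG⟩ := exists_comp (bd2 X k) (linearCombination (ZMod 2) f) (by
    intro z hz
    rw [LinearMap.mem_ker] at hz ⊢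
    obtain ⟨w, rfl⟩ := h z hz
    obtain ⟨c, rfl⟩ := red_surj (k + 2) w
    rw [← red_sbd, lc_red]
    have h3 := ev_altd (k := ZMod 2) (sface (X := X)) (k + 1) f c
    rw [hf'] at h3
    have h4 : Finsupp.linearCombination ℤ (0 : Sing X (k + 2) → ZMod 2) c = 0 := by
      rw [linearCombination_apply]
      simp
    rw [h4] at h3
    exact h3.symm)
  refine ⟨fun τ => G (single τ 1), ?_⟩
  funext σ
  change ∑ i : Fin (k + 2), (-1 : ZMod 2) ^ (i : ℕ) * G (single (sface k i σ) 1) = f σ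
  have h1 := hG (single σ 1)
  rw [linearCombination_single, one_smul] at h1
  rw [← h1]
  unfold bd2
  rw [linearCombination_single, one_smul, map_sum]
  refine Finset.sum_congr rfl fun i _ => ?_
  rw [map_smul, smul_eq_mul]

section manifold

variable {E : Type} [NormedAddCommGroup E] [NormedSpace ℝ E] [FiniteDimensional ℝ E]
  {M : Type} [TopologicalSpace M] [ChartedSpace E M]

theorem le_manifold {n : ℕ} (hn : finrank ℝ E = n + 1) [T1Space M] (y : M) :
    LE n {x : M // x ≠ y} := by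
  intro x
  let φ := chartAt E x.1
  have hxs : x.1 ∈ φ.source := mem_chart_source E x.1
  have hW : IsOpen (φ.target ∩ φ.symm ⁻¹' {y}ᶜ) :=
    φ.symm.isOpen_inter_preimage isOpen_compl_singleton
  have hxW : φ x.1 ∈ φ.target ∩ φ.symm ⁻¹' {y}ᶜ := by
    refine ⟨φ.map_source hxs, ?_⟩
    rw [Set.mem_preimage, φ.left_inv hxs]
    exact x.2
  obtain ⟨r, hr, hrW⟩ := Metric.isOpen_iff.1 hW _ hxW
  let ψ : OpenPartialHomeomorph E E := OpenPartialHomeomorph.univBall (φ x.1) r
  have hψt : ψ.target = Metric.ball (φ x.1) r := OpenPartialHomeomorph.univBall_target _ hr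
  have hψs : ψ.source = Set.univ := OpenPartialHomeomorph.univBall_source _ _
  let L : E ≃L[ℝ] V n := ContinuousLinearEquiv.ofFinrankEq (by
    rw [hn]
    simp)
  have hψm : ∀ u : E, ψ u ∈ Metric.ball (φ x.1) r := by
    intro u
    rw [← hψt]
    exact ψ.map_source (by rw [hψs]; exact Set.mem_univ _)
  have hcψ : Continuous ψ := by
    have h1 := ψ.continuousOn
    rw [hψs] at h1
    exact continuousOn_univ.1 h1
  let U : Set {x : M // x ≠ y} := {u | u.1 ∈ φ.source ∩ φ ⁻¹' Metric.ball (φ x.1) r}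
  have hU : IsOpen U :=
    (φ.isOpen_inter_preimage Metric.isOpen_ball).preimage continuous_subtype_val
  let j : C(V n, {x : M // x ≠ y}) :=
    ⟨fun v => ⟨φ.symm (ψ (L.symm v)), (hrW (hψm _)).2⟩, by
      refine Continuous.subtype_mk ?_ _
      exact φ.symm.continuousOn.comp_continuous (hcψ.comp L.symm.continuous)
        (fun v => (hrW (hψm _)).1)⟩
  let e : C(U, V n) :=
    ⟨fun u => L (ψ.symm (φ u.1.1)), by
      refine L.continuous.comp ?_
      refine ψ.symm.continuousOn.comp_continuous ?_ (fun u => ?_)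
      · exact φ.continuousOn.comp_continuous (continuous_subtype_val.comp continuous_subtype_val)
          (fun u => u.2.1)
      · show φ u.1.1 ∈ ψ.target
        rw [hψt]
        exact u.2.2⟩
  refine ⟨⟨U, hU, j, e, ?_, ?_, ?_⟩, L (ψ.symm (φ x.1)), ?_⟩
  · intro v w h
    have h1 : φ.symm (ψ (L.symm v)) = φ.symm (ψ (L.symm w)) := congrArg Subtype.val h
    have h2 := φ.symm.injOn (hrW (hψm _)).1 (hrW (hψm _)).1 h1
    have h3 := ψ.injOn (by rw [hψs]; exact Set.mem_univ _) (by rw [hψs]; exact Set.mem_univ _) h2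
    exact L.symm.injective h3
  · apply ContinuousMap.ext
    intro u
    apply Subtype.ext
    change φ.symm (ψ (L.symm (L (ψ.symm (φ u.1.1))))) = u.1.1
    rw [L.symm_apply_apply, ψ.right_inv (by rw [hψt]; exact u.2.2), φ.left_inv u.2.1]
  · intro v
    refine ⟨φ.map_target (hrW (hψm _)).1, ?_⟩
    show φ (φ.symm (ψ (L.symm v))) ∈ Metric.ball (φ x.1) r
    rw [φ.right_inv (hrW (hψm _)).1]
    exact hψm _
  · apply Subtype.ext
    change φ.symm (ψ (L.symm (L (ψ.symm (φ x.1))))) = x.1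
    rw [L.symm_apply_apply, ψ.right_inv (by rw [hψt]; exact Metric.mem_ball_self hr),
      φ.left_inv hxs]

/-- **The top cohomology of a punctured closed manifold vanishes.** -/
theorem top_zero [T2Space M] [ConnectedSpace M] (hm : 0 < finrank ℝ E) (y : M) :
    Subsingleton (SingularCohomology (ZMod 2) {x : M // x ≠ y} (finrank ℝ E)) := by
  obtain ⟨n, hn⟩ : ∃ n, finrank ℝ E = n + 1 := ⟨finrank ℝ E - 1, by omega⟩
  rw [hn]
  apply coh_of_bound
  apply top_bound (le_manifold hn y)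
  intro W hW hWc
  have h1 : IsClopen (Subtype.val '' W : Set M) :=
    ⟨(hWc.image continuous_subtype_val).isClosed,
      isOpen_compl_singleton.isOpenMap_subtype_val W hW⟩
  rcases isClopen_iff.1 h1 with h2 | h2
  · exact Set.image_eq_empty.1 h2
  · exfalso
    have h3 : y ∈ (Subtype.val '' W : Set M) := by
      rw [h2]
      exact Set.mem_univ _
    obtain ⟨x, -, hx⟩ := h3
    exact x.2 hx

end manifold

end Pool.Agent.V7H7.SZ.Sph
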