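import Pool.Agent.Helper381.Defs

/-! Mod 2 cohomology spheres. -/

set_option autoImplicit false

namespace Pool.Agent.V7H7.SZ

open Module

/-- `M` has the mod 2 singular cohomology of the sphere of dimension `m`, and the complement of a
point of `M` has no mod 2 cohomology in degree `m` (for a closed connected manifold `M` of positive
dimension `m` this is always true, by duality). -/
structure Mod2Sphere (M : Type) [TopologicalSpace M] (m : ℕ) : Prop where
  coh : ∀ n : ℕ, finrank (ZMod 2) (Pool.Agent.Helper381.SingularCohomology (ZMod 2) M n) =
    (if n = 0 then 1 else 0) + (if n = m then 1 else 0)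
  pt : ∀ y : M, Subsingleton
    (Pool.Agent.Helper381.SingularCohomology (ZMod 2) {x : M // x ≠ y} m)

end Pool.Agent.V7H7.SZ
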