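import Pool.Agent.V7H7.SZ.SmW

/-! Powers of finite 2-groups acting on mod 2 homology spheres. -/

set_option autoImplicit false
set_option linter.unusedSectionVars false

namespace Pool.Agent.V7H7.SZ

open scoped Manifold ContDiff
open Module Pool.Agent.Helper381 Pool.Agent.H185.ZM

/-- The type `δ` of a central element `z` of order at most two of a group `Q`: `1` always, `2` if `z`
is a square, `4` if `z = x² = y²` with `y x y⁻¹ = x⁻¹`. -/
structure QType (Q : Type) [Group Q] (z : Q) (δ : ℕ) : Prop where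
  sq : z * z = 1
  central : ∀ q : Q, z * q = q * z
  typ : δ = 1 ∨ (δ = 2 ∧ ∃ x : Q, x * x = z) ∨
    (δ = 4 ∧ ∃ x y : Q, x * x = z ∧ y * y = z ∧ y * x * y⁻¹ = x⁻¹)

section

variable {Q : Type} [Group Q] {ι : Type}

/-- the element with entries `z` at the places of `v` -/
def zv (z : Q) (v : ι → ZMod 2) : ι → Q := fun i => if v i = 0 then 1 else z

/-- `zv` as a homomorphism -/
def zvHom (z : Q) (hz : z * z = 1) : Multiplicative (ι → ZMod 2) →* (ι → Q) where
  toFun v := zv z v.toAdd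
  map_one' := by
    funext i
    exact if_pos rfl
  map_mul' v w := by
    funext i
    change (if (v.toAdd i + w.toAdd i) = 0 then 1 else z) =
      (if v.toAdd i = 0 then 1 else z) * (if w.toAdd i = 0 then 1 else z)
    have h01 : (1 : ZMod 2) ≠ 0 := by decide
    have h11 : (1 : ZMod 2) + 1 = 0 := by decide
    rcases v2_cases (v.toAdd i) with h1 | h1 <;> rcases v2_cases (w.toAdd i) with h2 | h2
    · simp [h1, h2]
    · simp [h1, h2, h01]
    · simp [h1, h2, h01]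
    · rw [h1, h2, h11, if_pos rfl, if_neg h01, hz]

theorem lb_zv [DecidableEq ι] {z : Q} {δ : ℕ} (h : QType Q z δ) (i : ι) :
    LB (zvHom (ι := ι) z h.sq (Multiplicative.ofAdd (Pi.single i 1)))
      (Set.range (zvHom (ι := ι) z h.sq)) δ := by
  have hz : zvHom (ι := ι) z h.sq (Multiplicative.ofAdd (Pi.single i 1)) = Pi.mulSingle i z := by
    funext j
    change (if (Pi.single i 1 : ι → ZMod 2) j = 0 then 1 else z) = _
    by_cases hj : j = i
    · subst hj
      rw [Pi.single_eq_same, Pi.mulSingle_eq_same, if_neg (by decide)]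
    · rw [Pi.single_eq_of_ne hj, Pi.mulSingle_eq_of_ne hj, if_pos rfl]
  have hcomm : ∀ (x : Q), ∀ q ∈ Set.range (zvHom (ι := ι) z h.sq),
      (Pi.mulSingle i x : ι → Q) * q = q * Pi.mulSingle i x := by
    rintro x _ ⟨v, rfl⟩
    funext j
    change (Pi.mulSingle i x : ι → Q) j * (if v.toAdd j = 0 then 1 else z) =
      (if v.toAdd j = 0 then 1 else z) * (Pi.mulSingle i x : ι → Q) j
    split_ifs with h1
    · rw [mul_one, one_mul]
    · exact (h.central _).symm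
  rw [hz]
  rcases h.typ with h1 | ⟨h1, x, hx⟩ | ⟨h1, x, y, hx, hy, hyx⟩
  · exact Or.inl h1
  · refine Or.inr (Or.inl ⟨h1, Pi.mulSingle i x, ?_, hcomm x⟩)
    rw [← Pi.mulSingle_mul, hx]
  · refine Or.inr (Or.inr ⟨h1, Pi.mulSingle i x, Pi.mulSingle i y, ?_, ?_, ?_, hcomm x, hcomm y⟩)
    · rw [← Pi.mulSingle_mul, hx]
    · rw [← Pi.mulSingle_mul, hy]
    · rw [← Pi.mulSingle_inv, ← Pi.mulSingle_inv, ← Pi.mulSingle_mul, ← Pi.mulSingle_mul, hyx]

end

variable {E : Type} [NormedAddCommGroup E] [NormedSpace ℝ E] [FiniteDimensional ℝ E]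
  {M : Type} [TopologicalSpace M] [ChartedSpace E M] [IsManifold 𝓘(ℝ, E) ∞ M]

theorem isPGroup_pi {ι : Type} [Finite ι] {Q : Type} [Group Q] [Finite Q] (hQ : IsPGroup 2 Q) :
    IsPGroup 2 (ι → Q) := by
  have : Fact (Nat.Prime 2) := ⟨Nat.prime_two⟩
  obtain ⟨k, hk⟩ := IsPGroup.iff_card.1 hQ
  apply IsPGroup.of_card (n := k * Nat.card ι)
  rw [Nat.card_fun, hk, pow_mul]

/-- **Powers of 2-groups of type `δ`.** -/
theorem diag_core [CompactSpace M] [T2Space M] [ConnectedSpace M]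
    (hM : Mod2Sphere M (finrank ℝ E)) (hm : 0 < finrank ℝ E) {Γ : Type} [Group Γ]
    {Q : Type} [Group Q] [Finite Q] (hQ : IsPGroup 2 Q) {z : Q} {δ : ℕ} (hz : QType Q z δ)
    {ι : Type} [Fintype ι] [DecidableEq ι] (ψ : (ι → Q) →* Γ) (Γ' : Subgroup Γ)
    (hodd : ¬ 2 ∣ Γ'.index) {a : Γ' → M → M} (ha : SmoothAction E a)
    (hlt : finrank ℝ E + 1 < δ * (Fintype.card ι - 1)) :
    ∃ (γ : Γ) (v : ι → ZMod 2) (h : γ⁻¹ * ψ (zv z v) * γ ∈ Γ'), (∃ i j, v i ≠ v j) ∧
      ∀ x, a ⟨γ⁻¹ * ψ (zv z v) * γ, h⟩ x = x := by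
  obtain ⟨γ, hγ⟩ := exists_coset Γ' hodd (isPGroup_pi (ι := ι) hQ) ψ
  obtain ⟨T, hT1, hT2, -, -⟩ := smooth_weights hM hm (ha.comp (cjf Γ' ψ γ hγ))
    (zvHom (ι := ι) z hz.sq) (fun i => lb_zv hz i)
  have hT : T.card + 1 < Fintype.card ι := by
    by_contra hcon
    push Not at hcon
    have h1 : Fintype.card ι - 1 ≤ T.card := by omega
    have h2 := Nat.mul_le_mul_left δ h1
    omega
  obtain ⟨v, hv1, hv2⟩ := exists_nonconst T hT
  exact ⟨γ, v, hγ _, hv1, fun x => hT2 v hv2 x⟩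

end Pool.Agent.V7H7.SZ
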