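import Pool.Agent.V7H7.SZ.Wt

/-! The weights of an elementary abelian 2-group acting on a mod 2 cohomology sphere. -/

set_option autoImplicit false
set_option linter.unusedSectionVars false

namespace Pool.Agent.V7H7.SZ

open Module Pool.Agent.Helper381

universe u v w

section

variable {S : ℕ → Type v} {face : ∀ n, Fin (n + 2) → S (n + 1) → S n}
  {P : Type w} [Group P] {act : P → ∀ n, S n → S n} [∀ n, Finite (S n)] [Finite P]

/-- vectors over the field with two elements -/
abbrev V2 (k : ℕ) := Fin k → ZMod 2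

theorem Mod.nu_one (M : Mod face act) (A : Set P) : nu M.h (insert 1 A) = nu M.h A := by
  apply nu_congr M.h M.hf
  intro n σ
  constructor
  · intro h1 p hp
    exact h1 p (by simp [hp])
  · rintro h1 q (rfl | hq)
    · exact M.h.one n σ
    · exact h1 q hq

theorem Mod.sum_formula (M : Mod face act) : ∀ (k : ℕ) (φ : Multiplicative (V2 k) →* P)
    (A : Set P), ElAb (A ∪ Set.range φ) →
    (2 : ℤ) ^ k * (nu M.h (A ∪ Set.range φ) : ℤ) =
      ∑ v : V2 k, (2 * (nu M.h (insert (φ (Multiplicative.ofAdd v)) A) : ℤ) - nu M.h A) := by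
  intro k
  induction k with
  | zero =>
    intro φ A hA
    have h1 : ∀ v : V2 0, φ (Multiplicative.ofAdd v) = 1 := by
      intro v
      have : Multiplicative.ofAdd v = 1 := Subsingleton.elim _ _
      rw [this, map_one]
    have h2 : nu M.h (A ∪ Set.range φ) = nu M.h A := by
      apply nu_congr M.h M.hf
      intro n σ
      constructor
      · intro h3 p hp
        exact h3 p (by simp [hp])
      · rintro h3 q (hq | ⟨x, rfl⟩)
        · exact h3 q hq
        · have h4 : φ x = 1 := h1 (Multiplicative.toAdd x)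
          rw [h4]
          exact M.h.one n σ
    simp only [h1, M.nu_one, h2]
    rw [Fintype.sum_unique]
    ring
  | succ k ih =>
    intro φ A hA
    -- the smaller group
    let φ' : Multiplicative (V2 k) →* P :=
      { toFun := fun v => φ (Multiplicative.ofAdd (Fin.cons 0 v.toAdd : V2 (k + 1)))
        map_one' := by
          have : (Fin.cons 0 (Multiplicative.toAdd (1 : Multiplicative (V2 k))) : V2 (k + 1)) =
              0 := by
            funext i
            refine Fin.cases ?_ (fun i => ?_) i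
            · rfl
            · rfl
          rw [this]
          exact map_one φ
        map_mul' := fun v w => by
          have : (Fin.cons 0 (Multiplicative.toAdd (v * w)) : V2 (k + 1)) =
              Fin.cons 0 v.toAdd + Fin.cons 0 w.toAdd := by
            funext i
            refine Fin.cases ?_ (fun i => ?_) i
            · simp
            · simp
          rw [this, ofAdd_add, map_mul] }
    have hφ' : ∀ v : V2 k, φ' (Multiplicative.ofAdd v) =
        φ (Multiplicative.ofAdd (Fin.cons 0 v : V2 (k + 1))) := fun v => rfl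
    let b : P := φ (Multiplicative.ofAdd (Fin.cons 1 0 : V2 (k + 1)))
    have hb : ∀ v : V2 k, φ (Multiplicative.ofAdd (Fin.cons 1 v : V2 (k + 1))) =
        φ' (Multiplicative.ofAdd v) * b := by
      intro v
      have : (Fin.cons 1 v : V2 (k + 1)) = Fin.cons 0 v + Fin.cons 1 0 := by
        funext i
        refine Fin.cases ?_ (fun i => ?_) i
        · simp
        · simp
      rw [this, ofAdd_add, map_mul]
      rfl
    have hcase : ∀ t : ZMod 2, t = 0 ∨ t = 1 := by decide
    have hcons : ∀ w : V2 (k + 1), w = Fin.cons (w 0) (fun i => w i.succ) := fun w => by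
      funext i
      refine Fin.cases ?_ (fun i => ?_) i
      · rfl
      · rfl
    have hrange : ∀ w : V2 (k + 1), φ (Multiplicative.ofAdd w) = φ' (Multiplicative.ofAdd
        (fun i => w i.succ)) ∨ φ (Multiplicative.ofAdd w) = φ' (Multiplicative.ofAdd
        (fun i => w i.succ)) * b := by
      intro w
      rcases hcase (w 0) with h0 | h0
      · left
        conv_lhs => rw [hcons w, h0]
        rfl
      · right
        conv_lhs => rw [hcons w, h0]
        exact hb _
    have hsub : insert b A ∪ Set.range φ' ⊆ A ∪ Set.range φ := by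
      rintro x ((rfl | hx) | ⟨v, rfl⟩)
      · right; exact ⟨_, rfl⟩
      · left; exact hx
      · right; exact ⟨_, rfl⟩
    have h1 := ih φ' (insert b A) (hA.subset hsub)
    have h2 : nu M.h (insert b A ∪ Set.range φ') = nu M.h (A ∪ Set.range φ) := by
      apply nu_congr M.h M.hf
      intro n σ
      constructor
      · rintro h3 q (hq | ⟨w, rfl⟩)
        · exact h3 q (by simp [hq])
        · rcases hrange w.toAdd with h4 | h4
          · have h5 : φ w = φ' (Multiplicative.ofAdd (fun i => w.toAdd i.succ)) := h4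
            rw [h5]
            exact h3 _ (Or.inr ⟨_, rfl⟩)
          · have h5 : φ w = φ' (Multiplicative.ofAdd (fun i => w.toAdd i.succ)) * b := h4
            rw [h5, M.h.mul, h3 b (by simp), h3 _ (Or.inr ⟨_, rfl⟩)]
      · intro h3 q hq
        exact h3 q (hsub hq)
    rw [h2] at h1
    have h3 : ∀ v : V2 k, 2 * (nu M.h (insert (φ' (Multiplicative.ofAdd v)) (insert b A)) : ℤ) -
        nu M.h (insert b A) =
        (nu M.h (insert (φ (Multiplicative.ofAdd (Fin.cons 0 v : V2 (k + 1)))) A) : ℤ) +
        nu M.h (insert (φ (Multiplicative.ofAdd (Fin.cons 1 v : V2 (k + 1)))) A) -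
        nu M.h A := by
      intro v
      have h4 : ElAb (insert b (insert (φ' (Multiplicative.ofAdd v)) A)) := by
        apply hA.subset
        rintro x (rfl | rfl | hx)
        · right; exact ⟨_, rfl⟩
        · right; exact ⟨_, rfl⟩
        · left; exact hx
      have h5 := M.klein h4
      rw [hb, ← hφ', Set.insert_comm]
      rw [← Nat.cast_inj (R := ℤ)] at h5
      push_cast at h5
      linarith
    have h4 : ∑ w : V2 (k + 1), (2 * (nu M.h (insert (φ (Multiplicative.ofAdd w)) A) : ℤ) -
        nu M.h A) = ∑ v : V2 k, ((2 * (nu M.h (insert (φ (Multiplicative.ofAdd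
          (Fin.cons 0 v : V2 (k + 1)))) A) : ℤ) - nu M.h A) + (2 * (nu M.h (insert
          (φ (Multiplicative.ofAdd (Fin.cons 1 v : V2 (k + 1)))) A) : ℤ) - nu M.h A)) := by
      rw [← (Fin.consEquiv (fun _ : Fin (k + 1) => ZMod 2)).sum_comp, Fintype.sum_prod_type]
      have h6 : ∀ f : ZMod 2 → ℤ, ∑ t : ZMod 2, f t = f 0 + f 1 := fun f => Fin.sum_univ_two f
      rw [h6, ← Finset.sum_add_distrib]
      rfl
    rw [h4, pow_succ, mul_comm ((2 : ℤ) ^ k) 2, mul_assoc, h1, Finset.mul_sum]
    refine Finset.sum_congr rfl fun v _ => ?_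
    rw [h3]
    ring

variable {n : ℕ}

/-- the trace function -/
noncomputable def tr (M : Mod face act) (φ : Multiplicative (V2 n) →* P) (v : V2 n) : ℤ :=
  2 * (nu M.h {φ (Multiplicative.ofAdd v)} : ℤ) - nu M.h ∅

theorem elAb_range (φ : Multiplicative (V2 n) →* P) : ElAb (Set.range φ) := by
  refine ⟨?_, ?_⟩
  · rintro _ ⟨x, rfl⟩
    rw [← map_mul]
    have : x * x = 1 := by
      change (Multiplicative.ofAdd (x.toAdd + x.toAdd)) = 1
      have h1 : x.toAdd + x.toAdd = 0 := by
        funext i
        exact CharTwo.add_self_eq_zero _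
      rw [h1]
      rfl
    rw [this, map_one]
  · rintro _ ⟨x, rfl⟩ _ ⟨y, rfl⟩
    rw [← map_mul, ← map_mul, mul_comm]

theorem Mod.sum_submodule (M : Mod face act) (φ : Multiplicative (V2 n) →* P)
    (H : Submodule (ZMod 2) (V2 n)) [DecidablePred (fun v => v ∈ H)] :
    (2 : ℤ) ^ finrank (ZMod 2) H *
      (nu M.h {p | ∃ v ∈ H, φ (Multiplicative.ofAdd v) = p} : ℤ) =
      ∑ v : V2 n, if v ∈ H then tr M φ v else 0 := by
  classical
  have := Fintype.ofFinite H
  have : Fact (Nat.Prime 2) := ⟨Nat.prime_two⟩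
  let e := (Module.finBasis (ZMod 2) H).equivFun
  let ψ : Multiplicative (V2 (finrank (ZMod 2) H)) →* P :=
    { toFun := fun x => φ (Multiplicative.ofAdd ((e.symm x.toAdd : H) : V2 n))
      map_one' := by
        have : ((e.symm (Multiplicative.toAdd (1 : Multiplicative (V2 (finrank (ZMod 2) H)))) :
            H) : V2 n) = 0 := by
          rw [toAdd_one, map_zero]
          rfl
        rw [this]
        exact map_one φ
      map_mul' := fun x y => by
        rw [toAdd_mul, map_add, Submodule.coe_add, ofAdd_add, map_mul] }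
  have h1 := M.sum_formula (finrank (ZMod 2) H) ψ ∅ (by
    rw [Set.empty_union]; exact elAb_range ψ)
  have h2 : (∅ ∪ Set.range ψ : Set P) = {p | ∃ v ∈ H, φ (Multiplicative.ofAdd v) = p} := by
    rw [Set.empty_union]
    ext p
    constructor
    · rintro ⟨x, rfl⟩
      exact ⟨_, (e.symm x.toAdd).2, rfl⟩
    · rintro ⟨v, hv, rfl⟩
      refine ⟨Multiplicative.ofAdd (e ⟨v, hv⟩), ?_⟩
      change φ (Multiplicative.ofAdd ((e.symm (e ⟨v, hv⟩) : H) : V2 n)) = _
      rw [e.symm_apply_apply]
  rw [h2] at h1
  have h3 : ∑ v : V2 n, (if v ∈ H then tr M φ v else 0) = ∑ v : H, tr M φ (v : V2 n) := by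
    rw [← Finset.sum_filter]
    refine Finset.sum_subtype _ (fun v => ?_) _
    simp
  rw [h1, h3, ← Equiv.sum_comp e.symm.toEquiv (fun v : H => tr M φ (v : V2 n))]
  refine Finset.sum_congr rfl fun v _ => ?_
  unfold tr
  rw [insert_empty_eq]
  rfl

end

section fourier

variable {n : ℕ}

/-- the sign -/
def sgn (t : ZMod 2) : ℤ := if t = 0 then 1 else -1

theorem sgn_add (s t : ZMod 2) : sgn (s + t) = sgn s * sgn t := by
  revert s t; decide

/-- the kernel of a functional -/
def kerc (c : V2 n) : Submodule (ZMod 2) (V2 n) where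
  carrier := {v | c ⬝ᵥ v = 0}
  add_mem' := by
    intro a b ha hb
    have h1 : c ⬝ᵥ a = 0 := ha
    have h2 : c ⬝ᵥ b = 0 := hb
    show c ⬝ᵥ (a + b) = 0
    rw [dotProduct_add, h1, h2, add_zero]
  zero_mem' := dotProduct_zero c
  smul_mem' := by
    intro r a ha
    have h1 : c ⬝ᵥ a = 0 := ha
    show c ⬝ᵥ (r • a) = 0
    rw [dotProduct_smul, h1, smul_zero]

theorem mem_kerc (c v : V2 n) : v ∈ kerc c ↔ c ⬝ᵥ v = 0 := Iff.rfl

theorem sum_sgn (v : V2 n) : ∑ c : V2 n, sgn (c ⬝ᵥ v) = if v = 0 then 2 ^ n else 0 := by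
  split_ifs with h
  · subst h
    simp [sgn, dotProduct_zero]
  · have hex : ∃ i, v i ≠ 0 := by
      by_contra hcon
      push Not at hcon
      exact h (funext hcon)
    obtain ⟨i, hi⟩ := hex
    have hi1 : v i = 1 := by
      rcases (show ∀ t : ZMod 2, t = 0 ∨ t = 1 by decide) (v i) with h1 | h1
      · exact absurd h1 hi
      · exact h1
    have h1 : ∑ c : V2 n, sgn (c ⬝ᵥ v) = ∑ c : V2 n, sgn ((c + Pi.single i 1) ⬝ᵥ v) :=
      (Equiv.sum_comp (Equiv.addRight (Pi.single i 1 : V2 n)) (fun c => sgn (c ⬝ᵥ v))).symm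
    have h2 : ∀ c : V2 n, sgn ((c + Pi.single i 1) ⬝ᵥ v) = - sgn (c ⬝ᵥ v) := by
      intro c
      rw [add_dotProduct, single_dotProduct, one_mul, hi1, sgn_add]
      have : sgn 1 = -1 := by decide
      rw [this]
      ring
    simp only [h2, Finset.sum_neg_distrib] at h1
    linarith

end fourier

end Pool.Agent.V7H7.SZ
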