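import Pool.Agent.V7H7.SZ.Top
import Pool.Agent.H185.ZM.Count

/-! Finite groups of isometries of mod 2 homology spheres: the simplicial model. -/

set_option autoImplicit false
set_option linter.unusedSectionVars false

namespace Pool.Agent.V7H7.SZ

open Module Metric Set Pool.Agent.Helper381

section chains

variable {M : Type} {F : Finset M}

/-- the action on chains of sets -/
def cAct {P : Type} (Q : Set (Set M)) (b : P → M → M)
    (hb : ∀ p, Function.Injective (b p)) (hQ : ∀ p, ∀ C ∈ Q, b p '' C ∈ Q) (p : P) (n : ℕ)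
    (c : Ch Q n) : Ch Q n :=
  ⟨fun i => b p '' c.1 i, fun _ _ hij => (hb p).image_strictMono (c.2.1 hij),
    fun i => hQ p _ (c.2.2 i)⟩

theorem cAct_act {P : Type} [Group P] (Q : Set (Set M)) (b : P → M → M)
    (hb : ∀ p, Function.Injective (b p)) (hQ : ∀ p, ∀ C ∈ Q, b p '' C ∈ Q)
    (h1 : ∀ x, b 1 x = x) (hm : ∀ p q x, b (p * q) x = b p (b q x)) :
    Act (cface (Q := Q)) (cAct Q b hb hQ) := by
  refine ⟨fun n σ => ?_, fun p q n σ => ?_, fun p n i σ => rfl⟩
  · apply Subtype.ext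
    funext i
    change b 1 '' σ.1 i = σ.1 i
    have : b 1 = id := funext h1
    rw [this, Set.image_id]
  · apply Subtype.ext
    funext i
    change b (p * q) '' σ.1 i = b p '' (b q '' σ.1 i)
    rw [Set.image_image]
    congr 1
    exact funext (hm p q)

end chains

/-- **The model.** -/
theorem exists_model_iso {M : Type} {E : Type} [MetricSpace M] [NormedAddCommGroup E]
    [NormedSpace ℝ E] {R : ℝ} (G : Geo M E R) [CompactSpace M] [Nonempty M]
    {P : Type} [Group P] [Finite P] (b : P →* (M ≃ᵢ M)) (m : ℕ)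
    (hS2 : ∀ n, finrank (ZMod 2) (SingCoh (ZMod 2) M n) = bs (m + 2) n)
    (hpt : ∀ y : M, Subsingleton (SingCoh (ZMod 2) {x : M // x ≠ y} (m + 1))) :
    ∃ (S : ℕ → Type) (face : ∀ n, Fin (n + 2) → S (n + 1) → S n) (_ : ∀ n, Finite (S n))
      (act : P → ∀ n, S n → S n) (h : Act face act) (_ : FF face) (N : ℕ)
      (_ : ∀ n, N ≤ n → IsEmpty (S n)), IsSph (fxf h ∅) (m + 2) ∧
      ∀ p : P, p * p = 1 → IsSph (fxf h {p}) (m + 2) → ∀ x, b p x = x := by
  classical
  have : Fact (Nat.Prime 2) := ⟨Nat.prime_two⟩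
  have := Fintype.ofFinite P
  -- the radius
  have hr : ∀ p : P, ∃ r : ℝ, 0 < r ∧ ((∃ x, b p x ≠ x) → ∃ y, 2 * r ≤ dist y (b p y)) := by
    intro p
    by_cases h : ∃ x, b p x ≠ x
    · obtain ⟨x, hx⟩ := h
      have h1 : 0 < dist x (b p x) := dist_pos.2 (Ne.symm hx)
      exact ⟨dist x (b p x) / 2, by linarith, fun _ => ⟨x, by linarith⟩⟩
    · exact ⟨1, one_pos, fun h' => absurd h' h⟩
  choose r hr0 hr1 using hr
  have hR := G.Rpos
  have hne : (Finset.univ : Finset P).Nonempty := ⟨1, Finset.mem_univ _⟩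
  let ρ : ℝ := min (R / 4) (Finset.univ.inf' hne r)
  have hρ0 : 0 < ρ := by
    apply lt_min (by linarith)
    exact (Finset.lt_inf'_iff hne).2 (fun p _ => hr0 p)
  have hρR : 4 * ρ ≤ R := by
    have : ρ ≤ R / 4 := min_le_left _ _
    linarith
  have hρr : ∀ p, ρ ≤ r p := fun p =>
    (min_le_right _ _).trans (Finset.inf'_le _ (Finset.mem_univ p))
  obtain ⟨F, hF, hFa⟩ := H185.ZM.exists_invariant_net b ρ hρ0
  have hQf := Fam_finite F ρ
  have hfin : ∀ n, Finite (Ch (Fam F ρ) n) := finite_Ch hQf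
  have hff : ∀ Q : Set (Set M), FF (cface (Q := Q)) := fun Q n i j σ hij => cface_cface n i j σ hij
  have hmem : ∀ (p : P) (C : Set M), C ∈ Fam F ρ → b p '' C ∈ Fam F ρ := fun p C hC =>
    image_Fam F ρ (b p) (hFa p) hC
  have hinj : ∀ p, Function.Injective (b p) := fun p => (b p).injective
  have hact := cAct_act (Fam F ρ) (fun p => (b p : M → M)) hinj hmem
    (fun x => by change b 1 x = x; rw [map_one]; rfl)
    (fun p q x => by change b (p * q) x = b p (b q x); rw [map_mul]; rfl)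
  have hsph : IsSph (cface (Q := Fam F ρ)) (m + 2) := by
    intro n
    rw [← hS2 n]
    obtain ⟨e⟩ := G.nerve hρR hF (ZMod 2) n
    exact (LinearEquiv.finrank_eq e).symm
  have hN : ∀ n, (Fam F ρ).ncard ≤ n → IsEmpty (Ch (Fam F ρ) n) := fun n hn =>
    isEmpty_Ch hQf n hn
  refine ⟨fun n => Ch (Fam F ρ) n, cface (Q := Fam F ρ), hfin, _, hact, hff _,
    (Fam F ρ).ncard, hN, ?_, ?_⟩
  · intro n
    rw [← hsph n]
    let e : ∀ n, Fx (cAct (Fam F ρ) (fun p => (b p : M → M)) hinj hmem) ∅ n ≃ Ch (Fam F ρ) n :=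
      fun n =>
      { toFun := fun σ => σ.1
        invFun := fun σ => ⟨σ, fun p hp => absurd hp (Set.notMem_empty p)⟩
        left_inv := fun σ => rfl
        right_inv := fun σ => rfl }
    exact hS_congr (fxf_ff hact (hff _) _) (hff _) e (fun n i σ => rfl) n
  · intro p hpp hp
    by_contra hcon
    push Not at hcon
    obtain ⟨y, hy⟩ := hr1 p hcon
    have hy2 : 2 * ρ ≤ dist y (b p y) := le_trans (by linarith [hρr p]) hy
    let Q' : Set (Set M) := {C | C ∈ Fam F ρ ∧ b p '' C = C}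
    have hsub : Q' ⊆ Fam F ρ := fun C hC => hC.1
    have hfin' : ∀ n, Finite (Ch Q' n) := finite_Ch (hQf.subset hsub)
    have hyQ : ∀ C ∈ Q', y ∉ C := by
      rintro C ⟨hC1, hC2⟩ hyC
      have h1 : b p y ∈ C := by
        rw [← hC2]
        exact ⟨y, hyC, rfl⟩
      have h2 := Fam_dist hC1 hyC h1
      linarith
    have hinv : Invol (cface (Q := Fam F ρ))
        (cAct (Fam F ρ) (fun p => (b p : M → M)) hinj hmem p) := by
      refine ⟨fun n σ => ?_, fun n i σ => rfl⟩
      rw [← hact.mul, hpp, hact.one]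
    have hfix : ∀ n (σ : Ch (Fam F ρ) n),
        cAct (Fam F ρ) (fun p => (b p : M → M)) hinj hmem p n σ = σ ↔
          ∃ x, iCh hsub n x = σ := by
      intro n σ
      constructor
      · intro h1
        refine ⟨⟨σ.1, σ.2.1, fun i => ⟨σ.2.2 i, ?_⟩⟩, rfl⟩
        exact congrFun (congrArg Subtype.val h1) i
      · rintro ⟨τ, rfl⟩
        apply Subtype.ext
        funext i
        exact (τ.2.2 i).2
    have hιinj : ∀ n, Function.Injective (iCh hsub n) := by
      intro n σ τ hστ
      apply Subtype.ext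
      exact congrArg (fun x : Ch (Fam F ρ) n => x.1) hστ
    have hsph' : IsSph (cface (Q := Q')) (m + 2) := by
      intro n
      rw [← hp n]
      let e : ∀ n, Ch Q' n ≃ Fx (cAct (Fam F ρ) (fun p => (b p : M → M)) hinj hmem) {p} n :=
        fun n =>
        { toFun := fun σ => ⟨iCh hsub n σ, fun q hq => by
            rw [Set.mem_singleton_iff] at hq
            rw [hq]
            exact (hfix n _).2 ⟨σ, rfl⟩⟩
          invFun := fun σ => ⟨σ.1.1, σ.1.2.1, fun i => ⟨σ.1.2.2 i,
            congrFun (congrArg Subtype.val (σ.2 p rfl)) i⟩⟩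
          left_inv := fun σ => rfl
          right_inv := fun σ => rfl }
      exact hS_congr (hff _) (fxf_ff hact (hff _) _) e (fun n i σ => rfl) n
    obtain ⟨c, hc1, hc2, hc3⟩ := smith_sph (cface (Q := Fam F ρ))
      (cAct (Fam F ρ) (fun p => (b p : M → M)) hinj hmem p) (cface (Q := Q')) (iCh hsub)
      (hff _) (hff _) hinv.gg hinv.gf hιinj (fun n i x => rfl) hfix _ hN hsph
    have hc4 : c = m + 2 := IsSph.unique _ hc2 hsph'
    have hE0 := hc3 (m + 2)
    rw [if_neg (by omega)] at hE0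
    -- a class which is not zero
    have hex : ∃ f : Ch Q' (m + 1) → ZMod 2, altd (ZMod 2) (cface (Q := Q')) (m + 1) f = 0 ∧
        f ∉ cobound (ZMod 2) (fun n => Ch Q' n → ZMod 2)
          (fun n => altd (ZMod 2) (cface (Q := Q')) n) (m + 1) := by
      by_contra hno
      push Not at hno
      have h1 := subsingleton_of_cobound (C := fun n => Ch Q' n → ZMod 2)
        (fun n => altd (ZMod 2) (cface (Q := Q')) n) hno
      have h2 : hS (cface (Q := Q')) (m + 1) = 0 := finrank_zero_of_subsingleton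
      rw [hsph', bs_pos _ _ (by omega), if_pos rfl] at h2
      omega
    obtain ⟨f, hf1, hf2⟩ := hex
    obtain ⟨φ, hφ1, hφ2⟩ := extend_cocycle (hff (Fam F ρ)) hinv hιinj (fun n i x => rfl) hfix
      (m + 1) hE0 f hf1
    obtain ⟨γ, hγ⟩ := restrict_zero hsub (Fam_open F ρ) (Fam_cover F ρ hF)
      (fun σ h => Fam_hcap F ρ σ h) (fun C hC => G.fam_cone hρR hC) y hyQ m (hpt y) φ hφ1
    apply hf2
    refine ⟨γ, ?_⟩
    rw [hγ]
    funext x
    exact hφ2 x

end Pool.Agent.V7H7.SZ
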