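import Pool.Agent.V7H7.SZ.Rank

/-! Elements of order four and quaternion groups acting on mod 2 cohomology spheres. -/

set_option autoImplicit false
set_option linter.unusedSectionVars false

namespace Pool.Agent.V7H7.SZ

open Module Pool.Agent.Helper381

universe u v w

section onedim

variable {C : ℕ → Type v} [∀ n, AddCommGroup (C n)] [∀ n, Module (ZMod 2) (C n)]
  [∀ n, FiniteDimensional (ZMod 2) (C n)] [Fact (Nat.Prime 2)]
  (d : ∀ n, C n →ₗ[ZMod 2] C (n + 1))

theorem one_dim {n : ℕ} (h : finrank (ZMod 2) (Coh (ZMod 2) C d n) = 1) {x y : C n}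
    (hx : d n x = 0) (hy : d n y = 0) (hx' : x ∉ cobound (ZMod 2) C d n)
    (hy' : y ∉ cobound (ZMod 2) C d n) : x - y ∈ cobound (ZMod 2) C d n := by
  obtain ⟨t, ht0, ht⟩ := finrank_eq_one_iff'.1 h
  have key : ∀ z : LinearMap.ker (d n), z.1 ∉ cobound (ZMod 2) C d n →
      (Submodule.Quotient.mk z : Coh (ZMod 2) C d n) = t := by
    intro z hz
    obtain ⟨c, hc⟩ := ht (Submodule.Quotient.mk z)
    rcases zmod2_cases c with h1 | h1
    · exfalso
      rw [h1, zero_smul] at hc
      exact hz ((Submodule.Quotient.mk_eq_zero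
        ((cobound (ZMod 2) C d n).comap (LinearMap.ker (d n)).subtype)).1 hc.symm)
    · rw [h1, one_smul] at hc
      exact hc.symm
  have h1 := key ⟨x, hx⟩ hx'
  have h2 := key ⟨y, hy⟩ hy'
  rw [← h2, Submodule.Quotient.eq] at h1
  exact h1

theorem exists_not_cobound {n : ℕ} (h : finrank (ZMod 2) (Coh (ZMod 2) C d n) ≠ 0) :
    ∃ x : C n, d n x = 0 ∧ x ∉ cobound (ZMod 2) C d n := by
  by_contra hcon
  push Not at hcon
  apply h
  have : Subsingleton (Coh (ZMod 2) C d n) := by
    constructor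
    intro a b
    obtain ⟨x, rfl⟩ := Submodule.Quotient.mk_surjective _ a
    obtain ⟨y, rfl⟩ := Submodule.Quotient.mk_surjective _ b
    rw [Submodule.Quotient.eq]
    exact hcon _ (x - y).2
  exact finrank_zero_of_subsingleton

end onedim

/-- the numbers in the exact sequences -/
theorem half_arith (c t N : ℕ) (hct : c < t) (a b ρ : ℕ → ℕ)
    (ha : ∀ n, a n = if c ≤ n ∧ n < t then 1 else 0)
    (h : ∀ n, b n + ρ n + ρ (n + 1) = a n + b (n + 1))
    (hρb : ∀ n, ρ n ≤ b n) (hρa : ∀ n, ρ n ≤ a n) (h0 : ρ 0 = b 0)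
    (hb : ∀ n, N ≤ n → b n = 0) :
    ρ c = 1 ∧ b c = 1 ∧ c + 2 ≤ t ∧ t ≠ c + 3 ∧
      (t = c + 2 → ∀ n, b n = if c ≤ n ∧ n < t then 1 else 0) := by
  have ha0 : ∀ n, n < c → a n = 0 := fun n hn => by rw [ha, if_neg (by omega)]
  have ha1 : ∀ n, c ≤ n → n < t → a n = 1 := fun n h1 h2 => by rw [ha, if_pos ⟨h1, h2⟩]
  have hat : ∀ n, t ≤ n → a n = 0 := fun n hn => by rw [ha, if_neg (by omega)]
  -- below c
  have hlow : ∀ n, n < c → b n = 0 := by
    intro n
    induction n with
    | zero =>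
      intro hn
      have h1 := hρa 0
      rw [ha0 0 hn] at h1
      omega
    | succ n ih =>
      intro hn
      have h1 := ih (by omega)
      have h2 := h n
      have h3 := hρa (n + 1)
      rw [ha0 _ hn] at h3
      rw [ha0 n (by omega)] at h2
      have h4 := hρb n
      omega
  have hbc : b c = ρ c := by
    rcases Nat.eq_zero_or_pos c with hc | hc
    · rw [hc, h0]
    · have h1 := h (c - 1)
      have h2 : c - 1 + 1 = c := by omega
      rw [h2, ha0 (c - 1) (by omega), hlow (c - 1) (by omega)] at h1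
      have h3 := hρb (c - 1)
      rw [hlow (c - 1) (by omega)] at h3
      omega
  have h1 := h c
  have h2 := hρb (c + 1)
  have h3 := hρa c
  rw [ha1 c le_rfl hct] at h1 h3
  have hρc : ρ c = 1 := by omega
  -- above t
  have hhigh : ∀ k n, N ≤ n + k → t ≤ n → b n = 0 := by
    intro k
    induction k with
    | zero => intro n h1 _; exact hb n (by omega)
    | succ k ih =>
      intro n h1 h2
      have h3 := ih (n + 1) (by omega) (by omega)
      have h4 := h n
      rw [hat n h2] at h4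
      omega
  have hhigh' : ∀ n, t ≤ n → b n = 0 := fun n hn => hhigh N n (by omega) hn
  have h4 := h (t - 1)
  have h5 : t - 1 + 1 = t := by omega
  rw [h5, ha1 (t - 1) (by omega) (by omega), hhigh' t le_rfl] at h4
  have h6 := hρb (t - 1)
  have h7 := hρb t
  rw [hhigh' t le_rfl] at h7
  have hρt : ρ (t - 1) = 0 := by omega
  have hbt : b (t - 1) = 1 := by omega
  have hne : t ≠ c + 1 := by
    rintro rfl
    rw [Nat.add_sub_cancel] at hρt
    omega
  have hne3 : t ≠ c + 3 := by
    rintro rfl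
    have e1 : c + 3 - 1 = c + 2 := rfl
    rw [e1] at hρt hbt
    have h8 := h (c + 1)
    rw [ha1 (c + 1) (by omega) (by omega)] at h8
    have e2 : c + 1 + 1 = c + 2 := rfl
    rw [e2] at h8
    omega
  refine ⟨hρc, by omega, by omega, hne3, fun ht n => ?_⟩
  rcases Nat.lt_or_ge n c with h8 | h8
  · rw [hlow n h8, if_neg (by omega)]
  · rcases Nat.lt_or_ge n t with h9 | h9
    · rw [if_pos ⟨h8, h9⟩]
      rcases eq_or_ne n c with h10 | h10
      · rw [h10]; omega
      · have h11 : n = t - 1 := by omega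
        rw [h11]; exact hbt
    · rw [hhigh' n h9, if_neg (by omega)]

section Half

variable {S : ℕ → Type v} (face : ∀ n, Fin (n + 2) → S (n + 1) → S n)

/-- a free involution, on the level of cochains -/
structure Half (y : ∀ n, S n → S n) (A B : ∀ n, Submodule (ZMod 2) (S n → ZMod 2)) : Prop where
  dA : ∀ n, ∀ f ∈ A n, altd (ZMod 2) face n f ∈ A (n + 1)
  dB : ∀ n, ∀ f ∈ B n, altd (ZMod 2) face n f ∈ B (n + 1)
  le : ∀ n, B n ≤ A n
  yf : ∀ n i σ, y n (face n i σ) = face n i (y (n + 1) σ)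
  inv : ∀ n, ∀ f ∈ B n, ∀ σ, f (y n σ) = f σ
  mem : ∀ n, ∀ f ∈ A n, (∀ σ, f (y n σ) = f σ) → f ∈ B n
  tr : ∀ n, ∀ f ∈ A n, (fun σ => f σ + f (y n σ)) ∈ B n
  surj : ∀ n, ∀ u ∈ B n, ∃ f ∈ A n, ∀ σ, f σ + f (y n σ) = u σ

variable {face}

/-- the coboundary on a subcomplex -/
def dSub {A : ∀ n, Submodule (ZMod 2) (S n → ZMod 2)}
    (dA : ∀ n, ∀ f ∈ A n, altd (ZMod 2) face n f ∈ A (n + 1)) (n : ℕ) :
    A n →ₗ[ZMod 2] A (n + 1) := (altd (ZMod 2) face n).restrict (dA n)

/-- the dimension of the cohomology of a subcomplex -/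
noncomputable def hSub {A : ∀ n, Submodule (ZMod 2) (S n → ZMod 2)}
    (dA : ∀ n, ∀ f ∈ A n, altd (ZMod 2) face n f ∈ A (n + 1)) (n : ℕ) : ℕ :=
  finrank (ZMod 2) (Coh (ZMod 2) (fun n => A n) (dSub dA) n)

variable {y : ∀ n, S n → S n} {A B : ∀ n, Submodule (ZMod 2) (S n → ZMod 2)}

/-- the transfer -/
def Half.trm (h : Half face y A B) (n : ℕ) : A n →ₗ[ZMod 2] B n where
  toFun f := ⟨fun σ => f.1 σ + f.1 (y n σ), h.tr n f.1 f.2⟩
  map_add' := by
    intro f g
    apply Subtype.ext
    funext σ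
    change f.1 σ + g.1 σ + (f.1 (y n σ) + g.1 (y n σ)) =
      f.1 σ + f.1 (y n σ) + (g.1 σ + g.1 (y n σ))
    ring
  map_smul' := by
    intro c f
    apply Subtype.ext
    funext σ
    change c * f.1 σ + c * f.1 (y n σ) = c * (f.1 σ + f.1 (y n σ))
    ring

theorem Half.trm_d (h : Half face y A B) (n : ℕ) (f : A n) :
    dSub h.dB n (h.trm n f) = h.trm (n + 1) (dSub h.dA n f) := by
  apply Subtype.ext
  funext σ
  change altd (ZMod 2) face n (fun σ => f.1 σ + f.1 (y n σ)) σ =
    altd (ZMod 2) face n f.1 σ + altd (ZMod 2) face n f.1 (y (n + 1) σ)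
  rw [altd_apply, altd_apply, altd_apply, ← Finset.sum_add_distrib]
  refine Finset.sum_congr rfl fun i _ => ?_
  rw [h.yf]
  ring

theorem dSub_dSub (hf : FF face) {A : ∀ n, Submodule (ZMod 2) (S n → ZMod 2)}
    (dA : ∀ n, ∀ f ∈ A n, altd (ZMod 2) face n f ∈ A (n + 1)) (n : ℕ) (x : A n) :
    dSub dA (n + 1) (dSub dA n x) = 0 := by
  apply Subtype.ext
  exact altd_altd face hf n x.1

variable [∀ n, Finite (S n)]

/-- the numbers -/
theorem Half.arith (h : Half face y A B) (hf : FF face) {N : ℕ}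
    (hN : ∀ n, N ≤ n → IsEmpty (S n)) {c t : ℕ} (hct : c < t)
    (ha : ∀ n, hSub h.dA n = if c ≤ n ∧ n < t then 1 else 0) :
    rho (dSub h.dB) (dSub h.dA) (fun n => Submodule.inclusion (h.le n)) c = 1 ∧
    hSub h.dB c = 1 ∧ c + 2 ≤ t ∧ t ≠ c + 3 ∧
      (t = c + 2 → ∀ n, hSub h.dB n = if c ≤ n ∧ n < t then 1 else 0) := by
  have : Fact (Nat.Prime 2) := ⟨Nat.prime_two⟩
  have hdA : ∀ n x, dSub h.dA (n + 1) (dSub h.dA n x) = 0 := dSub_dSub hf h.dA
  have hdB : ∀ n x, dSub h.dB (n + 1) (dSub h.dB n x) = 0 := dSub_dSub hf h.dB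
  have hinj : ∀ n, Function.Injective (Submodule.inclusion (h.le n)) := fun n =>
    Submodule.inclusion_injective _
  refine half_arith c t N hct (hSub h.dA) (hSub h.dB)
    (rho (dSub h.dB) (dSub h.dA) (fun n => Submodule.inclusion (h.le n))) ha ?_ ?_ ?_ ?_ ?_
  · intro n
    exact les_eq (dSub h.dB) (dSub h.dA) (C := fun n => B n) (dSub h.dB)
      (fun n => Submodule.inclusion (h.le n)) h.trm hinj
      (fun n u => by
        obtain ⟨f, hf1, hf2⟩ := h.surj n u.1 u.2
        exact ⟨⟨f, hf1⟩, Subtype.ext (funext hf2)⟩)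
      (fun n f hf0 => by
        have h1 : ∀ σ, f.1 σ + f.1 (y n σ) = 0 := fun σ => congrFun (congrArg Subtype.val hf0) σ
        refine ⟨⟨f.1, h.mem n f.1 f.2 (fun σ => ?_)⟩, rfl⟩
        have h5 := h1 σ
        rw [← zmod2_add_self (f.1 σ)] at h5
        exact add_left_cancel h5)
      (fun n f => by
        apply Subtype.ext
        funext σ
        change f.1 σ + f.1 (y n σ) = 0
        rw [h.inv n f.1 f.2, zmod2_add_self])
      (fun n a => rfl) h.trm_d hdB hdA hdB n
  · exact fun n => rho_le_A (dSub h.dB) (dSub h.dA) (fun n => Submodule.inclusion (h.le n)) hinj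
      (fun _ _ => rfl) hdB hdA n
  · exact fun n => rho_le_B (dSub h.dB) (dSub h.dA) (fun n => Submodule.inclusion (h.le n)) hinj
      (fun _ _ => rfl) hdA n
  · exact rho_zero (dSub h.dB) (dSub h.dA) (fun n => Submodule.inclusion (h.le n)) hinj
      (fun _ _ => rfl) hdB hdA
  · intro n hn
    apply finrank_coh_top
    have := hN n hn
    have : Subsingleton (B n) := by
      constructor
      intro a b
      apply Subtype.ext
      funext σ
      exact (IsEmpty.false σ).elim
    exact Module.finrank_zero_of_subsingleton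

theorem Half.tr_cobound (h : Half face y A B) {n : ℕ} {f : A n}
    (hf : f ∈ cobound (ZMod 2) (fun n => A n) (dSub h.dA) n) :
    h.trm n f ∈ cobound (ZMod 2) (fun n => B n) (dSub h.dB) n := by
  cases n with
  | zero =>
    have : f = 0 := hf
    rw [this, map_zero]
    exact Submodule.zero_mem _
  | succ n =>
    obtain ⟨g, rfl⟩ := hf
    exact ⟨h.trm n g, h.trm_d n g⟩

/-- the connecting homomorphism is injective in the bottom degree -/
theorem Half.delta_inj (h : Half face y A B) {c : ℕ}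
    (hρ : rho (dSub h.dB) (dSub h.dA) (fun n => Submodule.inclusion (h.le n)) c = 1)
    (ha : hSub h.dA c = 1) (u : B c) (hu : u ∉ cobound (ZMod 2) (fun n => B n) (dSub h.dB) c)
    (v : A c) (hv : h.trm c v = u) (w : B c)
    (hw : altd (ZMod 2) face c v.1 = altd (ZMod 2) face c w.1) : False := by
  have : Fact (Nat.Prime 2) := ⟨Nat.prime_two⟩
  have h1 : ∃ w' : B c, dSub h.dB c w' = 0 ∧ Submodule.inclusion (h.le c) w' ∉
      cobound (ZMod 2) (fun n => A n) (dSub h.dA) c := by
    by_contra hcon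
    push Not at hcon
    have := (rho_eq_zero_iff (dSub h.dB) (dSub h.dA)
      (fun n => Submodule.inclusion (h.le n)) c).2 hcon
    omega
  obtain ⟨w', hw1, hw2⟩ := h1
  let t : A c := v - Submodule.inclusion (h.le c) w
  have ht : dSub h.dA c t = 0 := by
    apply Subtype.ext
    change altd (ZMod 2) face c (v.1 - w.1) = 0
    rw [map_sub, hw, sub_self]
  have hBtr : ∀ w : B c, h.trm c (Submodule.inclusion (h.le c) w) = 0 := by
    intro w
    apply Subtype.ext
    funext σ
    change w.1 σ + w.1 (y c σ) = 0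
    rw [h.inv c w.1 w.2, zmod2_add_self]
  have htr : h.trm c t = u := by
    change h.trm c (v - Submodule.inclusion (h.le c) w) = u
    rw [map_sub, hBtr, hv, sub_zero]
  by_cases hc : t ∈ cobound (ZMod 2) (fun n => A n) (dSub h.dA) c
  · apply hu
    rw [← htr]
    exact h.tr_cobound hc
  · have h3 := one_dim (dSub h.dA) ha ht (congrArg (Submodule.inclusion (h.le (c + 1))) hw1)
      hc hw2
    apply hu
    have h4 := h.tr_cobound h3
    rw [map_sub, hBtr, htr, sub_zero] at h4
    exact h4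

end Half

end Pool.Agent.V7H7.SZ
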