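import Pool.Agent.V7H7.SZ.Rank

/-! Groups acting on finite semisimplicial sets with the mod 2 cohomology of a sphere. -/

set_option autoImplicit false
set_option linter.unusedSectionVars false

namespace Pool.Agent.V7H7.SZ

open Module Pool.Agent.Helper381

universe u v w

section

variable {S T : ℕ → Type v} [∀ n, Finite (S n)] [∀ n, Finite (T n)]
  {face : ∀ n, Fin (n + 2) → S (n + 1) → S n} {face' : ∀ n, Fin (n + 2) → T (n + 1) → T n}

theorem hS_congr (hf : FF face) (hf' : FF face') (e : ∀ n, S n ≃ T n)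
    (he : ∀ n i σ, e n (face n i σ) = face' n i (e (n + 1) σ)) (n : ℕ) :
    hS face n = hS face' n := by
  have : Fact (Nat.Prime 2) := ⟨Nat.prime_two⟩
  let L : ∀ n, (S n → ZMod 2) ≃ₗ[ZMod 2] (T n → ZMod 2) := fun n =>
    LinearEquiv.funCongrLeft (ZMod 2) (ZMod 2) (e n).symm
  have hL : ∀ n (f : S n → ZMod 2) (τ : T n), L n f τ = f ((e n).symm τ) := fun n f τ => rfl
  have hd : ∀ n (f : S n → ZMod 2), altd (ZMod 2) face' n (L n f) =
      L (n + 1) (altd (ZMod 2) face n f) := by
    intro n f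
    funext τ
    rw [hL, altd_apply, altd_apply]
    refine Finset.sum_congr rfl fun i _ => ?_
    rw [hL]
    congr 2
    rw [Equiv.symm_apply_eq, he, Equiv.apply_symm_apply]
  have hr : ∀ n, finrank (ZMod 2) (LinearMap.range (altd (ZMod 2) face' n)) =
      finrank (ZMod 2) (LinearMap.range (altd (ZMod 2) face n)) := by
    intro n
    have h1 : LinearMap.range (altd (ZMod 2) face' n) =
        (LinearMap.range (altd (ZMod 2) face n)).map ((L (n + 1)) : _ →ₗ[ZMod 2] _) := by
      ext y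
      constructor
      · rintro ⟨x, rfl⟩
        refine ⟨altd (ZMod 2) face n ((L n).symm x), ⟨_, rfl⟩, ?_⟩
        have h2 := hd n ((L n).symm x)
        rw [LinearEquiv.apply_symm_apply] at h2
        exact h2.symm
      · rintro ⟨_, ⟨x, rfl⟩, rfl⟩
        exact ⟨L n x, hd n x⟩
    rw [h1]
    exact LinearEquiv.finrank_map_eq (L (n + 1)) _
  have h1 := finrank_coh (C := fun n => S n → ZMod 2) (fun n => altd (ZMod 2) face n)
    (fun n x => altd_altd face hf n x) n
  have h2 := finrank_coh (C := fun n => T n → ZMod 2) (fun n => altd (ZMod 2) face' n)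
    (fun n x => altd_altd face' hf' n x) n
  have h3 : finrank (ZMod 2) (S n → ZMod 2) = finrank (ZMod 2) (T n → ZMod 2) :=
    (L n).finrank_eq
  have h4 : rkb (C := fun n => S n → ZMod 2) (fun n => altd (ZMod 2) face n) n =
      rkb (C := fun n => T n → ZMod 2) (fun n => altd (ZMod 2) face' n) n := by
    cases n with
    | zero => rw [rkb_zero, rkb_zero]
    | succ n => rw [rkb_succ, rkb_succ]; exact (hr n).symm
  have h5 := hr n
  unfold hS
  omega

end

section

variable {S : ℕ → Type v} {face : ∀ n, Fin (n + 2) → S (n + 1) → S n}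
  {P : Type w} [Group P] {act : P → ∀ n, S n → S n}

/-- action of a group on a semisimplicial set -/
structure Act (face : ∀ n, Fin (n + 2) → S (n + 1) → S n) (act : P → ∀ n, S n → S n) : Prop where
  one : ∀ n σ, act 1 n σ = σ
  mul : ∀ p q n σ, act (p * q) n σ = act p n (act q n σ)
  fc : ∀ p n i σ, act p n (face n i σ) = face n i (act p (n + 1) σ)

/-- the simplices fixed by all elements of `A` -/
def Fx (act : P → ∀ n, S n → S n) (A : Set P) (n : ℕ) : Type v :=
  {σ : S n // ∀ p ∈ A, act p n σ = σ}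

instance [∀ n, Finite (S n)] (A : Set P) (n : ℕ) : Finite (Fx act A n) :=
  inferInstanceAs (Finite {σ : S n // ∀ p ∈ A, act p n σ = σ})

/-- the face maps -/
def fxf (h : Act face act) (A : Set P) (n : ℕ) (i : Fin (n + 2)) (σ : Fx act A (n + 1)) :
    Fx act A n :=
  ⟨face n i σ.1, fun p hp => by rw [h.fc, σ.2 p hp]⟩

/-- the action of an element which commutes with `A` -/
def fxa (h : Act face act) (A : Set P) (z : P) (hz : ∀ q ∈ A, z * q = q * z) (n : ℕ)
    (σ : Fx act A n) : Fx act A n :=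
  ⟨act z n σ.1, fun p hp => by rw [← h.mul, ← hz p hp, h.mul, σ.2 p hp]⟩

/-- inclusion -/
def fxi {A B : Set P} (hAB : A ⊆ B) (n : ℕ) (σ : Fx act B n) : Fx act A n :=
  ⟨σ.1, fun p hp => σ.2 p (hAB hp)⟩

theorem fxf_ff (h : Act face act) (hf : FF face) (A : Set P) : FF (fxf h A) := by
  intro n i j σ hij
  apply Subtype.ext
  exact hf n i j σ.1 hij

theorem fxa_invol (h : Act face act) (A : Set P) (z : P) (hz : ∀ q ∈ A, z * q = q * z)
    (hzz : z * z = 1) : Invol (fxf h A) (fxa h A z hz) := by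
  refine ⟨fun n σ => ?_, fun n i σ => ?_⟩
  · apply Subtype.ext
    change act z n (act z n σ.1) = σ.1
    rw [← h.mul, hzz, h.one]
  · apply Subtype.ext
    exact h.fc z n i σ.1

theorem fxi_sub (h : Act face act) {A B : Set P} (hAB : A ⊆ B) (z : P)
    (hA : ∀ q ∈ A, z * q = q * z) (hB : ∀ q ∈ B, z * q = q * z) :
    SubS (fxf h A) (fxa h A z hA) (fxf h B) (fxa h B z hB) (fxi hAB) := by
  refine ⟨fun n σ τ hστ => ?_, fun n i σ => rfl, fun n σ => rfl⟩
  apply Subtype.ext
  exact congrArg (fun x : Fx act A n => x.1) hστ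

theorem inv_eq_of_sq {z : P} (hzz : z * z = 1) : z⁻¹ = z := inv_eq_of_mul_eq_one_left hzz

variable [∀ n, Finite (S n)]

theorem smith_fx (h : Act face act) (hf : FF face) {N : ℕ} (hN : ∀ n, N ≤ n → IsEmpty (S n))
    (A B : Set P) (hAB : A ⊆ B) (z : P) (hz : ∀ q ∈ A, z * q = q * z) (hzz : z * z = 1)
    (hB : ∀ n (σ : Fx act A n), act z n σ.1 = σ.1 ↔ ∀ q ∈ B, act q n σ.1 = σ.1)
    {a : ℕ} (ha : IsSph (fxf h A) a) :
    ∃ c, c ≤ a ∧ IsSph (fxf h B) c ∧
      ∀ n, hE (fxf h A) (fxa h A z hz) (fxa_invol h A z hz hzz).gf n =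
        if c ≤ n ∧ n < a then 1 else 0 := by
  have h1 := fxa_invol h A z hz hzz
  refine smith_sph (fxf h A) (fxa h A z hz) (fxf h B) (fxi hAB) (fxf_ff h hf A) (fxf_ff h hf B)
    h1.gg h1.gf ?_ (fun n i x => rfl) ?_ N ?_ ha
  · intro n σ τ hστ
    apply Subtype.ext
    exact congrArg (fun x : Fx act A n => x.1) hστ
  · intro n σ
    constructor
    · intro h2
      have h3 : act z n σ.1 = σ.1 := congrArg Subtype.val h2
      exact ⟨⟨σ.1, (hB n σ).1 h3⟩, rfl⟩
    · rintro ⟨τ, rfl⟩
      apply Subtype.ext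
      exact (hB n (fxi hAB n τ)).2 τ.2
  · intro n hn
    have := hN n hn
    exact ⟨fun σ => IsEmpty.false σ.1⟩

theorem isSph_conj (h : Act face act) (hf : FF face) (A : Set P) (b b' x : P)
    (hxA : ∀ q ∈ A, x * q = q * x) (hxb : x * b = b' * x) {a : ℕ}
    (ha : IsSph (fxf h (insert b A)) a) : IsSph (fxf h (insert b' A)) a := by
  intro n
  rw [← ha n]
  symm
  have hx1 : ∀ n σ, act x⁻¹ n (act x n σ) = σ := fun n σ => by
    rw [← h.mul, inv_mul_cancel, h.one]
  have hx2 : ∀ n σ, act x n (act x⁻¹ n σ) = σ := fun n σ => by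
    rw [← h.mul, mul_inv_cancel, h.one]
  have hxb' : x⁻¹ * b' = b * x⁻¹ := by
    rw [inv_mul_eq_iff_eq_mul, ← mul_assoc, hxb, mul_assoc, mul_inv_cancel, mul_one]
  have hxA' : ∀ q ∈ A, x⁻¹ * q = q * x⁻¹ := fun q hq => by
    rw [inv_mul_eq_iff_eq_mul, ← mul_assoc, hxA q hq, mul_assoc, mul_inv_cancel, mul_one]
  let e : ∀ n, Fx act (insert b A) n ≃ Fx act (insert b' A) n := fun n =>
    { toFun := fun σ => ⟨act x n σ.1, fun q hq => by
        rcases hq with rfl | hq
        · rw [← h.mul, ← hxb, h.mul, σ.2 b (Set.mem_insert _ _)]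
        · rw [← h.mul, ← hxA q hq, h.mul, σ.2 q (Set.mem_insert_of_mem _ hq)]⟩
      invFun := fun σ => ⟨act x⁻¹ n σ.1, fun q hq => by
        rcases hq with rfl | hq
        · rw [← h.mul, ← hxb', h.mul, σ.2 b' (Set.mem_insert _ _)]
        · rw [← h.mul, ← hxA' q hq, h.mul, σ.2 q (Set.mem_insert_of_mem _ hq)]⟩
      left_inv := fun σ => Subtype.ext (hx1 n σ.1)
      right_inv := fun σ => Subtype.ext (hx2 n σ.1) }
  exact hS_congr (fxf_ff h hf _) (fxf_ff h hf _) e
    (fun n i σ => Subtype.ext (h.fc x n i σ.1)) n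

theorem two_step (h : Act face act) (hf : FF face) {N : ℕ} (hN : ∀ n, N ≤ n → IsEmpty (S n))
    (A : Set P) (z b x : P) (hzz : z * z = 1) (hbb : b * b = 1) (hzb : z * b = b * z)
    (hzA : ∀ q ∈ A, z * q = q * z) (hbA : ∀ q ∈ A, b * q = q * b) (hxA : ∀ q ∈ A, x * q = q * x)
    (hxb : x * b = b * z * x) {a : ℕ} (ha : IsSph (fxf h A) a) :
    ∃ c aF cF, c ≤ a ∧ aF ≤ a ∧ cF ≤ aF ∧ IsSph (fxf h (insert z A)) c ∧
      IsSph (fxf h (insert b A)) aF ∧ IsSph (fxf h (insert z (insert b A))) cF ∧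
      a - c = 2 * (aF - cF) := by
  have hbzA : ∀ q ∈ A, b * z * q = q * (b * z) := fun q hq => by
    rw [mul_assoc, hzA q hq, ← mul_assoc, hbA q hq, mul_assoc]
  have hbz2 : b * z * (b * z) = 1 := by
    rw [mul_assoc, ← mul_assoc z, hzb, mul_assoc, hzz, mul_one, hbb]
  have hzF : ∀ q ∈ insert b A, z * q = q * z := by
    rintro q (rfl | hq)
    · exact hzb
    · exact hzA q hq
  have hzK : ∀ q ∈ insert (b * z) A, z * q = q * z := by
    rintro q (rfl | hq)
    · rw [← mul_assoc, hzb]
    · exact hzA q hq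
  have gen : ∀ (A : Set P) (z : P) (hz : ∀ q ∈ A, z * q = q * z) (n : ℕ) (σ : Fx act A n),
      act z n σ.1 = σ.1 ↔ ∀ q ∈ insert z A, act q n σ.1 = σ.1 := by
    intro A z hz n σ
    constructor
    · rintro h1 q (rfl | hq)
      · exact h1
      · exact σ.2 q hq
    · intro h1
      exact h1 z (Set.mem_insert _ _)
  obtain ⟨c, hca, hc, hce⟩ := smith_fx h hf hN A (insert z A) (Set.subset_insert _ _) z hzA hzz
    (gen A z hzA) ha
  obtain ⟨aF, haF, hF, -⟩ := smith_fx h hf hN A (insert b A) (Set.subset_insert _ _) b hbA hbb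
    (gen A b hbA) ha
  obtain ⟨cF, hcF, hL, hFe⟩ := smith_fx h hf hN (insert b A) (insert z (insert b A))
    (Set.subset_insert _ _) z hzF hzz (gen _ z hzF) hF
  have hK := isSph_conj h hf A b (b * z) x hxA hxb hF
  have hKL : insert (b * z) A ⊆ insert (b * z) (insert z (insert b A)) := by
    rintro q (rfl | hq)
    · exact Set.mem_insert _ _
    · exact Set.mem_insert_of_mem _ (Set.mem_insert_of_mem _ (Set.mem_insert_of_mem _ hq))
  obtain ⟨cK, hcK, hLK, hKe⟩ := smith_fx h hf hN (insert (b * z) A)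
    (insert (b * z) (insert z (insert b A))) hKL z hzK hzz (by
      intro n σ
      have h2 := σ.2 (b * z) (Set.mem_insert _ _)
      constructor
      · intro h1 q hq
        rw [h.mul, h1] at h2
        rcases hq with rfl | rfl | rfl | hq
        · rw [h.mul, h1, h2]
        · exact h1
        · exact h2
        · exact σ.2 q (Set.mem_insert_of_mem _ hq)
      · intro h1
        exact h1 z (by simp)) hK
  have hLL : cK = cF := by
    apply IsSph.unique _ hLK
    intro n
    rw [← hL n]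
    let e : ∀ n, Fx act (insert (b * z) (insert z (insert b A))) n ≃
        Fx act (insert z (insert b A)) n := fun n =>
      { toFun := fun σ => ⟨σ.1, fun q hq => σ.2 q (Set.mem_insert_of_mem _ hq)⟩
        invFun := fun σ => ⟨σ.1, fun q hq => by
          rcases hq with rfl | hq
          · rw [h.mul, σ.2 z (Set.mem_insert _ _),
              σ.2 b (Set.mem_insert_of_mem _ (Set.mem_insert _ _))]
          · exact σ.2 q hq⟩
        left_inv := fun σ => rfl
        right_inv := fun σ => rfl }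
    exact hS_congr (fxf_ff h hf _) (fxf_ff h hf _) e (fun n i σ => rfl) n
  refine ⟨c, aF, cF, hca, haF, hcF, hc, hF, hL, ?_⟩
  have hbor := borel_formula (fxf_ff h hf A) (fxa_invol h A z hzA hzz) (fxa_invol h A b hbA hbb)
    (fun n σ => Subtype.ext (by
      change act z n (act b n σ.1) = act b n (act z n σ.1)
      rw [← h.mul, ← h.mul, hzb]))
    (fxi_sub h (Set.subset_insert b A) z hzA hzF)
    (fxi_sub h (Set.subset_insert (b * z) A) z hzA hzK)
    (fun n σ => by
      constructor
      · intro h1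
        have h3 : act b n σ.1 = σ.1 := congrArg Subtype.val h1
        exact ⟨⟨σ.1, (gen A b hbA n σ).1 h3⟩, rfl⟩
      · rintro ⟨τ, rfl⟩
        exact Subtype.ext (τ.2 b (Set.mem_insert _ _)))
    (fun n σ => by
      constructor
      · intro h1
        have h3 : act b n (act z n σ.1) = σ.1 := congrArg Subtype.val h1
        rw [← h.mul] at h3
        exact ⟨⟨σ.1, (gen A (b * z) hbzA n σ).1 h3⟩, rfl⟩
      · rintro ⟨τ, rfl⟩
        apply Subtype.ext
        change act b n (act z n τ.1) = τ.1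
        rw [← h.mul]
        exact τ.2 (b * z) (Set.mem_insert _ _))
    (N := N) (fun n hn => by
      have := hN n hn
      exact ⟨fun σ => IsEmpty.false σ.1⟩)
    ha hce hFe hKe haF haF
  rw [hLL] at hbor
  omega

/-- **The divisibility theorem.** -/
theorem dvd_main (h : Act face act) (hf : FF face) {N : ℕ} (hN : ∀ n, N ≤ n → IsEmpty (S n))
    (z : P) (hzz : z * z = 1) (b x : ℕ → P) : ∀ (r : ℕ),
    (∀ i < r, b i * b i = 1) → (∀ i < r, z * b i = b i * z) →
    (∀ i < r, x i * b i = b i * z * x i) → (∀ i < r, ∀ j < r, b i * b j = b j * b i) →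
    (∀ i < r, ∀ j < r, i ≠ j → x i * b j = b j * x i) →
    ∀ (A : Set P), (∀ q ∈ A, z * q = q * z) → (∀ q ∈ A, ∀ i < r, b i * q = q * b i) →
    (∀ q ∈ A, ∀ i < r, x i * q = q * x i) → ∀ a, IsSph (fxf h A) a →
    ∃ c, c ≤ a ∧ IsSph (fxf h (insert z A)) c ∧ 2 ^ r ∣ a - c := by
  intro r
  induction r with
  | zero =>
    intro _ _ _ _ _ A hzA _ _ a ha
    obtain ⟨c, hca, hc, -⟩ := smith_fx h hf hN A (insert z A) (Set.subset_insert _ _) z hzA hzz
      (fun n σ => by
        constructor
        · rintro h1 q (rfl | hq)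
          · exact h1
          · exact σ.2 q hq
        · intro h1
          exact h1 z (Set.mem_insert _ _)) ha
    exact ⟨c, hca, hc, one_dvd _⟩
  | succ r ih =>
    intro h1 h2 h3 h4 h5 A hzA hbA hxA a ha
    obtain ⟨c, aF, cF, hca, haF, hcF, hc, hF, hL, heq⟩ := two_step h hf hN A z (b r) (x r) hzz
      (h1 r (by omega)) (h2 r (by omega)) hzA (fun q hq => hbA q hq r (by omega))
      (fun q hq => hxA q hq r (by omega)) (h3 r (by omega)) ha
    obtain ⟨c', hc1, hc2, hc3⟩ := ih (fun i hi => h1 i (by omega)) (fun i hi => h2 i (by omega))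
      (fun i hi => h3 i (by omega)) (fun i hi j hj => h4 i (by omega) j (by omega))
      (fun i hi j hj => h5 i (by omega) j (by omega)) (insert (b r) A)
      (by
        rintro q (rfl | hq)
        · exact h2 r (by omega)
        · exact hzA q hq)
      (by
        rintro q (rfl | hq) i hi
        · exact h4 i (by omega) r (by omega)
        · exact hbA q hq i (by omega))
      (by
        rintro q (rfl | hq) i hi
        · exact h5 i (by omega) r (by omega) (by omega)
        · exact hxA q hq i (by omega))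
      aF hF
    have h6 : c' = cF := IsSph.unique _ hc2 hL
    refine ⟨c, hca, hc, ?_⟩
    rw [heq, pow_succ, mul_comm (2 ^ r)]
    rw [h6] at hc3
    exact mul_dvd_mul_left 2 hc3

end

end Pool.Agent.V7H7.SZ
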