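import Pool.Agent.H185.ZM.FI

/-! Unitary groups of diagonal forms over rings with involution, orthogonal groups of lattices, and
the lattices `E₈^a ⊕ U^b` (after `OrthogonalLatticesH93`). -/

set_option autoImplicit false

namespace Pool.Agent.V7H7.SZ.Lat

open Module Matrix

/-- powers of an element of order dividing `p` -/
def zh {G : Type} [Monoid G] {p : ℕ} [NeZero p] (z : G) (hz : z ^ p = 1) :
    Multiplicative (ZMod p) →* G where
  toFun x := z ^ (x.toAdd).val
  map_one' := by simp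
  map_mul' x y := by
    have h1 : (x * y).toAdd = x.toAdd + y.toAdd := rfl
    rw [h1, ZMod.val_add, ← pow_add]
    conv_rhs => rw [← Nat.mod_add_div (x.toAdd.val + y.toAdd.val) p, pow_add, pow_mul, hz,
      one_pow, mul_one]

lemma zh_apply {G : Type} [Monoid G] {p : ℕ} [NeZero p] (z : G) (hz : z ^ p = 1)
    (x : Multiplicative (ZMod p)) : zh z hz x = z ^ (x.toAdd).val := rfl


/-- the unitary group of the form `∑ x_i* a_i x_i` over the ring `O` with involution -/
def UH {O : Type} [Ring O] [StarRing O] {n : ℕ} (a : Fin n → O) :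
    Subgroup (Matrix (Fin n) (Fin n) O)ˣ where
  carrier := {g | (g : Matrix (Fin n) (Fin n) O)ᴴ * diagonal a * (g : Matrix (Fin n) (Fin n) O) =
    diagonal a}
  one_mem' := by
    show (1 : Matrix (Fin n) (Fin n) O)ᴴ * diagonal a * (1 : Matrix (Fin n) (Fin n) O) = diagonal a
    rw [conjTranspose_one, one_mul, mul_one]
  mul_mem' := by
    intro g h hg hh
    have hg' : (g : Matrix (Fin n) (Fin n) O)ᴴ * diagonal a * (g : Matrix (Fin n) (Fin n) O) =
      diagonal a := hg
    have hh' : (h : Matrix (Fin n) (Fin n) O)ᴴ * diagonal a * (h : Matrix (Fin n) (Fin n) O) =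
      diagonal a := hh
    show ((g : Matrix (Fin n) (Fin n) O) * (h : Matrix (Fin n) (Fin n) O))ᴴ * diagonal a *
      ((g : Matrix (Fin n) (Fin n) O) * (h : Matrix (Fin n) (Fin n) O)) = diagonal a
    rw [conjTranspose_mul]
    calc _ = (h : Matrix (Fin n) (Fin n) O)ᴴ * ((g : Matrix (Fin n) (Fin n) O)ᴴ * diagonal a *
        (g : Matrix (Fin n) (Fin n) O)) * (h : Matrix (Fin n) (Fin n) O) := by
          simp only [Matrix.mul_assoc]
      _ = diagonal a := by rw [hg', hh']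
  inv_mem' := by
    intro g hg
    have hg' : (g : Matrix (Fin n) (Fin n) O)ᴴ * diagonal a * (g : Matrix (Fin n) (Fin n) O) =
      diagonal a := hg
    show ((g⁻¹ : (Matrix (Fin n) (Fin n) O)ˣ) : Matrix (Fin n) (Fin n) O)ᴴ * diagonal a *
      ((g⁻¹ : (Matrix (Fin n) (Fin n) O)ˣ) : Matrix (Fin n) (Fin n) O) = diagonal a
    have h1 : (g : Matrix (Fin n) (Fin n) O) *
        ((g⁻¹ : (Matrix (Fin n) (Fin n) O)ˣ) : Matrix (Fin n) (Fin n) O) = 1 := g.mul_inv
    have h2 : ((g⁻¹ : (Matrix (Fin n) (Fin n) O)ˣ) : Matrix (Fin n) (Fin n) O)ᴴ *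
        (g : Matrix (Fin n) (Fin n) O)ᴴ = 1 := by
      rw [← conjTranspose_mul, h1, conjTranspose_one]
    conv_lhs => rw [← hg']
    calc _ = (((g⁻¹ : (Matrix (Fin n) (Fin n) O)ˣ) : Matrix (Fin n) (Fin n) O)ᴴ *
        (g : Matrix (Fin n) (Fin n) O)ᴴ) * diagonal a * ((g : Matrix (Fin n) (Fin n) O) *
        ((g⁻¹ : (Matrix (Fin n) (Fin n) O)ˣ) : Matrix (Fin n) (Fin n) O)) := by
          simp only [Matrix.mul_assoc]
      _ = diagonal a := by rw [h1, h2, one_mul, mul_one]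

/-- the value at a unitary matrix -/
abbrev um {O : Type} [Ring O] [StarRing O] {n : ℕ} {a : Fin n → O} (g : UH a) :
    Matrix (Fin n) (Fin n) O := ((g : (Matrix (Fin n) (Fin n) O)ˣ) : Matrix (Fin n) (Fin n) O)


/-! ### Orthogonal groups of integral lattices -/

/-- `B` is a symmetric biadditive form -/
structure IsForm {V : Type} [AddCommGroup V] (B : V → V → ℤ) : Prop where
  add : ∀ x y z, B (x + y) z = B x z + B y z
  symm : ∀ x y, B x y = B y x

section lattice

variable {V : Type} [AddCommGroup V] {B : V → V → ℤ}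

lemma IsForm.zsmul (hB : IsForm B) (c : ℤ) (x y : V) : B (c • x) y = c * B x y := by
  let f : V →+ ℤ := AddMonoidHom.mk' (fun x => B x y) (fun x z => hB.add x z y)
  have := map_zsmul f c x
  rw [smul_eq_mul] at this
  exact this

lemma IsForm.neg (hB : IsForm B) (x y : V) : B (-x) y = - B x y := by
  have := hB.zsmul (-1) x y
  rw [neg_one_zsmul] at this
  rw [this]
  ring

lemma IsForm.sub (hB : IsForm B) (x y z : V) : B (x - y) z = B x z - B y z := by
  rw [sub_eq_add_neg, hB.add, hB.neg]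
  ring

lemma IsForm.sub_right (hB : IsForm B) (x y z : V) : B x (y - z) = B x y - B x z := by
  rw [hB.symm, hB.sub, hB.symm y, hB.symm z]

lemma IsForm.zsmul_right (hB : IsForm B) (c : ℤ) (x y : V) : B x (c • y) = c * B x y := by
  rw [hB.symm, hB.zsmul, hB.symm]

/-- the orthogonal group of the lattice `(V, B)` -/
def OL (B : V → V → ℤ) : Subgroup (V ≃ₗ[ℤ] V) where
  carrier := {g | ∀ x y, B (g x) (g y) = B x y}
  one_mem' := fun x y => rfl
  mul_mem' := fun {g h} hg hh x y => by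
    show B (g (h x)) (g (h y)) = B x y
    rw [hg, hh]
  inv_mem' := fun {g} hg x y => by
    have h1 := hg (g⁻¹ x) (g⁻¹ y)
    have h2 : ∀ z, g (g⁻¹ z) = z := fun z => g.apply_symm_apply z
    rw [h2, h2] at h1
    exact h1.symm

/-- the value of an isometry at a vector -/
abbrev ev (g : OL B) (x : V) : V := (g : V ≃ₗ[ℤ] V) x

lemma ev_mul (g h : OL B) (x : V) : ev (g * h) x = ev g (ev h x) := rfl

lemma ev_one (x : V) : ev (1 : OL B) x = x := rfl

lemma ol_ext {g h : OL B} (hgh : ∀ x, ev g x = ev h x) : g = h := by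
  apply Subtype.ext
  apply LinearEquiv.ext
  exact hgh

/-- the reflection at a vector `r` with `B r r = 2 ε`, `ε = ±1` -/
def rf (hB : IsForm B) (r : V) (ε : ℤ) (hr : B r r = 2 * ε) (hε : ε * ε = 1) : OL B :=
  ⟨{ toFun := fun x => x - (ε * B x r) • r
     invFun := fun x => x - (ε * B x r) • r
     left_inv := fun x => by
      have h1 : B (x - (ε * B x r) • r) r = - B x r := by
        rw [hB.sub, hB.zsmul, hr]
        linear_combination (-2 * B x r) * hε
      show x - (ε * B x r) • r - (ε * B (x - (ε * B x r) • r) r) • r = x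
      rw [h1, mul_neg, neg_smul]
      abel
     right_inv := fun x => by
      have h1 : B (x - (ε * B x r) • r) r = - B x r := by
        rw [hB.sub, hB.zsmul, hr]
        linear_combination (-2 * B x r) * hε
      show x - (ε * B x r) • r - (ε * B (x - (ε * B x r) • r) r) • r = x
      rw [h1, mul_neg, neg_smul]
      abel
     map_add' := fun x y => by
      show x + y - (ε * B (x + y) r) • r = x - (ε * B x r) • r + (y - (ε * B y r) • r)
      rw [hB.add, mul_add, add_smul]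
      abel
     map_smul' := fun c x => by
      show c • x - (ε * B (c • x) r) • r = c • (x - (ε * B x r) • r)
      rw [hB.zsmul, smul_sub, smul_smul]
      congr 2
      ring }, fun x y => by
      show B (x - (ε * B x r) • r) (y - (ε * B y r) • r) = B x y
      rw [hB.sub, hB.sub_right, hB.sub_right, hB.zsmul, hB.zsmul, hB.zsmul_right, hB.zsmul_right,
        hr, hB.symm r y]
      linear_combination (2 * ε * B x r * B y r) * hε⟩

lemma rf_apply (hB : IsForm B) (r : V) (ε : ℤ) (hr : B r r = 2 * ε) (hε : ε * ε = 1) (x : V) :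
    ev (rf hB r ε hr hε) x = x - (ε * B x r) • r := rfl


lemma rf_sq (hB : IsForm B) (r : V) (ε : ℤ) (hr : B r r = 2 * ε) (hε : ε * ε = 1) :
    (rf hB r ε hr hε) ^ 2 = 1 := by
  rw [pow_two]
  apply ol_ext
  intro x
  exact ((rf hB r ε hr hε : OL B) : V ≃ₗ[ℤ] V).left_inv x


lemma rf_fix (hB : IsForm B) (r : V) (ε : ℤ) (hr : B r r = 2 * ε) (hε : ε * ε = 1) (x : V)
    (hx : B x r = 0) : ev (rf hB r ε hr hε) x = x := by
  rw [rf_apply, hx]
  simp

lemma rf_comm (hB : IsForm B) (r s : V) (ε δ : ℤ) (hr : B r r = 2 * ε) (hε : ε * ε = 1)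
    (hs : B s s = 2 * δ) (hδ : δ * δ = 1) (h : B r s = 0) :
    Commute (rf hB r ε hr hε) (rf hB s δ hs hδ) := by
  apply ol_ext
  intro x
  rw [ev_mul, ev_mul, rf_apply, rf_apply, rf_apply, rf_apply, hB.sub, hB.sub, hB.zsmul, hB.zsmul,
    hB.symm s r, h]
  module


/-- the stabilizer of a vector -/
def stV (B : V → V → ℤ) (v : V) : Subgroup (OL B) where
  carrier := {g | ev g v = v}
  one_mem' := rfl
  mul_mem' := fun {g h} hg hh => by
    show ev (g * h) v = v
    rw [ev_mul, show ev h v = v from hh, show ev g v = v from hg]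
  inv_mem' := fun {g} hg => by
    show ev g⁻¹ v = v
    have h1 : ev g v = v := hg
    conv_lhs => rw [← h1]
    rw [← ev_mul, inv_mul_cancel, ev_one]

/-- injectivity of the homomorphism of a product -/
lemma inj_of {ι : Type} [Fintype ι] [DecidableEq ι] {N : ι → Type} [∀ i, Group (N i)]
    (ϕ : ∀ i, N i →* OL B)
    (hcomm : Pairwise fun i j => ∀ (x : N i) (y : N j), Commute (ϕ i x) (ϕ j y)) (v : ι → V)
    (hfix : ∀ i j x, i ≠ j → ev (ϕ i x) (v j) = v j)
    (hfree : ∀ j x, ev (ϕ j x) (v j) = v j → x = 1) :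
    Function.Injective (MonoidHom.noncommPiCoprod ϕ hcomm) := by
  rw [injective_iff_map_eq_one]
  intro e he
  funext j
  apply hfree
  have h1 : e = Pi.mulSingle j (e j) * Function.update e j 1 := by
    funext i
    rw [Pi.mul_apply]
    by_cases hij : i = j
    · subst hij
      simp
    · rw [Pi.mulSingle_eq_of_ne hij, Function.update_of_ne hij, one_mul]
  rw [h1, map_mul, MonoidHom.noncommPiCoprod_mulSingle] at he
  have h2 : MonoidHom.noncommPiCoprod ϕ hcomm (Function.update e j 1) ∈ stV B (v j) := by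
    refine Subgroup.noncommProd_mem (stV B (v j)) (t := Finset.univ)
      (f := fun i => ϕ i (Function.update e j 1 i)) (fun i _ k _ hik => hcomm hik _ _) ?_
    intro i _
    show ev (ϕ i (Function.update e j 1 i)) (v j) = v j
    by_cases hij : i = j
    · subst hij
      rw [Function.update_self, map_one, ev_one]
    · exact hfix i j _ hij
  have h3 : ev (ϕ j (e j)) (v j) =
      ev (ϕ j (e j) * MonoidHom.noncommPiCoprod ϕ hcomm (Function.update e j 1)) (v j) := by
    rw [ev_mul, show ev (MonoidHom.noncommPiCoprod ϕ hcomm (Function.update e j 1)) (v j) = v j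
      from h2]
  rw [h3, he, ev_one]

end lattice


section lattice2

variable {V : Type} [AddCommGroup V] {B : V → V → ℤ}

/-- pairwise orthogonal vectors `r i` with `B (r i) (r i) = 2 ε_i`, `ε_i = ±1` -/
structure OrthRoots (B : V → V → ℤ) {ι : Type} (r : ι → V) (ε : ι → ℤ) : Prop where
  sq : ∀ i, ε i * ε i = 1
  norm : ∀ i, B (r i) (r i) = 2 * ε i
  orth : ∀ i j, i ≠ j → B (r i) (r j) = 0


/-- the values `0, 1` -/
lemma val_two (x : Multiplicative (ZMod 2)) : x.toAdd.val = 0 ∧ x = 1 ∨ x.toAdd.val = 1 := by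
  revert x
  decide


/-- powers of commuting elements commute -/

lemma zh_comm {G : Type} [Group G] {p : ℕ} [NeZero p] {z w : G} (hz : z ^ p = 1) (hw : w ^ p = 1)
    (h : Commute z w) (x y : Multiplicative (ZMod p)) : Commute (zh z hz x) (zh w hw y) :=
  (h.pow_left _).pow_right _

/-- the stabilizer contains the powers -/
lemma zh_fix {p : ℕ} [NeZero p] {z : OL B} (hz : z ^ p = 1) {v : V} (hv : ev z v = v)
    (x : Multiplicative (ZMod p)) : ev (zh z hz x) v = v := by
  have h1 : z ∈ stV B v := hv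
  exact Subgroup.pow_mem _ h1 _

/-- the elementary abelian `2`-group generated by the reflections at orthogonal roots -/
theorem two_group (hB : IsForm B) {ι : Type} [Fintype ι] {r : ι → V} {ε : ι → ℤ}
    (h : OrthRoots B r ε) :
    ∃ φ : (ι → Multiplicative (ZMod 2)) →* OL B, Function.Injective φ := by
  classical
  let ϕ : ∀ _ : ι, Multiplicative (ZMod 2) →* OL B := fun i =>
    zh (rf hB (r i) (ε i) (h.norm i) (h.sq i)) (rf_sq hB _ _ _ _)
  have hcomm : Pairwise fun i j => ∀ (x y : Multiplicative (ZMod 2)),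
      Commute (ϕ i x) (ϕ j y) := fun i j hij x y =>
    zh_comm _ _ (rf_comm hB _ _ _ _ _ _ _ _ (h.orth i j hij)) x y
  refine ⟨MonoidHom.noncommPiCoprod ϕ hcomm, inj_of ϕ hcomm r ?_ ?_⟩
  · intro i j x hij
    exact zh_fix _ (rf_fix hB _ _ _ _ _ (h.orth j i (Ne.symm hij))) x
  · intro j x hx
    rcases val_two x with h1 | h1
    · exact h1.2
    · exfalso
      have h2 : ev ((rf hB (r j) (ε j) (h.norm j) (h.sq j)) ^ x.toAdd.val) (r j) = r j := hx
      rw [h1, pow_one, rf_apply] at h2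
      have h3 := congrArg (fun v => B v (r j)) h2
      have h4 : B (r j - (ε j * B (r j) (r j)) • r j) (r j) = B (r j) (r j) := h3
      rw [hB.sub, hB.zsmul, h.norm j] at h4
      have h5 := h.sq j
      have h6 : ε j = 0 := by
        have h7 : ε j * (ε j * ε j) = ε j := by rw [h5, mul_one]
        nlinarith
      rw [h6] at h5
      norm_num at h5


/-- `g` is `1` or `-1` -/
def IsPM0 (g : OL B) : Prop := (∀ x, ev g x = x) ∨ (∀ x, ev g x = -x)

lemma isPM_conj {g γ : OL B} (h : IsPM0 (γ⁻¹ * g * γ)) : IsPM0 g := by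
  have e : ∀ x, ev g x = ev γ (ev (γ⁻¹ * g * γ) (ev γ⁻¹ x)) := fun x => by
    rw [← ev_mul, ← ev_mul]
    congr 1
    group
  have e2 : ∀ x, ev γ (ev γ⁻¹ x) = x := fun x => by
    rw [← ev_mul, mul_inv_cancel, ev_one]
  rcases h with h | h
  · left
    intro x
    rw [e, h, e2]
  · right
    intro x
    rw [e, h]
    have h3 : ev γ (-(ev γ⁻¹ x)) = - ev γ (ev γ⁻¹ x) := map_neg (γ : V ≃ₗ[ℤ] V) _
    rw [h3, e2]


end lattice2

/-- the Cartan matrix of `E₈` -/
def cartan : Matrix (Fin 8) (Fin 8) ℤ :=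
  !![2, 0, -1, 0, 0, 0, 0, 0;
     0, 2, 0, -1, 0, 0, 0, 0;
     -1, 0, 2, -1, 0, 0, 0, 0;
     0, -1, -1, 2, -1, 0, 0, 0;
     0, 0, 0, -1, 2, -1, 0, 0;
     0, 0, 0, 0, -1, 2, -1, 0;
     0, 0, 0, 0, 0, -1, 2, -1;
     0, 0, 0, 0, 0, 0, -1, 2]

/-- the lattice `ℤ^(8 a) ⊕ ℤ^(2 b)` -/
abbrev EU0 (a b : ℕ) : Type := (Fin a → Fin 8 → ℤ) × (Fin b → Fin 2 → ℤ)

/-- the form of `E₈` -/
def fE (v w : Fin 8 → ℤ) : ℤ := ∑ j, ∑ k, cartan j k * v j * w k

/-- the form of the hyperbolic plane -/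
def fU (v w : Fin 2 → ℤ) : ℤ := v 0 * w 1 + v 1 * w 0

/-- the form of `E₈^a ⊕ U^b` -/
def formEU0 (a b : ℕ) (x y : EU0 a b) : ℤ := ∑ i, fE (x.1 i) (y.1 i) + ∑ i, fU (x.2 i) (y.2 i)

lemma fE_add (x y z : Fin 8 → ℤ) : fE (x + y) z = fE x z + fE y z := by
  unfold fE
  rw [← Finset.sum_add_distrib]
  refine Finset.sum_congr rfl (fun j _ => ?_)
  rw [← Finset.sum_add_distrib]
  refine Finset.sum_congr rfl (fun k _ => ?_)
  rw [Pi.add_apply]
  ring

lemma cartan_symm (j k : Fin 8) : cartan j k = cartan k j := by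
  fin_cases j <;> fin_cases k <;> rfl

lemma fE_symm (x y : Fin 8 → ℤ) : fE x y = fE y x := by
  unfold fE
  rw [Finset.sum_comm]
  refine Finset.sum_congr rfl (fun j _ => Finset.sum_congr rfl (fun k _ => ?_))
  rw [cartan_symm k j]
  ring

lemma fE_zero (x : Fin 8 → ℤ) : fE x 0 = 0 := by
  unfold fE
  simp

lemma fE_zero' (x : Fin 8 → ℤ) : fE 0 x = 0 := by
  rw [fE_symm, fE_zero]

lemma fU_zero (x : Fin 2 → ℤ) : fU x 0 = 0 := by
  simp [fU]

lemma fU_zero' (x : Fin 2 → ℤ) : fU 0 x = 0 := by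
  simp [fU]

theorem isForm_EU0 (a b : ℕ) : IsForm (formEU0 a b) where
  add x y z := by
    unfold formEU0
    have h1 : ∀ i, fE ((x + y).1 i) (z.1 i) = fE (x.1 i) (z.1 i) + fE (y.1 i) (z.1 i) :=
      fun i => fE_add _ _ _
    have h2 : ∀ i, fU ((x + y).2 i) (z.2 i) = fU (x.2 i) (z.2 i) + fU (y.2 i) (z.2 i) := fun i => by
      show (x.2 i 0 + y.2 i 0) * z.2 i 1 + (x.2 i 1 + y.2 i 1) * z.2 i 0 = _
      unfold fU
      ring
    rw [Finset.sum_congr rfl (fun i _ => h1 i), Finset.sum_congr rfl (fun i _ => h2 i),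
      Finset.sum_add_distrib, Finset.sum_add_distrib]
    ring
  symm x y := by
    unfold formEU0
    congr 1
    · exact Finset.sum_congr rfl (fun i _ => fE_symm _ _)
    · refine Finset.sum_congr rfl (fun i _ => ?_)
      unfold fU
      ring

/-- eight pairwise orthogonal roots of `E₈` -/
def rE : Fin 8 → Fin 8 → ℤ :=
  ![![0, 0, 0, 0, 0, 0, 0, 1], ![0, 0, 0, 0, 0, 1, 0, 0], ![0, 0, 0, 1, 0, 0, 0, 0],
    ![1, 0, 0, 0, 0, 0, 0, 0], ![1, 2, 2, 3, 2, 1, 0, 0], ![1, 2, 2, 3, 2, 2, 2, 1],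
    ![1, 2, 2, 4, 4, 3, 2, 1], ![2, 2, 4, 5, 4, 3, 2, 1]]


lemma rE_form (i j : Fin 8) : fE (rE i) (rE j) = if i = j then 2 else 0 := by
  revert i j
  decide +kernel


/-- a vector in one summand `E₈` -/
def vE {a b : ℕ} (i : Fin a) (v : Fin 8 → ℤ) : EU0 a b := (Pi.single i v, 0)

/-- a vector in one summand `U` -/
def vU {a b : ℕ} (i : Fin b) (v : Fin 2 → ℤ) : EU0 a b := (0, Pi.single i v)

lemma vE_vE {a b : ℕ} (i i' : Fin a) (v v' : Fin 8 → ℤ) :
    formEU0 a b (vE i v) (vE i' v') = if i = i' then fE v v' else 0 := by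
  show ∑ j, fE ((Pi.single i v : Fin a → Fin 8 → ℤ) j) ((Pi.single i' v' : Fin a → Fin 8 → ℤ) j) +
    ∑ j : Fin b, fU ((0 : Fin b → Fin 2 → ℤ) j) ((0 : Fin b → Fin 2 → ℤ) j) = _
  have h1 : ∑ j : Fin b, fU ((0 : Fin b → Fin 2 → ℤ) j) ((0 : Fin b → Fin 2 → ℤ) j) = 0 :=
    Finset.sum_eq_zero (fun j _ => fU_zero _)
  rw [h1, add_zero]
  split_ifs with h
  · subst h
    rw [Finset.sum_eq_single i]
    · rw [Pi.single_eq_same, Pi.single_eq_same]
    · intro j _ hj
      rw [Pi.single_eq_of_ne hj, fE_zero']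
    · intro h
      exact absurd (Finset.mem_univ _) h
  · refine Finset.sum_eq_zero (fun j _ => ?_)
    by_cases hj : j = i
    · subst hj
      rw [Pi.single_eq_of_ne h, fE_zero]
    · rw [Pi.single_eq_of_ne hj, fE_zero']

lemma vU_vU {a b : ℕ} (i i' : Fin b) (v v' : Fin 2 → ℤ) :
    formEU0 a b (vU i v) (vU i' v') = if i = i' then fU v v' else 0 := by
  show ∑ j : Fin a, fE ((0 : Fin a → Fin 8 → ℤ) j) ((0 : Fin a → Fin 8 → ℤ) j) +
    ∑ j, fU ((Pi.single i v : Fin b → Fin 2 → ℤ) j) ((Pi.single i' v' : Fin b → Fin 2 → ℤ) j) = _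
  have h1 : ∑ j : Fin a, fE ((0 : Fin a → Fin 8 → ℤ) j) ((0 : Fin a → Fin 8 → ℤ) j) = 0 :=
    Finset.sum_eq_zero (fun j _ => fE_zero _)
  rw [h1, zero_add]
  split_ifs with h
  · subst h
    rw [Finset.sum_eq_single i]
    · rw [Pi.single_eq_same, Pi.single_eq_same]
    · intro j _ hj
      rw [Pi.single_eq_of_ne hj, fU_zero']
    · intro h
      exact absurd (Finset.mem_univ _) h
  · refine Finset.sum_eq_zero (fun j _ => ?_)
    by_cases hj : j = i
    · subst hj
      rw [Pi.single_eq_of_ne h, fU_zero]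
    · rw [Pi.single_eq_of_ne hj, fU_zero']

lemma vE_vU {a b : ℕ} (i : Fin a) (i' : Fin b) (v : Fin 8 → ℤ) (v' : Fin 2 → ℤ) :
    formEU0 a b (vE i v) (vU i' v') = 0 := by
  show ∑ j : Fin a, fE ((Pi.single i v : Fin a → Fin 8 → ℤ) j) ((0 : Fin a → Fin 8 → ℤ) j) +
    ∑ j : Fin b, fU ((0 : Fin b → Fin 2 → ℤ) j) ((Pi.single i' v' : Fin b → Fin 2 → ℤ) j) = 0
  have h1 : ∑ j : Fin b, fU ((0 : Fin b → Fin 2 → ℤ) j) ((Pi.single i' v' : Fin b → Fin 2 → ℤ) j) =
      0 := Finset.sum_eq_zero (fun j _ => fU_zero' _)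
  have h2 : ∑ j : Fin a, fE ((Pi.single i v : Fin a → Fin 8 → ℤ) j) ((0 : Fin a → Fin 8 → ℤ) j) =
      0 := Finset.sum_eq_zero (fun j _ => fE_zero _)
  rw [h1, h2, add_zero]

/-- two orthogonal vectors of norm `2`, `-2` in `U` -/
def rU : Fin 2 → Fin 2 → ℤ := ![![1, 1], ![1, -1]]

/-- the orthogonal roots of `E₈^a ⊕ U^b` -/
def rEU (a b : ℕ) : (Fin a × Fin 8) ⊕ (Fin b × Fin 2) → EU0 a b
  | Sum.inl (i, j) => vE i (rE j)
  | Sum.inr (i, j) => vU i (rU j)

/-- their signs -/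
def eEU (a b : ℕ) : (Fin a × Fin 8) ⊕ (Fin b × Fin 2) → ℤ
  | Sum.inl _ => 1
  | Sum.inr (_, j) => ![1, -1] j

theorem roots_EU (a b : ℕ) : OrthRoots (formEU0 a b) (rEU a b) (eEU a b) where
  sq := by
    rintro (⟨i, j⟩ | ⟨i, j⟩)
    · rfl
    · fin_cases j <;> rfl
  norm := by
    rintro (⟨i, j⟩ | ⟨i, j⟩)
    · show formEU0 a b (vE i (rE j)) (vE i (rE j)) = 2 * 1
      rw [vE_vE, if_pos rfl, rE_form, if_pos rfl]
      norm_num
    · show formEU0 a b (vU i (rU j)) (vU i (rU j)) = 2 * ![1, -1] j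
      rw [vU_vU, if_pos rfl]
      fin_cases j <;> rfl
  orth := by
    rintro (⟨i, j⟩ | ⟨i, j⟩) (⟨i', j'⟩ | ⟨i', j'⟩) h
    · show formEU0 a b (vE i (rE j)) (vE i' (rE j')) = 0
      rw [vE_vE]
      split_ifs with h1
      · rw [rE_form, if_neg]
        intro h2
        exact h (by rw [h1, h2])
      · rfl
    · exact vE_vU _ _ _ _
    · rw [(isForm_EU0 a b).symm]
      exact vE_vU _ _ _ _
    · show formEU0 a b (vU i (rU j)) (vU i' (rU j')) = 0
      rw [vU_vU]
      split_ifs with h1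
      · have h2 : j ≠ j' := fun h2 => h (by rw [h1, h2])
        fin_cases j <;> fin_cases j' <;> first | rfl | exact absurd rfl h2
      · rfl


end Pool.Agent.V7H7.SZ.Lat
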