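import Pool.Agent.Helper381.LES

/-! The exact form of the dimension count in the long exact cohomology sequence. -/

set_option autoImplicit false
set_option linter.unusedSectionVars false

namespace Pool.Agent.V7H7.SZ

open Module Pool.Agent.Helper381

universe u v w

section

variable {k : Type u} [Field k]
variable {A : ℕ → Type v} [∀ n, AddCommGroup (A n)] [∀ n, Module k (A n)]
  [∀ n, FiniteDimensional k (A n)] (dA : ∀ n, A n →ₗ[k] A (n + 1))
variable {B : ℕ → Type v} [∀ n, AddCommGroup (B n)] [∀ n, Module k (B n)]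
  [∀ n, FiniteDimensional k (B n)] (dB : ∀ n, B n →ₗ[k] B (n + 1))
variable {C : ℕ → Type v} [∀ n, AddCommGroup (C n)] [∀ n, Module k (C n)]
  [∀ n, FiniteDimensional k (C n)] (dC : ∀ n, C n →ₗ[k] C (n + 1))

/-- the elements of the subcomplex which are coboundaries of the large complex -/
def XX (α : ∀ n, A n →ₗ[k] B n) (n : ℕ) : Submodule k (A n) := (cobound k B dB n).comap (α n)

/-- the map from the cocycles of the subcomplex to the quotient by the coboundaries -/
def mq (α : ∀ n, A n →ₗ[k] B n) (n : ℕ) :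
    LinearMap.ker (dA n) →ₗ[k] (B n ⧸ cobound k B dB n) :=
  (Submodule.mkQ _).comp ((α n).comp (LinearMap.ker (dA n)).subtype)

/-- the rank of the map in cohomology -/
noncomputable def rho (α : ∀ n, A n →ₗ[k] B n) (n : ℕ) : ℕ :=
  finrank k (LinearMap.range (mq dA dB α n))

variable (α : ∀ n, A n →ₗ[k] B n) (β : ∀ n, B n →ₗ[k] C n)

theorem rho_eq_zero_iff (n : ℕ) :
    rho dA dB α n = 0 ↔ ∀ a, dA n a = 0 → α n a ∈ cobound k B dB n := by
  unfold rho
  rw [Submodule.finrank_eq_zero, LinearMap.range_eq_bot]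
  constructor
  · intro h a ha
    have := LinearMap.congr_fun h ⟨a, ha⟩
    exact (Submodule.Quotient.mk_eq_zero _).mp this
  · intro h
    apply LinearMap.ext
    intro a
    exact (Submodule.Quotient.mk_eq_zero _).mpr (h a.1 a.2)

theorem cobound_comp (hαd : ∀ n a, dB n (α n a) = α (n + 1) (dA n a)) (n : ℕ) :
    cobound k A dA n ≤ XX dB α n := by
  cases n with
  | zero => exact bot_le
  | succ n =>
    rintro _ ⟨x, rfl⟩
    exact ⟨α n x, hαd n x⟩

theorem XX_le (hα : ∀ n, Function.Injective (α n))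
    (hαd : ∀ n a, dB n (α n a) = α (n + 1) (dA n a))
    (hdB : ∀ n x, dB (n + 1) (dB n x) = 0) (n : ℕ) : XX dB α n ≤ LinearMap.ker (dA n) := by
  intro a ha
  have h1 : α n a ∈ LinearMap.ker (dB n) := cobound_le dB hdB n ha
  rw [LinearMap.mem_ker] at h1 ⊢
  apply hα
  rw [← hαd, h1, map_zero]

theorem finrank_XX_add_rho (hα : ∀ n, Function.Injective (α n))
    (hαd : ∀ n a, dB n (α n a) = α (n + 1) (dA n a))
    (hdB : ∀ n x, dB (n + 1) (dB n x) = 0) (n : ℕ) :
    finrank k (XX dB α n) + rho dA dB α n = finrank k (LinearMap.ker (dA n)) := by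
  have h1 := (mq dA dB α n).finrank_range_add_finrank_ker
  have h2 : LinearMap.ker (mq dA dB α n) = (XX dB α n).comap (LinearMap.ker (dA n)).subtype := by
    ext a
    rw [LinearMap.mem_ker]
    exact Submodule.Quotient.mk_eq_zero _
  have h3 : finrank k ((XX dB α n).comap (LinearMap.ker (dA n)).subtype) =
      finrank k (XX dB α n) :=
    (Submodule.comapSubtypeEquivOfLe (XX_le dA dB α hα hαd hdB n)).finrank_eq
  rw [h2, h3] at h1
  unfold rho
  omega

include β in
theorem rkb_add (hα : ∀ n, Function.Injective (α n))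
    (hβ : ∀ n, Function.Surjective (β n))
    (hex : ∀ n b, β n b = 0 → ∃ a, α n a = b)
    (hβα : ∀ n a, β n (α n a) = 0)
    (hβd : ∀ n b, dC n (β n b) = β (n + 1) (dB n b)) (n : ℕ) :
    rkb dC n + finrank k (XX dB α n) = rkb dB n := by
  have hmap : ∀ x ∈ cobound k B dB n, β n x ∈ cobound k C dC n := by
    intro x hx
    cases n with
    | zero =>
      have : x = 0 := hx
      rw [this, map_zero]
      exact Submodule.zero_mem _
    | succ n =>
      obtain ⟨y, rfl⟩ := hx
      exact ⟨β n y, hβd n y⟩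
  let f : cobound k B dB n →ₗ[k] cobound k C dC n := (β n).restrict hmap
  have hf : Function.Surjective f := by
    rintro ⟨y, hy⟩
    cases n with
    | zero =>
      refine ⟨0, Subtype.ext ?_⟩
      have : y = 0 := hy
      rw [map_zero]
      exact this.symm
    | succ n =>
      obtain ⟨c, rfl⟩ := hy
      obtain ⟨b, rfl⟩ := hβ n c
      exact ⟨⟨dB n b, ⟨b, rfl⟩⟩, Subtype.ext (hβd n b).symm⟩
  have h1 := f.finrank_range_add_finrank_ker
  rw [LinearMap.range_eq_top.2 hf, finrank_top] at h1
  -- the kernel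
  let g : XX dB α n →ₗ[k] LinearMap.ker f :=
    { toFun := fun a => ⟨⟨α n a.1, a.2⟩, by
        rw [LinearMap.mem_ker]
        exact Subtype.ext (hβα n a.1)⟩
      map_add' := fun a b => by
        apply Subtype.ext; apply Subtype.ext
        exact map_add _ _ _
      map_smul' := fun c a => by
        apply Subtype.ext; apply Subtype.ext
        exact map_smul _ _ _ }
  have hg : Function.Bijective g := by
    constructor
    · intro a b hab
      apply Subtype.ext
      apply hα n
      exact congrArg (fun x : LinearMap.ker f => (x.1 : B n)) hab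
    · rintro ⟨⟨b, hb⟩, hb2⟩
      rw [LinearMap.mem_ker] at hb2
      have h3 : β n b = 0 := congrArg Subtype.val hb2
      obtain ⟨a, rfl⟩ := hex n b h3
      exact ⟨⟨a, hb⟩, rfl⟩
  have h2 := (LinearEquiv.ofBijective g hg).finrank_eq
  change finrank k (cobound k C dC n) + _ = finrank k (cobound k B dB n)
  omega

/-- **The exact dimension count.** -/
theorem les_eq (hα : ∀ n, Function.Injective (α n))
    (hβ : ∀ n, Function.Surjective (β n))
    (hex : ∀ n b, β n b = 0 → ∃ a, α n a = b)
    (hβα : ∀ n a, β n (α n a) = 0)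
    (hαd : ∀ n a, dB n (α n a) = α (n + 1) (dA n a))
    (hβd : ∀ n b, dC n (β n b) = β (n + 1) (dB n b))
    (hdA : ∀ n x, dA (n + 1) (dA n x) = 0)
    (hdB : ∀ n x, dB (n + 1) (dB n x) = 0)
    (hdC : ∀ n x, dC (n + 1) (dC n x) = 0) (n : ℕ) :
    finrank k (Coh k C dC n) + rho dA dB α n + rho dA dB α (n + 1) =
      finrank k (Coh k B dB n) + finrank k (Coh k A dA (n + 1)) := by
  have a1 := finrank_coh dA hdA (n + 1)
  have a2 := (dA n).finrank_range_add_finrank_ker
  have a3 := (dA (n + 1)).finrank_range_add_finrank_ker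
  have b1 := finrank_coh dB hdB n
  have c1 := finrank_coh dC hdC n
  have k1 := rkb_add dB dC α β hα hβ hex hβα hβd n
  have k2 := rkb_add dB dC α β hα hβ hex hβα hβd (n + 1)
  have x1 := finrank_XX_add_rho dA dB α hα hαd hdB n
  have x2 := finrank_XX_add_rho dA dB α hα hαd hdB (n + 1)
  have d1 : finrank k (B n) = finrank k (A n) + finrank k (C n) := by
    have h1 := (β n).finrank_range_add_finrank_ker
    rw [LinearMap.range_eq_top.2 (hβ n), finrank_top] at h1
    have h2 : LinearMap.ker (β n) = LinearMap.range (α n) := by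
      ext b
      rw [LinearMap.mem_ker, LinearMap.mem_range]
      constructor
      · exact hex n b
      · rintro ⟨a, rfl⟩; exact hβα n a
    have h3 := (LinearEquiv.ofInjective (α n) (hα n)).finrank_eq
    rw [h2] at h1
    omega
  rw [rkb_succ] at a1 k2
  rw [rkb_succ] at k2
  omega

theorem rho_le_B (hα : ∀ n, Function.Injective (α n))
    (hαd : ∀ n a, dB n (α n a) = α (n + 1) (dA n a))
    (hdB : ∀ n x, dB (n + 1) (dB n x) = 0) (n : ℕ) :
    rho dA dB α n ≤ finrank k (Coh k B dB n) := by
  have hJ : ∀ z : LinearMap.ker (dA n), α n z.1 ∈ LinearMap.ker (dB n) := by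
    intro z
    rw [LinearMap.mem_ker, hαd]
    have : dA n z.1 = 0 := z.2
    rw [this, map_zero]
  let J : LinearMap.ker (dA n) →ₗ[k] LinearMap.ker (dB n) :=
    ((α n).comp (LinearMap.ker (dA n)).subtype).codRestrict _ hJ
  let ψ : LinearMap.ker (dA n) →ₗ[k] Coh k B dB n := (Submodule.mkQ _).comp J
  have h1 := ψ.finrank_range_add_finrank_ker
  have h2 : LinearMap.ker ψ = (XX dB α n).comap (LinearMap.ker (dA n)).subtype := by
    ext a
    rw [LinearMap.mem_ker]
    exact Submodule.Quotient.mk_eq_zero _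
  have h3 : finrank k ((XX dB α n).comap (LinearMap.ker (dA n)).subtype) =
      finrank k (XX dB α n) :=
    (Submodule.comapSubtypeEquivOfLe (XX_le dA dB α hα hαd hdB n)).finrank_eq
  have h4 := finrank_XX_add_rho dA dB α hα hαd hdB n
  have h5 : finrank k (LinearMap.range ψ) ≤ finrank k (Coh k B dB n) := Submodule.finrank_le _
  rw [h2, h3] at h1
  omega

theorem rho_le_A (hα : ∀ n, Function.Injective (α n))
    (hαd : ∀ n a, dB n (α n a) = α (n + 1) (dA n a))
    (hdA : ∀ n x, dA (n + 1) (dA n x) = 0)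
    (hdB : ∀ n x, dB (n + 1) (dB n x) = 0) (n : ℕ) :
    rho dA dB α n ≤ finrank k (Coh k A dA n) := by
  have a1 := finrank_coh dA hdA n
  have a2 := (dA n).finrank_range_add_finrank_ker
  have h4 := finrank_XX_add_rho dA dB α hα hαd hdB n
  have h5 : rkb dA n ≤ finrank k (XX dB α n) :=
    Submodule.finrank_mono (cobound_comp dA dB α hαd n)
  omega

theorem rho_zero (hα : ∀ n, Function.Injective (α n))
    (hαd : ∀ n a, dB n (α n a) = α (n + 1) (dA n a))
    (hdA : ∀ n x, dA (n + 1) (dA n x) = 0)
    (hdB : ∀ n x, dB (n + 1) (dB n x) = 0) :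
    rho dA dB α 0 = finrank k (Coh k A dA 0) := by
  have a1 := finrank_coh dA hdA 0
  have a2 := (dA 0).finrank_range_add_finrank_ker
  have h4 := finrank_XX_add_rho dA dB α hα hαd hdB 0
  have h5 : XX dB α 0 = ⊥ := by
    rw [eq_bot_iff]
    intro a ha
    have : α 0 a = 0 := ha
    rw [Submodule.mem_bot]
    apply hα
    rw [this, map_zero]
  rw [h5, finrank_bot] at h4
  rw [rkb_zero] at a1
  omega

end

end Pool.Agent.V7H7.SZ
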