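import Mathlib

/-! The octonions and the Albert algebra over commutative rings. -/

set_option autoImplicit false

namespace Pool.Agent.V7H7.SZ.Mnl

/-- the sign `(-1)^t` -/
def sgn (R : Type) [CommRing R] (t : ZMod 2) : R := if t = 0 then 1 else -1

/-- the basis up to signs -/
def BB (R : Type) [CommRing R] {J : Type} [DecidableEq J] : Set (J → R) :=
  {a | ∃ (j : J) (t : ZMod 2), a = Pi.single j (sgn R t)}

/-- the indices of the basis of the octonions -/
abbrev I3 : Type := ZMod 2 × ZMod 2 × ZMod 2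

/-- The signs of the multiplication table of the octonions. -/
def q (x y : I3) : ZMod 2 :=
  x.1 * y.1 + x.1 * y.2.1 + x.1 * y.2.2 + x.2.1 * y.2.1 + x.2.1 * y.2.2 + x.2.2 * y.2.2 +
    y.1 * x.2.1 * x.2.2 + x.1 * y.2.1 * x.2.2 + x.1 * x.2.1 * y.2.2

/-- `e_0` is the unit. -/
theorem q_zero : ∀ x : I3, q 0 x = 0 ∧ q x 0 = 0 := by decide

/-- `e_x² = -1` for `x ≠ 0`. -/
theorem q_self : ∀ x : I3, x ≠ 0 → q x x = 1 := by decide

/-- This identity says that the norm `∑ (a z)²` is multiplicative, so that the algebra is a unital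
composition algebra of dimension `8`. -/
theorem q_comp : ∀ x y z : I3, x ≠ y →
    q x (x + z) + q y (y + z) + (q x (y + z) + q y (x + z)) = 1 := by decide

variable {R : Type} [CommRing R]

/-- The product of the octonions over `R` with the basis `e_z`, `z ∈ (ℤ/2)³`:
`e_x e_y = (-1)^(q x y) e_(x + y)`, `e_x² = -1` for `x ≠ 0`. -/
def om (a b : I3 → R) : I3 → R := fun z => ∑ x, sgn R (q x (x + z)) * (a x * b (x + z))

/-- the indices of the basis of the hermitian `3 × 3` matrices over the octonions -/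
abbrev J27 : Type := Fin 3 ⊕ (Fin 3 × I3)

/-- the signs of the conjugation -/
def κ (z : I3) : ZMod 2 := if z = 0 then 0 else 1

/-- the octonions of the matrix -/
def jx (a : J27 → R) (i : Fin 3) : I3 → R := fun z => a (Sum.inr (i, z))

/-- The product `a b + b a` of hermitian `3 × 3` matrices over the octonions, with diagonal
entries `a (inl i)` and entries `x_i = jx a i` at the places `(i + 1, i + 2)`. -/
def am (a b : J27 → R) : J27 → R := Sum.elim
  (fun i => 2 * (a (Sum.inl i) * b (Sum.inl i)) +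
    2 * (jx a (i + 1) ⬝ᵥ jx b (i + 1) + jx a (i + 2) ⬝ᵥ jx b (i + 2)))
  (fun p => (a (Sum.inl (p.1 + 1)) + a (Sum.inl (p.1 + 2))) * b (Sum.inr p) +
    (b (Sum.inl (p.1 + 1)) + b (Sum.inl (p.1 + 2))) * a (Sum.inr p) +
    sgn R (κ p.2) * (om (jx b (p.1 + 1)) (jx a (p.1 + 2)) p.2 +
      om (jx a (p.1 + 1)) (jx b (p.1 + 2)) p.2))

/-- The cubic form (determinant) of hermitian `3 × 3` matrices over the octonions,
`α₀ α₁ α₂ - ∑ α_i n(x_i) + 2 Re((x₀ x₁) x₂)`. -/
def cub (a : J27 → R) : R :=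
  a (Sum.inl 0) * a (Sum.inl 1) * a (Sum.inl 2) -
    ∑ i, a (Sum.inl i) * (jx a i ⬝ᵥ jx a i) + 2 * om (om (jx a 0) (jx a 1)) (jx a 2) 0

end Pool.Agent.V7H7.SZ.Mnl
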