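import Pool.Agent.V7H7.SZ.SmW
import Pool.Agent.V7H7.SZ.OctDef

/-! Automorphisms which permute a basis up to signs. -/

set_option autoImplicit false
set_option linter.unusedSectionVars false

namespace Pool.Agent.V7H7.SZ.Mnl

open scoped Manifold ContDiff
open Module Pool.Agent.Helper381 Pool.Agent.H185.ZM

section basic

variable (R : Type) [CommRing R]

theorem sgn_zero : sgn R 0 = 1 := by
  unfold sgn
  rw [if_pos rfl]

theorem sgn_one : sgn R 1 = -1 := by
  unfold sgn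
  rw [if_neg (by decide)]

theorem sgn_add (a b : ZMod 2) : sgn R (a + b) = sgn R a * sgn R b := by
  have h : ∀ c : ZMod 2, c = 0 ∨ c = 1 := by decide
  rcases h a with rfl | rfl <;> rcases h b with rfl | rfl
  · rw [add_zero, sgn_zero, mul_one]
  · rw [zero_add, sgn_zero, one_mul]
  · rw [add_zero, sgn_zero, mul_one]
  · rw [show (1 : ZMod 2) + 1 = 0 by decide, sgn_zero, sgn_one]
    ring

theorem sgn_mul_self (a : ZMod 2) : sgn R a * sgn R a = 1 := by
  rw [← sgn_add, CharTwo.add_self_eq_zero, sgn_zero]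

variable {J : Type} [Fintype J] [DecidableEq J]

/-- the signed permutation `e_j ↦ ± e_(σ j)` -/
def spe (s : J → ZMod 2) (σ : Equiv.Perm J) : (J → R) ≃ₗ[R] (J → R) where
  toFun a j := sgn R (s (σ.symm j)) * a (σ.symm j)
  invFun a j := sgn R (s j) * a (σ j)
  map_add' a b := by
    funext j
    simp only [Pi.add_apply]
    ring
  map_smul' c a := by
    funext j
    simp only [Pi.smul_apply, smul_eq_mul, RingHom.id_apply]
    ring
  left_inv a := by
    funext j
    simp only [Equiv.symm_apply_apply]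
    rw [← mul_assoc, sgn_mul_self, one_mul]
  right_inv a := by
    funext j
    simp only [Equiv.apply_symm_apply]
    rw [← mul_assoc, sgn_mul_self, one_mul]

theorem spe_apply (s : J → ZMod 2) (σ : Equiv.Perm J) (a : J → R) (j : J) :
    spe R s σ a j = sgn R (s (σ.symm j)) * a (σ.symm j) := rfl

theorem spe_apply' (s : J → ZMod 2) (σ : Equiv.Perm J) (a : J → R) (j : J) :
    spe R s σ a (σ j) = sgn R (s j) * a j := by
  rw [spe_apply, Equiv.symm_apply_apply]

theorem spe_single (s : J → ZMod 2) (σ : Equiv.Perm J) (j : J) (c : R) :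
    spe R s σ (Pi.single j c) = Pi.single (σ j) (sgn R (s j) * c) := by
  funext k
  obtain ⟨k, rfl⟩ := σ.surjective k
  rw [spe_apply']
  by_cases h : k = j
  · subst h
    rw [Pi.single_eq_same, Pi.single_eq_same]
  · rw [Pi.single_eq_of_ne h, Pi.single_eq_of_ne (fun h' => h (σ.injective h')), mul_zero]

theorem spe_mem (s : J → ZMod 2) (σ : Equiv.Perm J) (b : J → R) :
    b ∈ BB R ↔ spe R s σ b ∈ BB R := by
  constructor
  · rintro ⟨j, t, rfl⟩
    exact ⟨σ j, s j + t, by rw [spe_single, sgn_add]⟩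
  · rintro ⟨j, t, h⟩
    refine ⟨σ.symm j, s (σ.symm j) + t, ?_⟩
    apply (spe R s σ).injective
    rw [h, spe_single, Equiv.apply_symm_apply, sgn_add, ← mul_assoc, sgn_mul_self, one_mul]

theorem finite_BB : (BB R : Set (J → R)).Finite := by
  refine (Set.finite_range (fun p : J × ZMod 2 => (Pi.single p.1 (sgn R p.2) : J → R))).subset ?_
  rintro _ ⟨j, t, rfl⟩
  exact ⟨(j, t), rfl⟩

variable {R}

/-- the elements of `G` which permute the basis up to signs -/
def stabB (G : Subgroup ((J → R) ≃ₗ[R] (J → R))) : Subgroup ((J → R) ≃ₗ[R] (J → R)) where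
  carrier := {g | g ∈ G ∧ ∀ b, b ∈ BB R ↔ g b ∈ BB R}
  one_mem' := ⟨G.one_mem, fun _ => Iff.rfl⟩
  mul_mem' := fun {g h} hg hh => ⟨G.mul_mem hg.1 hh.1, fun b => (hh.2 b).trans (hg.2 (h b))⟩
  inv_mem' := fun {g} hg => ⟨G.inv_mem hg.1, fun b => by
    have h1 := hg.2 (g⁻¹ b)
    have h2 : g (g⁻¹ b) = b := by
      rw [← LinearEquiv.mul_apply, mul_inv_cancel]
      rfl
    rw [h2] at h1
    exact h1.symm⟩

instance (G : Subgroup ((J → R) ≃ₗ[R] (J → R))) : Finite (stabB G) := by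
  have hf : Finite (BB R : Set (J → R)) := (finite_BB R).to_subtype
  have hi : Function.Injective (fun (g : stabB G) (b : (BB R : Set (J → R))) =>
      (⟨g.1 b.1, (g.2.2 b.1).1 b.2⟩ : (BB R : Set (J → R)))) := by
    intro g h hgh
    apply Subtype.ext
    apply LinearEquiv.toLinearMap_injective
    apply LinearMap.pi_ext'
    intro j
    apply LinearMap.ext_ring
    have h1 := congrFun hgh ⟨Pi.single j 1, j, 0, by rw [sgn_zero]⟩
    exact congrArg Subtype.val h1
  exact Finite.of_injective _ hi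

end basic

section weights

variable {R : Type} [CommRing R] {J : Type} [Fintype J] [DecidableEq J]

/-- the sign changes given by a vector -/
def dg (R : Type) [CommRing R] {J : Type} {ι : Type} [Fintype ι] (wt : J → ι → ZMod 2)
    (v : ι → ZMod 2) : (J → R) ≃ₗ[R] (J → R) := spe R (fun j => wt j ⬝ᵥ v) 1

theorem dg_apply {ι : Type} [Fintype ι] (wt : J → ι → ZMod 2) (v : ι → ZMod 2) (a : J → R)
    (j : J) : dg R wt v a j = sgn R (wt j ⬝ᵥ v) * a j := rfl

/-- as a homomorphism to the finite group -/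
def dgh {ι : Type} [Fintype ι] (wt : J → ι → ZMod 2)
    (G : Subgroup ((J → R) ≃ₗ[R] (J → R))) (hG : ∀ v, dg R wt v ∈ G) :
    Multiplicative (ι → ZMod 2) →* stabB G :=
  MonoidHom.mk' (fun v => ⟨dg R wt (Multiplicative.toAdd v), hG _, spe_mem R _ _⟩) (by
    intro v w
    apply Subtype.ext
    apply LinearEquiv.ext
    intro a
    funext j
    change sgn R (wt j ⬝ᵥ (Multiplicative.toAdd v + Multiplicative.toAdd w)) * a j =
      sgn R (wt j ⬝ᵥ Multiplicative.toAdd v) * (sgn R (wt j ⬝ᵥ Multiplicative.toAdd w) * a j)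
    rw [dotProduct_add, sgn_add, mul_assoc])

theorem conj_dg {ι : Type} [Fintype ι] (wt : J → ι → ZMod 2) (s : J → ZMod 2)
    (σ : Equiv.Perm J) (ρ : (ι → ZMod 2) ≃ (ι → ZMod 2))
    (h : ∀ j v, wt (σ j) ⬝ᵥ ρ v = wt j ⬝ᵥ v) (v : ι → ZMod 2) :
    spe R s σ * dg R wt v * (spe R s σ)⁻¹ = dg R wt (ρ v) := by
  rw [mul_inv_eq_iff_eq_mul]
  apply LinearEquiv.ext
  intro a
  funext j
  obtain ⟨j, rfl⟩ := σ.surjective j
  change spe R s σ (dg R wt v a) (σ j) = dg R wt (ρ v) (spe R s σ a) (σ j)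
  rw [spe_apply', dg_apply, dg_apply, spe_apply', h]
  ring

variable {E : Type} [NormedAddCommGroup E] [NormedSpace ℝ E] [FiniteDimensional ℝ E]
  {M : Type} [TopologicalSpace M] [ChartedSpace E M] [IsManifold 𝓘(ℝ, E) ∞ M]

theorem monomial_weights [CompactSpace M] [T2Space M] [ConnectedSpace M]
    (hM : Mod2Sphere M (finrank ℝ E)) (hm : 0 < finrank ℝ E)
    {G : Subgroup ((J → R) ≃ₗ[R] (J → R))} {α : G → (M ≃ₘ^∞⟮𝓘(ℝ, E), 𝓘(ℝ, E)⟯ M)}
    (hα : IsHom α) {ι : Type} [Fintype ι] [DecidableEq ι] (wt : J → ι → ZMod 2)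
    (hG : ∀ v, dg R wt v ∈ G) :
    ∃ T : Finset (ι → ZMod 2), T.card ≤ finrank ℝ E + 1 ∧
      (∀ w : ι → ZMod 2, (∀ c ∈ T, c ⬝ᵥ w = 0) → ∀ x, α ⟨dg R wt w, hG w⟩ x = x) ∧
      (∀ c ∈ T, ∀ w : ι → ZMod 2, (∀ j, wt j ⬝ᵥ w = 0) → c ⬝ᵥ w = 0) ∧
      ∀ (s : J → ZMod 2) (σ : Equiv.Perm J) (ρ : (ι → ZMod 2) ≃ (ι → ZMod 2)), spe R s σ ∈ G →
        (∀ j v, wt (σ j) ⬝ᵥ ρ v = wt j ⬝ᵥ v) → ∀ j, wt j ∈ T → wt (σ j) ∈ T := by
  have hle : stabB G ≤ G := fun g hg => hg.1
  obtain ⟨T, hT1, hT2, hT3, hT4⟩ := smooth_weights hM hm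
    (hα.action.comp (Subgroup.inclusion hle)) (dgh wt G hG) (δ := 1) (fun _ => Or.inl rfl)
  refine ⟨T, by omega, fun w hw x => hT2 w hw x, fun c hc w hw => hT3 c hc w ?_, ?_⟩
  · apply Subtype.ext
    apply LinearEquiv.ext
    intro a
    funext j
    change sgn R (wt j ⬝ᵥ w) * a j = a j
    rw [hw, sgn_zero, one_mul]
  · intro s σ ρ hs hρ j hj
    refine hT4 ⟨spe R s σ, hs, spe_mem R s σ⟩ ρ ?_ (wt j) (wt (σ j)) (hρ j) hj
    intro v
    apply Subtype.ext
    exact conj_dg wt s σ ρ hρ v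

end weights

end Pool.Agent.V7H7.SZ.Mnl
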