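import Pool.Agent.V7H7.SZ.Dia
import Pool.Agent.V7H7.SZ.Lat

/-! Homomorphisms to unitary groups of diagonal forms. -/

set_option autoImplicit false
set_option linter.unusedSectionVars false

namespace Pool.Agent.V7H7.SZ

open scoped Manifold ContDiff
open Module Matrix Pool.Agent.H185.ZM Pool.Agent.V7H7.SZ.Lat

section hom

variable {O : Type} [Ring O] {Q : Type} [Group Q] {n : ℕ}

/-- the diagonal matrices -/
def d0 (u : Fin n → Q →* O) : (Fin n → Q) →* (Matrix (Fin n) (Fin n) O)ˣ :=
  MonoidHom.toHomUnits
    { toFun := fun q => diagonal (fun i => u i (q i))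
      map_one' := by
        have : (fun i => u i ((1 : Fin n → Q) i)) = fun _ => (1 : O) := by
          funext i
          rw [Pi.one_apply, map_one]
        rw [this]
        exact diagonal_one
      map_mul' := fun p q => by
        rw [diagonal_mul_diagonal]
        congr 1
        funext i
        rw [Pi.mul_apply, map_mul] }

theorem d0_coe (u : Fin n → Q →* O) (q : Fin n → Q) :
    ((d0 u q : (Matrix (Fin n) (Fin n) O)ˣ) : Matrix (Fin n) (Fin n) O) =
      diagonal (fun i => u i (q i)) := rfl

/-- the diagonal matrices in the unitary group -/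
def dU [StarRing O] {a : Fin n → O} (u : Fin n → Q →* O)
    (hu : ∀ i q, star (u i q) * a i * u i q = a i) : (Fin n → Q) →* UH a :=
  (d0 u).codRestrict (UH a) (fun q => by
    show (diagonal (fun i => u i (q i)))ᴴ * diagonal a * diagonal (fun i => u i (q i)) = diagonal a
    rw [diagonal_conjTranspose, diagonal_mul_diagonal, diagonal_mul_diagonal]
    congr 1
    funext i
    exact hu i (q i))

theorem dU_coe [StarRing O] {a : Fin n → O} (u : Fin n → Q →* O)
    (hu : ∀ i q, star (u i q) * a i * u i q = a i) (q : Fin n → Q) :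
    um (dU u hu q) = diagonal (fun i => u i (q i)) := rfl

theorem star_pow_inv [StarRing O] {a w : O} (h : star w * a * w = a) (k : ℕ) :
    star (w ^ k) * a * w ^ k = a := by
  induction k with
  | zero => simp
  | succ k ih =>
    rw [pow_succ, star_mul]
    calc star w * star (w ^ k) * a * (w ^ k * w) = star w * (star (w ^ k) * a * w ^ k) * w := by
          simp only [mul_assoc]
      _ = a := by rw [ih, h]

/-- the homomorphism of the quaternion group given by two anticommuting elements of square `-1` -/
def qh (w w' : O) (h1 : w * w = -1) (h2 : w' * w' = -1) (h3 : w * w' = -(w' * w)) :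
    QuaternionGroup 2 →* O where
  toFun q := match q with
    | QuaternionGroup.a i => w ^ i.val
    | QuaternionGroup.xa i => w' * w ^ i.val
  map_one' := by
    show w ^ (0 : ZMod 4).val = 1
    rw [show (0 : ZMod 4).val = 0 from rfl, pow_zero]
  map_mul' := by
    have p2 : w ^ 2 = -1 := by rw [pow_two, h1]
    have p3 : w ^ 3 = -w := by rw [pow_succ, p2, neg_one_mul]
    have p4 : w ^ 4 = 1 := by rw [show (4 : ℕ) = 2 + 2 from rfl, pow_add, p2]; simp
    have hadd : ∀ i j : ZMod 4, w ^ (i + j).val = w ^ i.val * w ^ j.val := by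
      intro i j
      rw [ZMod.val_add, ← pow_add]
      conv_rhs => rw [← Nat.mod_add_div (i.val + j.val) 4, pow_add, pow_mul, p4, one_pow, mul_one]
    have hsw : ∀ i : ZMod 4, w ^ i.val * w' = w' * w ^ (-i).val := by
      intro i
      have h4 : i = 0 ∨ i = 1 ∨ i = 2 ∨ i = 3 := by revert i; decide
      rcases h4 with rfl | rfl | rfl | rfl
      · rw [show (-0 : ZMod 4).val = 0 from rfl, show (0 : ZMod 4).val = 0 from rfl]
        simp
      · rw [show (-1 : ZMod 4).val = 3 from rfl, show (1 : ZMod 4).val = 1 from rfl, pow_one, p3, h3]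
        simp
      · rw [show (-2 : ZMod 4).val = 2 from rfl, show (2 : ZMod 4).val = 2 from rfl, p2]
        simp
      · rw [show (-3 : ZMod 4).val = 1 from rfl, show (3 : ZMod 4).val = 3 from rfl, pow_one, p3,
          neg_mul, h3, neg_neg]
    rintro (i | i) (j | j)
    · exact hadd i j
    · show w' * w ^ (j - i).val = w ^ i.val * (w' * w ^ j.val)
      rw [← mul_assoc, hsw, mul_assoc, ← hadd]
      congr 3
      ring
    · show w' * w ^ (i + j).val = w' * w ^ i.val * w ^ j.val
      rw [hadd, mul_assoc]
    · show w ^ (((2 : ℕ) : ZMod 4) + j - i).val = w' * w ^ i.val * (w' * w ^ j.val)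
      have e1 : w' * w ^ i.val * (w' * w ^ j.val) = w' * (w ^ i.val * w') * w ^ j.val := by
        simp only [mul_assoc]
      have e2 : w' * (w' * w ^ (-i).val) * w ^ j.val = (w' * w') * (w ^ (-i).val * w ^ j.val) := by
        simp only [mul_assoc]
      rw [e1, hsw, e2, h2, ← hadd]
      have e3 : (((2 : ℕ) : ZMod 4) + j - i) = 2 + (-i + j) := by
        push_cast
        ring
      rw [e3, hadd, show (2 : ZMod 4).val = 2 from rfl, p2]

theorem qh_a2 (w w' : O) (h1 : w * w = -1) (h2 : w' * w' = -1) (h3 : w * w' = -(w' * w)) :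
    qh w w' h1 h2 h3 (QuaternionGroup.a 2) = -1 := by
  show w ^ (2 : ZMod 4).val = -1
  rw [show (2 : ZMod 4).val = 2 from rfl, pow_two, h1]

theorem qh_star [StarRing O] {a w w' : O} (h1 : w * w = -1) (h2 : w' * w' = -1)
    (h3 : w * w' = -(w' * w)) (h4 : star w * a * w = a) (h5 : star w' * a * w' = a)
    (q : QuaternionGroup 2) :
    star (qh w w' h1 h2 h3 q) * a * qh w w' h1 h2 h3 q = a := by
  rcases q with i | i
  · exact star_pow_inv h4 i.val
  · show star (w' * w ^ i.val) * a * (w' * w ^ i.val) = a
    rw [star_mul]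
    calc star (w ^ i.val) * star w' * a * (w' * w ^ i.val) =
        star (w ^ i.val) * (star w' * a * w') * w ^ i.val := by simp only [mul_assoc]
      _ = a := by rw [h5, star_pow_inv h4]

end hom

theorem qtype_two : QType (Multiplicative (ZMod 2)) (Multiplicative.ofAdd 1) 1 where
  sq := by decide
  central := by decide
  typ := Or.inl rfl

theorem qtype_four : QType (Multiplicative (ZMod 4)) (Multiplicative.ofAdd 2) 2 where
  sq := by decide
  central := by decide
  typ := Or.inr (Or.inl ⟨rfl, Multiplicative.ofAdd 1, by decide⟩)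

theorem qtype_quat : QType (QuaternionGroup 2) (QuaternionGroup.a 2) 4 where
  sq := by decide
  central := by decide
  typ := Or.inr (Or.inr ⟨rfl, QuaternionGroup.a 1, QuaternionGroup.xa 0, by decide, by decide,
    by decide⟩)

theorem pg_two : IsPGroup 2 (Multiplicative (ZMod 2)) := by
  apply IsPGroup.of_card (n := 1)
  simp

theorem pg_four : IsPGroup 2 (Multiplicative (ZMod 4)) := by
  apply IsPGroup.of_card (n := 2)
  simp

theorem pg_quat : IsPGroup 2 (QuaternionGroup 2) := by
  apply IsPGroup.of_card (n := 3)
  rw [Nat.card_eq_fintype_card, QuaternionGroup.card]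
  norm_num

end Pool.Agent.V7H7.SZ
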