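import Pool.Agent.V7H7.SZ.Tra
import Pool.Agent.V7H7.SZ.Uni

/-! Monomial matrices. -/

set_option autoImplicit false
set_option linter.unusedSectionVars false

namespace Pool.Agent.V7H7.SZ

open scoped Manifold ContDiff
open Module Matrix Pool.Agent.Helper381 Pool.Agent.H185.ZM Pool.Agent.N287.NC

section perm

variable {R : Type} [Ring R] {n : ℕ}

/-- the permutation matrix -/
def pmM (σ : Equiv.Perm (Fin n)) : Matrix (Fin n) (Fin n) R := fun i j => if i = σ j then 1 else 0

theorem pmM_one : (pmM 1 : Matrix (Fin n) (Fin n) R) = 1 := by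
  ext i j
  rw [one_apply]
  rfl

theorem pmM_mul (σ τ : Equiv.Perm (Fin n)) :
    (pmM (σ * τ) : Matrix (Fin n) (Fin n) R) = pmM σ * pmM τ := by
  ext i j
  rw [mul_apply]
  change (if i = σ (τ j) then (1 : R) else 0) =
    ∑ k, (if i = σ k then (1 : R) else 0) * (if k = τ j then 1 else 0)
  rw [Finset.sum_eq_single (τ j)]
  · rw [if_pos (rfl : τ j = τ j), mul_one]
  · intro k _ hk
    rw [if_neg hk, mul_zero]
  · intro h
    exact absurd (Finset.mem_univ _) h

/-- permutation matrices as a homomorphism -/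
def pm : Equiv.Perm (Fin n) →* (Matrix (Fin n) (Fin n) R)ˣ :=
  MonoidHom.toHomUnits
    { toFun := pmM
      map_one' := pmM_one
      map_mul' := pmM_mul }

theorem pm_coe (σ : Equiv.Perm (Fin n)) :
    ((pm σ : (Matrix (Fin n) (Fin n) R)ˣ) : Matrix (Fin n) (Fin n) R) = pmM σ := rfl

variable {Q : Type} [Group Q] (u : Q →* R)

/-- diagonal matrices -/
def dd : (Fin n → Q) →* (Matrix (Fin n) (Fin n) R)ˣ := d0 (fun _ => u)

theorem dd_coe (q : Fin n → Q) :
    ((dd u q : (Matrix (Fin n) (Fin n) R)ˣ) : Matrix (Fin n) (Fin n) R) =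
      diagonal (fun i => u (q i)) := rfl

theorem pm_dd (σ : Equiv.Perm (Fin n)) (q : Fin n → Q) :
    pm σ * dd u q = dd u (fun i => q (σ⁻¹ i)) * pm σ := by
  apply Units.ext
  rw [Units.val_mul, Units.val_mul, pm_coe, dd_coe, dd_coe]
  ext i j
  rw [mul_diagonal, diagonal_mul]
  change (if i = σ j then (1 : R) else 0) * u (q j) =
    u (q (σ⁻¹ i)) * (if i = σ j then (1 : R) else 0)
  split_ifs with h
  · rw [h, one_mul, mul_one]
    exact congrArg (fun t => u (q t)) (σ.symm_apply_apply j).symm
  · rw [zero_mul, mul_zero]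

/-- the monomial group -/
def mono : Subgroup (Matrix (Fin n) (Fin n) R)ˣ where
  carrier := {g | ∃ (q : Fin n → Q) (σ : Equiv.Perm (Fin n)), g = dd u q * pm σ}
  one_mem' := ⟨1, 1, by rw [map_one, map_one, mul_one]⟩
  mul_mem' := by
    rintro _ _ ⟨q, σ, rfl⟩ ⟨q', τ, rfl⟩
    refine ⟨q * (fun i => q' (σ⁻¹ i)), σ * τ, ?_⟩
    rw [map_mul, map_mul, mul_assoc, ← mul_assoc (pm σ), pm_dd, mul_assoc, mul_assoc]
  inv_mem' := by
    rintro _ ⟨q, σ, rfl⟩
    refine ⟨fun i => q⁻¹ (σ i), σ⁻¹, ?_⟩
    have h1 := pm_dd u σ⁻¹ q⁻¹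
    rw [inv_inv] at h1
    rw [_root_.mul_inv_rev, ← map_inv, ← map_inv, h1]

theorem mem_mono (g : (Matrix (Fin n) (Fin n) R)ˣ) :
    g ∈ mono u ↔ ∃ (q : Fin n → Q) (σ : Equiv.Perm (Fin n)), g = dd u q * pm σ := Iff.rfl

theorem dd_mem (q : Fin n → Q) : dd u q ∈ mono (n := n) u := ⟨q, 1, by rw [map_one, mul_one]⟩

theorem pm_mem (σ : Equiv.Perm (Fin n)) : pm σ ∈ mono (n := n) u :=
  ⟨1, σ, by rw [map_one, one_mul]⟩

instance [Finite Q] : Finite (mono (n := n) u) := by
  have h : {g | ∃ (q : Fin n → Q) (σ : Equiv.Perm (Fin n)), g = dd u q * pm σ}.Finite := by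
    refine (Set.finite_range (fun p : (Fin n → Q) × Equiv.Perm (Fin n) =>
      dd u p.1 * pm p.2)).subset ?_
    rintro _ ⟨q, σ, rfl⟩
    exact ⟨(q, σ), rfl⟩
  exact h.to_subtype

theorem zv_comp (z : Q) (v : Fin n → ZMod 2) (σ : Equiv.Perm (Fin n)) :
    (fun i => zv z v (σ i)) = zv z (fun i => v (σ i)) := rfl

end perm

theorem LB.map {P P' : Type} [Group P] [Group P'] {p : P} {C : Set P} {δ : ℕ} (h : LB p C δ)
    (f : P →* P') {C' : Set P'} (hC : ∀ q ∈ C', ∃ c ∈ C, f c = q) : LB (f p) C' δ := by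
  rcases h with h | ⟨h, x, h1, h2⟩ | ⟨h, x, y, h1, h2, h3, h4, h5⟩
  · exact Or.inl h
  · refine Or.inr (Or.inl ⟨h, f x, by rw [← map_mul, h1], fun q hq => ?_⟩)
    obtain ⟨c, hc, rfl⟩ := hC q hq
    rw [← map_mul, h2 c hc, map_mul]
  · refine Or.inr (Or.inr ⟨h, f x, f y, by rw [← map_mul, h1], by rw [← map_mul, h2],
      by rw [← map_inv, ← map_mul, ← map_mul, h3, map_inv], fun q hq => ?_, fun q hq => ?_⟩)
    · obtain ⟨c, hc, rfl⟩ := hC q hq
      rw [← map_mul, h4 c hc, map_mul]
    · obtain ⟨c, hc, rfl⟩ := hC q hq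
      rw [← map_mul, h5 c hc, map_mul]

section smooth

variable {E : Type} [NormedAddCommGroup E] [NormedSpace ℝ E] [FiniteDimensional ℝ E]
  {M : Type} [TopologicalSpace M] [ChartedSpace E M] [IsManifold 𝓘(ℝ, E) ∞ M]
  {n : ℕ} {R : Type} [Ring R] {Γ : Subgroup (Matrix (Fin n) (Fin n) R)ˣ}

/-- **Groups which contain all monomial matrices.** -/
theorem full_trivial [CompactSpace M] [T2Space M] [ConnectedSpace M]
    (hM : Mod2Sphere M (finrank ℝ E)) (hm : 0 < finrank ℝ E) {Q : Type} [Group Q] [Finite Q]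
    {z : Q} {δ : ℕ} (hz : QType Q z δ) (u : Q →* R) (hΓ : mono u ≤ Γ)
    {a : Γ → M → M} (ha : SmoothAction E a) (hlt : finrank ℝ E + 1 < δ * n)
    (v : Fin n → ZMod 2) (hv : ∑ i, v i = 0) (y : M) :
    a ⟨dd u (zv z v), hΓ (dd_mem u _)⟩ y = y := by
  classical
  let j : mono (n := n) u →* Γ := Subgroup.inclusion hΓ
  let F : (Fin n → Q) →* mono (n := n) u := (dd u).codRestrict (mono u) (dd_mem u)
  have hF : ∀ q, ((F q : mono (n := n) u) : (Matrix (Fin n) (Fin n) R)ˣ) = dd u q := fun q => rfl
  exact mono_full hM hm (ha.comp j) (F.comp (zvHom (ι := Fin n) z hz.sq)) (δ := δ)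
    (fun i => (lb_zv hz i).map F (by
      rintro _ ⟨w, rfl⟩
      exact ⟨_, ⟨w, rfl⟩, rfl⟩))
    (fun k l hkl => by
      refine ⟨⟨pm (Equiv.swap k l), pm_mem u _⟩, fun v => ?_⟩
      apply Subtype.ext
      change pm (Equiv.swap k l) * dd u (zv z v) * (pm (Equiv.swap k l))⁻¹ =
        dd u (zv z (fun i => v (Equiv.swap k l i)))
      rw [pm_dd, mul_inv_cancel_right, Equiv.swap_inv]
      rfl) hlt v hv y

end smooth

section elem

variable {n : ℕ} {O : Type} [Ring O]

theorem wel_coe {i j : Fin n} (h : i ≠ j) {x x' : O} (hx : x * x' = 1) (hx' : x' * x = 1) :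
    ((nel h x * nel h.symm (-x') * nel h x : (Matrix (Fin n) (Fin n) O)ˣ) :
      Matrix (Fin n) (Fin n) O) =
      1 + single i j x + single j i (-x') + single i i (-1) + single j j (-1) := by
  simp only [Units.val_mul, nel_coe]
  have e1 : single i j x * single j i (-x') = single i i (-1) := by simp [hx]
  have e2 : single j i (-x') * single i j x = single j j (-1) := by simp [hx']
  have e3 : single i i (-1 : O) * single i j x = single i j (-x) := by simp
  have e5 : single i j x * single i j x = 0 := single_mul_single_of_ne _ _ _ _ h.symm _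
  have e7 : single i j (-x) = - single i j x := by rw [← single_neg]
  simp only [mul_add, add_mul, mul_one, one_mul, e1, e2, e5, e3, add_zero]
  rw [e7]
  abel

/-- the signed transposition -/
theorem wel_one {Q : Type} [Group Q] {z : Q} (u : Q →* O) (huz : u z = -1) {i j : Fin n}
    (h : i ≠ j) : nel h (1 : O) * nel h.symm (-1) * nel h 1 =
      dd u (Pi.mulSingle j z) * pm (Equiv.swap i j) := by
  apply Units.ext
  rw [wel_coe h (mul_one 1) (mul_one 1), Units.val_mul, dd_coe, pm_coe]
  ext a b
  rw [diagonal_mul]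
  change (1 + single i j (1 : O) + single j i (-1) + single i i (-1) + single j j (-1) :
    Matrix (Fin n) (Fin n) O) a b =
    u ((Pi.mulSingle j z : Fin n → Q) a) * (if a = Equiv.swap i j b then 1 else 0)
  simp only [Matrix.add_apply, single_apply, one_apply]
  by_cases hb : b = i
  · subst hb
    rw [Equiv.swap_apply_left]
    by_cases ha : a = j
    · subst ha
      rw [Pi.mulSingle_eq_same, huz]
      simp [h, h.symm]
    · by_cases ha' : a = b
      · subst ha'
        simp [h, h.symm]
      · simp [ha, ha', h.symm, Ne.symm ha', Ne.symm ha]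
  · by_cases hb' : b = j
    · subst hb'
      rw [Equiv.swap_apply_right]
      by_cases ha : a = i
      · subst ha
        rw [Pi.mulSingle_eq_of_ne h, map_one]
        simp [h, h.symm]
      · by_cases ha' : a = b
        · subst ha'
          simp [h, h.symm]
        · simp [ha, ha', h, Ne.symm ha', Ne.symm ha]
    · rw [Equiv.swap_apply_of_ne_of_ne hb hb']
      by_cases ha : a = b
      · subst ha
        rw [Pi.mulSingle_eq_of_ne hb', map_one]
        simp [Ne.symm hb, Ne.symm hb']
      · simp [ha, Ne.symm hb, Ne.symm hb']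

theorem sgn_mem {Q : Type} [Group Q] {z : Q} (u : Q →* O) (huz : u z = -1) {i j : Fin n}
    (h : i ≠ j) : dd u (Pi.mulSingle j z) * pm (Equiv.swap i j) ∈ EN n O := by
  rw [← wel_one u huz h]
  exact mul_mem (mul_mem (nel_mem_EN _ _) (nel_mem_EN _ _)) (nel_mem_EN _ _)

/-- Whitehead's lemma -/
theorem diag_mem {Q : Type} [Group Q] (u : Q →* O) (q : Q) {i j : Fin n}
    (h : i ≠ j) : dd u (Pi.mulSingle i q * Pi.mulSingle j q⁻¹) ∈ EN n O := by
  have hx : u q * u q⁻¹ = 1 := by rw [← map_mul, mul_inv_cancel, map_one]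
  have hx' : u q⁻¹ * u q = 1 := by rw [← map_mul, inv_mul_cancel, map_one]
  have h1 : dd u (Pi.mulSingle i q * Pi.mulSingle j q⁻¹) =
      (nel h (u q) * nel h.symm (-(u q⁻¹)) * nel h (u q)) *
      (nel h (-1) * nel h.symm (- -1) * nel h (-1)) := by
    apply Units.ext
    rw [Units.val_mul, wel_coe h hx hx', wel_coe h (x := -1) (x' := -1) (by simp) (by simp),
      dd_coe]
    have e0 : diagonal (fun a => u ((Pi.mulSingle i q * Pi.mulSingle j q⁻¹ : Fin n → Q) a)) =
        1 + single i i (u q) + single j j (u q⁻¹) + single i i (-1) + single j j (-1) := by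
      ext a b
      rw [diagonal_apply]
      simp only [Matrix.add_apply, single_apply, one_apply, Pi.mul_apply]
      by_cases hab : a = b
      · subst hab
        by_cases hai : a = i
        · subst hai
          simp [h, h.symm]
        · by_cases haj : a = j
          · subst haj
            simp [h, h.symm]
          · simp [hai, haj, Ne.symm hai, Ne.symm haj]
      · have n1 : ∀ c : Fin n, ¬ (c = a ∧ c = b) := fun c hc => hab (hc.1.symm.trans hc.2)
        simp [hab, n1]
    rw [e0]
    have p1 : single i j (u q) * single j i (1 : O) = single i i (u q) := by simp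
    have p2 : single i j (u q) * single j j (-1 : O) = - single i j (u q) := by
      rw [single_mul_single_same, mul_neg_one, single_neg]
    have p3 : single j i (-(u q⁻¹)) * single i j (-1 : O) = single j j (u q⁻¹) := by simp
    have p4 : single j i (-(u q⁻¹)) * single i i (-1 : O) = single j i (u q⁻¹) := by simp
    have p5 : single i i (-1 : O) * single i j (-1 : O) = single i j 1 := by simp
    have p6 : single i i (-1 : O) * single i i (-1 : O) = single i i 1 := by simp
    have p7 : single j j (-1 : O) * single j i (1 : O) = - single j i 1 := by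
      rw [single_mul_single_same, neg_one_mul, single_neg]
    have p8 : single j j (-1 : O) * single j j (-1 : O) = single j j 1 := by simp
    have z1 : single i j (u q) * single i j (-1 : O) = 0 :=
      single_mul_single_of_ne _ _ _ _ h.symm _
    have z2 : single i j (u q) * single i i (-1 : O) = 0 :=
      single_mul_single_of_ne _ _ _ _ h.symm _
    have z3 : single j i (-(u q⁻¹)) * single j i (1 : O) = 0 :=
      single_mul_single_of_ne _ _ _ _ h _
    have z4 : single j i (-(u q⁻¹)) * single j j (-1 : O) = 0 :=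
      single_mul_single_of_ne _ _ _ _ h _
    have z5 : single i i (-1 : O) * single j i (1 : O) = 0 :=
      single_mul_single_of_ne _ _ _ _ h _
    have z6 : single i i (-1 : O) * single j j (-1 : O) = 0 :=
      single_mul_single_of_ne _ _ _ _ h _
    have z7 : single j j (-1 : O) * single i j (-1 : O) = 0 :=
      single_mul_single_of_ne _ _ _ _ h.symm _
    have z8 : single j j (-1 : O) * single i i (-1 : O) = 0 :=
      single_mul_single_of_ne _ _ _ _ h.symm _
    have m1 : single j i (-(u q⁻¹)) = - single j i (u q⁻¹) := by rw [single_neg]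
    have m2 : single i j (-1 : O) = - single i j 1 := by rw [single_neg]
    have m3 : single i i (-1 : O) = - single i i 1 := by rw [single_neg]
    have m4 : single j j (-1 : O) = - single j j 1 := by rw [single_neg]
    simp only [neg_neg]
    simp only [mul_add, add_mul, mul_one, one_mul, p1, p2, p3, p4, p5, p6, p7, p8, z1, z2, z3, z4,
      z5, z6, z7, z8, add_zero, zero_add]
    rw [m1, m2, m3, m4]
    abel
  rw [h1]
  exact mul_mem (mul_mem (mul_mem (nel_mem_EN _ _) (nel_mem_EN _ _)) (nel_mem_EN _ _))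
    (mul_mem (mul_mem (nel_mem_EN _ _) (nel_mem_EN _ _)) (nel_mem_EN _ _))

end elem

end Pool.Agent.V7H7.SZ
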