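import Pool.Agent.V7H7.SZ.Orb

/-! Smooth actions of finite groups in which a symmetric group permutes commuting involutions. -/

set_option autoImplicit false
set_option linter.unusedSectionVars false

namespace Pool.Agent.V7H7.SZ

open scoped Manifold ContDiff
open Module Pool.Agent.Helper381 Pool.Agent.H185.ZM

variable {E : Type} [NormedAddCommGroup E] [NormedSpace ℝ E] [FiniteDimensional ℝ E]
  {M : Type} [TopologicalSpace M] [ChartedSpace E M] [IsManifold 𝓘(ℝ, E) ∞ M]

theorem card_lt_of {δ t m n : ℕ} (h1 : δ * t ≤ m + 1) (h2 : m + 1 < δ * n) : t < n := by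
  by_contra hcon
  push Not at hcon
  have := Nat.mul_le_mul_left δ hcon
  omega

/-- **All sign changes and all permutations.** -/
theorem mono_full [CompactSpace M] [T2Space M] [ConnectedSpace M]
    (hM : Mod2Sphere M (finrank ℝ E)) (hm : 0 < finrank ℝ E) {P : Type} [Group P] [Finite P]
    {a : P → M → M} (ha : SmoothAction E a) {n : ℕ}
    (φ : Multiplicative (Fin n → ZMod 2) →* P) {δ : ℕ}
    (hδ : ∀ i, LB (φ (Multiplicative.ofAdd (Pi.single i 1))) (Set.range φ) δ)
    (hx : ∀ k l : Fin n, k ≠ l → ∃ x : P, ∀ v : Fin n → ZMod 2,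
      x * φ (Multiplicative.ofAdd v) * x⁻¹ =
        φ (Multiplicative.ofAdd (fun i => v (Equiv.swap k l i))))
    (hlt : finrank ℝ E + 1 < δ * n) (v : Fin n → ZMod 2) (hv : ∑ i, v i = 0) (y : M) :
    a (φ (Multiplicative.ofAdd v)) y = y := by
  classical
  obtain ⟨T, hT1, hT2, -, hT4⟩ := smooth_weights hM hm ha φ hδ
  have hlt' := card_lt_of hT1 hlt
  apply hT2
  intro c hc
  by_contra hcv
  have hst : ∀ k l : Fin n, k ≠ l → ∀ c ∈ T, (fun i => c (Equiv.swap k l i)) ∈ T := by
    intro k l hkl c hc
    obtain ⟨x, hx⟩ := hx k l hkl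
    let σ : (Fin n → ZMod 2) ≃ (Fin n → ZMod 2) :=
      { toFun := fun v i => v (Equiv.swap k l i)
        invFun := fun v i => v (Equiv.swap k l i)
        left_inv := fun v => by funext i; simp
        right_inv := fun v => by funext i; simp }
    exact hT4 x σ hx c _ (fun v => Equiv.sum_comp (Equiv.swap k l) (fun i => c i * v i)) hc
  have hnc : ∃ i j, c i ≠ c j := by
    by_contra hcon
    push Not at hcon
    apply hcv
    rcases isEmpty_or_nonempty (Fin n) with h0 | ⟨⟨o⟩⟩
    · unfold dotProduct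
      simp
    · unfold dotProduct
      rw [Finset.sum_congr rfl (fun i _ => by rw [hcon i o]), ← Finset.mul_sum, hv, mul_zero]
  obtain ⟨i, j, hij⟩ := hnc
  have := count_full T hst hc hij
  omega

/-- **Even sign changes and all permutations.** -/
theorem mono_pairs [CompactSpace M] [T2Space M] [ConnectedSpace M]
    (hM : Mod2Sphere M (finrank ℝ E)) (hm : 0 < finrank ℝ E) {P : Type} [Group P] [Finite P]
    {a : P → M → M} (ha : SmoothAction E a) {n : ℕ} (hn : 3 ≤ n)
    (φ : Multiplicative (Fin n × Fin n → ZMod 2) →* P) {δ : ℕ}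
    (hδ : ∀ i, LB (φ (Multiplicative.ofAdd (Pi.single i 1))) (Set.range φ) δ)
    (hadd : ∀ i j k : Fin n, φ (Multiplicative.ofAdd (Pi.single (i, j) 1)) *
      φ (Multiplicative.ofAdd (Pi.single (j, k) 1)) =
        φ (Multiplicative.ofAdd (Pi.single (i, k) 1)))
    (hx : ∀ k l : Fin n, k ≠ l → ∃ x : P, ∀ v : Fin n × Fin n → ZMod 2,
      x * φ (Multiplicative.ofAdd v) * x⁻¹ =
        φ (Multiplicative.ofAdd (fun p => v (Equiv.swap k l p.1, Equiv.swap k l p.2))))
    (hlt : finrank ℝ E + 1 < δ * cnt n) (v : Fin n × Fin n → ZMod 2) (y : M) :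
    a (φ (Multiplicative.ofAdd v)) y = y := by
  classical
  obtain ⟨T, hT1, hT2, hT3, hT4⟩ := smooth_weights hM hm ha φ hδ
  have hlt' := card_lt_of hT1 hlt
  have hst : ∀ k l : Fin n, k ≠ l → ∀ c ∈ T,
      (fun p : Fin n × Fin n => c (Equiv.swap k l p.1, Equiv.swap k l p.2)) ∈ T := by
    intro k l hkl c hc
    obtain ⟨x, hx⟩ := hx k l hkl
    let σ : (Fin n × Fin n → ZMod 2) ≃ (Fin n × Fin n → ZMod 2) :=
      { toFun := fun v p => v (Equiv.swap k l p.1, Equiv.swap k l p.2)
        invFun := fun v p => v (Equiv.swap k l p.1, Equiv.swap k l p.2)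
        left_inv := fun v => by funext p; simp
        right_inv := fun v => by funext p; simp }
    exact hT4 x σ hx c _ (fun v => Equiv.sum_comp
      ((Equiv.swap k l).prodCongr (Equiv.swap k l)) (fun p => c p * v p)) hc
  apply hT2
  intro c hc
  by_cases hc0 : c = 0
  · rw [hc0, zero_dotProduct]
  · exfalso
    have hcadd : ∀ i j k, c (i, j) + c (j, k) = c (i, k) := by
      intro i j k
      have h1 := hT3 c hc (Pi.single (i, j) 1 + Pi.single (j, k) 1 + Pi.single (i, k) 1) (by
        rw [ofAdd_add, ofAdd_add, map_mul, map_mul, hadd, ← map_mul, ← ofAdd_add]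
        have h2 : (Pi.single (i, k) 1 + Pi.single (i, k) 1 : Fin n × Fin n → ZMod 2) = 0 := by
          funext p
          exact CharTwo.add_self_eq_zero _
        rw [h2]
        exact map_one φ)
      rw [dotProduct_add, dotProduct_add, dotProduct_single, dotProduct_single, dotProduct_single,
        mul_one, mul_one, mul_one] at h1
      have h3 : c (i, j) + c (j, k) + c (i, k) = c (i, k) + c (i, k) := by
        rw [h1, CharTwo.add_self_eq_zero]
      exact add_right_cancel h3
    have := count_pairs' hn T hst hc hcadd hc0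
    omega

end Pool.Agent.V7H7.SZ
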