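import Pool.Agent.V7H7.SZ.Mnl

/-! Octonion algebras over commutative rings and their automorphism groups. -/

set_option autoImplicit false
set_option linter.unusedSectionVars false

namespace Pool.Agent.V7H7.SZ.Mnl

open scoped Manifold ContDiff
open Module Pool.Agent.Helper381 Pool.Agent.H185.ZM

theorem I3.add_self (x : I3) : x + x = 0 := by
  revert x
  decide

theorem I3.add_add (x y : I3) : x + (x + y) = y := by
  rw [← add_assoc, I3.add_self, zero_add]

variable {R : Type} [CommRing R]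

theorem om_spe {s₁ s₂ s₃ : I3 → ZMod 2} {σ₁ σ₂ σ₃ : Equiv.Perm I3}
    (h1 : ∀ x y, σ₃ (x + y) = σ₁ x + σ₂ y)
    (h2 : ∀ x y, s₁ x + s₂ y + q (σ₁ x) (σ₂ y) = q x y + s₃ (x + y)) (a b : I3 → R) :
    om (spe R s₁ σ₁ a) (spe R s₂ σ₂ b) = spe R s₃ σ₃ (om a b) := by
  funext z
  obtain ⟨z, rfl⟩ := σ₃.surjective z
  rw [spe_apply']
  unfold om
  rw [← Equiv.sum_comp σ₁, Finset.mul_sum]
  refine Finset.sum_congr rfl fun x _ => ?_
  have e1 : σ₁ x + σ₃ z = σ₂ (x + z) := by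
    have h3 := h1 x (x + z)
    rw [I3.add_add] at h3
    rw [h3, I3.add_add]
  rw [e1, spe_apply', spe_apply']
  have h3 := h2 x (x + z)
  rw [I3.add_add] at h3
  have e2 : sgn R (q (σ₁ x) (σ₂ (x + z))) * (sgn R (s₁ x) * sgn R (s₂ (x + z))) =
      sgn R (s₃ z) * sgn R (q x (x + z)) := by
    rw [← sgn_add, ← sgn_add, ← sgn_add]
    congr 1
    rw [add_comm, h3, add_comm]
  calc sgn R (q (σ₁ x) (σ₂ (x + z))) * (sgn R (s₁ x) * a x * (sgn R (s₂ (x + z)) * b (x + z)))
      = (sgn R (q (σ₁ x) (σ₂ (x + z))) * (sgn R (s₁ x) * sgn R (s₂ (x + z)))) *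
        (a x * b (x + z)) := by ring
    _ = sgn R (s₃ z) * (sgn R (q x (x + z)) * (a x * b (x + z))) := by
        rw [e2]
        ring

/-- the automorphism group of the octonions over `R` -/
def autO (R : Type) [CommRing R] : Subgroup ((I3 → R) ≃ₗ[R] (I3 → R)) where
  carrier := {g | ∀ a b, g (om a b) = om (g a) (g b)}
  one_mem' := fun _ _ => rfl
  mul_mem' := fun {g h} hg hh a b => by
    change g (h (om a b)) = om (g (h a)) (g (h b))
    rw [hh, hg]
  inv_mem' := fun {g} hg a b => by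
    apply g.injective
    have h2 : ∀ c, g (g⁻¹ c) = c := by
      intro c
      rw [← LinearEquiv.mul_apply, mul_inv_cancel]
      rfl
    rw [hg, h2, h2, h2]

/-- the weights -/
def wO (x : I3) : Fin 3 → ZMod 2 := ![x.1, x.2.1, x.2.2]

theorem wO_add (x y : I3) : wO (x + y) = wO x + wO y := by
  revert x y
  decide

theorem wO_injective : Function.Injective wO := by
  intro x y
  revert x y
  decide

theorem dgO_mem (v : Fin 3 → ZMod 2) : dg R wO v ∈ autO R := by
  intro a b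
  refine (om_spe (σ₁ := 1) (σ₂ := 1) (σ₃ := 1) (fun _ _ => rfl) (fun x y => ?_) a b).symm
  change wO x ⬝ᵥ v + wO y ⬝ᵥ v + q x y = q x y + wO (x + y) ⬝ᵥ v
  rw [wO_add, add_dotProduct]
  ring

theorem dgO_mem' (v : Fin 3 → ZMod 2) : dg R wO v ∈ stabB (autO R) :=
  ⟨dgO_mem v, spe_mem R _ _⟩

/-- an automorphism of order seven -/
def τ : Equiv.Perm I3 where
  toFun x := (x.2.2, x.2.1 + x.2.2, x.1 + x.2.1)
  invFun y := (y.2.2 + (y.2.1 + y.1), y.2.1 + y.1, y.1)
  left_inv := by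
    intro x
    revert x
    decide
  right_inv := by
    intro x
    revert x
    decide

/-- its signs -/
def sτ (x : I3) : ZMod 2 := x.2.2 * (x.1 + x.2.1)

theorem τ_mem : spe R sτ τ ∈ autO R := by
  intro a b
  refine (om_spe (fun x y => ?_) (fun x y => ?_) a b).symm
  · revert x y
    decide
  · revert x y
    decide

/-- the action on sign changes -/
def ρτ : (Fin 3 → ZMod 2) ≃ (Fin 3 → ZMod 2) where
  toFun v := ![v 0 + v 1 + v 2, v 0 + v 1, v 0]
  invFun v := ![v 2, v 1 + v 2, v 0 + v 1]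
  left_inv := by
    intro v
    revert v
    decide
  right_inv := by
    intro v
    revert v
    decide

theorem ρτ_spec (j : I3) (v : Fin 3 → ZMod 2) : wO (τ j) ⬝ᵥ ρτ v = wO j ⬝ᵥ v := by
  revert j v
  decide

theorem τ_trans : ∀ x y : I3, x ≠ 0 → y ≠ 0 → ∃ k : Fin 7, (⇑τ)^[(k : ℕ)] x = y := by
  decide

theorem exists_wO (c : Fin 3 → ZMod 2) : ∃ x, wO x = c := by
  revert c
  decide

variable {E : Type} [NormedAddCommGroup E] [NormedSpace ℝ E] [FiniteDimensional ℝ E]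
  {M : Type} [TopologicalSpace M] [ChartedSpace E M] [IsManifold 𝓘(ℝ, E) ∞ M]

/-- **Automorphism groups of octonion algebras acting on spheres of dimension at most five.** -/
theorem oct_trivial [CompactSpace M] [T2Space M] [ConnectedSpace M]
    (hM : Mod2Sphere M (finrank ℝ E)) (hm : 0 < finrank ℝ E) (hlt : finrank ℝ E + 1 < 7)
    {G : Subgroup ((I3 → R) ≃ₗ[R] (I3 → R))} (hG : stabB (autO R) ≤ G)
    {α : G → (M ≃ₘ^∞⟮𝓘(ℝ, E), 𝓘(ℝ, E)⟯ M)} (hα : IsHom α) (v : Fin 3 → ZMod 2) (x : M) :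
    α ⟨dg R wO v, hG (dgO_mem' v)⟩ x = x := by
  classical
  obtain ⟨T, hT1, hT2, -, hT4⟩ := monomial_weights hM hm hα wO (fun v => hG (dgO_mem' v))
  have hst : ∀ j, wO j ∈ T → wO (τ j) ∈ T :=
    fun j hj => hT4 sτ τ ρτ (hG ⟨τ_mem, spe_mem R _ _⟩) ρτ_spec j hj
  have hit : ∀ (k : ℕ) (j : I3), wO j ∈ T → wO ((⇑τ)^[k] j) ∈ T := by
    intro k
    induction k with
    | zero => exact fun j hj => hj
    | succ k ih =>
      intro j hj
      rw [Function.iterate_succ_apply']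
      exact hst _ (ih j hj)
  apply hT2
  intro c hc
  obtain ⟨j, rfl⟩ := exists_wO c
  by_cases hj : j = 0
  · subst hj
    have h0 : wO 0 = 0 := by decide
    rw [h0, zero_dotProduct]
  · exfalso
    have hsub : (Finset.univ.filter (fun y : I3 => y ≠ 0)).image wO ⊆ T := by
      intro c' hc'
      obtain ⟨y, hy, rfl⟩ := Finset.mem_image.1 hc'
      obtain ⟨k, hk⟩ := τ_trans j y hj (Finset.mem_filter.1 hy).2
      rw [← hk]
      exact hit k j hc
    have h7 := Finset.card_le_card hsub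
    rw [Finset.card_image_of_injective _ wO_injective] at h7
    have h8 : (Finset.univ.filter (fun y : I3 => y ≠ 0)).card = 7 := by decide
    omega

theorem sgn_ne (h1 : (1 : R) ≠ -1) {a b : ZMod 2} (h : sgn R a = sgn R b) : a = b := by
  have h2 : ∀ c : ZMod 2, c = 0 ∨ c = 1 := by decide
  rcases h2 a with rfl | rfl <;> rcases h2 b with rfl | rfl
  · rfl
  · rw [sgn_zero, sgn_one] at h
    exact absurd h h1
  · rw [sgn_zero, sgn_one] at h
    exact absurd h.symm h1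
  · rfl

theorem dg_ne (h1 : (1 : R) ≠ -1) {J ι : Type} [Fintype J] [DecidableEq J] [Fintype ι]
    (wt : J → ι → ZMod 2) {v w : ι → ZMod 2} {j : J} (h : wt j ⬝ᵥ v ≠ wt j ⬝ᵥ w) :
    dg R wt v ≠ dg R wt w := by
  intro he
  apply h
  apply sgn_ne h1
  have h2 := congrArg (fun g : (J → R) ≃ₗ[R] (J → R) => g (Pi.single j 1) j) he
  simp only [dg_apply, Pi.single_eq_same, mul_one] at h2
  exact h2

theorem oct_finite [CompactSpace M] [T2Space M] [ConnectedSpace M]
    (hM : Mod2Sphere M (finrank ℝ E)) (hm : 0 < finrank ℝ E) (hlt : finrank ℝ E + 1 < 7)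
    (h1 : (1 : R) ≠ -1) {G : Subgroup ((I3 → R) ≃ₗ[R] (I3 → R))} (hG : stabB (autO R) ≤ G)
    {α : G → (M ≃ₘ^∞⟮𝓘(ℝ, E), 𝓘(ℝ, E)⟯ M)} (hα : IsHom α)
    (hNS : ∀ N : Subgroup G, N.Normal → N ≤ Subgroup.center G ∨ Finite (G ⧸ N)) :
    (Set.range α).Finite := by
  refine hα.finite_range ?_
  rcases hNS (actKer hα.action) inferInstance with h2 | h2
  · exfalso
    let v : Fin 3 → ZMod 2 := ![1, 0, 0]
    have h3 : (⟨dg R wO v, hG (dgO_mem' v)⟩ : G) ∈ actKer hα.action :=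
      fun x => oct_trivial hM hm hlt hG hα v x
    have h4 := Subgroup.mem_center_iff.1 (h2 h3) ⟨spe R sτ τ, hG ⟨τ_mem, spe_mem R _ _⟩⟩
    have h5 : spe R sτ τ * dg R wO v = dg R wO v * spe R sτ τ := congrArg Subtype.val h4
    have h6 := conj_dg wO sτ τ ρτ ρτ_spec (R := R) v
    rw [h5, mul_inv_cancel_right] at h6
    exact dg_ne h1 wO (j := (0, 1, 0)) (by decide) h6
  · exact h2

end Pool.Agent.V7H7.SZ.Mnl
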