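import Pool.Agent.V7H7.SZ.SmW

/-! Orbits of the symmetric group, and actions of groups which contain monomial groups. -/

set_option autoImplicit false
set_option linter.unusedSectionVars false

namespace Pool.Agent.V7H7.SZ

open scoped Manifold ContDiff
open Module Pool.Agent.Helper381 Pool.Agent.H185.ZM

section comb

variable {n : ℕ}

/-- the change of a vector -/
def chg (c : Fin n → ZMod 2) (k l j i : Fin n) : ZMod 2 :=
  if c j = 1 then (if i = j then 1 else 0) + (if i = l then 1 else 0)
  else if j = l then 0 else (if i = k then 1 else 0) + (if i = j then 1 else 0)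

/-- the transpositions -/
def trp (c : Fin n → ZMod 2) (k l j : Fin n) : Equiv.Perm (Fin n) :=
  if c j = 1 then Equiv.swap j l else if j = l then 1 else Equiv.swap k j

theorem trp_apply (c : Fin n → ZMod 2) {k l : Fin n} (hk : c k = 1) (hl : c l = 0) (j i : Fin n) :
    c (trp c k l j i) = c i + chg c k l j i := by
  have h01 : (1 : ZMod 2) ≠ 0 := by decide
  have h11 : (1 : ZMod 2) + 1 = 0 := by decide
  unfold trp chg
  by_cases hj : c j = 1
  · rw [if_pos hj, if_pos hj, Equiv.swap_apply_def]
    by_cases h1 : i = j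
    · subst h1
      have h2 : i ≠ l := by
        rintro rfl
        rw [hj] at hl
        exact h01 hl
      rw [if_pos rfl, if_pos rfl, if_neg h2, hl, hj, add_zero, h11]
    · by_cases h2 : i = l
      · subst h2
        rw [if_neg h1, if_pos rfl, if_neg h1, if_pos rfl, hj, hl, zero_add, zero_add]
      · rw [if_neg h1, if_neg h2, if_neg h1, if_neg h2, add_zero, add_zero]
  · have hj0 : c j = 0 := (v2_cases (c j)).resolve_right hj
    rw [if_neg hj, if_neg hj]
    by_cases hjl : j = l
    · rw [if_pos hjl, if_pos hjl, add_zero]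
      rfl
    · rw [if_neg hjl, if_neg hjl, Equiv.swap_apply_def]
      have hkj : k ≠ j := by
        rintro rfl
        exact hj hk
      by_cases h1 : i = k
      · subst h1
        rw [if_pos rfl, if_pos rfl, if_neg hkj, hj0, hk, add_zero, h11]
      · by_cases h2 : i = j
        · subst h2
          rw [if_neg h1, if_pos rfl, if_neg h1, if_pos rfl, hk, hj0, zero_add, zero_add]
        · rw [if_neg h1, if_neg h2, if_neg h1, if_neg h2, add_zero, add_zero]

theorem exists_far (hn : 4 < n) (a b c d : Fin n) : ∃ e : Fin n, e ≠ a ∧ e ≠ b ∧ e ≠ c ∧ e ≠ d := by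
  classical
  have h1 : ({a, b, c, d} : Finset (Fin n)).card < (Finset.univ : Finset (Fin n)).card := by
    rw [Finset.card_univ, Fintype.card_fin]
    exact lt_of_le_of_lt Finset.card_le_four hn
  obtain ⟨e, -, he⟩ := Finset.exists_mem_notMem_of_card_lt_card h1
  simp only [Finset.mem_insert, Finset.mem_singleton, not_or] at he
  exact ⟨e, he⟩

theorem exists_third (hn : 3 ≤ n) (a b : Fin n) : ∃ e : Fin n, e ≠ a ∧ e ≠ b := by
  classical
  have h1 : ({a, b} : Finset (Fin n)).card < (Finset.univ : Finset (Fin n)).card := by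
    rw [Finset.card_univ, Fintype.card_fin]
    exact lt_of_le_of_lt Finset.card_le_two hn
  obtain ⟨e, -, he⟩ := Finset.exists_mem_notMem_of_card_lt_card h1
  simp only [Finset.mem_insert, Finset.mem_singleton, not_or] at he
  exact ⟨e, he⟩

theorem four_le_of {a b c d : Fin n} (h1 : a ≠ b) (h2 : a ≠ c) (h3 : a ≠ d) (h4 : b ≠ c)
    (h5 : b ≠ d) (h6 : c ≠ d) : 4 ≤ n := by
  classical
  have h : ({a, b, c, d} : Finset (Fin n)).card = 4 := by
    rw [Finset.card_insert_of_notMem (by simp [h1, h2, h3]),
      Finset.card_insert_of_notMem (by simp [h4, h5]), Finset.card_pair h6]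
  have h7 := Finset.card_le_univ ({a, b, c, d} : Finset (Fin n))
  rw [h, Fintype.card_fin] at h7
  exact h7

theorem chg_ne (c : Fin n → ZMod 2) {k l : Fin n} (hk : c k = 1) (hl : c l = 0) {j j' : Fin n}
    (hjj : j ≠ j') : (∃ a, chg c k l j a + chg c k l j' a = 1) ∧
      (3 ≤ n → n ≠ 4 → ∃ b, chg c k l j b + chg c k l j' b = 0) := by
  have h01 : (1 : ZMod 2) ≠ 0 := by decide
  have h11 : (1 : ZMod 2) + 1 = 0 := by decide
  -- it is enough to treat half of the cases
  have key : ∀ j j' : Fin n, j ≠ j' → (c j = 1 ∨ (c j' ≠ 1 ∧ j' ≠ l)) →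
      (∃ a, chg c k l j a + chg c k l j' a = 1) ∧
      (3 ≤ n → n ≠ 4 → ∃ b, chg c k l j b + chg c k l j' b = 0) := by
    intro j j' hjj hc
    have hkl : k ≠ l := by
      rintro rfl
      rw [hk] at hl
      exact h01 hl
    rcases hc with hj | ⟨hj', hj'l⟩
    · have hjl : j ≠ l := by
        rintro rfl
        rw [hj] at hl
        exact h01 hl
      by_cases hj' : c j' = 1
      · have hj'l : j' ≠ l := by
          rintro rfl
          rw [hj'] at hl
          exact h01 hl
        refine ⟨⟨j, ?_⟩, fun _ _ => ⟨l, ?_⟩⟩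
        · unfold chg
          rw [if_pos hj, if_pos hj', if_pos rfl, if_neg hjl, if_neg hjj]
          simp
        · unfold chg
          rw [if_pos hj, if_pos hj', if_neg (Ne.symm hjl), if_pos rfl, if_neg (Ne.symm hj'l)]
          simpa using h11
      · by_cases hj'l : j' = l
        · subst hj'l
          refine ⟨⟨j, ?_⟩, fun h3 _ => ?_⟩
          · unfold chg
            rw [if_pos hj, if_neg hj', if_pos rfl, if_pos rfl, if_neg hjl]
            simp
          · obtain ⟨b, hb1, hb2⟩ := exists_third h3 j j'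
            refine ⟨b, ?_⟩
            unfold chg
            rw [if_pos hj, if_neg hj', if_pos rfl, if_neg hb1, if_neg hb2]
            simp
        · have hj'k : j' ≠ k := by
            rintro rfl
            exact hj' hk
          by_cases hjk : j = k
          · subst hjk
            refine ⟨⟨l, ?_⟩, fun _ _ => ⟨j, ?_⟩⟩
            · unfold chg
              rw [if_pos hj, if_neg hj', if_neg hj'l, if_neg (Ne.symm hjl), if_pos rfl,
                if_neg (Ne.symm hj'l)]
              simp
            · unfold chg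
              rw [if_pos hj, if_neg hj', if_neg hj'l, if_pos rfl, if_neg hjl, if_neg hjj]
              simpa using h11
          · refine ⟨⟨j, ?_⟩, fun h3 h4 => ?_⟩
            · unfold chg
              rw [if_pos hj, if_neg hj', if_neg hj'l, if_pos rfl, if_neg hjl, if_neg hjj,
                if_neg hjk]
              simp
            · have h5 := four_le_of hjk hjl hjj hkl (Ne.symm hj'k) (Ne.symm hj'l)
              obtain ⟨b, hb1, hb2, hb3, hb4⟩ := exists_far (by omega) j k l j'
              refine ⟨b, ?_⟩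
              unfold chg
              rw [if_pos hj, if_neg hj', if_neg hj'l, if_neg hb1, if_neg hb3, if_neg hb2,
                if_neg hb4]
              simp
    · have hj'k : j' ≠ k := by
        rintro rfl
        exact hj' hk
      by_cases hj : c j = 1
      · -- already treated, by symmetry of the roles: do it again
        have hjl : j ≠ l := by
          rintro rfl
          rw [hj] at hl
          exact h01 hl
        by_cases hjk : j = k
        · subst hjk
          refine ⟨⟨l, ?_⟩, fun _ _ => ⟨j, ?_⟩⟩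
          · unfold chg
            rw [if_pos hj, if_neg hj', if_neg hj'l, if_neg (Ne.symm hjl), if_pos rfl,
              if_neg (Ne.symm hj'l)]
            simp
          · unfold chg
            rw [if_pos hj, if_neg hj', if_neg hj'l, if_pos rfl, if_neg hjl, if_neg hjj]
            simpa using h11
        · refine ⟨⟨j, ?_⟩, fun h3 h4 => ?_⟩
          · unfold chg
            rw [if_pos hj, if_neg hj', if_neg hj'l, if_pos rfl, if_neg hjl, if_neg hjj,
              if_neg hjk]
            simp
          · have h5 := four_le_of hjk hjl hjj hkl (Ne.symm hj'k) (Ne.symm hj'l)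
            obtain ⟨b, hb1, hb2, hb3, hb4⟩ := exists_far (by omega) j k l j'
            refine ⟨b, ?_⟩
            unfold chg
            rw [if_pos hj, if_neg hj', if_neg hj'l, if_neg hb1, if_neg hb3, if_neg hb2,
              if_neg hb4]
            simp
      · by_cases hjl : j = l
        · subst hjl
          refine ⟨⟨j', ?_⟩, fun _ _ => ⟨j, ?_⟩⟩
          · unfold chg
            rw [if_neg hj, if_pos rfl, if_neg hj', if_neg hj'l, if_neg hj'k, if_pos rfl]
            simp
          · unfold chg
            rw [if_neg hj, if_pos rfl, if_neg hj', if_neg hj'l, if_neg (Ne.symm hkl), if_neg hjj]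
            simp
        · refine ⟨⟨j', ?_⟩, fun _ _ => ⟨k, ?_⟩⟩
          · unfold chg
            rw [if_neg hj, if_neg hjl, if_neg hj', if_neg hj'l, if_neg hj'k, if_neg (Ne.symm hjj),
              if_pos rfl]
            simp
          · have hkj : k ≠ j := by
              rintro rfl
              exact hj hk
            unfold chg
            rw [if_neg hj, if_neg hjl, if_neg hj', if_neg hj'l, if_pos rfl, if_neg hkj,
              if_neg (Ne.symm hj'k)]
            simpa using h11
  by_cases hj : c j = 1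
  · exact key j j' hjj (Or.inl hj)
  · by_cases hj' : c j' = 1
    · obtain ⟨⟨a, ha⟩, h2⟩ := key j' j (Ne.symm hjj) (Or.inl hj')
      refine ⟨⟨a, by rw [add_comm]; exact ha⟩, fun h3 h4 => ?_⟩
      obtain ⟨b, hb⟩ := h2 h3 h4
      exact ⟨b, by rw [add_comm]; exact hb⟩
    · by_cases hj'l : j' = l
      · obtain ⟨⟨a, ha⟩, h2⟩ := key j' j (Ne.symm hjj)
          (Or.inr ⟨hj, fun h => hjj (h.trans hj'l.symm)⟩)
        refine ⟨⟨a, by rw [add_comm]; exact ha⟩, fun h3 h4 => ?_⟩
        obtain ⟨b, hb⟩ := h2 h3 h4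
        exact ⟨b, by rw [add_comm]; exact hb⟩
      · exact key j j' hjj (Or.inr ⟨hj', hj'l⟩)

theorem trp_cases (c : Fin n → ZMod 2) (k l j : Fin n) :
    trp c k l j = 1 ∨ ∃ a b : Fin n, a ≠ b ∧ trp c k l j = Equiv.swap a b := by
  unfold trp
  by_cases h1 : c j = 1
  · rw [if_pos h1]
    by_cases h2 : j = l
    · left
      rw [h2, Equiv.swap_self]
      rfl
    · exact Or.inr ⟨j, l, h2, rfl⟩
  · rw [if_neg h1]
    by_cases h2 : j = l
    · rw [if_pos h2]
      exact Or.inl rfl
    · rw [if_neg h2]
      by_cases h3 : k = j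
      · left
        rw [h3, Equiv.swap_self]
        rfl
      · exact Or.inr ⟨k, j, h3, rfl⟩

/-- the first counting lemma -/
theorem count_full (T : Finset (Fin n → ZMod 2))
    (hT : ∀ a b : Fin n, a ≠ b → ∀ c ∈ T, (fun i => c (Equiv.swap a b i)) ∈ T)
    {c : Fin n → ZMod 2} (hc : c ∈ T) {i j : Fin n} (hij : c i ≠ c j) : n ≤ T.card := by
  classical
  obtain ⟨k, l, hk, hl⟩ : ∃ k l, c k = 1 ∧ c l = 0 := by
    rcases v2_cases (c i) with h1 | h1 <;> rcases v2_cases (c j) with h2 | h2
    · exact absurd (h1.trans h2.symm) hij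
    · exact ⟨j, i, h2, h1⟩
    · exact ⟨i, j, h1, h2⟩
    · exact absurd (h1.trans h2.symm) hij
  let f : Fin n → T := fun j => ⟨fun i => c (trp c k l j i), by
    rcases trp_cases c k l j with h | ⟨a, b, hab, h⟩
    · rw [h]
      exact hc
    · rw [h]
      exact hT a b hab c hc⟩
  have hf : Function.Injective f := by
    intro j j' h
    by_contra hne
    obtain ⟨⟨a, ha⟩, -⟩ := chg_ne c hk hl hne
    have h1 := congrFun (congrArg Subtype.val h) a
    change c (trp c k l j a) = c (trp c k l j' a) at h1
    rw [trp_apply c hk hl, trp_apply c hk hl] at h1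
    have h2 := add_left_cancel h1
    rw [h2, CharTwo.add_self_eq_zero] at ha
    exact absurd ha (by decide)
  have := Fintype.card_le_of_injective f hf
  rwa [Fintype.card_fin, Fintype.card_coe] at this

/-- the second counting lemma -/
theorem count_pairs (hn : 3 ≤ n) (hn4 : n ≠ 4) (T : Finset (Fin n × Fin n → ZMod 2))
    (hT : ∀ a b : Fin n, a ≠ b → ∀ c ∈ T,
      (fun p : Fin n × Fin n => c (Equiv.swap a b p.1, Equiv.swap a b p.2)) ∈ T)
    {c : Fin n × Fin n → ZMod 2} (hc : c ∈ T) (hadd : ∀ i j k, c (i, j) + c (j, k) = c (i, k))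
    (hc0 : c ≠ 0) : n ≤ T.card := by
  classical
  let o : Fin n := ⟨0, by omega⟩
  let c' : Fin n → ZMod 2 := fun i => c (i, o)
  have hself : ∀ i, c (i, i) = 0 := by
    intro i
    have h1 := hadd i i i
    have h2 : c (i, i) + c (i, i) = 0 := CharTwo.add_self_eq_zero _
    rw [← h1, h2]
  have hsym : ∀ i j, c (i, j) = c (j, i) := by
    intro i j
    have h1 := hadd i j i
    rw [hself] at h1
    have h2 : c (i, j) + c (j, i) = c (j, i) + c (j, i) := by
      rw [h1, CharTwo.add_self_eq_zero]
    exact add_right_cancel h2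
  have hcc : ∀ i j, c (i, j) = c' i + c' j := by
    intro i j
    rw [← hadd i o j, hsym o j]
  obtain ⟨i, j, hij⟩ : ∃ i j, c' i ≠ c' j := by
    by_contra hcon
    push Not at hcon
    apply hc0
    funext p
    rw [show c p = c (p.1, p.2) from rfl, hcc, hcon p.1 p.2, CharTwo.add_self_eq_zero]
    rfl
  obtain ⟨k, l, hk, hl⟩ : ∃ k l, c' k = 1 ∧ c' l = 0 := by
    rcases v2_cases (c' i) with h1 | h1 <;> rcases v2_cases (c' j) with h2 | h2
    · exact absurd (h1.trans h2.symm) hij
    · exact ⟨j, i, h2, h1⟩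
    · exact ⟨i, j, h1, h2⟩
    · exact absurd (h1.trans h2.symm) hij
  let f : Fin n → T := fun j =>
    ⟨fun p : Fin n × Fin n => c (trp c' k l j p.1, trp c' k l j p.2), by
    rcases trp_cases c' k l j with h | ⟨a, b, hab, h⟩
    · rw [h]
      exact hc
    · rw [h]
      exact hT a b hab c hc⟩
  have hf : Function.Injective f := by
    intro j j' h
    by_contra hne
    obtain ⟨⟨a, ha⟩, h2⟩ := chg_ne c' hk hl hne
    obtain ⟨b, hb⟩ := h2 hn hn4
    have h1 := congrFun (congrArg Subtype.val h) (a, b)
    change c (trp c' k l j a, trp c' k l j b) = c (trp c' k l j' a, trp c' k l j' b) at h1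
    rw [hcc, hcc, trp_apply c' hk hl, trp_apply c' hk hl, trp_apply c' hk hl,
      trp_apply c' hk hl] at h1
    have h3 : (chg c' k l j a + chg c' k l j' a) + (chg c' k l j b + chg c' k l j' b) = 0 := by
      have h4 : (c' a + chg c' k l j a + (c' b + chg c' k l j b)) +
          (c' a + chg c' k l j' a + (c' b + chg c' k l j' b)) = 0 := by
        rw [h1, CharTwo.add_self_eq_zero]
      have h5 : c' a + c' a = 0 := CharTwo.add_self_eq_zero _
      have h6 : c' b + c' b = 0 := CharTwo.add_self_eq_zero _
      linear_combination h4 - h5 - h6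
    rw [ha, hb] at h3
    exact absurd h3 (by decide)
  have := Fintype.card_le_of_injective f hf
  rwa [Fintype.card_fin, Fintype.card_coe] at this

theorem key_four : ∀ c : Fin 4 → ZMod 2, (∃ i j, c i ≠ c j) → ∃ a b a' b' : Fin 4,
    a ≠ b ∧ a' ≠ b' ∧ (∃ p q, c (Equiv.swap a b p) + c (Equiv.swap a b q) ≠ c p + c q) ∧
    (∃ p q, c (Equiv.swap a' b' p) + c (Equiv.swap a' b' q) ≠ c p + c q) ∧
    ∃ p q, c (Equiv.swap a b p) + c (Equiv.swap a b q) ≠
      c (Equiv.swap a' b' p) + c (Equiv.swap a' b' q) := by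
  decide +kernel

/-- the second counting lemma for `n = 4` -/
theorem count_four (T : Finset (Fin 4 × Fin 4 → ZMod 2))
    (hT : ∀ a b : Fin 4, a ≠ b → ∀ c ∈ T,
      (fun p : Fin 4 × Fin 4 => c (Equiv.swap a b p.1, Equiv.swap a b p.2)) ∈ T)
    {c : Fin 4 × Fin 4 → ZMod 2} (hc : c ∈ T) (hadd : ∀ i j k, c (i, j) + c (j, k) = c (i, k))
    (hc0 : c ≠ 0) : 3 ≤ T.card := by
  classical
  let c' : Fin 4 → ZMod 2 := fun i => c (i, 0)
  have hself : ∀ i, c (i, i) = 0 := by
    intro i
    have h1 := hadd i i i
    have h2 : c (i, i) + c (i, i) = 0 := CharTwo.add_self_eq_zero _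
    rw [← h1, h2]
  have hsym : ∀ i j, c (i, j) = c (j, i) := by
    intro i j
    have h1 := hadd i j i
    rw [hself] at h1
    have h2 : c (i, j) + c (j, i) = c (j, i) + c (j, i) := by
      rw [h1, CharTwo.add_self_eq_zero]
    exact add_right_cancel h2
  have hcc : ∀ i j, c (i, j) = c' i + c' j := by
    intro i j
    rw [← hadd i 0 j, hsym 0 j]
  have hij : ∃ i j, c' i ≠ c' j := by
    by_contra hcon
    push Not at hcon
    apply hc0
    funext p
    rw [show c p = c (p.1, p.2) from rfl, hcc, hcon p.1 p.2, CharTwo.add_self_eq_zero]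
    rfl
  obtain ⟨a, b, a', b', hab, hab', ⟨p1, q1, h1⟩, ⟨p2, q2, h2⟩, ⟨p3, q3, h3⟩⟩ := key_four c' hij
  let c1 : Fin 4 × Fin 4 → ZMod 2 := fun p => c (Equiv.swap a b p.1, Equiv.swap a b p.2)
  let c2 : Fin 4 × Fin 4 → ZMod 2 := fun p => c (Equiv.swap a' b' p.1, Equiv.swap a' b' p.2)
  have e1 : c1 ≠ c := by
    intro h
    have h4 := congrFun h (p1, q1)
    change c (Equiv.swap a b p1, Equiv.swap a b q1) = c (p1, q1) at h4
    rw [hcc, hcc] at h4
    exact h1 h4
  have e2 : c2 ≠ c := by
    intro h
    have h4 := congrFun h (p2, q2)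
    change c (Equiv.swap a' b' p2, Equiv.swap a' b' q2) = c (p2, q2) at h4
    rw [hcc, hcc] at h4
    exact h2 h4
  have e3 : c1 ≠ c2 := by
    intro h
    have h4 := congrFun h (p3, q3)
    change c (Equiv.swap a b p3, Equiv.swap a b q3) =
      c (Equiv.swap a' b' p3, Equiv.swap a' b' q3) at h4
    rw [hcc, hcc] at h4
    exact h3 h4
  have hsub : ({c, c1, c2} : Finset (Fin 4 × Fin 4 → ZMod 2)) ⊆ T := by
    intro d hd
    rw [Finset.mem_insert, Finset.mem_insert, Finset.mem_singleton] at hd
    rcases hd with rfl | rfl | rfl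
    · exact hc
    · exact hT a b hab c hc
    · exact hT a' b' hab' c hc
  have h5 := Finset.card_le_card hsub
  have h6 : ({c, c1, c2} : Finset (Fin 4 × Fin 4 → ZMod 2)).card = 3 :=
    Finset.card_eq_three.2 ⟨c, c1, c2, Ne.symm e1, Ne.symm e2, e3, rfl⟩
  omega

/-- the bound in the second counting lemma -/
def cnt (n : ℕ) : ℕ := if n = 4 then 3 else n

/-- the second counting lemma for all `n ≥ 3` -/
theorem count_pairs' (hn : 3 ≤ n) (T : Finset (Fin n × Fin n → ZMod 2))
    (hT : ∀ a b : Fin n, a ≠ b → ∀ c ∈ T,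
      (fun p : Fin n × Fin n => c (Equiv.swap a b p.1, Equiv.swap a b p.2)) ∈ T)
    {c : Fin n × Fin n → ZMod 2} (hc : c ∈ T) (hadd : ∀ i j k, c (i, j) + c (j, k) = c (i, k))
    (hc0 : c ≠ 0) : cnt n ≤ T.card := by
  unfold cnt
  by_cases h : n = 4
  · subst h
    rw [if_pos rfl]
    exact count_four T hT hc hadd hc0
  · rw [if_neg h]
    exact count_pairs hn h T hT hc hadd hc0

end comb

end Pool.Agent.V7H7.SZ
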