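import Pool.Agent.V7H7.SZ.Sm
import Pool.Agent.N987.ZX.Pauli

/-! Pauli groups acting on mod 2 homology spheres. -/

set_option autoImplicit false
set_option linter.unusedSectionVars false

namespace Pool.Agent.V7H7.SZ

open scoped Manifold ContDiff
open Module Pool.Agent.Helper381 Pool.Agent.H185.ZM Pool.Agent.N987.ZX

variable {E : Type} [NormedAddCommGroup E] [NormedSpace ℝ E] [FiniteDimensional ℝ E]
  {M : Type} [TopologicalSpace M] [ChartedSpace E M] [IsManifold 𝓘(ℝ, E) ∞ M]

/-- the unit vectors -/
def uv2 (l i : ℕ) : Fin l → ZMod 2 := fun j => if j.val = i then 1 else 0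

theorem uv2_dot {l i j : ℕ} (hi : i < l) : uv2 l i ⬝ᵥ uv2 l j = if i = j then 1 else 0 := by
  classical
  unfold dotProduct
  rw [Finset.sum_eq_single (⟨i, hi⟩ : Fin l)]
  · unfold uv2
    by_cases h : i = j
    · simp [h]
    · simp [h]
  · intro b _ hb
    unfold uv2
    have h1 : (b : ℕ) ≠ i := fun h => hb (Fin.ext h)
    simp [h1]
  · intro h
    exact absurd (Finset.mem_univ _) h

/-- **The central involution of the Pauli group acts trivially.** -/
theorem pauli_trivial [CompactSpace M] [T2Space M] [ConnectedSpace M]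
    (hM : Mod2Sphere M (finrank ℝ E)) (hm : 0 < finrank ℝ E) {l : ℕ}
    (hl : finrank ℝ E + 1 < 2 ^ l) {a : PG l → M → M} (ha : SmoothAction E a) (x : M) :
    a (PG.z l) x = x := by
  classical
  obtain ⟨S, face, hfin, act, Mo, h0, htriv⟩ := smooth_model hM hm ha
  obtain ⟨N, hN⟩ := Mo.bd
  have hz2 : PG.z l * PG.z l = 1 := by
    ext1
    · simp [PG.z]
      decide
    · simp [PG.z]
    · simp [PG.z]
  have hzc : ∀ q : PG l, PG.z l * q = q * PG.z l := by
    intro q
    ext1
    · simp [PG.z, add_comm]
    · simp [PG.z]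
    · simp [PG.z]
  have hsph := Mo.isSph (A := (∅ : Set (PG l))) ⟨fun p hp => absurd hp (Set.notMem_empty p),
    fun p hp => absurd hp (Set.notMem_empty p)⟩
  rw [h0] at hsph
  obtain ⟨c, hca, hc, hdvd⟩ := dvd_main Mo.h Mo.hf hN (PG.z l) hz2
    (fun i => ⟨0, 0, uv2 l i⟩) (fun i => ⟨0, uv2 l i, 0⟩) l
    (fun i hi => by
      ext1
      · simp
      · simp
      · exact vadd_self _)
    (fun i hi => hzc _)
    (fun i hi => by
      ext1
      · simp only [PG.mul_s, PG.mul_b, PG.z, zero_dotProduct, dotProduct_zero, add_zero, zero_add]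
        rw [uv2_dot hi, if_pos rfl]
        decide
      · simp [PG.z]
      · simp [PG.z])
    (fun i hi j hj => by
      ext1
      · simp
      · simp
      · simp [add_comm])
    (fun i hi j hj hij => by
      ext1
      · simp only [PG.mul_s, zero_dotProduct, add_zero, zero_add]
        rw [uv2_dot hj, if_neg (Ne.symm hij)]
      · simp
      · simp)
    ∅ (fun q hq => absurd hq (Set.notMem_empty q)) (fun q hq => absurd hq (Set.notMem_empty q))
    (fun q hq => absurd hq (Set.notMem_empty q)) _ hsph
  have hce : c = finrank ℝ E + 1 := by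
    have h1 : finrank ℝ E + 1 - c = 0 := by
      by_contra hne
      have h2 := Nat.le_of_dvd (Nat.pos_of_ne_zero hne) hdvd
      omega
    omega
  apply htriv (PG.z l) hz2
  have h2 := nu_eq Mo.h hc
  rw [insert_empty_eq] at h2
  rw [h2, hce]

end Pool.Agent.V7H7.SZ
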