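import Pool.Agent.V7H7.SZ.Fou

/-! The weights of an elementary abelian 2-group acting on a mod 2 cohomology sphere: inversion
formula and symmetries. -/

set_option autoImplicit false
set_option linter.unusedSectionVars false

namespace Pool.Agent.V7H7.SZ

open Module Pool.Agent.Helper381

universe u v w

section lin

variable {n : ℕ}

/-- the functional -/
def fnl (c : V2 n) : V2 n →ₗ[ZMod 2] ZMod 2 where
  toFun v := c ⬝ᵥ v
  map_add' := dotProduct_add c
  map_smul' r v := dotProduct_smul r c v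

theorem kerc_eq (c : V2 n) : kerc c = LinearMap.ker (fnl c) := by
  ext v
  rfl

theorem exists_dot_eq_one {c : V2 n} (hc : c ≠ 0) : ∃ v : V2 n, c ⬝ᵥ v = 1 := by
  have hex : ∃ i, c i ≠ 0 := by
    by_contra hcon
    push Not at hcon
    exact hc (funext hcon)
  obtain ⟨i, hi⟩ := hex
  refine ⟨Pi.single i 1, ?_⟩
  rw [dotProduct_single, mul_one]
  rcases (show ∀ t : ZMod 2, t = 0 ∨ t = 1 by decide) (c i) with h1 | h1
  · exact absurd h1 hi
  · exact h1

theorem finrank_kerc {c : V2 n} (hc : c ≠ 0) : finrank (ZMod 2) (kerc c) + 1 = n := by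
  have : Fact (Nat.Prime 2) := ⟨Nat.prime_two⟩
  have h1 := (fnl c).finrank_range_add_finrank_ker
  have h2 : LinearMap.range (fnl c) = ⊤ := by
    rw [LinearMap.range_eq_top]
    intro t
    obtain ⟨v, hv⟩ := exists_dot_eq_one hc
    refine ⟨t • v, ?_⟩
    change c ⬝ᵥ (t • v) = t
    rw [dotProduct_smul, hv, smul_eq_mul, mul_one]
  rw [h2, finrank_top, finrank_self, ← kerc_eq] at h1
  have h3 : finrank (ZMod 2) (V2 n) = n := by simp
  rw [h3] at h1
  omega

theorem v2_cases (t : ZMod 2) : t = 0 ∨ t = 1 := by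
  revert t; decide

end lin

section

variable {S : ℕ → Type v} {face : ∀ n, Fin (n + 2) → S (n + 1) → S n}
  {P : Type w} [Group P] {act : P → ∀ n, S n → S n} [∀ n, Finite (S n)] [Finite P] {n : ℕ}

/-- the image of the kernel of a functional -/
def ik (φ : Multiplicative (V2 n) →* P) (c : V2 n) : Set P :=
  {p | ∃ v ∈ kerc c, φ (Multiplicative.ofAdd v) = p}

/-- the weight -/
noncomputable def wt (M : Mod face act) (φ : Multiplicative (V2 n) →* P) (c : V2 n) : ℤ :=
  (nu M.h (ik φ c) : ℤ) - nu M.h (Set.range φ)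

theorem ik_subset (φ : Multiplicative (V2 n) →* P) (c : V2 n) : ik φ c ⊆ Set.range φ := by
  rintro _ ⟨v, _, rfl⟩
  exact ⟨_, rfl⟩

theorem wt_nonneg (M : Mod face act) (φ : Multiplicative (V2 n) →* P) (c : V2 n) :
    0 ≤ wt M φ c := by
  have := M.nu_mono (ik_subset φ c) (elAb_range φ)
  unfold wt
  omega

theorem wt_zero (M : Mod face act) (φ : Multiplicative (V2 n) →* P) : wt M φ 0 = 0 := by
  unfold wt
  have : ik φ 0 = Set.range φ := by
    apply Set.Subset.antisymm (ik_subset φ 0)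
    rintro _ ⟨x, rfl⟩
    exact ⟨x.toAdd, zero_dotProduct _, rfl⟩
  rw [this, sub_self]

theorem sum_tr (M : Mod face act) (φ : Multiplicative (V2 n) →* P) :
    ∑ v : V2 n, tr M φ v = 2 ^ n * (nu M.h (Set.range φ) : ℤ) := by
  classical
  have h1 := M.sum_submodule φ (⊤ : Submodule (ZMod 2) (V2 n))
  have h2 : {p | ∃ v ∈ (⊤ : Submodule (ZMod 2) (V2 n)), φ (Multiplicative.ofAdd v) = p} =
      Set.range φ := by
    ext p
    constructor
    · rintro ⟨v, _, rfl⟩
      exact ⟨_, rfl⟩
    · rintro ⟨x, rfl⟩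
      exact ⟨x.toAdd, trivial, rfl⟩
  have h3 : finrank (ZMod 2) (V2 n) = n := by simp
  rw [h2, finrank_top, h3] at h1
  rw [h1]
  refine Finset.sum_congr rfl fun v _ => ?_
  exact (if_pos (Submodule.mem_top (x := v))).symm

theorem wt_eq (M : Mod face act) (φ : Multiplicative (V2 n) →* P) (c : V2 n) :
    2 ^ n * (wt M φ c + if c = 0 then (nu M.h (Set.range φ) : ℤ) else 0) =
      ∑ v : V2 n, sgn (c ⬝ᵥ v) * tr M φ v := by
  classical
  by_cases hc : c = 0
  · subst hc
    rw [wt_zero, if_pos rfl, zero_add, ← sum_tr M]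
    refine Finset.sum_congr rfl fun v _ => ?_
    rw [zero_dotProduct]
    simp [sgn]
  · rw [if_neg hc, add_zero]
    have h1 := M.sum_submodule φ (kerc c)
    have h2 := finrank_kerc hc
    have h3 : (2 : ℤ) ^ n = 2 * 2 ^ finrank (ZMod 2) (kerc c) := by
      conv_lhs => rw [← h2]
      rw [pow_succ, mul_comm]
    have h4 : (2 : ℤ) ^ n * wt M φ c = 2 * (2 ^ finrank (ZMod 2) (kerc c) *
        (nu M.h (ik φ c) : ℤ)) - 2 ^ n * (nu M.h (Set.range φ) : ℤ) := by
      unfold wt
      rw [mul_sub]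
      conv_lhs => rw [h3]
      rw [h3]
      ring
    have h5 : ik φ c = {p | ∃ v ∈ kerc c, φ (Multiplicative.ofAdd v) = p} := rfl
    rw [h4, h5, h1, ← sum_tr M, Finset.mul_sum, ← Finset.sum_sub_distrib]
    refine Finset.sum_congr rfl fun v _ => ?_
    rcases v2_cases (c ⬝ᵥ v) with h6 | h6
    · rw [if_pos ((mem_kerc c v).2 h6), h6]
      simp [sgn]
      ring
    · have h7 : v ∉ kerc c := fun h8 => by
        rw [mem_kerc, h6] at h8
        exact absurd h8 (by decide)
      rw [if_neg h7, h6]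
      have : sgn 1 = -1 := by decide
      rw [this]
      ring

theorem inversion (M : Mod face act) (φ : Multiplicative (V2 n) →* P) (w : V2 n) :
    (∑ c : V2 n, sgn (c ⬝ᵥ w) * wt M φ c) + nu M.h (Set.range φ) = tr M φ w := by
  classical
  have h1 : ∑ c : V2 n, sgn (c ⬝ᵥ w) * (2 ^ n *
      (wt M φ c + if c = 0 then (nu M.h (Set.range φ) : ℤ) else 0)) = 2 ^ n * tr M φ w := by
    calc ∑ c : V2 n, sgn (c ⬝ᵥ w) * (2 ^ n *
        (wt M φ c + if c = 0 then (nu M.h (Set.range φ) : ℤ) else 0))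
        = ∑ c : V2 n, ∑ v : V2 n, sgn (c ⬝ᵥ (w + v)) * tr M φ v := by
          refine Finset.sum_congr rfl fun c _ => ?_
          rw [wt_eq, Finset.mul_sum]
          refine Finset.sum_congr rfl fun v _ => ?_
          rw [dotProduct_add, sgn_add, mul_assoc]
      _ = ∑ v : V2 n, (∑ c : V2 n, sgn (c ⬝ᵥ (w + v))) * tr M φ v := by
          rw [Finset.sum_comm]
          refine Finset.sum_congr rfl fun v _ => ?_
          rw [Finset.sum_mul]
      _ = ∑ v : V2 n, (if v = w then 2 ^ n * tr M φ v else 0) := by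
          refine Finset.sum_congr rfl fun v _ => ?_
          rw [sum_sgn]
          have h2 : w + v = 0 ↔ v = w := by
            constructor
            · intro h
              have h3 : v = w + (w + v) := by
                funext i
                simp only [Pi.add_apply]
                rw [← add_assoc, CharTwo.add_self_eq_zero, zero_add]
              rw [h3, h, add_zero]
            · rintro rfl
              funext i
              exact CharTwo.add_self_eq_zero _
          by_cases h4 : v = w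
          · rw [if_pos (h2.2 h4), if_pos h4]
          · rw [if_neg (fun h => h4 (h2.1 h)), if_neg h4, zero_mul]
      _ = 2 ^ n * tr M φ w := by simp
  have h2 : ∑ c : V2 n, sgn (c ⬝ᵥ w) * (2 ^ n *
      (wt M φ c + if c = 0 then (nu M.h (Set.range φ) : ℤ) else 0)) =
      2 ^ n * ((∑ c : V2 n, sgn (c ⬝ᵥ w) * wt M φ c) + nu M.h (Set.range φ)) := by
    have h3 : (nu M.h (Set.range φ) : ℤ) = ∑ c : V2 n, sgn (c ⬝ᵥ w) *
        (if c = 0 then (nu M.h (Set.range φ) : ℤ) else 0) := by
      rw [Finset.sum_eq_single 0]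
      · rw [if_pos rfl, zero_dotProduct]
        simp [sgn]
      · intro c _ hc
        rw [if_neg hc, mul_zero]
      · intro h
        exact absurd (Finset.mem_univ _) h
    conv_rhs => rw [h3]
    rw [← Finset.sum_add_distrib, Finset.mul_sum]
    refine Finset.sum_congr rfl fun c _ => ?_
    ring
  rw [h2] at h1
  exact mul_left_cancel₀ (by positivity) h1

/-- **The formula of Borel.** -/
theorem wt_total (M : Mod face act) (φ : Multiplicative (V2 n) →* P) :
    ∑ c : V2 n, wt M φ c = (nu M.h ∅ : ℤ) - nu M.h (Set.range φ) := by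
  have h1 := inversion M φ 0
  have h2 : tr M φ 0 = nu M.h ∅ := by
    unfold tr
    have h3 : φ (Multiplicative.ofAdd (0 : V2 n)) = 1 := map_one φ
    have h4 := M.nu_one ∅
    rw [insert_empty_eq] at h4
    rw [h3, h4]
    ring
  rw [h2] at h1
  have h3 : ∑ c : V2 n, sgn (c ⬝ᵥ (0 : V2 n)) * wt M φ c = ∑ c : V2 n, wt M φ c := by
    refine Finset.sum_congr rfl fun c _ => ?_
    rw [dotProduct_zero]
    simp [sgn]
  rw [h3] at h1
  linarith

theorem wt_elem (M : Mod face act) (φ : Multiplicative (V2 n) →* P) (w : V2 n) :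
    ∑ c : V2 n, (if c ⬝ᵥ w = 1 then wt M φ c else 0) =
      (nu M.h ∅ : ℤ) - nu M.h {φ (Multiplicative.ofAdd w)} := by
  have h1 := inversion M φ w
  have h2 := wt_total M φ
  have h3 : 2 * ∑ c : V2 n, (if c ⬝ᵥ w = 1 then wt M φ c else 0) =
      ∑ c : V2 n, wt M φ c - ∑ c : V2 n, sgn (c ⬝ᵥ w) * wt M φ c := by
    rw [Finset.mul_sum, ← Finset.sum_sub_distrib]
    refine Finset.sum_congr rfl fun c _ => ?_
    rcases v2_cases (c ⬝ᵥ w) with h6 | h6
    · rw [h6, if_neg (by decide)]
      simp [sgn]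
    · rw [h6, if_pos rfl]
      have : sgn 1 = -1 := by decide
      rw [this]
      ring
  unfold tr at h1
  linarith

/-- elements orthogonal to all weights -/
theorem nu_of_orth (M : Mod face act) (φ : Multiplicative (V2 n) →* P) (w : V2 n)
    (hw : ∀ c, wt M φ c ≠ 0 → c ⬝ᵥ w = 0) :
    nu M.h {φ (Multiplicative.ofAdd w)} = nu M.h ∅ := by
  have h1 := wt_elem M φ w
  have h2 : ∑ c : V2 n, (if c ⬝ᵥ w = 1 then wt M φ c else 0) = 0 := by
    apply Finset.sum_eq_zero
    intro c _
    by_cases hc : wt M φ c = 0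
    · rw [hc, ite_self]
    · rw [hw c hc, if_neg (by decide)]
  rw [h2] at h1
  omega

theorem card_wt_le (M : Mod face act) (φ : Multiplicative (V2 n) →* P) (δ : ℕ)
    (hd : ∀ c, (δ : ℤ) ∣ wt M φ c) [DecidablePred fun c : V2 n => wt M φ c ≠ 0] :
    δ * (Finset.univ.filter fun c : V2 n => wt M φ c ≠ 0).card ≤ nu M.h ∅ := by
  have h1 := wt_total M φ
  have h2 : (δ : ℤ) * (Finset.univ.filter fun c : V2 n => wt M φ c ≠ 0).card ≤
      ∑ c : V2 n, wt M φ c := by
    rw [← Finset.sum_filter_ne_zero, mul_comm, ← nsmul_eq_mul]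
    apply Finset.card_nsmul_le_sum
    intro c hc
    rw [Finset.mem_filter] at hc
    obtain ⟨k, hk⟩ := hd c
    have h3 := wt_nonneg M φ c
    have h4 : 0 < wt M φ c := lt_of_le_of_ne h3 (Ne.symm hc.2)
    exact Int.le_of_dvd h4 (hd c)
  have h3 : (δ : ℤ) * (Finset.univ.filter fun c : V2 n => wt M φ c ≠ 0).card ≤ nu M.h ∅ := by
    rw [h1] at h2
    have : (0 : ℤ) ≤ nu M.h (Set.range φ) := by positivity
    linarith
  exact_mod_cast h3

/-- the divisibility of the weights -/
theorem dvd_wt (M : Mod face act) (φ : Multiplicative (V2 n) →* P) (δ : ℕ)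
    (hd : ∀ (A : Set P) (v : V2 n), A ⊆ Set.range φ →
      (δ : ℤ) ∣ (nu M.h A : ℤ) - nu M.h (insert (φ (Multiplicative.ofAdd v)) A)) (c : V2 n) :
    (δ : ℤ) ∣ wt M φ c := by
  by_cases hc : c = 0
  · rw [hc, wt_zero]
    exact dvd_zero _
  · obtain ⟨v, hv⟩ := exists_dot_eq_one hc
    have h1 := hd (ik φ c) v (ik_subset φ c)
    have h2 : nu M.h (insert (φ (Multiplicative.ofAdd v)) (ik φ c)) = nu M.h (Set.range φ) := by
      apply nu_congr M.h M.hf
      intro m σ
      constructor
      · rintro h3 _ ⟨x, rfl⟩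
        rcases v2_cases (c ⬝ᵥ x.toAdd) with h4 | h4
        · exact h3 _ (Or.inr ⟨x.toAdd, h4, rfl⟩)
        · have h5 : c ⬝ᵥ (x.toAdd + v) = 0 := by
            rw [dotProduct_add, h4, hv]
            decide
          have h6 : x = Multiplicative.ofAdd (x.toAdd + v) * Multiplicative.ofAdd v := by
            rw [← ofAdd_add]
            apply Multiplicative.toAdd.injective
            change x.toAdd = x.toAdd + v + v
            funext i
            simp only [Pi.add_apply]
            rw [add_assoc, CharTwo.add_self_eq_zero, add_zero]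
          rw [h6, map_mul, M.h.mul, h3 _ (Or.inl rfl), h3 _ (Or.inr ⟨_, h5, rfl⟩)]
      · rintro h3 q (rfl | hq)
        · exact h3 _ ⟨_, rfl⟩
        · exact h3 q (ik_subset φ c hq)
    rw [h2] at h1
    exact h1

/-- the symmetry of the weights -/
theorem wt_conj (M : Mod face act) (φ : Multiplicative (V2 n) →* P) (x : P)
    (σ : V2 n ≃ V2 n) (hσ : ∀ v, x * φ (Multiplicative.ofAdd v) * x⁻¹ =
      φ (Multiplicative.ofAdd (σ v))) (c c' : V2 n) (hc : ∀ v, c' ⬝ᵥ σ v = c ⬝ᵥ v) :
    wt M φ c' = wt M φ c := by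
  unfold wt
  congr 2
  symm
  apply nu_conj M.h M.hf x
  intro q
  constructor
  · rintro ⟨v, hv, rfl⟩
    exact ⟨σ v, (hc v).trans hv, (hσ v).symm⟩
  · rintro ⟨v, hv, hq⟩
    refine ⟨σ.symm v, ?_, ?_⟩
    · show c ⬝ᵥ σ.symm v = 0
      rw [← hc, Equiv.apply_symm_apply]
      exact hv
    · have h1 := hσ (σ.symm v)
      rw [Equiv.apply_symm_apply, hq] at h1
      exact mul_left_cancel (mul_right_cancel h1)

end

end Pool.Agent.V7H7.SZ
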