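import Pool.Agent.V7H7.SZ.Half
import Pool.Agent.V7H7.SZ.Wts


/-! Elements of order four and quaternion groups acting on mod 2 cohomology spheres:
the dimension of the fixed sphere of the central involution. -/

set_option autoImplicit false
set_option linter.unusedSectionVars false

namespace Pool.Agent.V7H7.SZ

open Module Pool.Agent.Helper381

universe u v w

section

variable {S : ℕ → Type v} {face : ∀ n, Fin (n + 2) → S (n + 1) → S n}
  {P : Type w} [Group P] (act : P → ∀ n, S n → S n)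

/-- cochains invariant under `K` which vanish on the simplices fixed by `z` -/
def EK (z : P) (K : Subgroup P) (n : ℕ) : Submodule (ZMod 2) (S n → ZMod 2) where
  carrier := {f | (∀ k ∈ K, ∀ σ, f (act k n σ) = f σ) ∧ ∀ σ, act z n σ = σ → f σ = 0}
  add_mem' := by
    rintro f g ⟨h1, h2⟩ ⟨h3, h4⟩
    refine ⟨fun k hk σ => ?_, fun σ hσ => ?_⟩
    · simp [h1 k hk, h3 k hk]
    · simp [h2 σ hσ, h4 σ hσ]
  zero_mem' := ⟨fun _ _ _ => rfl, fun _ _ => rfl⟩
  smul_mem' := by
    rintro c f ⟨h1, h2⟩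
    refine ⟨fun k hk σ => ?_, fun σ hσ => ?_⟩
    · simp [h1 k hk]
    · simp [h2 σ hσ]

variable {act}

theorem EK_d (h : Act face act) (z : P) (K : Subgroup P) (n : ℕ) :
    ∀ f ∈ EK act z K n, altd (ZMod 2) face n f ∈ EK act z K (n + 1) := by
  rintro f ⟨h1, h2⟩
  refine ⟨fun k hk σ => ?_, fun σ hσ => ?_⟩
  · rw [altd_apply, altd_apply]
    refine Finset.sum_congr rfl fun i _ => ?_
    rw [← h.fc, h1 k hk]
  · rw [altd_apply]
    apply Finset.sum_eq_zero
    intro i _
    rw [h2 _ (by rw [h.fc, hσ]), mul_zero]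

variable [∀ n, Finite (S n)]

/-- a function which separates the orbits -/
theorem exists_orb (h : Act face act) (K : Subgroup P) (n : ℕ) :
    ∃ m : S n → ℕ, ∀ σ τ, m σ = m τ ↔ ∃ k ∈ K, act k n σ = τ := by
  classical
  have hinv : ∀ k, ∀ σ : S n, act k⁻¹ n (act k n σ) = σ := fun k σ => by
    rw [← h.mul, inv_mul_cancel, h.one]
  let s : Setoid (S n) :=
    { r := fun σ τ => ∃ k ∈ K, act k n σ = τ
      iseqv := ⟨fun σ => ⟨1, K.one_mem, h.one n σ⟩,
        fun {σ τ} ⟨k, hk, hkσ⟩ => ⟨k⁻¹, K.inv_mem hk, by rw [← hkσ, hinv]⟩,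
        fun {σ τ ρ} ⟨k, hk, hkσ⟩ ⟨l, hl, hlσ⟩ =>
          ⟨l * k, K.mul_mem hl hk, by rw [h.mul, hkσ, hlσ]⟩⟩ }
  have : Finite (Quotient s) := Quotient.finite s
  obtain ⟨N, ⟨e⟩⟩ := Finite.exists_equiv_fin (Quotient s)
  refine ⟨fun σ => (e (Quotient.mk s σ) : ℕ), fun σ τ => ?_⟩
  constructor
  · intro h1
    have h2 := e.injective (Fin.ext h1)
    exact Quotient.exact h2
  · intro h1
    have h2 : Quotient.mk s σ = Quotient.mk s τ := Quotient.sound h1
    change (e (Quotient.mk s σ) : ℕ) = (e (Quotient.mk s τ) : ℕ)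
    rw [h2]

theorem EK_half (h : Act face act) (z y : P) (K L : Subgroup P) (hKL : K ≤ L) (hyL : y ∈ L)
    (hL : L ≤ Subgroup.closure ((K : Set P) ∪ {y})) (hyK : ∀ k ∈ K, y * k * y⁻¹ ∈ K)
    (hyy : y * y ∈ K) (hz : ∀ k ∈ K, (k * y) * (k * y) = z) (hzy : z * y = y * z) :
    Half face (fun n => act y n) (EK act z K) (EK act z L) := by
  classical
  have hinv : ∀ k n, ∀ σ : S n, act k⁻¹ n (act k n σ) = σ := fun k n σ => by
    rw [← h.mul, inv_mul_cancel, h.one]
  have hinv' : ∀ k n, ∀ σ : S n, act k n (act k⁻¹ n σ) = σ := fun k n σ => by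
    rw [← h.mul, mul_inv_cancel, h.one]
  -- invariance under `L`
  have hLinv : ∀ n (f : S n → ZMod 2), (∀ k ∈ K, ∀ σ, f (act k n σ) = f σ) →
      (∀ σ, f (act y n σ) = f σ) → ∀ l ∈ L, ∀ σ, f (act l n σ) = f σ := by
    intro n f h1 h2 l hl
    refine Subgroup.closure_induction (p := fun l _ => ∀ σ, f (act l n σ) = f σ) ?_ ?_ ?_ ?_
      (hL hl)
    · intro x hx
      rcases hx with hx | hx
      · exact h1 x hx
      · rw [Set.mem_singleton_iff] at hx
        rw [hx]
        exact h2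
    · intro σ
      rw [h.one]
    · intro a b _ _ iha ihb σ
      rw [h.mul, iha, ihb]
    · intro a _ iha σ
      rw [← iha (act a⁻¹ n σ), hinv']
  have hyk : ∀ k ∈ K, ∀ n (σ : S n), act y n (act k n σ) =
      act (y * k * y⁻¹) n (act y n σ) := by
    intro k _ n σ
    rw [← h.mul, ← h.mul]
    congr 1
    group
  refine ⟨EK_d h z K, EK_d h z L, ?_, ?_, ?_, ?_, ?_, ?_⟩
  · rintro n f ⟨h1, h2⟩
    exact ⟨fun k hk => h1 k (hKL hk), h2⟩
  · intro n i σ
    exact h.fc y n i σ
  · rintro n f ⟨h1, _⟩ σ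
    exact h1 y hyL σ
  · rintro n f ⟨h1, h2⟩ h3
    exact ⟨hLinv n f h1 h3, h2⟩
  · rintro n f ⟨h1, h2⟩
    refine ⟨hLinv n (fun σ => f σ + f (act y n σ)) ?_ ?_, ?_⟩
    · intro k hk σ
      change f (act k n σ) + f (act y n (act k n σ)) = f σ + f (act y n σ)
      rw [hyk k hk, h1 _ (hyK k hk), h1 k hk]
    · intro σ
      change f (act y n σ) + f (act y n (act y n σ)) = f σ + f (act y n σ)
      rw [← h.mul, h1 _ hyy, add_comm]
    · intro σ hσ
      change f σ + f (act y n σ) = 0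
      rw [h2 σ hσ, h2 (act y n σ) (by rw [← h.mul, hzy, h.mul, hσ]), add_zero]
  · rintro n u ⟨h1, h2⟩
    obtain ⟨m, hm⟩ := exists_orb h K n
    have hmk : ∀ k ∈ K, ∀ σ, m (act k n σ) = m σ := by
      intro k hk σ
      exact ((hm σ (act k n σ)).2 ⟨k, hk, rfl⟩).symm
    have hmyk : ∀ k ∈ K, ∀ σ, m (act y n (act k n σ)) = m (act y n σ) := by
      intro k hk σ
      rw [hyk k hk, hmk _ (hyK k hk)]
    have hmyy : ∀ σ, m (act y n (act y n σ)) = m σ := by
      intro σ
      rw [← h.mul, hmk _ hyy]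
    refine ⟨fun σ => if m σ < m (act y n σ) then u σ else 0, ⟨?_, ?_⟩, ?_⟩
    · intro k hk σ
      change (if m (act k n σ) < m (act y n (act k n σ)) then u (act k n σ) else 0) =
        if m σ < m (act y n σ) then u σ else 0
      rw [hmk k hk, hmyk k hk, h1 k (hKL hk)]
    · intro σ hσ
      change (if m σ < m (act y n σ) then u σ else 0) = 0
      rw [h2 σ hσ, ite_self]
    · intro σ
      change (if m σ < m (act y n σ) then u σ else 0) +
        (if m (act y n σ) < m (act y n (act y n σ)) then u (act y n σ) else 0) = u σ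
      rw [hmyy, h1 y hyL]
      rcases lt_trichotomy (m σ) (m (act y n σ)) with h5 | h5 | h5
      · rw [if_pos h5, if_neg (by omega), add_zero]
      · obtain ⟨k, hk, hk2⟩ := (hm _ _).1 h5
        have h6 : act (k⁻¹ * y) n σ = σ := by
          rw [h.mul, ← hk2, hinv]
        have h7 : act z n σ = σ := by
          rw [← hz k⁻¹ (K.inv_mem hk), h.mul, h6, h6]
        rw [h2 σ h7]
        simp
      · rw [if_neg (by omega), if_pos h5, zero_add]

theorem EK_z (h : Act face act) (z : P) (n : ℕ) :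
    EK act z (Subgroup.zpowers z) n = Isub (fun n => act z n) n := by
  ext f
  constructor
  · rintro ⟨h1, h2⟩
    exact ⟨h1 z (Subgroup.mem_zpowers z), h2⟩
  · rintro ⟨h1, h2⟩
    refine ⟨?_, h2⟩
    intro k hk
    rw [Subgroup.zpowers_eq_closure] at hk
    refine Subgroup.closure_induction (p := fun l _ => ∀ σ, f (act l n σ) = f σ) ?_ ?_ ?_ ?_ hk
    · intro x hx
      rw [Set.mem_singleton_iff] at hx
      rw [hx]
      exact h1
    · intro σ
      rw [h.one]
    · intro a b _ _ iha ihb σ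
      rw [h.mul, iha, ihb]
    · intro a _ iha σ
      rw [← iha (act a⁻¹ n σ), ← h.mul, mul_inv_cancel, h.one]

/-- `hSub` only depends on the submodules -/
theorem hSub_congr {A B : ∀ n, Submodule (ZMod 2) (S n → ZMod 2)} (hAB : A = B)
    (dA : ∀ n, ∀ f ∈ A n, altd (ZMod 2) face n f ∈ A (n + 1))
    (dB : ∀ n, ∀ f ∈ B n, altd (ZMod 2) face n f ∈ B (n + 1)) (n : ℕ) :
    hSub dA n = hSub dB n := by
  subst hAB
  rfl

section quat

variable (h : Act face act) (hf : FF face) {N : ℕ} (hN : ∀ n, N ≤ n → IsEmpty (S n))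

include hf hN in
/-- an element of order four -/
theorem step_four {x z : P} (hzz : z * z = 1) (hxx : x * x = z) {c t : ℕ} (hct : c < t)
    (ha : ∀ n, hSub (EK_d h z (Subgroup.zpowers z)) n = if c ≤ n ∧ n < t then 1 else 0) :
    c + 2 ≤ t ∧ t ≠ c + 3 ∧ (t = c + 2 → ∀ n, hSub (EK_d h z (Subgroup.zpowers x)) n =
      if c ≤ n ∧ n < t then 1 else 0) := by
  have hxz : z * x = x * z := by rw [← hxx, mul_assoc]
  have hH : Half face (fun n => act x n) (EK act z (Subgroup.zpowers z))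
      (EK act z (Subgroup.zpowers x)) := by
    apply EK_half h z x
    · rw [Subgroup.zpowers_le, ← hxx]
      exact mul_mem (Subgroup.mem_zpowers x) (Subgroup.mem_zpowers x)
    · exact Subgroup.mem_zpowers x
    · rw [Subgroup.zpowers_le]
      exact Subgroup.subset_closure (Or.inr rfl)
    · intro k hk
      obtain ⟨i, rfl⟩ := Subgroup.mem_zpowers_iff.1 hk
      have hc : Commute x (z ^ i) := (show Commute x z from hxz.symm).zpow_right i
      rw [hc.eq, mul_assoc, mul_inv_cancel, mul_one]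
      exact hk
    · rw [hxx]
      exact Subgroup.mem_zpowers z
    · intro k hk
      obtain ⟨i, rfl⟩ := Subgroup.mem_zpowers_iff.1 hk
      have hc : Commute x (z ^ i) := (show Commute x z from hxz.symm).zpow_right i
      have h1 : z ^ i * z ^ i = 1 := by
        rw [← (Commute.refl z).mul_zpow, hzz, one_zpow]
      calc z ^ i * x * (z ^ i * x) = z ^ i * (x * z ^ i) * x := by group
        _ = z ^ i * (z ^ i * x) * x := by rw [hc.eq]
        _ = z ^ i * z ^ i * (x * x) := by group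
        _ = z := by rw [h1, one_mul, hxx]
    · exact hxz
  obtain ⟨-, -, h3, h4, h5⟩ := hH.arith hf hN hct ha
  exact ⟨h3, h4, h5⟩

include h in
theorem quat_half {x y z : P} (hxx : x * x = z) (hyy : y * y = z)
    (hyx : y * x * y⁻¹ = x⁻¹) (L : Subgroup P) (hx : x ∈ L) (hy : y ∈ L)
    (hL : L ≤ Subgroup.closure {x, y}) :
    Half face (fun n => act y n) (EK act z (Subgroup.zpowers x)) (EK act z L) := by
  have hk1 : ∀ i : ℤ, y * x ^ i * y⁻¹ = (x ^ i)⁻¹ := by
    intro i
    have h1 : y * x ^ i * y⁻¹ = (y * x * y⁻¹) ^ i := by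
      rw [conj_zpow]
    rw [h1, hyx, inv_zpow]
  apply EK_half h z y
  · rw [Subgroup.zpowers_le]
    exact hx
  · exact hy
  · refine hL.trans ?_
    rw [Subgroup.closure_le]
    rintro q (rfl | hq)
    · exact Subgroup.subset_closure (Or.inl (Subgroup.mem_zpowers q))
    · exact Subgroup.subset_closure (Or.inr hq)
  · intro k hk
    obtain ⟨i, rfl⟩ := Subgroup.mem_zpowers_iff.1 hk
    rw [hk1]
    exact Subgroup.inv_mem _ hk
  · rw [hyy, ← hxx]
    exact mul_mem (Subgroup.mem_zpowers x) (Subgroup.mem_zpowers x)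
  · intro k hk
    obtain ⟨i, rfl⟩ := Subgroup.mem_zpowers_iff.1 hk
    calc x ^ i * y * (x ^ i * y) = x ^ i * (y * x ^ i * y⁻¹) * (y * y) := by group
      _ = z := by rw [hk1, mul_inv_cancel, one_mul, hyy]
  · rw [← hyy, mul_assoc]

include hf hN in
/-- **The quaternion group.** -/
theorem step_quat {x y z : P} (hzz : z * z = 1) (hxx : x * x = z) (hyy : y * y = z)
    (hyx : y * x * y⁻¹ = x⁻¹) {c t : ℕ} (hct : c < t)
    (ha : ∀ n, hSub (EK_d h z (Subgroup.zpowers z)) n = if c ≤ n ∧ n < t then 1 else 0) :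
    c + 4 ≤ t := by
  have : Fact (Nat.Prime 2) := ⟨Nat.prime_two⟩
  obtain ⟨hx1, hx2, hx3⟩ := step_four h hf hN hzz hxx hct ha
  by_contra hlt
  have ht : t = c + 2 := by omega
  have hxi : x⁻¹ = z * x := by
    rw [inv_eq_iff_mul_eq_one, ← hxx]
    calc x * (x * x * x) = (x * x) * (x * x) := by group
      _ = 1 := by rw [hxx, hzz]
  have hyi : y⁻¹ = z * y := by
    rw [inv_eq_iff_mul_eq_one, ← hyy]
    calc y * (y * y * y) = (y * y) * (y * y) := by group
      _ = 1 := by rw [hyy, hzz]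
  have hzx : z * x = x * z := by rw [← hxx, mul_assoc]
  have hzy : z * y = y * z := by rw [← hyy, mul_assoc]
  have hyx' : y * x = x⁻¹ * y := by
    rw [← hyx]
    group
  -- `y x = x⁻¹ y` gives `x y x⁻¹ = y⁻¹`
  have hxy : x * y * x⁻¹ = y⁻¹ := by
    have h1 : x * y = y * x⁻¹ := by
      have h2 : y * x⁻¹ * y⁻¹ = x := by
        have h3 : (y * x * y⁻¹)⁻¹ = x := by rw [hyx, inv_inv]
        calc y * x⁻¹ * y⁻¹ = (y * x * y⁻¹)⁻¹ := by group
          _ = x := h3
      calc x * y = (y * x⁻¹ * y⁻¹) * y := by rw [h2]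
        _ = y * x⁻¹ := by group
    calc x * y * x⁻¹ = y * (x⁻¹ * x⁻¹) := by rw [h1]; group
      _ = y * (x * x)⁻¹ := by group
      _ = y * z := by rw [hxx, inv_eq_of_mul_eq_one_left hzz]
      _ = y⁻¹ := by rw [hyi, hzy]
  have hww : x * y * (x * y) = z := by
    calc x * y * (x * y) = (x * y * x⁻¹) * (x * x) * y := by group
      _ = y⁻¹ * (z * y) := by rw [hxy, hxx]; group
      _ = y⁻¹ * (y * z) := by rw [hzy]
      _ = z := by group
  have hxw : x * (x * y) * x⁻¹ = (x * y)⁻¹ := by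
    calc x * (x * y) * x⁻¹ = x * (x * y * x⁻¹) := by group
      _ = x * y⁻¹ := by rw [hxy]
      _ = x * (y * z) := by rw [hyi, hzy]
      _ = (x * y) * z := by group
      _ = (x * y)⁻¹ := by
        rw [eq_comm, inv_eq_iff_mul_eq_one]
        calc x * y * (x * y * z) = (x * y * (x * y)) * z := by group
          _ = 1 := by rw [hww, hzz]
  obtain ⟨-, -, hy3⟩ := step_four h hf hN hzz hyy hct ha
  obtain ⟨-, -, hw3⟩ := step_four h hf hN hzz hww hct ha
  have ax := hx3 ht
  have ay := hy3 ht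
  have aw := hw3 ht
  set L := Subgroup.closure ({x, y} : Set P) with hLdef
  have hxL : x ∈ L := Subgroup.subset_closure (by simp)
  have hyL : y ∈ L := Subgroup.subset_closure (by simp)
  have Hx := quat_half h hxx hyy hyx L hxL hyL le_rfl
  have Hy := quat_half h hyy hxx hxy L hyL hxL (by rw [Set.pair_comm])
  have Hw := quat_half h hww hxx hxw L (mul_mem hxL hyL) hxL (by
    rw [hLdef, Subgroup.closure_le]
    rintro q (rfl | hq)
    · exact Subgroup.subset_closure (by simp)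
    · rw [Set.mem_singleton_iff] at hq
      subst hq
      have h1 : q = x⁻¹ * (x * q) := by group
      rw [h1]
      exact mul_mem (inv_mem (Subgroup.subset_closure (by simp)))
        (Subgroup.subset_closure (by simp)))
  obtain ⟨rx, -, -, -, hx5⟩ := Hx.arith hf hN hct ax
  obtain ⟨ry, -, -, -, -⟩ := Hy.arith hf hN hct ay
  obtain ⟨rw', -, -, -, -⟩ := Hw.arith hf hN hct aw
  have h8 := hx5 ht
  have h8c := h8 c
  rw [if_pos ⟨le_rfl, hct⟩] at h8c
  have h8c1 := h8 (c + 1)
  rw [if_pos ⟨by omega, by omega⟩] at h8c1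
  obtain ⟨u, hu1, hu2⟩ := exists_not_cobound (dSub Hx.dB) (n := c)
    (by rw [show finrank (ZMod 2) (Coh (ZMod 2) (fun n => EK act z L n) (dSub Hx.dB) c) = 1
      from h8c]; exact one_ne_zero)
  obtain ⟨v1, hv1, hv1'⟩ := Hx.surj c u.1 u.2
  obtain ⟨v2, hv2, hv2'⟩ := Hy.surj c u.1 u.2
  have hu0 : altd (ZMod 2) face c u.1 = 0 := congrArg Subtype.val hu1
  -- the coboundaries are invariant
  have hdinv : ∀ (p : P) (v : S c → ZMod 2), (∀ σ, v σ + v (act p c σ) = u.1 σ) →
      ∀ σ, altd (ZMod 2) face c v (act p (c + 1) σ) = altd (ZMod 2) face c v σ := by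
    intro p v hv σ
    have h1 : altd (ZMod 2) face c (fun τ => v τ + v (act p c τ)) σ =
        altd (ZMod 2) face c v σ + altd (ZMod 2) face c v (act p (c + 1) σ) := by
      rw [altd_apply, altd_apply, altd_apply, ← Finset.sum_add_distrib]
      refine Finset.sum_congr rfl fun i _ => ?_
      rw [h.fc]
      ring
    rw [show (fun τ => v τ + v (act p c τ)) = u.1 from funext hv, hu0] at h1
    have h2 : altd (ZMod 2) face c v σ + altd (ZMod 2) face c v (act p (c + 1) σ) =
        altd (ZMod 2) face c v σ + altd (ZMod 2) face c v σ := by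
      rw [zmod2_add_self, ← h1]
      rfl
    exact add_left_cancel h2
  have hd1 : altd (ZMod 2) face c v1 ∈ EK act z L (c + 1) :=
    Hx.mem (c + 1) _ (Hx.dA c v1 hv1) (hdinv y v1 hv1')
  have hd2 : altd (ZMod 2) face c v2 ∈ EK act z L (c + 1) :=
    Hy.mem (c + 1) _ (Hy.dA c v2 hv2) (hdinv x v2 hv2')
  have hc1 : (⟨altd (ZMod 2) face c v1, hd1⟩ : EK act z L (c + 1)) ∉
      cobound (ZMod 2) (fun n => EK act z L n) (dSub Hx.dB) (c + 1) := by
    rintro ⟨w, hw⟩
    exact Hx.delta_inj rx (by rw [ax]; exact if_pos ⟨le_rfl, hct⟩) u hu2 ⟨v1, hv1⟩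
      (Subtype.ext (funext hv1')) w (congrArg Subtype.val hw).symm
  have hc2 : (⟨altd (ZMod 2) face c v2, hd2⟩ : EK act z L (c + 1)) ∉
      cobound (ZMod 2) (fun n => EK act z L n) (dSub Hx.dB) (c + 1) := by
    rintro ⟨w, hw⟩
    exact Hy.delta_inj ry (by rw [ay]; exact if_pos ⟨le_rfl, hct⟩) u hu2 ⟨v2, hv2⟩
      (Subtype.ext (funext hv2')) w (congrArg Subtype.val hw).symm
  have h3 := one_dim (dSub Hx.dB) (n := c + 1) h8c1
    (x := ⟨altd (ZMod 2) face c v1, hd1⟩) (y := ⟨altd (ZMod 2) face c v2, hd2⟩)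
    (Subtype.ext (altd_altd face hf c v1)) (Subtype.ext (altd_altd face hf c v2)) hc1 hc2
  obtain ⟨w, hw⟩ := h3
  have hw' : altd (ZMod 2) face c w.1 = altd (ZMod 2) face c v1 - altd (ZMod 2) face c v2 :=
    congrArg Subtype.val hw
  -- the third cochain
  have e1 : ∀ σ, v1 (act x c σ) = v1 σ := hv1.1 x (Subgroup.mem_zpowers x)
  have e2 : ∀ σ, v2 (act y c σ) = v2 σ := hv2.1 y (Subgroup.mem_zpowers y)
  have e1' : ∀ σ, v1 (act y c σ) = v1 σ + u.1 σ := fun σ => by
    rw [← hv1' σ, ← add_assoc, zmod2_add_self, zero_add]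
  have e2' : ∀ σ, v2 (act x c σ) = v2 σ + u.1 σ := fun σ => by
    rw [← hv2' σ, ← add_assoc, zmod2_add_self, zero_add]
  have hv3 : (fun σ => v1 σ + v2 σ) ∈ EK act z (Subgroup.zpowers (x * y)) c := by
    refine ⟨?_, ?_⟩
    · intro k hk
      rw [Subgroup.zpowers_eq_closure] at hk
      refine Subgroup.closure_induction (p := fun l _ => ∀ σ, v1 (act l c σ) +
        v2 (act l c σ) = v1 σ + v2 σ) ?_ ?_ ?_ ?_ hk
      · intro q hq σ
        rw [Set.mem_singleton_iff] at hq
        rw [hq, h.mul, e1, e1', e2', e2, u.2.1 y hyL]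
        have h9 := zmod2_add_self (u.1 σ)
        linear_combination h9
      · intro σ
        rw [h.one]
      · intro a b _ _ iha ihb σ
        rw [h.mul, iha, ihb]
      · intro a _ iha σ
        rw [← iha (act a⁻¹ c σ), ← h.mul, mul_inv_cancel, h.one]
    · intro σ hσ
      change v1 σ + v2 σ = 0
      rw [hv1.2 σ hσ, hv2.2 σ hσ, add_zero]
  refine Hw.delta_inj rw' (by rw [aw]; exact if_pos ⟨le_rfl, hct⟩) u hu2
    ⟨fun σ => v1 σ + v2 σ, hv3⟩ ?_ w ?_
  · apply Subtype.ext
    funext σ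
    change v1 σ + v2 σ + (v1 (act x c σ) + v2 (act x c σ)) = u.1 σ
    rw [e1, e2']
    have h9 := zmod2_add_self (v1 σ)
    have h10 := zmod2_add_self (v2 σ)
    linear_combination h9 + h10
  · change altd (ZMod 2) face c (fun σ => v1 σ + v2 σ) = altd (ZMod 2) face c w.1
    rw [hw']
    have h11 : (fun σ => v1 σ + v2 σ) = v1 + v2 := rfl
    rw [h11, map_add]
    funext σ
    change altd (ZMod 2) face c v1 σ + altd (ZMod 2) face c v2 σ =
      altd (ZMod 2) face c v1 σ - altd (ZMod 2) face c v2 σ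
    have h9 := zmod2_add_self (altd (ZMod 2) face c v2 σ)
    linear_combination h9

end quat

end

end Pool.Agent.V7H7.SZ
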