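import Pool.Agent.V7H7.SZ.Borel

/-! The rank in the exact sequence vanishes, and the formula of Borel. -/

set_option autoImplicit false
set_option linter.unusedSectionVars false

namespace Pool.Agent.V7H7.SZ

open Module Pool.Agent.Helper381

universe u v w

section

variable {k : Type u} [Field k]
variable {C : ℕ → Type v} [∀ n, AddCommGroup (C n)] [∀ n, Module k (C n)]
  [∀ n, FiniteDimensional k (C n)] (d : ∀ n, C n →ₗ[k] C (n + 1))

theorem mem_cobound_of_coh_zero {n : ℕ} (h : finrank k (Coh k C d n) = 0) {x : C n}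
    (hx : d n x = 0) : x ∈ cobound k C d n := by
  have h1 : Subsingleton (Coh k C d n) := finrank_zero_iff.1 h
  have h2 : (Submodule.Quotient.mk (⟨x, hx⟩ : LinearMap.ker (d n)) : Coh k C d n) = 0 :=
    Subsingleton.elim _ _
  have h3 := (Submodule.Quotient.mk_eq_zero
    ((cobound k C d n).comap (LinearMap.ker (d n)).subtype)).1 h2
  exact h3

theorem finrank_ker_zero (hd : ∀ n x, d (n + 1) (d n x) = 0) :
    finrank k (LinearMap.ker (d 0)) = finrank k (Coh k C d 0) := by
  have h1 := finrank_coh d hd 0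
  have h2 := (d 0).finrank_range_add_finrank_ker
  rw [rkb_zero] at h1
  omega

end

theorem zmod2_cases (x : ZMod 2) : x = 0 ∨ x = 1 := by
  revert x; decide

section

variable {S : ℕ → Type v} {face : ∀ n, Fin (n + 2) → S (n + 1) → S n}
  {γ η : ∀ n, S n → S n} [∀ n, Finite (S n)]

theorem Gsub_symm (hc : ∀ n σ, γ n (η n σ) = η n (γ n σ)) (n : ℕ) {u : S n → ZMod 2}
    (hu : u ∈ Gsub γ η n) : u ∈ Gsub η γ n := by
  obtain ⟨⟨h1, h2⟩, h3, h4, h5⟩ := hu
  exact ⟨⟨h3, h4⟩, h1, h2, fun σ hσ => h5 σ (by rw [← hc]; exact hσ)⟩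

theorem rank_step (hf : FF face) (hγ : Invol face γ) (hη : Invol face η)
    (hc : ∀ n σ, γ n (η n σ) = η n (γ n σ)) {a : ℕ} (ha : IsSph face a) {n : ℕ} (hn : n + 1 < a)
    (u : Gsub γ η n) (hu : dG hγ hη n u = 0)
    (hnu : Submodule.inclusion (Gsub_le (γ := γ) (η := η) n) u ∉
      cobound (ZMod 2) (fun n => Isub γ n) (dE face γ hγ.gf) n) :
    ∃ u' : Gsub γ η (n + 1), dG hγ hη (n + 1) u' = 0 ∧
      Submodule.inclusion (Gsub_le (γ := γ) (η := η) (n + 1)) u' ∉
      cobound (ZMod 2) (fun n => Isub γ n) (dE face γ hγ.gf) (n + 1) := by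
  classical
  have : Fact (Nat.Prime 2) := ⟨Nat.prime_two⟩
  obtain ⟨c, hc1, hc2, hc3⟩ := exists_half hη hγ (fun n σ => (hc n σ).symm) n u.1
    (Gsub_symm hc n u.2)
  obtain ⟨⟨h1, h2⟩, h3, h4, h5⟩ := u.2
  have hu0 : altd (ZMod 2) face n u.1 = 0 := congrArg Subtype.val hu
  have hdγ : ∀ (w : S n → ZMod 2) σ, altd (ZMod 2) face n (fun τ => w τ + w (γ n τ)) σ =
      altd (ZMod 2) face n w σ + altd (ZMod 2) face n w (γ (n + 1) σ) := by
    intro w σ
    rw [altd_apply, altd_apply, altd_apply, ← Finset.sum_add_distrib]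
    refine Finset.sum_congr rfl fun i _ => ?_
    rw [hγ.gf]
    ring
  have hcu : (fun τ => c τ + c (γ n τ)) = u.1 := funext hc2
  have hinvγ : ∀ σ, altd (ZMod 2) face n c (γ (n + 1) σ) = altd (ZMod 2) face n c σ := by
    intro σ
    have h6 := hdγ c σ
    rw [hcu, hu0] at h6
    have h7 : altd (ZMod 2) face n c σ + altd (ZMod 2) face n c (γ (n + 1) σ) =
        altd (ZMod 2) face n c σ + altd (ZMod 2) face n c σ := by
      rw [zmod2_add_self, ← h6]; rfl
    exact add_left_cancel h7
  have hinvη : ∀ σ, altd (ZMod 2) face n c (η (n + 1) σ) = altd (ZMod 2) face n c σ := by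
    intro σ
    rw [altd_apply, altd_apply]
    refine Finset.sum_congr rfl fun i _ => ?_
    rw [← hη.gf, hc1]
  have hz : ∀ σ, (∀ i, u.1 (face n i σ) = 0) → altd (ZMod 2) face n c σ = 0 := by
    intro σ h6
    rw [altd_apply]
    apply Finset.sum_eq_zero
    intro i _
    rw [hc3 _ (h6 i), mul_zero]
  refine ⟨⟨altd (ZMod 2) face n c, ⟨hinvγ, fun σ hσ => hz σ fun i => h2 _ ?_⟩, hinvη,
    fun σ hσ => hz σ fun i => h4 _ ?_, fun σ hσ => hz σ fun i => h5 _ ?_⟩, ?_, ?_⟩
  · rw [hγ.gf, hσ]
  · rw [hη.gf, hσ]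
  · rw [hγ.gf, hη.gf, hσ]
  · apply Subtype.ext
    exact altd_altd face hf n c
  · rintro ⟨v, hv⟩
    have hv' : altd (ZMod 2) face n v.1 = altd (ZMod 2) face n c := congrArg Subtype.val hv
    let w : S n → ZMod 2 := c - v.1
    have hw : altd (ZMod 2) face n w = 0 := by
      change altd (ZMod 2) face n (c - v.1) = 0
      rw [map_sub, hv', sub_self]
    have hwu : ∀ σ, w σ + w (γ n σ) = u.1 σ := by
      intro σ
      change (c σ - v.1 σ) + (c (γ n σ) - v.1 (γ n σ)) = u.1 σ
      rw [v.2.1, ← hc2 σ]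
      have h8 := zmod2_add_self (v.1 σ)
      linear_combination -h8
    apply hnu
    cases n with
    | zero =>
      have h6 : finrank (ZMod 2) (LinearMap.ker (altd (ZMod 2) face 0)) = 1 := by
        rw [finrank_ker_zero (C := fun n => S n → ZMod 2) (fun n => altd (ZMod 2) face n)
          (fun n x => altd_altd face hf n x)]
        have h7 := ha 0
        rw [bs_zero, if_neg (by omega), if_neg (by omega)] at h7
        exact h7
      have hw' : altd (ZMod 2) face 0 (fun σ => w (γ 0 σ)) = 0 := by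
        funext σ
        have h8 := congrFun hw (γ 1 σ)
        have h9 : (0 : S 1 → ZMod 2) σ = (0 : S 1 → ZMod 2) (γ 1 σ) := rfl
        rw [h9, ← h8, altd_apply, altd_apply]
        refine Finset.sum_congr rfl fun i _ => ?_
        rw [hγ.gf]
      obtain ⟨t, ht0, ht⟩ := finrank_eq_one_iff'.1 h6
      have hu00 : u.1 = 0 := by
        obtain ⟨c1, h9⟩ := ht ⟨w, hw⟩
        obtain ⟨c2, h10⟩ := ht ⟨fun σ => w (γ 0 σ), hw'⟩
        rcases zmod2_cases c1 with h11 | h11
        · rw [h11, zero_smul] at h9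
          have h12 : w = 0 := (congrArg Subtype.val h9).symm
          funext σ
          rw [← hwu σ, h12]
          exact add_zero _
        · rcases zmod2_cases c2 with h13 | h13
          · rw [h13, zero_smul] at h10
            have h12 : (fun σ => w (γ 0 σ)) = 0 := (congrArg Subtype.val h10).symm
            have h14 : w = 0 := by
              funext σ
              have h15 := congrFun h12 (γ 0 σ)
              change w (γ 0 (γ 0 σ)) = 0 at h15
              rw [hγ.gg] at h15
              exact h15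
            funext σ
            rw [← hwu σ, h14]
            exact add_zero _
          · rw [h11, one_smul] at h9
            rw [h13, one_smul] at h10
            have h14 : w = fun σ => w (γ 0 σ) := by
              rw [h9] at h10
              exact congrArg Subtype.val h10
            funext σ
            rw [← hwu σ]
            have h15 := congrFun h14 σ
            change w σ = w (γ 0 σ) at h15
            rw [← h15]
            exact zmod2_add_self _
      have h16 : u = 0 := Subtype.ext hu00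
      rw [h16, map_zero]
      exact Submodule.zero_mem _
    | succ k =>
      have h6 : hS face (k + 1) = 0 := by
        rw [ha, bs_pos a (k + 1) (by omega), if_neg (by omega)]
      have h7 := mem_cobound_of_coh_zero (C := fun n => S n → ZMod 2)
        (fun n => altd (ZMod 2) face n) h6 hw
      obtain ⟨x, hx⟩ := h7
      have hx' : altd (ZMod 2) face k x = w := hx
      refine ⟨smE γ hγ.gg k x, ?_⟩
      apply Subtype.ext
      funext σ
      change altd (ZMod 2) face k (fun τ => x τ + x (γ k τ)) σ = u.1 σ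
      rw [← hwu σ, ← hx', altd_apply, altd_apply, altd_apply, ← Finset.sum_add_distrib]
      refine Finset.sum_congr rfl fun i _ => ?_
      rw [hγ.gf]
      ring

theorem rk_ne_zero (hγ : Invol face γ) (hη : Invol face η) (n : ℕ) :
    rk hγ hη n ≠ 0 ↔ ∃ u : Gsub γ η n, dG hγ hη n u = 0 ∧
      Submodule.inclusion (Gsub_le (γ := γ) (η := η) n) u ∉
      cobound (ZMod 2) (fun n => Isub γ n) (dE face γ hγ.gf) n := by
  unfold rk
  rw [Ne, rho_eq_zero_iff]
  push Not
  rfl

theorem rk_le_hE (hf : FF face) (hγ : Invol face γ) (hη : Invol face η) (n : ℕ) :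
    rk hγ hη n ≤ hE face γ hγ.gf n :=
  rho_le_B (dG hγ hη) (dE face γ hγ.gf) (fun n => Submodule.inclusion (Gsub_le (γ := γ) (η := η) n))
    (fun _ => Submodule.inclusion_injective _) (fun _ _ => rfl) (dE_dE hf hγ) n

theorem rk_le_hG (hf : FF face) (hγ : Invol face γ) (hη : Invol face η) (n : ℕ) :
    rk hγ hη n ≤ hG hγ hη n :=
  rho_le_A (dG hγ hη) (dE face γ hγ.gf) (fun n => Submodule.inclusion (Gsub_le (γ := γ) (η := η) n))
    (fun _ => Submodule.inclusion_injective _) (fun _ _ => rfl) (dG_dG hf hγ hη)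
    (dE_dE hf hγ) n

theorem rk_zero_eq (hf : FF face) (hγ : Invol face γ) (hη : Invol face η) :
    rk hγ hη 0 = hG hγ hη 0 :=
  rho_zero (dG hγ hη) (dE face γ hγ.gf) (fun n => Submodule.inclusion (Gsub_le (γ := γ) (η := η) n))
    (fun _ => Submodule.inclusion_injective _) (fun _ _ => rfl) (dG_dG hf hγ hη)
    (dE_dE hf hγ)

theorem sum_interval {c a N : ℕ} (haN : a ≤ N) :
    (∑ n ∈ Finset.range N, if c ≤ n ∧ n < a then 1 else 0) = a - c := by
  rw [← Finset.card_filter]
  have : (Finset.range N).filter (fun n => c ≤ n ∧ n < a) = Finset.Ico c a := by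
    ext n
    simp only [Finset.mem_filter, Finset.mem_range, Finset.mem_Ico]
    omega
  rw [this, Nat.card_Ico]

theorem IsSph.le {a : ℕ} (ha : ∀ n, hS face n = bs a n) {N : ℕ}
    (hN : ∀ n, N ≤ n → IsEmpty (S n)) :
    a ≤ N := by
  by_contra hlt
  have h1 := hN (a - 1) (by omega)
  have h2 := ha (a - 1)
  have h3 : hS face (a - 1) = 0 := by
    have : Fact (Nat.Prime 2) := ⟨Nat.prime_two⟩
    exact finrank_coh_top (C := fun n => S n → ZMod 2) (fun n => altd (ZMod 2) face n) (a - 1)
      (finrank_zero_of_subsingleton)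
  rw [h3] at h2
  unfold bs at h2
  rw [if_pos (show a - 1 + 1 = a by omega)] at h2
  omega

variable {F : ℕ → Type v} {faceF : ∀ n, Fin (n + 2) → F (n + 1) → F n} [∀ n, Finite (F n)]
  {γF : ∀ n, F n → F n} {ι : ∀ n, F n → S n}
  {K : ℕ → Type v} {faceK : ∀ n, Fin (n + 2) → K (n + 1) → K n} [∀ n, Finite (K n)]
  {γK : ∀ n, K n → K n} {κ : ∀ n, K n → S n}

/-- **The formula of Borel.** -/
theorem borel_formula (hf : FF face) (hγ : Invol face γ) (hη : Invol face η)
    (hc : ∀ n σ, γ n (η n σ) = η n (γ n σ)) (hF : SubS face γ faceF γF ι)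
    (hK : SubS face γ faceK γK κ) (hFfix : ∀ n σ, η n σ = σ ↔ ∃ x, ι n x = σ)
    (hKfix : ∀ n σ, η n (γ n σ) = σ ↔ ∃ x, κ n x = σ) {N : ℕ}
    (hN : ∀ n, N ≤ n → IsEmpty (S n)) {a c aF cF aK cK : ℕ} (ha : IsSph face a)
    (he : ∀ n, hE face γ hγ.gf n = if c ≤ n ∧ n < a then 1 else 0)
    (hFE : ∀ n, hE faceF γF (hF.invol hγ).gf n = if cF ≤ n ∧ n < aF then 1 else 0)
    (hKE : ∀ n, hE faceK γK (hK.invol hγ).gf n = if cK ≤ n ∧ n < aK then 1 else 0)
    (haF : aF ≤ a) (haK : aK ≤ a) :
    (aF - cF) + (aK - cK) = a - c := by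
  have les := borel_les hf hγ hη hc hF hK hFfix hKfix
  have hGN : ∀ n, N ≤ n → hG hγ hη n = 0 := by
    intro n hn
    have : Fact (Nat.Prime 2) := ⟨Nat.prime_two⟩
    apply finrank_coh_top
    have := hN n hn
    have : Subsingleton (Gsub γ η n) := by
      constructor
      intro a b
      apply Subtype.ext
      funext σ
      exact (IsEmpty.false σ).elim
    exact Module.finrank_zero_of_subsingleton
  have hGa' : ∀ k n, N ≤ n + k → a ≤ n → hG hγ hη n = 0 := by
    intro k
    induction k with
    | zero => intro n h1 _; exact hGN n (by omega)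
    | succ k ih =>
      intro n h1 h2
      have h3 := ih (n + 1) (by omega) (by omega)
      have h4 := les n
      rw [he n, if_neg (by omega)] at h4
      omega
  have hGa : ∀ n, a ≤ n → hG hγ hη n = 0 := fun n h => hGa' N n (by omega) h
  have hrk : ∀ n, rk hγ hη n = 0 := by
    by_contra hcon
    push Not at hcon
    obtain ⟨n, hn⟩ := hcon
    have hna : n < a := by
      by_contra h
      have h1 := rk_le_hE hf hγ hη n
      rw [he n, if_neg (by omega)] at h1
      omega
    have hup : ∀ k, n + k < a → rk hγ hη (n + k) ≠ 0 := by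
      intro k
      induction k with
      | zero => intro _; exact hn
      | succ k ih =>
        intro hk
        have h1 := ih (by omega)
        rw [rk_ne_zero] at h1
        obtain ⟨u, hu1, hu2⟩ := h1
        have h2 := rank_step hf hγ hη hc ha (by omega) u hu1 hu2
        exact (rk_ne_zero hγ hη (n + k + 1)).2 h2
    have h1 := hup (a - 1 - n) (by omega)
    have h2 : n + (a - 1 - n) = a - 1 := by omega
    rw [h2] at h1
    have h3 := les (a - 1)
    have h4 := rk_le_hG hf hγ hη (a - 1)
    have h5 := hGa (a - 1 + 1) (by omega)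
    have h6 : hE face γ hγ.gf (a - 1) ≤ 1 := by
      rw [he]
      split_ifs <;> omega
    omega
  have hG0 : hG hγ hη 0 = 0 := by rw [← rk_zero_eq hf hγ hη, hrk]
  have haN : a ≤ N := IsSph.le ha hN
  have hsum : ∀ M, (∑ n ∈ Finset.range M, hE faceF γF (hF.invol hγ).gf n) +
      (∑ n ∈ Finset.range M, hE faceK γK (hK.invol hγ).gf n) =
      (∑ n ∈ Finset.range M, hE face γ hγ.gf n) + hG hγ hη M := by
    intro M
    induction M with
    | zero => simp [hG0]
    | succ M ih =>
      rw [Finset.sum_range_succ, Finset.sum_range_succ, Finset.sum_range_succ]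
      have h1 := les M
      rw [hrk, hrk] at h1
      omega
  have h1 := hsum N
  rw [hGa N haN, add_zero] at h1
  simp only [he, hFE, hKE] at h1
  rw [sum_interval haN, sum_interval (haF.trans haN), sum_interval (haK.trans haN)] at h1
  exact h1

end

end Pool.Agent.V7H7.SZ
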