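import Pool.Agent.V7H7.SZ.Wlb
import Pool.Agent.V7H7.SZ.Geom
import Pool.Agent.V7H7.SZ.Def
import Pool.Agent.H185.ZM.FI

/-! Smooth actions of finite groups on mod 2 homology spheres. -/

set_option autoImplicit false
set_option linter.unusedSectionVars false

namespace Pool.Agent.V7H7.SZ

open scoped Manifold ContDiff
open Module Pool.Agent.Helper381 Pool.Agent.H185.ZM

section coset

variable {Γ : Type} [Group Γ] {P : Type} [Group P] [Finite P]

/-- a 2-group has a fixed coset -/
theorem exists_coset (Γ' : Subgroup Γ) (hodd : ¬ 2 ∣ Γ'.index) (hP : IsPGroup 2 P)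
    (φ : P →* Γ) : ∃ γ : Γ, ∀ p : P, γ⁻¹ * φ p * γ ∈ Γ' := by
  have : Fact (Nat.Prime 2) := ⟨Nat.prime_two⟩
  let _ : MulAction P (Γ ⧸ Γ') := MulAction.compHom _ φ
  obtain ⟨x, hx⟩ := hP.nonempty_fixed_point_of_prime_not_dvd_card (Γ ⧸ Γ') hodd
  induction x using QuotientGroup.induction_on with
  | _ γ =>
    refine ⟨γ, fun p => ?_⟩
    have h1 : ((φ p * γ : Γ) : Γ ⧸ Γ') = (γ : Γ ⧸ Γ') := hx p
    have h2 := QuotientGroup.eq.1 h1.symm
    rwa [← mul_assoc] at h2

/-- the homomorphism into the conjugate -/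
def cjf (Γ' : Subgroup Γ) (φ : P →* Γ) (γ : Γ) (h : ∀ p, γ⁻¹ * φ p * γ ∈ Γ') : P →* Γ' where
  toFun p := ⟨γ⁻¹ * φ p * γ, h p⟩
  map_one' := Subtype.ext (by simp)
  map_mul' x y := Subtype.ext (by simp [mul_assoc])

end coset

variable {E : Type} [NormedAddCommGroup E] [NormedSpace ℝ E] [FiniteDimensional ℝ E]
  {M : Type} [TopologicalSpace M] [ChartedSpace E M] [IsManifold 𝓘(ℝ, E) ∞ M]

/-- **The model.** -/
theorem smooth_model [CompactSpace M] [T2Space M] [ConnectedSpace M]
    (hM : Mod2Sphere M (finrank ℝ E)) (hm : 0 < finrank ℝ E) {P : Type} [Group P] [Finite P]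
    {a : P → M → M} (ha : SmoothAction E a) :
    ∃ (S : ℕ → Type) (face : ∀ n, Fin (n + 2) → S (n + 1) → S n) (_ : ∀ n, Finite (S n))
      (act : P → ∀ n, S n → S n) (Mo : Mod face act), nu Mo.h ∅ = finrank ℝ E + 1 ∧
      ∀ p : P, p * p = 1 → nu Mo.h {p} = finrank ℝ E + 1 → ∀ x, a p x = x := by
  have : Fact (Nat.Prime 2) := ⟨Nat.prime_two⟩
  obtain ⟨W, _, _, _, F, T, hF⟩ := exists_equi ha
  let g := hF.metric
  obtain ⟨R, G⟩ := Q145.TN.exists_geo g
  let _ := Q145.TN.mS g
  let b : P →* (M ≃ᵢ M) :=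
    { toFun := fun p =>
        { toFun := a p
          invFun := a p⁻¹
          left_inv := fun x => by rw [← ha.mul, inv_mul_cancel, ha.one]
          right_inv := fun x => by rw [← ha.mul, mul_inv_cancel, ha.one]
          isometry_toFun := fun x y => by
            show (Q145.TN.mS g).toPseudoMetricSpace.toPseudoEMetricSpace.edist _ _ =
              (Q145.TN.mS g).toPseudoMetricSpace.toPseudoEMetricSpace.edist _ _
            rw [Q145.TN.edist_mS, Q145.TN.edist_mS]
            exact hF.dist_eq ha p x y }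
      map_one' := by
        ext x
        exact ha.one x
      map_mul' := fun p q => by
        ext x
        exact ha.mul p q x }
  have : Nonempty M := inferInstance
  obtain ⟨m, hm'⟩ : ∃ m, finrank ℝ E = m + 1 := ⟨finrank ℝ E - 1, by omega⟩
  have hS2 : ∀ n, finrank (ZMod 2) (SingCoh (ZMod 2) M n) = bs (m + 2) n := by
    intro n
    rw [← finrank_singularCohomology, hM.coh n, hm']
    unfold bs
    by_cases h0 : n = 0
    · subst h0
      simp
    · by_cases h1 : n = m + 1
      · subst h1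
        simp
      · rw [if_neg h0, if_neg h1, if_neg (by omega), if_neg (by omega)]
  have hpt : ∀ y : M, Subsingleton (SingCoh (ZMod 2) {x : M // x ≠ y} (m + 1)) := by
    intro y
    obtain ⟨e⟩ := singEquiv (ZMod 2) {x : M // x ≠ y} (m + 1)
    have h1 := hM.pt y
    rw [hm'] at h1
    exact e.symm.toEquiv.subsingleton
  obtain ⟨S, face, hfin, act, h, hf, N, hN, hs, htriv⟩ := exists_model_iso G b m hS2 hpt
  refine ⟨S, face, hfin, act, ⟨h, hf, ⟨N, hN⟩, ⟨_, hs⟩⟩, ?_, ?_⟩
  · rw [nu_eq h hs, hm']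
  · intro p hpp hp x
    have h1 : ElAb ({p} : Set P) := by
      refine ⟨fun q hq => ?_, fun q hq r hr => ?_⟩
      · rw [Set.mem_singleton_iff] at hq
        rw [hq]
        exact hpp
      · rw [Set.mem_singleton_iff] at hq hr
        rw [hq, hr]
    have h2 := (⟨h, hf, ⟨N, hN⟩, ⟨_, hs⟩⟩ : Mod face act).isSph h1
    rw [hp, hm'] at h2
    exact htriv p hpp h2 x

end Pool.Agent.V7H7.SZ
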