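import Pool.Agent.V7H7.SZ.Sm

/-! Weights of smooth actions on mod 2 homology spheres. -/

set_option autoImplicit false
set_option linter.unusedSectionVars false

namespace Pool.Agent.V7H7.SZ

open scoped Manifold ContDiff
open Module Pool.Agent.Helper381 Pool.Agent.H185.ZM

universe u v w

/-- The type of an element `p` relative to the set `C`: `1` always; `2` if it is the square of an
element which commutes with `C`; `4` if it is the square of two elements `x`, `y` which
commute with `C` and satisfy `y x y⁻¹ = x⁻¹`. -/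
def LB {P : Type w} [Group P] (p : P) (C : Set P) (δ : ℕ) : Prop :=
  δ = 1 ∨ (δ = 2 ∧ ∃ x : P, x * x = p ∧ ∀ q ∈ C, x * q = q * x) ∨
    (δ = 4 ∧ ∃ x y : P, x * x = p ∧ y * y = p ∧ y * x * y⁻¹ = x⁻¹ ∧
      (∀ q ∈ C, x * q = q * x) ∧ ∀ q ∈ C, y * q = q * y)

section

variable {S : ℕ → Type v} {face : ∀ n, Fin (n + 2) → S (n + 1) → S n}
  {P : Type w} [Group P] {act : P → ∀ n, S n → S n} [∀ n, Finite (S n)] [Finite P]

theorem Mod.lb (M : Mod face act) {A C : Set P} {z : P} (hA : ElAb (insert z A)) {δ : ℕ}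
    (h : LB z C δ) (hAC : A ⊆ C) (hne : nu M.h (insert z A) ≠ nu M.h A) :
    nu M.h (insert z A) + δ ≤ nu M.h A := by
  rcases h with h | ⟨h, x, h1, h2⟩ | ⟨h, x, y, h1, h2, h3, h4, h5⟩
  · subst h
    have := lt_of_le_of_ne (M.nu_insert_le hA) hne
    omega
  · subst h
    exact M.lb_four hA (fun q hq => h2 q (hAC hq)) h1 hne
  · subst h
    exact M.lb_quat hA (fun q hq => h4 q (hAC hq)) (fun q hq => h5 q (hAC hq)) h1 h2 h3 hne

end

variable {E : Type} [NormedAddCommGroup E] [NormedSpace ℝ E] [FiniteDimensional ℝ E]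
  {M : Type} [TopologicalSpace M] [ChartedSpace E M] [IsManifold 𝓘(ℝ, E) ∞ M]

/-- **The weights of smooth actions.** -/
theorem smooth_weights [CompactSpace M] [T2Space M] [ConnectedSpace M]
    (hM : Mod2Sphere M (finrank ℝ E)) (hm : 0 < finrank ℝ E) {P : Type} [Group P] [Finite P]
    {a : P → M → M} (ha : SmoothAction E a) {ι : Type} [Fintype ι] [DecidableEq ι]
    (φ : Multiplicative (ι → ZMod 2) →* P) {δ : ℕ}
    (hδ : ∀ i, LB (φ (Multiplicative.ofAdd (Pi.single i 1))) (Set.range φ) δ) :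
    ∃ T : Finset (ι → ZMod 2), δ * T.card ≤ finrank ℝ E + 1 ∧
      (∀ w : ι → ZMod 2, (∀ c ∈ T, c ⬝ᵥ w = 0) → ∀ x, a (φ (Multiplicative.ofAdd w)) x = x) ∧
      (∀ c ∈ T, ∀ w : ι → ZMod 2, φ (Multiplicative.ofAdd w) = 1 → c ⬝ᵥ w = 0) ∧
      ∀ (x : P) (σ : (ι → ZMod 2) ≃ (ι → ZMod 2)), (∀ v, x * φ (Multiplicative.ofAdd v) * x⁻¹ =
        φ (Multiplicative.ofAdd (σ v))) → ∀ c c' : ι → ZMod 2, (∀ v, c' ⬝ᵥ σ v = c ⬝ᵥ v) →
        c ∈ T → c' ∈ T := by
  classical
  obtain ⟨S, face, hfin, act, Mo, h0, htriv⟩ := smooth_model hM hm ha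
  let e : ι ≃ Fin (Fintype.card ι) := Fintype.equivFin ι
  let L : (Fin (Fintype.card ι) → ZMod 2) →+ (ι → ZMod 2) :=
    { toFun := fun v i => v (e i)
      map_zero' := rfl
      map_add' := fun _ _ => rfl }
  let φ' : Multiplicative (V2 (Fintype.card ι)) →* P := φ.comp (AddMonoidHom.toMultiplicative L)
  have hφ' : ∀ v, φ' (Multiplicative.ofAdd v) = φ (Multiplicative.ofAdd (L v)) := fun v => rfl
  have hdot : ∀ c v, L c ⬝ᵥ L v = c ⬝ᵥ v := by
    intro c v
    exact Equiv.sum_comp e (fun i => c i * v i)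
  have hsurj : ∀ w : ι → ZMod 2, L (fun j => w (e.symm j)) = w := by
    intro w
    funext i
    change w (e.symm (e i)) = w i
    rw [Equiv.symm_apply_apply]
  have hinj : Function.Injective L := by
    intro v w hvw
    funext j
    have h1 := congrFun hvw (e.symm j)
    change v (e (e.symm j)) = w (e (e.symm j)) at h1
    rwa [Equiv.apply_symm_apply] at h1
  have hrange : Set.range φ' ⊆ Set.range φ := by
    rintro _ ⟨v, rfl⟩
    exact ⟨_, rfl⟩
  obtain ⟨T, hT1, hT2, hT3, hT4⟩ := weights Mo φ' δ (by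
    intro A i hA hne
    have h1 : L (Pi.single i 1) = Pi.single (e.symm i) 1 := by
      funext j
      change (Pi.single i 1 : Fin (Fintype.card ι) → ZMod 2) (e j) = _
      by_cases h : j = e.symm i
      · rw [h, Equiv.apply_symm_apply, Pi.single_eq_same, Pi.single_eq_same]
      · rw [Pi.single_eq_of_ne h, Pi.single_eq_of_ne (fun h' => h (by rw [← h']; simp))]
    have h2 := hδ (e.symm i)
    rw [← h1, ← hφ'] at h2
    refine Mo.lb ?_ h2 (hA.trans hrange) hne
    exact (elAb_range φ').subset (Set.insert_subset ⟨_, rfl⟩ hA))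
  refine ⟨T.image L, ?_, ?_, ?_, ?_⟩
  · rw [Finset.card_image_of_injective _ hinj, ← h0]
    exact hT1
  · intro w hw x
    have h1 := hT2 (fun j => w (e.symm j)) (fun c hc => by
      rw [← hdot, hsurj]
      exact hw _ (Finset.mem_image_of_mem _ hc))
    rw [hφ', hsurj, h0] at h1
    refine htriv _ ?_ h1 x
    rw [← map_mul, ← ofAdd_add]
    have h2 : w + w = 0 := by
      funext i
      exact CharTwo.add_self_eq_zero _
    rw [h2]
    exact map_one φ
  · intro c hc w hw
    obtain ⟨c', hc', rfl⟩ := Finset.mem_image.1 hc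
    rw [← hsurj w, hdot]
    exact hT3 c' hc' _ (by rw [hφ', hsurj]; exact hw)
  · intro x σ hσ c c' hc hcT
    obtain ⟨c1, hc1, rfl⟩ := Finset.mem_image.1 hcT
    let LE : (Fin (Fintype.card ι) → ZMod 2) ≃ (ι → ZMod 2) :=
      { toFun := L
        invFun := fun w j => w (e.symm j)
        left_inv := fun v => hinj (hsurj _)
        right_inv := hsurj }
    have hLE : ∀ w, LE.symm w = fun j => w (e.symm j) := fun w => rfl
    let σ' : V2 (Fintype.card ι) ≃ V2 (Fintype.card ι) := (LE.trans σ).trans LE.symm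
    have hσ' : ∀ v, L (σ' v) = σ (L v) := by
      intro v
      change L (LE.symm (σ (L v))) = σ (L v)
      rw [hLE, hsurj]
    rw [← hsurj c']
    apply Finset.mem_image_of_mem
    refine hT4 x σ' ?_ c1 (fun j => c' (e.symm j)) ?_ hc1
    · intro v
      rw [hφ', hφ', hσ', hσ]
    · intro v
      rw [← hdot, hσ', hsurj, hc, hdot]

/-- Fewer than `n` linear equations have a solution which is not zero. -/
theorem exists_ne_zero {ι : Type} [Fintype ι] [DecidableEq ι] (T : Finset (ι → ZMod 2))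
    (hT : T.card < Fintype.card ι) : ∃ w : ι → ZMod 2, w ≠ 0 ∧ ∀ c ∈ T, c ⬝ᵥ w = 0 := by
  classical
  have h1 : Fintype.card (T → ZMod 2) < Fintype.card (ι → ZMod 2) := by
    rw [Fintype.card_fun, Fintype.card_fun, ZMod.card, Fintype.card_coe]
    exact Nat.pow_lt_pow_right (by norm_num) hT
  obtain ⟨v, w, hvw, h2⟩ := Fintype.exists_ne_map_eq_of_card_lt
    (fun (v : ι → ZMod 2) (c : T) => c.1 ⬝ᵥ v) h1
  refine ⟨v - w, sub_ne_zero.2 hvw, fun c hc => ?_⟩
  have h3 := congrFun h2 ⟨c, hc⟩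
  rw [dotProduct_sub]
  exact sub_eq_zero.2 h3

/-- Fewer than `n - 1` linear equations have a solution which is not constant. -/
theorem exists_nonconst {ι : Type} [Fintype ι] [DecidableEq ι] (T : Finset (ι → ZMod 2))
    (hT : T.card + 1 < Fintype.card ι) : ∃ w : ι → ZMod 2, (∃ i j, w i ≠ w j) ∧
      ∀ c ∈ T, c ⬝ᵥ w = 0 := by
  classical
  have hne : Nonempty ι := Fintype.card_pos_iff.1 (by omega)
  obtain ⟨i⟩ := hne
  obtain ⟨w, hw, h1⟩ := exists_ne_zero (insert (Pi.single i 1) T)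
    (lt_of_le_of_lt (Finset.card_insert_le _ _) hT)
  have h2 : w i = 0 := by
    have := h1 (Pi.single i 1) (Finset.mem_insert_self _ _)
    rwa [single_dotProduct, one_mul] at this
  refine ⟨w, ?_, fun c hc => h1 c (Finset.mem_insert_of_mem hc)⟩
  by_contra hcon
  push Not at hcon
  apply hw
  funext j
  rw [hcon j i, h2]
  rfl

end Pool.Agent.V7H7.SZ
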