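import Pool.Agent.V7H7.SZ.Les
import Pool.Agent.Helper381.Smith

/-! Smith theory for involutions on finite semisimplicial sets with the mod 2 cohomology of a
sphere. -/

set_option autoImplicit false
set_option linter.unusedSectionVars false

namespace Pool.Agent.V7H7.SZ

open Module Pool.Agent.Helper381

universe u v w

/-- the Betti numbers of the sphere of dimension `a - 1` -/
def bs (a n : ℕ) : ℕ := (if n = 0 ∧ 1 ≤ a then 1 else 0) + (if n + 1 = a then 1 else 0)

theorem bs_lt {a c : ℕ} (h : ∀ n, bs a n = bs c n) : ¬ a < c := by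
  intro hac
  have h1 := h (c - 1)
  have h2 : (if c - 1 + 1 = c then 1 else 0) = 1 := if_pos (by omega)
  have h3 : (if c - 1 + 1 = a then 1 else 0) = 0 := if_neg (by omega)
  have h4 : (if c - 1 = 0 ∧ 1 ≤ a then 1 else 0) = 0 := if_neg (by omega)
  unfold bs at h1
  rw [h2, h3, h4] at h1
  omega

theorem bs_unique {a c : ℕ} (h : ∀ n, bs a n = bs c n) : a = c := by
  have h1 := bs_lt h
  have h2 := bs_lt (fun n => (h n).symm)
  omega

theorem bs_zero (a : ℕ) : bs a 0 = if a = 0 then 0 else if a = 1 then 2 else 1 := by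
  unfold bs
  rcases Nat.lt_or_ge a 2 with h | h
  · interval_cases a <;> rfl
  · rw [if_pos ⟨rfl, by omega⟩, if_neg (by omega), if_neg (by omega), if_neg (by omega)]

theorem bs_pos (a j : ℕ) (hj : 1 ≤ j) : bs a j = if j + 1 = a then 1 else 0 := by
  unfold bs
  rw [if_neg (by omega), zero_add]

theorem sph_arith (a N : ℕ) (s q b ρ : ℕ → ℕ) (hb : ∀ n, b n = bs a n)
    (h : ∀ n, s n + q n + ρ n + ρ (n + 1) = b n + s (n + 1))
    (hρs : ∀ n, ρ n ≤ s n) (hρb : ∀ n, ρ n ≤ b n) (h0 : ρ 0 = s 0)
    (hs : ∀ n, N ≤ n → s n = 0) :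
    ∃ c, c ≤ a ∧ (∀ n, q n = bs c n) ∧ ∀ n, s n = if c ≤ n ∧ n < a then 1 else 0 := by
  have hb0 : ∀ n, 1 ≤ n → n + 1 ≠ a → b n = 0 := by
    intro n h1 h2
    rw [hb, bs, if_neg (by omega), if_neg h2]
  have hb1 : ∀ n, 1 ≤ n → n + 1 = a → b n = 1 := by
    intro n h1 h2
    rw [hb, bs, if_neg (by omega), if_pos h2]
  -- the numbers s above a
  have hsa : ∀ k n, N ≤ n + k → 1 ≤ n → a ≤ n → s n = 0 := by
    intro k
    induction k with
    | zero => intro n h1 _ _; exact hs n (by omega)
    | succ k ih =>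
      intro n h1 h2 h3
      have h4 := ih (n + 1) (by omega) (by omega) (by omega)
      have h5 := h n
      have h6 := hb0 n h2 (by omega)
      omega
  have hsa' : ∀ n, 1 ≤ n → a ≤ n → s n = 0 := fun n h1 h2 => hsa N n (by omega) h1 h2
  have hqa' : ∀ n, 1 ≤ n → a ≤ n → q n = 0 := by
    intro n h1 h2
    have h4 := hsa' (n + 1) (by omega) (by omega)
    have h5 := h n
    have h6 := hb0 n h1 (by omega)
    omega
  have hρ1 : ∀ n, 1 ≤ n → ρ n = 0 := by
    intro n h1
    rcases eq_or_ne (n + 1) a with h2 | h2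
    · have h3 := hb1 n h1 h2
      have h4 := hsa' (n + 1) (by omega) (by omega)
      have h5 := h n
      have h6 := hρs n
      omega
    · have h3 := hb0 n h1 h2
      have h4 := hρb n
      omega
  -- downward induction
  have key : ∀ k m, m + k = max a 1 → 1 ≤ m → ∃ c, m ≤ c ∧ c ≤ max a 1 ∧
      (∀ j, m ≤ j → s j = if c ≤ j ∧ j < a then 1 else 0) ∧
      (∀ j, m ≤ j → q j = if j + 1 = c then 1 else 0) := by
    intro k
    induction k with
    | zero =>
      intro m hm h1
      refine ⟨m, le_rfl, by omega, fun j hj => ?_, fun j hj => ?_⟩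
      · rw [hsa' j (by omega) (by omega), if_neg (by omega)]
      · rw [hqa' j (by omega) (by omega), if_neg (by omega)]
    | succ k ih =>
      intro m hm h1
      obtain ⟨c, hc1, hc2, hcs, hcq⟩ := ih (m + 1) (by omega) (by omega)
      have h2 := h m
      rw [hρ1 m h1, hρ1 (m + 1) (by omega), hcs (m + 1) le_rfl] at h2
      have h3 : s m + q m = if c = m + 1 then 1 else 0 := by
        rcases eq_or_ne (m + 1) a with h4 | h4
        · rw [hb1 m h1 h4, if_neg (by omega)] at h2
          rw [if_pos (by omega)]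
          omega
        · rw [hb0 m h1 h4] at h2
          split_ifs at h2 ⊢ <;> omega
      by_cases hcm : c = m + 1
      · rw [if_pos hcm] at h3
        rcases Nat.eq_zero_or_pos (s m) with h5 | h5
        · refine ⟨m + 1, by omega, by omega, fun j hj => ?_, fun j hj => ?_⟩
          · rcases eq_or_ne j m with h6 | h6
            · rw [h6, h5, if_neg (by omega)]
            · rw [hcs j (by omega), hcm]
          · rcases eq_or_ne j m with h6 | h6
            · rw [h6, if_pos rfl]; omega
            · rw [hcq j (by omega), hcm]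
        · refine ⟨m, by omega, by omega, fun j hj => ?_, fun j hj => ?_⟩
          · rcases eq_or_ne j m with h6 | h6
            · rw [h6, if_pos (by omega)]; omega
            · rw [hcs j (by omega)]
              split_ifs <;> omega
          · rcases eq_or_ne j m with h6 | h6
            · rw [h6, if_neg (by omega)]; omega
            · rw [hcq j (by omega), if_neg (by omega), if_neg (by omega)]
      · rw [if_neg hcm] at h3
        refine ⟨c, by omega, by omega, fun j hj => ?_, fun j hj => ?_⟩
        · rcases eq_or_ne j m with h6 | h6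
          · rw [h6, if_neg (by omega)]; omega
          · exact hcs j (by omega)
        · rcases eq_or_ne j m with h6 | h6
          · rw [h6, if_neg (by omega)]; omega
          · exact hcq j (by omega)
  obtain ⟨c, hc1, hc2, hcs, hcq⟩ := key (max a 1 - 1) 1 (by omega) le_rfl
  have h1 := h 0
  rw [hρ1 1 le_rfl, h0, hcs 1 le_rfl, hb, bs_zero] at h1
  -- the bottom
  have hfin : ∀ c', c' ≤ a → q 0 = bs c' 0 → (s 0 = if c' ≤ 0 ∧ 0 < a then 1 else 0) →
      (∀ j, 1 ≤ j → (if c ≤ j ∧ j < a then 1 else 0) = if c' ≤ j ∧ j < a then 1 else 0) →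
      (∀ j, 1 ≤ j → (if j + 1 = c then 1 else 0) = bs c' j) → ∃ c, c ≤ a ∧ (∀ n, q n = bs c n) ∧
      ∀ n, s n = if c ≤ n ∧ n < a then 1 else 0 := by
    intro c' g1 g2 g3 g4 g5
    refine ⟨c', g1, fun n => ?_, fun n => ?_⟩
    · rcases Nat.eq_zero_or_pos n with hn | hn
      · rw [hn]; exact g2
      · rw [hcq n hn]; exact g5 n hn
    · rcases Nat.eq_zero_or_pos n with hn | hn
      · rw [hn]; exact g3
      · rw [hcs n hn]; exact g4 n hn
  rcases Nat.eq_zero_or_pos a with ha | ha
  · -- a = 0
    rw [if_pos ha, if_neg (by omega)] at h1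
    apply hfin 0 (by omega)
    · rw [bs_zero, if_pos rfl]; omega
    · rw [if_neg (by omega)]; omega
    · intro j hj
      rw [if_neg (by omega), if_neg (by omega)]
    · intro j hj
      rw [bs_pos 0 j hj, if_neg (by omega), if_neg (by omega)]
  · rcases Nat.lt_or_ge c 2 with hc | hc
    · -- c = 1
      have hc' : c = 1 := by omega
      subst hc'
      have h2 : 2 * s 0 + q 0 = 2 := by
        rcases Nat.lt_or_ge 1 a with h3 | h3
        · rw [if_neg (by omega), if_neg (by omega), if_pos (by omega)] at h1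
          omega
        · rw [if_neg (by omega), if_pos (by omega), if_neg (by omega)] at h1
          omega
      rcases Nat.eq_zero_or_pos (s 0) with h5 | h5
      · apply hfin 1 ha
        · rw [bs_zero, if_neg (by omega), if_pos rfl]; omega
        · rw [if_neg (by omega)]; omega
        · intro j hj; rfl
        · intro j hj
          rw [bs_pos 1 j hj]
      · apply hfin 0 (by omega)
        · rw [bs_zero, if_pos rfl]; omega
        · rw [if_pos (by omega)]; omega
        · intro j hj
          congr 1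
          apply propext
          constructor <;> intro h <;> omega
        · intro j hj
          rw [bs_pos 0 j hj, if_neg (by omega), if_neg (by omega)]
    · -- c ≥ 2
      have h2 : 2 * s 0 + q 0 = 1 := by
        rw [if_neg (by omega), if_neg (by omega), if_neg (by omega)] at h1
        omega
      apply hfin c (by omega)
      · rw [bs_zero, if_neg (by omega), if_neg (by omega)]; omega
      · rw [if_neg (by omega)]; omega
      · intro j hj; rfl
      · intro j hj
        rw [bs_pos c j hj]

section Smith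

variable {S : ℕ → Type v} (face : ∀ n, Fin (n + 2) → S (n + 1) → S n)
  (γ : ∀ n, S n → S n)

/-- the dimension of the cohomology -/
noncomputable def hS (n : ℕ) : ℕ :=
  finrank (ZMod 2) (Coh (ZMod 2) (fun n => S n → ZMod 2) (fun n => altd (ZMod 2) face n) n)

/-- the simplicial set has the cohomology of a sphere -/
def IsSph (a : ℕ) : Prop := ∀ n, hS face n = bs a n

theorem IsSph.unique {a c : ℕ} (h : IsSph face a) (h' : IsSph face c) : a = c :=
  bs_unique fun n => by rw [← h n, ← h' n]

theorem Isub_d (hγf : ∀ n i σ, γ n (face n i σ) = face n i (γ (n + 1) σ)) (n : ℕ) :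
    ∀ f ∈ Isub γ n, altd (ZMod 2) face n f ∈ Isub γ (n + 1) := by
  rintro f ⟨h1, h2⟩
  refine ⟨fun σ => ?_, fun σ hσ => ?_⟩
  · rw [altd_apply, altd_apply]
    refine Finset.sum_congr rfl fun i _ => ?_
    rw [← hγf, h1]
  · rw [altd_apply]
    apply Finset.sum_eq_zero
    intro i _
    rw [h2 _ (by rw [hγf, hσ]), mul_zero]

/-- the coboundary on the invariant cochains which vanish on the fixed simplices -/
def dE (hγf : ∀ n i σ, γ n (face n i σ) = face n i (γ (n + 1) σ)) (n : ℕ) :
    Isub γ n →ₗ[ZMod 2] Isub γ (n + 1) :=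
  (altd (ZMod 2) face n).restrict (Isub_d face γ hγf n)

/-- the dimension of the cohomology of this complex -/
noncomputable def hE (hγf : ∀ n i σ, γ n (face n i σ) = face n i (γ (n + 1) σ)) (n : ℕ) : ℕ :=
  finrank (ZMod 2) (Coh (ZMod 2) (fun n => Isub γ n) (dE face γ hγf) n)

/-- the transfer map -/
def smE (hγγ : ∀ n σ, γ n (γ n σ) = σ) (n : ℕ) : (S n → ZMod 2) →ₗ[ZMod 2] Isub γ n where
  toFun := fun f => ⟨fun σ => f σ + f (γ n σ), by
    refine ⟨fun σ => ?_, fun σ hσ => ?_⟩
    · change f (γ n σ) + f (γ n (γ n σ)) = f σ + f (γ n σ)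
      rw [hγγ, add_comm]
    · change f σ + f (γ n σ) = 0
      rw [hσ, zmod2_add_self]⟩
  map_add' := by
    intro f g
    apply Subtype.ext
    funext σ
    change f σ + g σ + (f (γ n σ) + g (γ n σ)) = f σ + f (γ n σ) + (g σ + g (γ n σ))
    ring
  map_smul' := by
    intro c f
    apply Subtype.ext
    funext σ
    change c * f σ + c * f (γ n σ) = c * (f σ + f (γ n σ))
    ring

variable [∀ n, Finite (S n)]
  {F : ℕ → Type v} (faceF : ∀ n, Fin (n + 2) → F (n + 1) → F n) [∀ n, Finite (F n)]
  (ι : ∀ n, F n → S n)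

theorem smith_sph
    (hface : ∀ n (i j : Fin (n + 2)) (σ : S (n + 2)), i ≤ j →
      face n i (face (n + 1) j.succ σ) = face n j (face (n + 1) i.castSucc σ))
    (hfaceF : ∀ n (i j : Fin (n + 2)) (σ : F (n + 2)), i ≤ j →
      faceF n i (faceF (n + 1) j.succ σ) = faceF n j (faceF (n + 1) i.castSucc σ))
    (hγγ : ∀ n σ, γ n (γ n σ) = σ)
    (hγf : ∀ n i σ, γ n (face n i σ) = face n i (γ (n + 1) σ))
    (hι : ∀ n, Function.Injective (ι n))
    (hιf : ∀ n i x, ι n (faceF n i x) = face n i (ι (n + 1) x))
    (hfix : ∀ n σ, γ n σ = σ ↔ ∃ x, ι n x = σ)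
    (N : ℕ) (hN : ∀ n, N ≤ n → IsEmpty (S n)) {a : ℕ} (ha : IsSph face a) :
    ∃ c, c ≤ a ∧ IsSph faceF c ∧ ∀ n, hE face γ hγf n = if c ≤ n ∧ n < a then 1 else 0 := by
  classical
  have : Fact (Nat.Prime 2) := ⟨Nat.prime_two⟩
  let dS := fun n => altd (ZMod 2) face n
  let dF := fun n => altd (ZMod 2) faceF n
  let dI : ∀ n, Isub γ n →ₗ[ZMod 2] Isub γ (n + 1) := dE face γ hγf
  have hdS : ∀ n x, dS (n + 1) (dS n x) = 0 := fun n x => altd_altd face hface n x
  have hdF : ∀ n x, dF (n + 1) (dF n x) = 0 := fun n x => altd_altd faceF hfaceF n x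
  have hdI : ∀ n x, dI (n + 1) (dI n x) = 0 := by
    intro n x
    apply Subtype.ext
    exact hdS n x.1
  let rs : ∀ n, (S n → ZMod 2) →ₗ[ZMod 2] (F n → ZMod 2) := fun n =>
    { toFun := fun f x => f (ι n x)
      map_add' := fun _ _ => rfl
      map_smul' := fun _ _ => rfl }
  have hsurj : ∀ n, Function.Surjective ((smE γ hγγ n).prod (rs n)) := by
    rintro n ⟨⟨g, hg1, hg2⟩, h⟩
    have := Fintype.ofFinite (S n)
    let e := Fintype.equivFin (S n)
    have hfx : ∀ σ, γ n σ = σ → ∃ x, ι n x = σ := fun σ => (hfix n σ).mp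
    let f : S n → ZMod 2 := fun σ =>
      if hσ : γ n σ = σ then h (hfx σ hσ).choose
      else if e σ < e (γ n σ) then g σ else 0
    have hf1 : ∀ x, f (ι n x) = h x := by
      intro x
      have hσ : γ n (ι n x) = ι n x := (hfix n _).mpr ⟨x, rfl⟩
      have : f (ι n x) = h (hfx _ hσ).choose := dif_pos hσ
      rw [this]
      congr 1
      exact hι n (hfx _ hσ).choose_spec
    refine ⟨f, ?_⟩
    apply Prod.ext
    · apply Subtype.ext
      funext σ
      change f σ + f (γ n σ) = g σ
      by_cases hσ : γ n σ = σ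
      · rw [hσ, zmod2_add_self]
        exact (hg2 σ hσ).symm
      · have hσ' : ¬ γ n (γ n σ) = γ n σ := by
          intro h'
          rw [hγγ] at h'
          exact hσ h'.symm
        have e1 : f σ = if e σ < e (γ n σ) then g σ else 0 := dif_neg hσ
        have e2 : f (γ n σ) = if e (γ n σ) < e (γ n (γ n σ)) then g (γ n σ) else 0 := dif_neg hσ'
        rw [e1, e2, hγγ]
        rcases lt_trichotomy (e σ) (e (γ n σ)) with hlt | heq | hgt
        · rw [if_pos hlt, if_neg (not_lt.mpr hlt.le), add_zero]
        · exact absurd (e.injective heq).symm hσ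
        · rw [if_neg (not_lt.mpr hgt.le), if_pos hgt, zero_add]
          exact hg1 σ
    · funext x
      exact hf1 x
  have hex : ∀ n f, (smE γ hγγ n).prod (rs n) f = 0 → ∃ a, (Isub γ n).subtype a = f := by
    intro n f hf
    have h1 : ∀ σ, f σ + f (γ n σ) = 0 := by
      intro σ
      have := congrArg (fun p : Isub γ n × (F n → ZMod 2) => p.1.1 σ) hf
      exact this
    have h2 : ∀ x, f (ι n x) = 0 := by
      intro x
      have := congrArg (fun p : Isub γ n × (F n → ZMod 2) => p.2 x) hf
      exact this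
    refine ⟨⟨f, ?_, ?_⟩, rfl⟩
    · intro σ
      have := h1 σ
      have h3 := zmod2_add_self (f σ)
      rw [← h3] at this
      exact add_left_cancel this
    · intro σ hσ
      obtain ⟨x, rfl⟩ := (hfix n σ).mp hσ
      exact h2 x
  have hβα : ∀ n a, (smE γ hγγ n).prod (rs n) ((Isub γ n).subtype a) = 0 := by
    rintro n ⟨f, hf1, hf2⟩
    apply Prod.ext
    · apply Subtype.ext
      funext σ
      change f σ + f (γ n σ) = 0
      rw [hf1, zmod2_add_self]
    · funext x
      exact hf2 _ ((hfix n _).mpr ⟨x, rfl⟩)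
  have hβd : ∀ n f, (dI n).prodMap (dF n) ((smE γ hγγ n).prod (rs n) f) =
      (smE γ hγγ (n + 1)).prod (rs (n + 1)) (dS n f) := by
    intro n f
    apply Prod.ext
    · apply Subtype.ext
      funext σ
      change altd (ZMod 2) face n (fun σ => f σ + f (γ n σ)) σ =
        altd (ZMod 2) face n f σ + altd (ZMod 2) face n f (γ (n + 1) σ)
      rw [altd_apply, altd_apply, altd_apply, ← Finset.sum_add_distrib]
      refine Finset.sum_congr rfl fun i _ => ?_
      rw [hγf]
      ring
    · funext x
      change altd (ZMod 2) faceF n (fun x => f (ι n x)) x = altd (ZMod 2) face n f (ι (n + 1) x)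
      rw [altd_apply, altd_apply]
      refine Finset.sum_congr rfl fun i _ => ?_
      rw [hιf]
  have hdP : ∀ n (x : Isub γ n × (F n → ZMod 2)),
      (dI (n + 1)).prodMap (dF (n + 1)) ((dI n).prodMap (dF n) x) = 0 := by
    intro n x
    apply Prod.ext
    · exact hdI n x.1
    · exact hdF n x.2
  have hinj : ∀ n, Function.Injective (Isub γ n).subtype := fun n => Subtype.val_injective
  have hαd : ∀ n a, dS n ((Isub γ n).subtype a) = (Isub γ (n + 1)).subtype (dI n a) :=
    fun n a => rfl
  have les := les_eq dI dS (C := fun n => Isub γ n × (F n → ZMod 2))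
    (fun n => (dI n).prodMap (dF n)) (fun n => (Isub γ n).subtype)
    (fun n => (smE γ hγγ n).prod (rs n)) hinj hsurj hex hβα hαd hβd hdI hdS hdP
  refine sph_arith a N (hE face γ hγf) (hS faceF) (hS face)
    (rho dI dS (fun n => (Isub γ n).subtype)) ha ?_ ?_ ?_ ?_ ?_
  · intro n
    have h1 := les n
    rw [finrank_coh_prod dI dF hdI hdF] at h1
    exact h1
  · exact fun n => rho_le_A dI dS _ hinj hαd hdI hdS n
  · exact fun n => rho_le_B dI dS _ hinj hαd hdS n
  · exact rho_zero dI dS _ hinj hαd hdI hdS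
  · intro n hn
    apply finrank_coh_top
    have := hN n hn
    have : Subsingleton (Isub γ n) := by
      constructor
      intro a b
      apply Subtype.ext
      funext σ
      exact (IsEmpty.false σ).elim
    exact Module.finrank_zero_of_subsingleton

end Smith

end Pool.Agent.V7H7.SZ
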