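import Pool.Agent.V7H7.SZ.Ucf

/-! Manifolds homeomorphic to spheres are mod 2 cohomology spheres. -/

set_option autoImplicit false

namespace Pool.Agent.V7H7.SZ.Sph

open Finsupp Module
open Pool.Agent.H904R2 (Ch IsCyc IsBdy RAcyc psh evm Pc fund fund_cyc pc_acyc pc_gen pc_coc)
open Pool.Agent.H904R2.Sph (psh_comp psh_id bdy_psh cyc_psh homotopy_bdy contr_acyc bdy_add bdy_sub
  bdy_smul isCyc_iff)
open Pool.Agent.Helper922.HB.Sc (Sing sface altd bd sbd ev_altd bd_single slice)
open Pool.Agent.Helper381 (SingularCohomology cocycles coboundaries)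

variable {X : Type} [TopologicalSpace X]

theorem nt_of_acyc {k : ℕ} (h : RAcyc X k) : NT X k := fun e he _ => h e he

theorem gen_of_acyc {k : ℕ} (h : RAcyc X (k + 1)) (z : Ch X (k + 1)) (hz : sbd X k z = 0) :
    ∃ a : ℤ, IsBdy (k + 1) (z - a • (0 : Ch X (k + 1))) := by
  refine ⟨0, ?_⟩
  rw [smul_zero, sub_zero]
  exact h z hz

theorem coh_zero {k : ℕ} (h1 : NT X k) (h2 : RAcyc X (k + 1)) :
    Subsingleton (SingularCohomology (ZMod 2) X (k + 1)) := by
  apply sub_of
  intro f hf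
  obtain ⟨g, hg⟩ := vanish h1 (gen_of_acyc h2) f (LinearMap.mem_ker.1 hf) (map_zero _)
  exact ⟨g, hg⟩

/-- `X` has the integral homology of the sphere of dimension `m` -/
structure HS (X : Type) [TopologicalSpace X] (m : ℕ) : Prop where
  ac : ∀ k, k ≠ m → RAcyc X k
  gen : ∃ φ : Ch X m, IsCyc m φ ∧ (∀ z, IsCyc m z → ∃ a : ℤ, IsBdy m (z - a • φ)) ∧
    ∃ ω : Sing X m → ℤ, altd ℤ (sface (X := X)) m ω = 0 ∧ evm ω φ = 1

theorem ev_bdy {m : ℕ} {M : Type} [CommRing M] {ω : Sing X m → M}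
    (h : altd M (sface (X := X)) m ω = 0) {z : Ch X m} (hz : IsBdy m z) :
    Finsupp.linearCombination ℤ ω z = 0 := by
  obtain ⟨w, rfl⟩ := hz
  have h3 := ev_altd (k := M) (sface (X := X)) m ω w
  rw [h] at h3
  have h4 : Finsupp.linearCombination ℤ (0 : Sing X (m + 1) → M) w = 0 := by
    rw [linearCombination_apply]
    simp
  rw [h4] at h3
  exact h3.symm

theorem HS.nt {m : ℕ} (h : HS X m) (k : ℕ) : NT X k := by
  by_cases hk : k = m
  · subst hk
    obtain ⟨φ, -, hgen, ω, hω, hφ⟩ := h.gen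
    intro e he h2
    obtain ⟨a, ha⟩ := hgen e he
    have h3 : evm ω ((2 : ℤ) • e) = 0 := ev_bdy hω h2
    rw [map_smul, smul_eq_mul] at h3
    have h4 : evm ω e = 0 := by omega
    have h5 : evm ω (e - a • φ) = 0 := ev_bdy hω ha
    rw [map_sub, map_smul, hφ, h4, smul_eq_mul, mul_one, zero_sub, neg_eq_zero] at h5
    rw [h5, zero_smul, sub_zero] at ha
    exact ha
  · exact nt_of_acyc (h.ac k hk)

theorem cast_altd {n : ℕ} (ω : Sing X n → ℤ) (h : altd ℤ (sface (X := X)) n ω = 0) :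
    (fun σ => (ω σ : ZMod 2)) ∈ cocycles (ZMod 2) X n := by
  rw [cocycles, LinearMap.mem_ker]
  funext σ
  have h1 := congrFun h σ
  change ∑ i : Fin (n + 2), (-1 : ℤ) ^ (i : ℕ) * ω (sface n i σ) = 0 at h1
  change ∑ i : Fin (n + 2), (-1 : ZMod 2) ^ (i : ℕ) * ((ω (sface n i σ) : ℤ) : ZMod 2) = 0
  have h2 := congrArg (Int.cast : ℤ → ZMod 2) h1
  push_cast at h2
  exact h2

theorem ev_cast {n : ℕ} (ω : Sing X n → ℤ) (z : Ch X n) :
    Finsupp.linearCombination ℤ (fun σ => (ω σ : ZMod 2)) z = ((evm ω z : ℤ) : ZMod 2) := by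
  rw [linearCombination_apply, linearCombination_apply, Finsupp.sum, Finsupp.sum, Int.cast_sum]
  refine Finset.sum_congr rfl fun σ _ => ?_
  simp

theorem evm_coboundary {n : ℕ} {f : Sing X n → ZMod 2} (hf : f ∈ coboundaries (ZMod 2) X n)
    {φ : Ch X n} (hφ : IsCyc n φ) (hn : n ≠ 0) : evm f φ = 0 := by
  cases n with
  | zero => exact absurd rfl hn
  | succ n =>
    obtain ⟨g, hg⟩ := hf
    have h1 := ev_altd (k := ZMod 2) (sface (X := X)) n g φ
    have h2 : altd (ZMod 2) (sface (X := X)) n g = f := hg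
    rw [h2] at h1
    have h3 : sbd X n φ = 0 := hφ
    have h4 : bd (sface (X := X)) n φ = 0 := h3
    rw [h4, map_zero] at h1
    exact h1

theorem HS.top {m : ℕ} (h : HS X m) (hm : m ≠ 0) :
    finrank (ZMod 2) (SingularCohomology (ZMod 2) X m) = 1 := by
  classical
  obtain ⟨φ, hcyc, hgen, ω, hω, hφ⟩ := h.gen
  let Φ : (Sing X m → ZMod 2) →ₗ[ZMod 2] ZMod 2 :=
    ∑ σ ∈ φ.support, ((φ σ : ℤ) : ZMod 2) • LinearMap.proj σ
  have hΦ : ∀ f : Sing X m → ZMod 2, Φ f = evm f φ := by
    intro f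
    change (∑ σ ∈ φ.support, ((φ σ : ℤ) : ZMod 2) • LinearMap.proj σ) f = _
    rw [LinearMap.sum_apply, linearCombination_apply, Finsupp.sum]
    refine Finset.sum_congr rfl fun σ _ => ?_
    simp
  apply rank_one Φ
  · intro f hf
    rw [hΦ]
    constructor
    · intro h0
      cases m with
      | zero => exact absurd rfl hm
      | succ m =>
        obtain ⟨g, hg⟩ := vanish (h.nt m) (fun z hz => hgen z hz) f (LinearMap.mem_ker.1 hf) h0
        exact ⟨g, hg⟩
    · intro h0
      exact evm_coboundary h0 hcyc hm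
  · refine ⟨_, cast_altd ω hω, ?_⟩
    rw [hΦ]
    change Finsupp.linearCombination ℤ (fun σ => (ω σ : ZMod 2)) φ = 1
    rw [ev_cast, hφ]
    exact Int.cast_one

theorem coh_degree_zero [Nonempty X] (h : RAcyc X 0) :
    finrank (ZMod 2) (SingularCohomology (ZMod 2) X 0) = 1 := by
  let x0 : X := Classical.arbitrary X
  let σ0 : Sing X 0 := ContinuousMap.const _ x0
  apply rank_one (LinearMap.proj σ0)
  · intro f hf
    change f σ0 = 0 ↔ f = 0
    constructor
    · intro h0
      funext σ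
      have h1 : IsBdy 0 (single σ 1 - single σ0 1 : Ch X 0) := by
        apply h
        rw [isCyc_iff]
        change Pool.Agent.H904R2.Sph.aug X 0 (single σ 1 - single σ0 1) = 0
        rw [map_sub, Pool.Agent.H904R2.Sph.aug_single, Pool.Agent.H904R2.Sph.aug_single, sub_self]
      have h2 := ev_bdy (M := ZMod 2) (ω := f) (LinearMap.mem_ker.1 hf) h1
      rw [map_sub, linearCombination_single, linearCombination_single, one_smul, one_smul,
        h0, sub_zero] at h2
      exact h2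
    · intro h0
      rw [h0]
      rfl
  · refine ⟨fun _ => 1, ?_, rfl⟩
    rw [cocycles, LinearMap.mem_ker]
    funext σ
    change ∑ i : Fin 2, (-1 : ZMod 2) ^ (i : ℕ) * 1 = 0
    decide

theorem HS.coh [Nonempty X] {m : ℕ} (h : HS X m) (hm : 0 < m) (n : ℕ) :
    finrank (ZMod 2) (SingularCohomology (ZMod 2) X n) =
      (if n = 0 then 1 else 0) + (if n = m then 1 else 0) := by
  by_cases h0 : n = 0
  · subst h0
    rw [if_pos rfl, if_neg (by omega), coh_degree_zero (h.ac 0 (by omega))]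
  · rw [if_neg h0, zero_add]
    by_cases h1 : n = m
    · subst h1
      rw [if_pos rfl, h.top h0]
    · rw [if_neg h1]
      obtain ⟨k, rfl⟩ : ∃ k, n = k + 1 := ⟨n - 1, by omega⟩
      have := coh_zero (h.nt k) (h.ac (k + 1) h1)
      exact finrank_zero_of_subsingleton

theorem hs_pc (m : ℕ) : HS (Pc (m + 1)) m where
  ac := fun k hk => pc_acyc m k hk
  gen := ⟨fund m, fund_cyc m, fun z hz => pc_gen m z hz, pc_coc m⟩

/-- transfer along a homotopy equivalence -/
theorem HS.transfer {Y : Type} [TopologicalSpace Y] {m : ℕ} (h : HS X m) (f : C(Y, X)) (g : C(X, Y))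
    (hgf : g.comp f = ContinuousMap.id Y) (H : C(X × unitInterval, X))
    (h0 : slice H 0 = ContinuousMap.id X) (h1 : slice H 1 = f.comp g) : HS Y m := by
  have key : ∀ (k : ℕ) (z : Ch Y k), psh g k (psh f k z) = z := by
    intro k z
    rw [psh_comp, hgf, psh_id]
  refine ⟨fun k hk z hz => ?_, ?_⟩
  · have h2 := bdy_psh g (h.ac k hk _ (cyc_psh f hz))
    rwa [key] at h2
  · obtain ⟨φ, hcyc, hgen, ω, hω, hφ⟩ := h.gen
    refine ⟨psh g m φ, cyc_psh g hcyc, fun z hz => ?_, fun σ => ω (f.comp σ), ?_, ?_⟩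
    · obtain ⟨a, ha⟩ := hgen _ (cyc_psh f hz)
      have h2 := bdy_psh g ha
      rw [map_sub, key, map_smul] at h2
      exact ⟨a, h2⟩
    · funext σ
      exact congrFun hω (f.comp σ)
    · have e1 : ∀ z : Ch Y m, evm (fun σ => ω (f.comp σ)) z = evm ω (psh f m z) := by
        intro z
        induction z using Finsupp.induction_linear with
        | zero => simp only [map_zero]
        | add a b ha hb => rw [map_add, map_add, map_add, ha, hb]
        | single σ a =>
          rw [Pool.Agent.H904R2.Sph.psh_single, linearCombination_single,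
            linearCombination_single]
      rw [e1, psh_comp, ← h1]
      have h3 := ev_bdy hω (homotopy_bdy H hcyc)
      rw [map_sub, h0, psh_id] at h3
      have h4 : evm ω (psh (slice H 1) m φ) - evm ω φ = 0 := h3
      rw [hφ] at h4
      omega

theorem coh_contr (e : X × unitInterval → X) (he : Continuous e) (x : X)
    (h0 : ∀ y, e (y, 0) = y) (h1 : ∀ y, e (y, 1) = x) {m : ℕ} (hm : 0 < m) :
    Subsingleton (SingularCohomology (ZMod 2) X m) := by
  have hac : ∀ k, RAcyc X k := contr_acyc ⟨e, he⟩ x (ContinuousMap.ext h0) (ContinuousMap.ext h1)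
  obtain ⟨k, rfl⟩ : ∃ k, m = k + 1 := ⟨m - 1, by omega⟩
  exact coh_zero (nt_of_acyc (hac k)) (hac (k + 1))

end Pool.Agent.V7H7.SZ.Sph
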