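import Pool.Agent.V7H7.SZ.Zig
import Pool.Agent.V7H7.SZ.Ind

/-! Involutions whose fixed point set contains the top class are trivial. -/

set_option autoImplicit false
set_option linter.unusedSectionVars false

namespace Pool.Agent.V7H7.SZ

open Module Pool.Agent.Helper381

universe u v w

section

variable {k : Type u} [CommRing k]
variable {C : ℕ → Type v} [∀ n, AddCommGroup (C n)] [∀ n, Module k (C n)]
  (d : ∀ n, C n →ₗ[k] C (n + 1))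

theorem mem_cobound_of_subsingleton {n : ℕ} (h : Subsingleton (Coh k C d n)) {x : C n}
    (hx : d n x = 0) : x ∈ cobound k C d n := by
  have h2 : (Submodule.Quotient.mk (⟨x, hx⟩ : LinearMap.ker (d n)) : Coh k C d n) = 0 :=
    Subsingleton.elim _ _
  have h3 := (Submodule.Quotient.mk_eq_zero
    ((cobound k C d n).comap (LinearMap.ker (d n)).subtype)).1 h2
  exact h3

theorem subsingleton_of_cobound {n : ℕ} (h : ∀ x : C n, d n x = 0 → x ∈ cobound k C d n) :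
    Subsingleton (Coh k C d n) := by
  constructor
  intro a b
  obtain ⟨x, rfl⟩ := Submodule.Quotient.mk_surjective _ a
  obtain ⟨y, rfl⟩ := Submodule.Quotient.mk_surjective _ b
  rw [Submodule.Quotient.eq]
  exact h _ (x - y).2

end

section restrict

variable {X : Type u} [TopologicalSpace X]

/-- lifting small cocycles to the punctured space -/
theorem small_cobound {𝒞 𝒞' : Set (Set X)} (hsub : 𝒞' ⊆ 𝒞)
    (hopen : ∀ C ∈ 𝒞, IsOpen C) (hcov : ∀ x, ∃ C ∈ 𝒞, x ∈ C) (y : X) (hy : ∀ C ∈ 𝒞', y ∉ C)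
    (m : ℕ) (hH : Subsingleton (SingCoh (ZMod 2) {x : X // x ≠ y} (m + 1)))
    (α : Small 𝒞 (m + 1) → ZMod 2) (hα : altd (ZMod 2) (smface (𝒞 := 𝒞)) (m + 1) α = 0) :
    ∃ g : Small 𝒞' m → ZMod 2, (fun σ : Small 𝒞' (m + 1) => α ⟨σ.1, by
      obtain ⟨C, hC, h⟩ := σ.2
      exact ⟨C, hsub hC, h⟩⟩) = altd (ZMod 2) (smface (𝒞 := 𝒞')) m g := by
  classical
  let V : C({x : X // x ≠ y}, X) := ⟨Subtype.val, continuous_subtype_val⟩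
  let 𝒟 : Set (Set {x : X // x ≠ y}) := {C' | ∃ C ∈ 𝒞, C' = Subtype.val ⁻¹' C}
  have hopen' : ∀ C ∈ 𝒟, IsOpen C := by
    rintro _ ⟨C, hC, rfl⟩
    exact (hopen C hC).preimage continuous_subtype_val
  have hcov' : ∀ x : {x : X // x ≠ y}, ∃ C ∈ 𝒟, x ∈ C := by
    intro x
    obtain ⟨C, hC, hx⟩ := hcov x.1
    exact ⟨_, ⟨C, hC, rfl⟩, hx⟩
  obtain ⟨e⟩ := small_simplices (k := ZMod 2) 𝒟 hopen' hcov' (m + 1)
  have hS : Subsingleton (SmallCoh (ZMod 2) 𝒟 (m + 1)) := e.symm.toEquiv.subsingleton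
  let push : ∀ n, Small 𝒟 n → Small 𝒞 n := fun n σ => ⟨V.comp σ.1, by
    obtain ⟨_, ⟨C, hC, rfl⟩, h⟩ := σ.2
    refine ⟨C, hC, ?_⟩
    rintro _ ⟨t, rfl⟩
    exact h ⟨t, rfl⟩⟩
  have hpush : ∀ n i (σ : Small 𝒟 (n + 1)), push n (smface n i σ) = smface n i (push (n + 1) σ) :=
    fun n i σ => rfl
  have hα' : altd (ZMod 2) (smface (𝒞 := 𝒟)) (m + 1) (fun σ => α (push (m + 1) σ)) = 0 := by
    funext σ
    have h1 := congrFun hα (push (m + 1 + 1) σ)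
    rw [altd_apply] at h1 ⊢
    exact h1
  obtain ⟨g', hg'⟩ := mem_cobound_of_subsingleton (C := fun n => Small 𝒟 n → ZMod 2)
    (fun n => altd (ZMod 2) (smface (𝒞 := 𝒟)) n) hS hα'
  let lift : ∀ n, Small 𝒞' n → Small 𝒟 n := fun n σ => ⟨⟨fun t => ⟨σ.1 t, by
    obtain ⟨C, hC, h⟩ := σ.2
    rintro rfl
    exact hy C hC (h ⟨t, rfl⟩)⟩, by fun_prop⟩, by
      obtain ⟨C, hC, h⟩ := σ.2
      refine ⟨_, ⟨C, hsub hC, rfl⟩, ?_⟩
      rintro _ ⟨t, rfl⟩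
      exact h ⟨t, rfl⟩⟩
  refine ⟨fun σ => g' (lift m σ), ?_⟩
  funext σ
  have h1 := congrFun hg' (lift (m + 1) σ)
  rw [altd_apply]
  have h2 : push (m + 1) (lift (m + 1) σ) = ⟨σ.1, by
      obtain ⟨C, hC, h⟩ := σ.2
      exact ⟨C, hsub hC, h⟩⟩ := rfl
  rw [← h2, ← h1]
  rfl

theorem restrict_zero [Nonempty X] {𝒞 𝒞' : Set (Set X)} (hsub : 𝒞' ⊆ 𝒞)
    (hopen : ∀ C ∈ 𝒞, IsOpen C) (hcov : ∀ x, ∃ C ∈ 𝒞, x ∈ C) (hcap : HCap 𝒞)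
    (hcone : ∀ C ∈ 𝒞, ConeData C) (y : X) (hy : ∀ C ∈ 𝒞', y ∉ C)
    (m : ℕ) (hH : Subsingleton (SingCoh (ZMod 2) {x : X // x ≠ y} (m + 1)))
    (β : Ch 𝒞 (m + 1) → ZMod 2) (hβ : altd (ZMod 2) (cface (Q := 𝒞)) (m + 1) β = 0) :
    ∃ γ : Ch 𝒞' m → ZMod 2, altd (ZMod 2) (cface (Q := 𝒞')) m γ =
      fun c => β (iCh hsub (m + 1) c) := by
  obtain ⟨x, hx⟩ := ex1' (k := ZMod 2) 𝒞 hcap m 0 (eB (ZMod 2) 𝒞 (m + 1) β) (by
    rw [eB_d, hβ, map_zero])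
  obtain ⟨α, hα, hG⟩ := gz_exists (fun n => altd (ZMod 2) (smface (𝒞 := 𝒞)) n)
    (e1 (ZMod 2) 𝒞) (e2 (ZMod 2) 𝒞) (eA (ZMod 2) 𝒞) (e22 𝒞) (e12 𝒞) (eA_d 𝒞) (eA_inj 𝒞)
    (eA_ex 𝒞 hcap) (ex1' 𝒞 hcap) m 0 x (by rw [e12, hx, eB_zero])
  let rA : ∀ n, (Small 𝒞 n → ZMod 2) → (Small 𝒞' n → ZMod 2) := fun n a σ => a ⟨σ.1, by
    obtain ⟨C, hC, h⟩ := σ.2
    exact ⟨C, hsub hC, h⟩⟩
  let rD : ∀ p q, (ZZ 𝒞 p q → ZMod 2) → (ZZ 𝒞' p q → ZMod 2) := fun p q f z =>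
    f ⟨(iCh hsub p z.1.1, z.1.2), z.2⟩
  have hG' := gz_map (e1 (ZMod 2) 𝒞) (e2 (ZMod 2) 𝒞) (eA (ZMod 2) 𝒞)
    (e1 (ZMod 2) 𝒞') (e2 (ZMod 2) 𝒞') (eA (ZMod 2) 𝒞') rA rD (fun p q f => rfl)
    (fun p q f => rfl) (fun q a => rfl) α m 0 x hG
  have hg : ∀ n, ∃ g : Small 𝒞' n → ZMod 2, n = m →
      rA (n + 1) (α (n + 1)) = altd (ZMod 2) (smface (𝒞 := 𝒞')) n g := by
    intro n
    by_cases hn : n = m
    · subst hn
      obtain ⟨g, hg⟩ := small_cobound hsub hopen hcov y hy n hH (α (n + 1)) (hα (n + 1))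
      exact ⟨g, fun _ => hg⟩
    · exact ⟨0, fun h => absurd h hn⟩
  choose g hg using hg
  obtain ⟨u, v, huv, hu, hv⟩ := gz_split (fun n => altd (ZMod 2) (smface (𝒞 := 𝒞')) n)
    (e1 (ZMod 2) 𝒞') (e2 (ZMod 2) 𝒞') (eA (ZMod 2) 𝒞') (e11 𝒞') (e12 𝒞') (eA_d 𝒞') (eA_zero 𝒞')
    (ex2' 𝒞' (fun C hC => hcone C (hsub hC))) (fun n => rA n (α n)) g m 0 (rD m 0 x)
    (fun n hn => hg n (by omega)) hG'
  obtain ⟨b, hb⟩ := eB_ex 𝒞' (fun C hC => hcone C (hsub hC)) m v hv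
  refine ⟨b, ?_⟩
  apply eB_inj (k := ZMod 2) 𝒞' (fun C hC => hcone C (hsub hC)) (m + 1)
  rw [← eB_d, hb]
  have h1 : e1 (ZMod 2) 𝒞' m 0 v = e1 (ZMod 2) 𝒞' m 0 (rD m 0 x) := by
    rw [← huv, map_add, hu, zero_add]
  rw [h1]
  have h2 : e1 (ZMod 2) 𝒞' m 0 (rD m 0 x) = rD (m + 1) 0 (e1 (ZMod 2) 𝒞 m 0 x) := rfl
  rw [h2, hx]
  rfl

end restrict

section extend

variable {S : ℕ → Type v} {face : ∀ n, Fin (n + 2) → S (n + 1) → S n}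
  {γ : ∀ n, S n → S n} [∀ n, Finite (S n)]
  {F : ℕ → Type v} {faceF : ∀ n, Fin (n + 2) → F (n + 1) → F n} {ι : ∀ n, F n → S n}

theorem extend_cocycle (hf : FF face) (hγ : Invol face γ)
    (hι : ∀ n, Function.Injective (ι n))
    (hιf : ∀ n i x, ι n (faceF n i x) = face n i (ι (n + 1) x))
    (hfix : ∀ n σ, γ n σ = σ ↔ ∃ x, ι n x = σ) (m : ℕ)
    (hE0 : hE face γ hγ.gf (m + 1) = 0) (f : F m → ZMod 2)
    (hf0 : altd (ZMod 2) faceF m f = 0) :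
    ∃ φ : S m → ZMod 2, altd (ZMod 2) face m φ = 0 ∧ ∀ x, φ (ι m x) = f x := by
  classical
  have : Fact (Nat.Prime 2) := ⟨Nat.prime_two⟩
  let φ : S m → ZMod 2 := fun σ => if h : ∃ x, ι m x = σ then f h.choose else 0
  have hφ1 : ∀ x, φ (ι m x) = f x := by
    intro x
    have h1 : ∃ y, ι m y = ι m x := ⟨x, rfl⟩
    have h2 : φ (ι m x) = f h1.choose := dif_pos h1
    rw [h2]
    congr 1
    exact hι m h1.choose_spec
  have hφ2 : ∀ σ, (¬ ∃ x, ι m x = σ) → φ σ = 0 := fun σ h => dif_neg h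
  have hφγ : ∀ σ, φ (γ m σ) = φ σ := by
    intro σ
    by_cases h : ∃ x, ι m x = σ
    · rw [(hfix m σ).2 h]
    · rw [hφ2 σ h, hφ2]
      intro h1
      apply h
      rw [← hfix] at h1 ⊢
      rw [hγ.gg] at h1
      exact h1.symm
  have hmem : altd (ZMod 2) face m φ ∈ Isub γ (m + 1) := by
    refine ⟨fun σ => ?_, fun σ hσ => ?_⟩
    · rw [altd_apply, altd_apply]
      refine Finset.sum_congr rfl fun i _ => ?_
      rw [← hγ.gf, hφγ]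
    · obtain ⟨x, rfl⟩ := (hfix (m + 1) σ).1 hσ
      have h1 := congrFun hf0 x
      rw [altd_apply] at h1 ⊢
      rw [Pi.zero_apply] at h1
      rw [← h1]
      refine Finset.sum_congr rfl fun i _ => ?_
      rw [← hιf, hφ1]
  obtain ⟨ψ, hψ⟩ := mem_cobound_of_coh_zero (C := fun n => Isub γ n) (dE face γ hγ.gf) hE0
    (x := ⟨altd (ZMod 2) face m φ, hmem⟩) (Subtype.ext (altd_altd face hf m φ))
  have hψ' : altd (ZMod 2) face m ψ.1 = altd (ZMod 2) face m φ := congrArg Subtype.val hψ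
  refine ⟨φ - ψ.1, by rw [map_sub, hψ', sub_self], fun x => ?_⟩
  change φ (ι m x) - ψ.1 (ι m x) = f x
  rw [hφ1, ψ.2.2 _ ((hfix m _).2 ⟨x, rfl⟩), sub_zero]

end extend

end Pool.Agent.V7H7.SZ
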