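import Pool.Agent.V7H7.SZ.Mono
import Pool.Agent.V7H7.SZ.Lat
import Pool.Agent.N287.ZM.NCact

/-! The elementary group over the field with two elements acting on mod 2 homology spheres. -/

set_option autoImplicit false
set_option linter.unusedSectionVars false

namespace Pool.Agent.V7H7.SZ

open scoped Manifold ContDiff
open Module Matrix Pool.Agent.Helper381 Pool.Agent.H185.ZM Pool.Agent.N287.NC

section hom

variable {P : Type} [Group P] {ι : Type} [Fintype ι] [DecidableEq ι]

/-- change of the form of the group -/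
def mfun (ι : Type) : Multiplicative (ι → ZMod 2) →* (ι → Multiplicative (ZMod 2)) where
  toFun v i := Multiplicative.ofAdd (v.toAdd i)
  map_one' := rfl
  map_mul' _ _ := rfl

theorem sq_two {y : ι → P} (hy : ∀ i, y i * y i = 1) (i : ι) : y i ^ 2 = 1 := by
  rw [pow_two, hy]

theorem pw_comm {y : ι → P} (hy : ∀ i, y i * y i = 1) (hc : ∀ i j, y i * y j = y j * y i) :
    Pairwise fun i j => ∀ (a b : Multiplicative (ZMod 2)),
      Commute (Lat.zh (p := 2) (y i) (sq_two hy i) a) (Lat.zh (p := 2) (y j) (sq_two hy j) b) :=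
  fun i j _ a b => Lat.zh_comm _ _ (hc i j) a b

/-- the homomorphism given by commuting involutions -/
def mkφ (y : ι → P) (hy : ∀ i, y i * y i = 1) (hc : ∀ i j, y i * y j = y j * y i) :
    Multiplicative (ι → ZMod 2) →* P :=
  (MonoidHom.noncommPiCoprod (fun i => Lat.zh (p := 2) (y i) (sq_two hy i))
    (pw_comm hy hc)).comp (mfun ι)

theorem mkφ_single (y : ι → P) (hy : ∀ i, y i * y i = 1) (hc : ∀ i j, y i * y j = y j * y i)
    (i : ι) : mkφ y hy hc (Multiplicative.ofAdd (Pi.single i 1)) = y i := by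
  have h1 : mfun ι (Multiplicative.ofAdd (Pi.single i 1)) =
      Pi.mulSingle i (Multiplicative.ofAdd 1) := by
    funext j
    change Multiplicative.ofAdd ((Pi.single i 1 : ι → ZMod 2) j) = _
    by_cases h : j = i
    · subst h
      rw [Pi.single_eq_same, Pi.mulSingle_eq_same]
    · rw [Pi.single_eq_of_ne h, Pi.mulSingle_eq_of_ne h]
      rfl
  have h2 : mkφ y hy hc (Multiplicative.ofAdd (Pi.single i 1)) =
      (MonoidHom.noncommPiCoprod (fun i => Lat.zh (p := 2) (y i) (sq_two hy i)) (pw_comm hy hc))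
        (mfun ι (Multiplicative.ofAdd (Pi.single i 1))) := rfl
  rw [h2, h1, MonoidHom.noncommPiCoprod_mulSingle, Lat.zh_apply]
  change (y i) ^ (1 : ZMod 2).val = y i
  rw [show (1 : ZMod 2).val = 1 from rfl, pow_one]

theorem hom_ext_single (f g : Multiplicative (ι → ZMod 2) →* P)
    (h : ∀ i, f (Multiplicative.ofAdd (Pi.single i 1)) = g (Multiplicative.ofAdd (Pi.single i 1)))
    (v : ι → ZMod 2) : f (Multiplicative.ofAdd v) = g (Multiplicative.ofAdd v) := by
  have key : ∀ S : Finset ι, f (Multiplicative.ofAdd (∑ i ∈ S, Pi.single i (v i))) =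
      g (Multiplicative.ofAdd (∑ i ∈ S, Pi.single i (v i))) := by
    intro S
    induction S using Finset.induction_on with
    | empty =>
      rw [Finset.sum_empty, ofAdd_zero, map_one, map_one]
    | insert i S hi ih =>
      rw [Finset.sum_insert hi, ofAdd_add, map_mul, map_mul, ih]
      congr 1
      rcases v2_cases (v i) with h1 | h1
      · rw [h1, Pi.single_zero, ofAdd_zero, map_one, map_one]
      · rw [h1, h i]
  have h1 := key Finset.univ
  rwa [Finset.univ_sum_single] at h1

end hom

section trans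

/-- a set of vectors stable under transvections -/
theorem trans_all {r : ℕ} (T : Finset (Fin r → ZMod 2))
    (hT : ∀ i j : Fin r, i ≠ j → ∀ c ∈ T, c + (c j) • (Pi.single i 1 : Fin r → ZMod 2) ∈ T)
    {c : Fin r → ZMod 2} (hc : c ∈ T) (hc0 : c ≠ 0) {d : Fin r → ZMod 2} (hd : d ≠ 0) :
    d ∈ T := by
  classical
  have hone : ∀ c : Fin r → ZMod 2, c ≠ 0 → ∃ k, c k = 1 := by
    intro c hc0
    by_contra hcon
    push Not at hcon
    apply hc0
    funext k
    exact (v2_cases (c k)).resolve_right (hcon k)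
  obtain ⟨j, hj⟩ := hone c hc0
  obtain ⟨k, hk⟩ := hone d hd
  -- a vector with coordinate one at `k`
  obtain ⟨e, he, hek⟩ : ∃ e ∈ T, e k = 1 := by
    rcases v2_cases (c k) with h1 | h1
    · have hkj : k ≠ j := by
        rintro rfl
        rw [hj] at h1
        exact absurd h1 (by decide)
      refine ⟨_, hT k j hkj c hc, ?_⟩
      rw [hj, one_smul, Pi.add_apply, h1, Pi.single_eq_same, zero_add]
    · exact ⟨c, hc, h1⟩
  have key : ∀ S : Finset (Fin r), k ∉ S →
      e + ∑ i ∈ S, (Pi.single i 1 : Fin r → ZMod 2) ∈ T := by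
    intro S
    induction S using Finset.induction_on with
    | empty =>
      intro _
      rw [Finset.sum_empty, add_zero]
      exact he
    | insert i S hi ih =>
      intro hkS
      rw [Finset.mem_insert, not_or] at hkS
      have h1 := ih hkS.2
      have h2 := hT i k (Ne.symm hkS.1) _ h1
      have h3 : (e + ∑ i ∈ S, (Pi.single i 1 : Fin r → ZMod 2)) k = 1 := by
        rw [Pi.add_apply, hek, Finset.sum_apply]
        have h4 : ∑ i ∈ S, (Pi.single i 1 : Fin r → ZMod 2) k = 0 := by
          apply Finset.sum_eq_zero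
          intro i hi
          rw [Pi.single_eq_of_ne]
          rintro rfl
          exact hkS.2 hi
        rw [h4, add_zero]
      rw [h3, one_smul] at h2
      rw [Finset.sum_insert hi]
      have h5 : e + (Pi.single i 1 + ∑ i ∈ S, (Pi.single i 1 : Fin r → ZMod 2)) =
          e + ∑ i ∈ S, (Pi.single i 1 : Fin r → ZMod 2) + Pi.single i 1 := by
        rw [add_comm (Pi.single i 1 : Fin r → ZMod 2), add_assoc]
      rw [h5]
      exact h2
  have h1 := key (Finset.univ.filter fun i => d i ≠ e i) (by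
    rw [Finset.mem_filter]
    rintro ⟨-, h⟩
    exact h (by rw [hk, hek]))
  have h2 : e + ∑ i ∈ Finset.univ.filter (fun i => d i ≠ e i),
      (Pi.single i 1 : Fin r → ZMod 2) = d := by
    funext l
    rw [Pi.add_apply, Finset.sum_apply]
    have h01 : (1 : ZMod 2) + 1 = 0 := by decide
    by_cases h3 : d l = e l
    · have h4 : ∑ i ∈ Finset.univ.filter (fun i => d i ≠ e i),
          (Pi.single i 1 : Fin r → ZMod 2) l = 0 := by
        apply Finset.sum_eq_zero
        intro i hi
        rw [Pi.single_eq_of_ne]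
        rintro rfl
        exact (Finset.mem_filter.1 hi).2 h3
      rw [h4, add_zero, h3]
    · have h4 : ∑ i ∈ Finset.univ.filter (fun i => d i ≠ e i),
          (Pi.single i 1 : Fin r → ZMod 2) l = 1 := by
        rw [Finset.sum_eq_single l]
        · exact Pi.single_eq_same _ _
        · intro i _ hi
          exact Pi.single_eq_of_ne (Ne.symm hi) _
        · intro h
          exact (h (Finset.mem_filter.2 ⟨Finset.mem_univ l, h3⟩)).elim
      rw [h4]
      rcases v2_cases (e l) with h5 | h5 <;> rcases v2_cases (d l) with h6 | h6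
      · exact absurd (h6.trans h5.symm) h3
      · rw [h5, h6, zero_add]
      · rw [h5, h6, h01]
      · exact absurd (h6.trans h5.symm) h3
  rwa [h2] at h1

variable {E : Type} [NormedAddCommGroup E] [NormedSpace ℝ E] [FiniteDimensional ℝ E]
  {M : Type} [TopologicalSpace M] [ChartedSpace E M] [IsManifold 𝓘(ℝ, E) ∞ M]

/-- **All transvections.** -/
theorem trans_trivial [CompactSpace M] [T2Space M] [ConnectedSpace M]
    (hM : Mod2Sphere M (finrank ℝ E)) (hm : 0 < finrank ℝ E) {P : Type} [Group P] [Finite P]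
    {a : P → M → M} (ha : SmoothAction E a) {r : ℕ}
    (φ : Multiplicative (Fin r → ZMod 2) →* P)
    (hx : ∀ i j : Fin r, i ≠ j → ∃ x : P, ∀ v : Fin r → ZMod 2,
      x * φ (Multiplicative.ofAdd v) * x⁻¹ =
        φ (Multiplicative.ofAdd (v + (v i) • (Pi.single j 1 : Fin r → ZMod 2))))
    (hlt : finrank ℝ E + 2 < 2 ^ r) (v : Fin r → ZMod 2) (y : M) :
    a (φ (Multiplicative.ofAdd v)) y = y := by
  classical
  obtain ⟨T, hT1, hT2, -, hT4⟩ := smooth_weights hM hm ha φ (δ := 1) (fun i => Or.inl rfl)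
  rw [one_mul] at hT1
  have hst : ∀ i j : Fin r, i ≠ j → ∀ c ∈ T,
      c + (c j) • (Pi.single i 1 : Fin r → ZMod 2) ∈ T := by
    intro i j hij c hc
    obtain ⟨x, hx⟩ := hx i j hij
    have hinv : ∀ v : Fin r → ZMod 2, (v + (v i) • (Pi.single j 1 : Fin r → ZMod 2)) +
        ((v + (v i) • (Pi.single j 1 : Fin r → ZMod 2)) i) • (Pi.single j 1 : Fin r → ZMod 2) =
          v := by
      intro v
      have h1 : (v + (v i) • (Pi.single j 1 : Fin r → ZMod 2)) i = v i := by
        rw [Pi.add_apply, Pi.smul_apply, Pi.single_eq_of_ne hij, smul_zero, add_zero]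
      rw [h1, add_assoc]
      have h2 : (v i) • (Pi.single j 1 : Fin r → ZMod 2) + (v i) • Pi.single j 1 = 0 := by
        funext l
        exact CharTwo.add_self_eq_zero (((v i) • (Pi.single j 1 : Fin r → ZMod 2)) l)
      rw [h2, add_zero]
    let σ : (Fin r → ZMod 2) ≃ (Fin r → ZMod 2) :=
      { toFun := fun v => v + (v i) • (Pi.single j 1 : Fin r → ZMod 2)
        invFun := fun v => v + (v i) • (Pi.single j 1 : Fin r → ZMod 2)
        left_inv := hinv
        right_inv := hinv }
    refine hT4 x σ hx c _ (fun v => ?_) hc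
    change (c + (c j) • (Pi.single i 1 : Fin r → ZMod 2)) ⬝ᵥ
      (v + (v i) • (Pi.single j 1 : Fin r → ZMod 2)) = c ⬝ᵥ v
    rw [add_dotProduct, dotProduct_add, dotProduct_add, dotProduct_smul, dotProduct_smul,
      smul_dotProduct, smul_dotProduct, single_dotProduct, single_dotProduct, dotProduct_single,
      Pi.single_eq_of_ne hij]
    simp only [smul_eq_mul, mul_one, one_mul, mul_zero, add_zero]
    have h3 := CharTwo.add_self_eq_zero (c j * v i)
    linear_combination h3
  apply hT2
  intro c hc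
  by_cases hc0 : c = 0
  · rw [hc0, zero_dotProduct]
  · exfalso
    have h1 : (Finset.univ : Finset (Fin r → ZMod 2)).erase 0 ⊆ T := fun d hd =>
      trans_all T hst hc hc0 (Finset.ne_of_mem_erase hd)
    have h2 := Finset.card_le_card h1
    rw [Finset.card_erase_of_mem (Finset.mem_univ _), Finset.card_univ, Fintype.card_fun,
      ZMod.card, Fintype.card_fin] at h2
    omega

end trans

section quot

variable {E : Type} [NormedAddCommGroup E] [NormedSpace ℝ E] [FiniteDimensional ℝ E]
  {M : Type} [TopologicalSpace M] [ChartedSpace E M] [IsManifold 𝓘(ℝ, E) ∞ M]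

/-- the action of the quotient by the kernel -/
theorem quot_action {G : Type} [Group G] {a : G → M → M} (ha : SmoothAction E a) :
    ∃ b : G ⧸ actKer ha → M → M, SmoothAction E b ∧
      ∀ (g : G) (y : M), b (g : G ⧸ actKer ha) y = a g y := by
  let b : G ⧸ actKer ha → M → M := fun p y => a p.out y
  have hb : ∀ (g : G) (y : M), b (g : G ⧸ actKer ha) y = a g y := by
    intro g y
    obtain ⟨k, hk⟩ := QuotientGroup.mk_out_eq_mul (actKer ha) g
    change a ((g : G ⧸ actKer ha)).out y = a g y
    rw [hk, ha.mul]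
    exact congrArg (a g) (k.2 y)
  refine ⟨b, ⟨fun x => ?_, fun p q x => ?_, fun p => ?_⟩, hb⟩
  · have h1 := hb 1 x
    rw [ha.one] at h1
    exact h1
  · induction p using QuotientGroup.induction_on with
    | _ g =>
      induction q using QuotientGroup.induction_on with
      | _ h =>
        rw [← QuotientGroup.mk_mul, hb, hb, hb, ha.mul]
  · exact ha.smooth _

end quot

section elem

variable {E : Type} [NormedAddCommGroup E] [NormedSpace ℝ E] [FiniteDimensional ℝ E]
  {M : Type} [TopologicalSpace M] [ChartedSpace E M] [IsManifold 𝓘(ℝ, E) ∞ M]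
  {n : ℕ} {O : Type} [Ring O] {Γ : Subgroup (Matrix (Fin n) (Fin n) O)ˣ}

/-- the elementary matrices with entry `1` satisfy the Steinberg relations modulo two -/
theorem exists_rel (hE : EN n O ≤ Γ) {a : Γ → M → M} (ha : SmoothAction E a)
    (h2 : (2 : O) ∈ idl (kN ha)) : ∃ x : Fin n → Fin n → Γ ⧸ actKer ha, Rel x ∧
      ∀ (i j : Fin n) (h : i ≠ j), x i j = ((⟨nel h 1, hE (nel_mem_EN h 1)⟩ : Γ) : Γ ⧸ actKer ha) := by
  classical
  let q : Γ →* Γ ⧸ actKer ha := QuotientGroup.mk' (actKer ha)
  have hm : ∀ {i j : Fin n} (h : i ≠ j) (c : O), nel h c ∈ Γ := fun h c => hE (nel_mem_EN h c)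
  have hq : ∀ {i j : Fin n} (h : i ≠ j) (c : O), c ∈ idl (kN ha) → q ⟨nel h c, hm h c⟩ = 1 := by
    intro i j h c hc
    apply (QuotientGroup.eq_one_iff _).2
    have h3 := hc i j h
    rw [mem_kN] at h3
    exact h3.2
  have hadd : ∀ {i j : Fin n} (h : i ≠ j) (c d : O), q ⟨nel h (c + d), hm h (c + d)⟩ =
      q ⟨nel h c, hm h c⟩ * q ⟨nel h d, hm h d⟩ := by
    intro i j h c d
    rw [← map_mul]
    congr 1
    exact Subtype.ext (nel_add h c d)
  let x : Fin n → Fin n → Γ ⧸ actKer ha := fun i j =>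
    if h : i ≠ j then q ⟨nel h 1, hm h 1⟩ else 1
  have hx : ∀ {i j : Fin n} (h : i ≠ j), x i j = q ⟨nel h 1, hm h 1⟩ := fun h => dif_pos h
  have hneg : ∀ {i j : Fin n} (h : i ≠ j), q ⟨nel h (-1), hm h (-1)⟩ = q ⟨nel h 1, hm h 1⟩ := by
    intro i j h
    have h3 := hadd h (-1) 2
    rw [hq h 2 h2, mul_one] at h3
    rw [← h3]
    congr 2
    norm_num
  refine ⟨x, ?_, fun i j h => hx h⟩
  constructor
  · intro i j h
    rw [hx h, ← hadd]
    apply hq
    rw [one_add_one_eq_two]
    exact h2
  · intro i j l hij hjl hil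
    rw [hx hij, hx hjl, hx hil, ← map_mul, ← map_mul, ← map_mul]
    congr 1
    apply Subtype.ext
    show nel hij 1 * nel hjl 1 = nel hil 1 * (nel hjl 1 * nel hij 1)
    rw [nel_comm hij hjl hil, mul_one]
  · intro i j k l hij hkl hjk hil
    rw [hx hij, hx hkl, ← map_mul, ← map_mul]
    congr 1
    apply Subtype.ext
    exact nel_commute hij hkl hjk hil 1 1
  · intro i j h
    rw [hx h, hx h.symm]
    have h3 : q (⟨nel h 1, hm h 1⟩ * ⟨nel h.symm (-1), hm h.symm (-1)⟩ * ⟨nel h 1, hm h 1⟩) =
        q (⟨nel h.symm (-1), hm h.symm (-1)⟩ * ⟨nel h 1, hm h 1⟩ *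
          ⟨nel h.symm (-1), hm h.symm (-1)⟩) := by
      congr 1
      apply Subtype.ext
      exact nel_braid h
    simp only [map_mul, hneg] at h3
    exact h3

/-- **The elementary group acts trivially.** -/
theorem one_mem_idl [CompactSpace M] [T2Space M] [ConnectedSpace M]
    (hM : Mod2Sphere M (finrank ℝ E)) (hm : 0 < finrank ℝ E) (hn : 3 ≤ n) (hE : EN n O ≤ Γ)
    {a : Γ → M → M} (ha : SmoothAction E a) (h2 : (2 : O) ∈ idl (kN ha))
    (hlt : finrank ℝ E + 2 < 2 ^ (n - 1)) : (1 : O) ∈ idl (kN ha) := by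
  classical
  obtain ⟨x, hrel, hx⟩ := exists_rel hE ha h2
  obtain ⟨b, hb, hba⟩ := quot_action ha
  have hfin := finite_st n x hrel
  let P : Subgroup (Γ ⧸ actKer ha) := Subgroup.closure {g | ∃ i j, i ≠ j ∧ x i j = g}
  have hPfin : Finite P := hfin.to_subtype
  have hxP : ∀ i j, i ≠ j → x i j ∈ P := fun i j h => Subgroup.subset_closure ⟨i, j, h, rfl⟩
  obtain ⟨r, rfl⟩ : ∃ r, n = r + 1 := ⟨n - 1, by omega⟩
  rw [Nat.add_sub_cancel] at hlt
  have hs : ∀ i : Fin r, (0 : Fin (r + 1)) ≠ i.succ := fun i => (Fin.succ_ne_zero i).symm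
  let y : Fin r → P := fun i => ⟨x 0 i.succ, hxP _ _ (hs i)⟩
  have hy : ∀ i, y i * y i = 1 := fun i => Subtype.ext (hrel.sq _ _ (hs i))
  have hc : ∀ i j, y i * y j = y j * y i := fun i j =>
    Subtype.ext (hrel.comm _ _ _ _ (hs i) (hs j) (Ne.symm (hs i)) (hs j))
  have htriv := trans_trivial hM hm (hb.comp P.subtype) (mkφ y hy hc) (r := r) (by
    intro i j hij
    have hij' : i.succ ≠ j.succ := fun h => hij (Fin.succ_injective r h)
    let X : P := ⟨x i.succ j.succ, hxP _ _ hij'⟩
    refine ⟨X, fun v => ?_⟩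
    let L : (Fin r → ZMod 2) →+ (Fin r → ZMod 2) :=
      { toFun := fun v => v + (v i) • (Pi.single j 1 : Fin r → ZMod 2)
        map_zero' := by simp
        map_add' := fun v w => by
          rw [Pi.add_apply, add_smul]
          abel }
    have hL : ∀ v, L v = v + (v i) • (Pi.single j 1 : Fin r → ZMod 2) := fun v => rfl
    have h1 := hom_ext_single ((MulAut.conj X).toMonoidHom.comp (mkφ y hy hc))
      ((mkφ y hy hc).comp (AddMonoidHom.toMultiplicative L)) (by
        intro k
        change X * mkφ y hy hc (Multiplicative.ofAdd (Pi.single k 1)) * X⁻¹ =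
          mkφ y hy hc (Multiplicative.ofAdd (L (Pi.single k 1)))
        rw [hL, mkφ_single]
        by_cases hki : k = i
        · subst hki
          rw [Pi.single_eq_same, one_smul, ofAdd_add, map_mul, mkφ_single, mkφ_single]
          rw [mul_inv_eq_iff_eq_mul]
          have h3 : y k * X = y j * (X * y k) := Subtype.ext
            (hrel.mul 0 k.succ j.succ (hs k) hij' (hs j))
          have h4 : y j * (y k * X) = X * y k := by
            rw [h3, ← mul_assoc, hy, one_mul]
          rw [← h4, hc k j, mul_assoc]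
        · rw [Pi.single_eq_of_ne (Ne.symm hki), zero_smul, add_zero, mkφ_single]
          rw [mul_inv_eq_iff_eq_mul]
          exact Subtype.ext (hrel.comm i.succ j.succ 0 k.succ hij' (hs k)
            (Fin.succ_ne_zero j) (fun h => hki (Fin.succ_injective r h).symm)))
      v
    exact h1) hlt
  have h3 := third hn 0 0
  obtain ⟨k, hk, -⟩ := h3
  apply all_mem (kN_norm hE ha) hn (Ne.symm hk)
  rw [mem_kN]
  refine ⟨hE (nel_mem_EN _ _), fun z => ?_⟩
  obtain ⟨j, rfl⟩ := Fin.exists_succ_eq.2 hk
  have h4 := htriv (Pi.single j 1) z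
  rw [mkφ_single] at h4
  have h5 : b (x 0 j.succ) z = z := h4
  rw [hx 0 j.succ (hs j), hba] at h5
  exact h5

end elem

end Pool.Agent.V7H7.SZ
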