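import Pool.Agent.H904R2.Sphere
import Pool.Agent.V7H7.SZ.Def

/-! Mod 2 cohomology of spaces whose integral homology is that of a sphere. -/

set_option autoImplicit false

namespace Pool.Agent.V7H7.SZ.Sph

open Finsupp Module
open Pool.Agent.H904R2 (Ch IsCyc IsBdy RAcyc psh evm Pc fund)
open Pool.Agent.Helper922.HB.Sc (Sing sface altd bd sbd ev_altd bd_single)

variable {X : Type} [TopologicalSpace X]

/-- mod 2 chains -/
abbrev C2 (X : Type) [TopologicalSpace X] (n : ℕ) : Type := Sing X n →₀ ZMod 2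

/-- mod 2 boundary -/
noncomputable def bd2 (X : Type) [TopologicalSpace X] (n : ℕ) :
    C2 X (n + 1) →ₗ[ZMod 2] C2 X n :=
  Finsupp.linearCombination (ZMod 2)
    (fun σ => ∑ i : Fin (n + 2), ((-1 : ZMod 2) ^ (i : ℕ)) • single (sface n i σ) (1 : ZMod 2))

/-- reduction mod 2 -/
noncomputable def red (X : Type) [TopologicalSpace X] (n : ℕ) : Ch X n →+ C2 X n :=
  Finsupp.mapRange.addMonoidHom (Int.castAddHom (ZMod 2))

theorem red_single (n : ℕ) (σ : Sing X n) (a : ℤ) :
    red X n (single σ a) = single σ (a : ZMod 2) := by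
  simp [red]

theorem red_zsmul (n : ℕ) (a : ℤ) (z : Ch X n) : red X n (a • z) = (a : ZMod 2) • red X n z := by
  rw [map_zsmul, Int.cast_smul_eq_zsmul]

theorem red_sbd (n : ℕ) (z : Ch X (n + 1)) : red X n (sbd X n z) = bd2 X n (red X (n + 1) z) := by
  induction z using Finsupp.induction_linear with
  | zero => simp only [map_zero]
  | add f g hf hg => rw [map_add, map_add, map_add, map_add, hf, hg]
  | single σ a =>
    have e : (single σ a : Ch X (n + 1)) = a • single σ 1 := by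
      rw [smul_single, smul_eq_mul, mul_one]
    rw [e, map_smul, red_zsmul, red_zsmul, map_smul]
    congr 1
    rw [red_single, Int.cast_one]
    unfold bd2
    rw [linearCombination_single, one_smul]
    change red X n (bd (sface (X := X)) n (single σ 1)) = _
    rw [bd_single, map_sum]
    refine Finset.sum_congr rfl fun i _ => ?_
    rw [red_zsmul, red_single, Int.cast_one]
    push_cast
    rfl

theorem red_surj (n : ℕ) (z : C2 X n) : ∃ c : Ch X n, red X n c = z := by
  have h : Function.Surjective (Int.cast : ℤ → ZMod 2) := ZMod.intCast_surjective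
  obtain ⟨c, hc⟩ := Finsupp.mapRange_surjective (α := Sing X n) (Int.cast : ℤ → ZMod 2)
    Int.cast_zero h z
  exact ⟨c, hc⟩

theorem red_ker (n : ℕ) (z : Ch X n) (hz : red X n z = 0) : ∃ w : Ch X n, z = (2 : ℤ) • w := by
  refine ⟨z.mapRange (fun a : ℤ => a / 2) (by norm_num), ?_⟩
  ext σ
  rw [Finsupp.smul_apply, mapRange_apply, smul_eq_mul]
  have h1 : ((z σ : ℤ) : ZMod 2) = 0 := by
    have h2 := congrArg (fun c : C2 X n => c σ) hz
    simpa [red] using h2
  have h2 : (2 : ℤ) ∣ z σ := by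
    have h3 := (ZMod.intCast_zmod_eq_zero_iff_dvd (z σ) 2).1 h1
    exact_mod_cast h3
  omega

/-- no 2-torsion -/
def NT (X : Type) [TopologicalSpace X] (k : ℕ) : Prop :=
  ∀ e : Ch X k, IsCyc k e → IsBdy k ((2 : ℤ) • e) → IsBdy k e

theorem two_smul_inj {k : ℕ} {z : Ch X k} (h : (2 : ℤ) • z = 0) : z = 0 := by
  ext σ
  have h2 := congrArg (fun c : Ch X k => c σ) h
  simp only [Finsupp.smul_apply, smul_eq_mul, coe_zero, Pi.zero_apply] at h2
  rw [coe_zero, Pi.zero_apply]
  omega

theorem lift_cyc {k : ℕ} (h : NT X k) (z : C2 X (k + 1)) (hz : bd2 X k z = 0) :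
    ∃ c : Ch X (k + 1), red X (k + 1) c = z ∧ sbd X k c = 0 := by
  obtain ⟨c0, hc0⟩ := red_surj (k + 1) z
  have h1 : red X k (sbd X k c0) = 0 := by rw [red_sbd, hc0, hz]
  obtain ⟨e, he⟩ := red_ker k _ h1
  have hcyc : IsCyc k (sbd X k c0) := Pool.Agent.H904R2.Sph.isCyc_sbd c0
  have hec : IsCyc k e := by
    rw [he] at hcyc
    rw [Pool.Agent.H904R2.Sph.isCyc_iff] at hcyc ⊢
    cases k with
    | zero =>
      have h2 : Pool.Agent.H904R2.Sph.aug X 0 ((2 : ℤ) • e) = 0 := hcyc
      rw [map_smul, smul_eq_mul] at h2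
      show Pool.Agent.H904R2.Sph.aug X 0 e = 0
      omega
    | succ k =>
      have h2 : sbd X k ((2 : ℤ) • e) = 0 := hcyc
      rw [map_smul] at h2
      exact two_smul_inj h2
  obtain ⟨w, hw⟩ := h e hec ⟨c0, he⟩
  refine ⟨c0 - (2 : ℤ) • w, ?_, ?_⟩
  · rw [map_sub, red_zsmul, hc0]
    have : ((2 : ℤ) : ZMod 2) = 0 := by decide
    rw [this, zero_smul, sub_zero]
  · rw [map_sub, map_smul, hw, he, sub_self]

theorem lc_red {n : ℕ} (f : Sing X n → ZMod 2) (c : Ch X n) :
    linearCombination (ZMod 2) f (red X n c) = evm f c := by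
  induction c using Finsupp.induction_linear with
  | zero => simp only [map_zero]
  | add f g hf hg => rw [map_add, map_add, map_add, hf, hg]
  | single σ a =>
    rw [red_single, linearCombination_single, linearCombination_single, smul_eq_mul, zsmul_eq_mul]

theorem exists_comp {V W : Type} [AddCommGroup V] [Module (ZMod 2) V] [AddCommGroup W]
    [Module (ZMod 2) W] (d : V →ₗ[ZMod 2] W) (F : V →ₗ[ZMod 2] ZMod 2)
    (h : LinearMap.ker d ≤ LinearMap.ker F) : ∃ G : W →ₗ[ZMod 2] ZMod 2, ∀ z, G (d z) = F z := by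
  obtain ⟨G, hG⟩ := LinearMap.exists_extend
    (((LinearMap.ker d).liftQ F h).comp (d.quotKerEquivRange.symm).toLinearMap)
  refine ⟨G, fun z => ?_⟩
  have h1 := LinearMap.congr_fun hG ⟨d z, LinearMap.mem_range_self d z⟩
  have h2 : G (d z) = (((LinearMap.ker d).liftQ F h).comp (d.quotKerEquivRange.symm).toLinearMap)
    ⟨d z, LinearMap.mem_range_self d z⟩ := h1
  rw [h2]
  change (LinearMap.ker d).liftQ F h (d.quotKerEquivRange.symm ⟨d z, _⟩) = F z
  rw [LinearMap.quotKerEquivRange_symm_apply_image]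
  rfl

theorem vanish {k : ℕ} (hN : NT X k) {φ : Ch X (k + 1)}
    (gen : ∀ z : Ch X (k + 1), sbd X k z = 0 → ∃ a : ℤ, IsBdy (k + 1) (z - a • φ))
    (f : Sing X (k + 1) → ZMod 2) (hf : altd (ZMod 2) (sface (X := X)) (k + 1) f = 0)
    (hφ : evm f φ = 0) : ∃ g, altd (ZMod 2) (sface (X := X)) k g = f := by
  obtain ⟨G, hG⟩ := exists_comp (bd2 X k) (linearCombination (ZMod 2) f) (by
    intro z hz
    rw [LinearMap.mem_ker] at hz ⊢
    obtain ⟨c, rfl, hc⟩ := lift_cyc hN z hz
    rw [lc_red]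
    obtain ⟨a, w, hw⟩ := gen c hc
    have h1 : c = a • φ + sbd X (k + 1) w := by
      rw [hw]
      abel
    have h2 : evm f (sbd X (k + 1) w) = 0 := by
      have h3 := ev_altd (k := ZMod 2) (sface (X := X)) (k + 1) f w
      rw [hf] at h3
      have h4 : Finsupp.linearCombination ℤ (0 : Sing X (k + 2) → ZMod 2) w = 0 := by
        rw [linearCombination_apply]
        simp
      rw [h4] at h3
      exact h3.symm
    rw [h1, map_add, map_smul, hφ, smul_zero, zero_add, h2])
  refine ⟨fun τ => G (single τ 1), ?_⟩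
  funext σ
  change ∑ i : Fin (k + 2), (-1 : ZMod 2) ^ (i : ℕ) * G (single (sface k i σ) 1) = f σ
  have h1 := hG (single σ 1)
  rw [linearCombination_single, one_smul] at h1
  rw [← h1]
  unfold bd2
  rw [linearCombination_single, one_smul, map_sum]
  refine Finset.sum_congr rfl fun i _ => ?_
  rw [map_smul, smul_eq_mul]

open Pool.Agent.Helper381 (SingularCohomology cocycles coboundaries)

theorem sub_of {n : ℕ} (h : ∀ f ∈ cocycles (ZMod 2) X n, f ∈ coboundaries (ZMod 2) X n) :
    Subsingleton (SingularCohomology (ZMod 2) X n) := by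
  have h1 : (coboundaries (ZMod 2) X n).submoduleOf (cocycles (ZMod 2) X n) = ⊤ := by
    rw [eq_top_iff]
    rintro ⟨f, hf⟩ -
    exact h f hf
  exact Submodule.Quotient.subsingleton_iff.2 h1

theorem rank_one {n : ℕ} (Φ : (Sing X n → ZMod 2) →ₗ[ZMod 2] ZMod 2)
    (h1 : ∀ f ∈ cocycles (ZMod 2) X n, Φ f = 0 ↔ f ∈ coboundaries (ZMod 2) X n)
    (h2 : ∃ f ∈ cocycles (ZMod 2) X n, Φ f = 1) :
    finrank (ZMod 2) (SingularCohomology (ZMod 2) X n) = 1 := by
  let Ψ : cocycles (ZMod 2) X n →ₗ[ZMod 2] ZMod 2 := Φ.comp (cocycles (ZMod 2) X n).subtype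
  have hk : (coboundaries (ZMod 2) X n).submoduleOf (cocycles (ZMod 2) X n) = LinearMap.ker Ψ := by
    ext ⟨f, hf⟩
    exact (h1 f hf).symm
  have hs : Function.Surjective Ψ := by
    intro a
    obtain ⟨f, hf, hf1⟩ := h2
    refine ⟨a • ⟨f, hf⟩, ?_⟩
    rw [map_smul]
    change a • Φ f = a
    rw [hf1, smul_eq_mul, mul_one]
  change finrank (ZMod 2) (cocycles (ZMod 2) X n ⧸
    (coboundaries (ZMod 2) X n).submoduleOf (cocycles (ZMod 2) X n)) = 1
  rw [hk, (Ψ.quotKerEquivOfSurjective hs).finrank_eq, finrank_self]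

end Pool.Agent.V7H7.SZ.Sph
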