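import Pool.Agent.V7H7.SZ.SmW

/-! The multiplicities of the weights of smooth actions on mod 2 homology spheres. -/

set_option autoImplicit false
set_option linter.unusedSectionVars false

namespace Pool.Agent.V7H7.SZ

open scoped Manifold ContDiff
open Module Pool.Agent.Helper381 Pool.Agent.H185.ZM

universe u v w

section

variable {S : ℕ → Type v} {face : ∀ n, Fin (n + 2) → S (n + 1) → S n}
  {P : Type w} [Group P] {act : P → ∀ n, S n → S n} [∀ n, Finite (S n)] [Finite P] {n : ℕ}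

/-- lower bound of the weights -/
theorem wt_lb' (M : Mod face act) (φ : Multiplicative (V2 n) →* P) {δ : ℕ} {c v : V2 n}
    (hv : c ⬝ᵥ v = 1) (hLB : LB (φ (Multiplicative.ofAdd v)) (Set.range φ) δ)
    (hc : wt M φ c ≠ 0) : (δ : ℤ) ≤ wt M φ c := by
  have hA : ElAb (insert (φ (Multiplicative.ofAdd v)) (ik φ c)) :=
    (elAb_range φ).subset (Set.insert_subset ⟨_, rfl⟩ (ik_subset φ c))
  have h1 := M.lb hA hLB (ik_subset φ c)
  rw [nu_ik_insert M φ hv] at h1
  unfold wt at hc ⊢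
  have h2 := h1 (fun h => hc (by rw [h]; simp))
  omega

theorem weights_f (M : Mod face act) (φ : Multiplicative (V2 n) →* P) :
    ∃ f : V2 n → ℕ, ∑ c, f c ≤ nu M.h ∅ ∧
      (∀ w : V2 n, (∀ c, f c ≠ 0 → c ⬝ᵥ w = 0) →
        nu M.h {φ (Multiplicative.ofAdd w)} = nu M.h ∅) ∧
      (∀ c, f c ≠ 0 → ∀ w : V2 n, φ (Multiplicative.ofAdd w) = 1 → c ⬝ᵥ w = 0) ∧
      (∀ (x : P) (σ : V2 n ≃ V2 n), (∀ v, x * φ (Multiplicative.ofAdd v) * x⁻¹ =
        φ (Multiplicative.ofAdd (σ v))) → ∀ c c' : V2 n, (∀ v, c' ⬝ᵥ σ v = c ⬝ᵥ v) →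
        f c' = f c) ∧
      ∀ (c v : V2 n) (δ : ℕ), c ⬝ᵥ v = 1 → LB (φ (Multiplicative.ofAdd v)) (Set.range φ) δ →
        f c ≠ 0 → δ ≤ f c := by
  classical
  have h0 : ∀ c, ((wt M φ c).toNat : ℤ) = wt M φ c := fun c =>
    Int.toNat_of_nonneg (wt_nonneg M φ c)
  have hne : ∀ c, (wt M φ c).toNat ≠ 0 → wt M φ c ≠ 0 := by
    intro c hc h
    rw [h] at hc
    exact hc rfl
  have hne' : ∀ c, wt M φ c ≠ 0 → (wt M φ c).toNat ≠ 0 := by
    intro c hc h
    have := h0 c
    rw [h] at this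
    exact hc this.symm
  refine ⟨fun c => (wt M φ c).toNat, ?_, ?_, ?_, ?_, ?_⟩
  · have h1 := wt_total M φ
    have h2 : ((∑ c : V2 n, (wt M φ c).toNat : ℕ) : ℤ) ≤ nu M.h ∅ := by
      rw [Nat.cast_sum]
      have h3 : ∑ c : V2 n, ((wt M φ c).toNat : ℤ) = ∑ c : V2 n, wt M φ c :=
        Finset.sum_congr rfl fun c _ => h0 c
      rw [h3, h1]
      have : (0 : ℤ) ≤ nu M.h (Set.range φ) := by positivity
      linarith
    exact_mod_cast h2
  · intro w hw
    exact nu_of_orth M φ w (fun c hc => hw c (hne' c hc))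
  · intro c hc w hw
    rcases v2_cases (c ⬝ᵥ w) with h1 | h1
    · exact h1
    · exfalso
      have h2 := nu_ik_insert M φ h1
      have h3 : insert (φ (Multiplicative.ofAdd w)) (ik φ c) = ik φ c := by
        apply Set.insert_eq_of_mem
        rw [hw]
        exact ⟨0, dotProduct_zero _, map_one φ⟩
      rw [h3] at h2
      apply hne c hc
      unfold wt
      rw [h2, sub_self]
  · intro x σ hσ c c' hc
    show (wt M φ c').toNat = (wt M φ c).toNat
    rw [wt_conj M φ x σ hσ c c' hc]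
  · intro c v δ hv hLB hc
    have h1 := wt_lb' M φ hv hLB (hne c hc)
    have h2 := h0 c
    show δ ≤ (wt M φ c).toNat
    omega

end

variable {E : Type} [NormedAddCommGroup E] [NormedSpace ℝ E] [FiniteDimensional ℝ E]
  {M : Type} [TopologicalSpace M] [ChartedSpace E M] [IsManifold 𝓘(ℝ, E) ∞ M]

/-- **The multiplicities of the weights of smooth actions.** -/
theorem smooth_weights_f [CompactSpace M] [T2Space M] [ConnectedSpace M]
    (hM : Mod2Sphere M (finrank ℝ E)) (hm : 0 < finrank ℝ E) {P : Type} [Group P] [Finite P]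
    {a : P → M → M} (ha : SmoothAction E a) {ι : Type} [Fintype ι] [DecidableEq ι]
    (φ : Multiplicative (ι → ZMod 2) →* P) :
    ∃ f : (ι → ZMod 2) → ℕ, ∑ c, f c ≤ finrank ℝ E + 1 ∧
      (∀ w : ι → ZMod 2, (∀ c, f c ≠ 0 → c ⬝ᵥ w = 0) →
        ∀ x, a (φ (Multiplicative.ofAdd w)) x = x) ∧
      (∀ c, f c ≠ 0 → ∀ w : ι → ZMod 2, φ (Multiplicative.ofAdd w) = 1 → c ⬝ᵥ w = 0) ∧
      (∀ (x : P) (σ : (ι → ZMod 2) ≃ (ι → ZMod 2)), (∀ v, x * φ (Multiplicative.ofAdd v) * x⁻¹ =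
        φ (Multiplicative.ofAdd (σ v))) → ∀ c c' : ι → ZMod 2, (∀ v, c' ⬝ᵥ σ v = c ⬝ᵥ v) →
        f c' = f c) ∧
      ∀ (c v : ι → ZMod 2) (δ : ℕ), c ⬝ᵥ v = 1 →
        LB (φ (Multiplicative.ofAdd v)) (Set.range φ) δ → f c ≠ 0 → δ ≤ f c := by
  classical
  obtain ⟨S, face, hfin, act, Mo, h0, htriv⟩ := smooth_model hM hm ha
  let e : ι ≃ Fin (Fintype.card ι) := Fintype.equivFin ι
  let L : (Fin (Fintype.card ι) → ZMod 2) →+ (ι → ZMod 2) :=
    { toFun := fun v i => v (e i)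
      map_zero' := rfl
      map_add' := fun _ _ => rfl }
  let φ' : Multiplicative (V2 (Fintype.card ι)) →* P := φ.comp (AddMonoidHom.toMultiplicative L)
  have hφ' : ∀ v, φ' (Multiplicative.ofAdd v) = φ (Multiplicative.ofAdd (L v)) := fun v => rfl
  have hdot : ∀ c v, L c ⬝ᵥ L v = c ⬝ᵥ v := by
    intro c v
    exact Equiv.sum_comp e (fun i => c i * v i)
  have hsurj : ∀ w : ι → ZMod 2, L (fun j => w (e.symm j)) = w := by
    intro w
    funext i
    change w (e.symm (e i)) = w i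
    rw [Equiv.symm_apply_apply]
  have hinj : Function.Injective L := by
    intro v w hvw
    funext j
    have h1 := congrFun hvw (e.symm j)
    change v (e (e.symm j)) = w (e (e.symm j)) at h1
    rwa [Equiv.apply_symm_apply] at h1
  have hrange : Set.range φ' = Set.range φ := by
    apply Set.Subset.antisymm
    · rintro _ ⟨v, rfl⟩
      exact ⟨_, rfl⟩
    · rintro _ ⟨v, rfl⟩
      refine ⟨Multiplicative.ofAdd (fun j => v.toAdd (e.symm j)), ?_⟩
      rw [hφ', hsurj]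
      rfl
  let LE : (Fin (Fintype.card ι) → ZMod 2) ≃ (ι → ZMod 2) :=
    { toFun := L
      invFun := fun w j => w (e.symm j)
      left_inv := fun v => hinj (hsurj _)
      right_inv := hsurj }
  have hLE : ∀ v, LE v = L v := fun v => rfl
  have hLEs : ∀ w, LE.symm w = fun j => w (e.symm j) := fun w => rfl
  have hLL : ∀ w, L (LE.symm w) = w := hsurj
  have hdot' : ∀ c w, LE.symm c ⬝ᵥ LE.symm w = c ⬝ᵥ w := by
    intro c w
    rw [← hdot, hLL, hLL]
  obtain ⟨f, hf1, hf2, hf3, hf4, hf5⟩ := weights_f Mo φ'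
  refine ⟨fun c => f (LE.symm c), ?_, ?_, ?_, ?_, ?_⟩
  · rw [← h0]
    refine le_trans (le_of_eq ?_) hf1
    exact Equiv.sum_comp LE.symm f
  · intro w hw x
    have h1 := hf2 (LE.symm w) (fun c hc => by
      have h2 := hw (LE c) (by
        show f (LE.symm (LE c)) ≠ 0
        rw [Equiv.symm_apply_apply]
        exact hc)
      rw [← hdot' (LE c) w, Equiv.symm_apply_apply] at h2
      exact h2)
    rw [hφ', hLL, h0] at h1
    refine htriv _ ?_ h1 x
    rw [← map_mul, ← ofAdd_add]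
    have h2 : w + w = 0 := by
      funext i
      exact CharTwo.add_self_eq_zero _
    rw [h2]
    exact map_one φ
  · intro c hc w hw
    have h1 := hf3 (LE.symm c) hc (LE.symm w) (by rw [hφ', hLL]; exact hw)
    rwa [hdot'] at h1
  · intro x σ hσ c c' hc
    let σ' : V2 (Fintype.card ι) ≃ V2 (Fintype.card ι) := (LE.trans σ).trans LE.symm
    have hσ' : ∀ v, L (σ' v) = σ (L v) := fun v => hLL _
    refine hf4 x σ' ?_ (LE.symm c) (LE.symm c') ?_
    · intro v
      rw [hφ', hφ', hσ', hσ]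
    · intro v
      rw [← hdot, hσ', hLL, hc, ← hdot, hLL]
  · intro c v δ hv hLB hc
    refine hf5 (LE.symm c) (LE.symm v) δ ?_ ?_ hc
    · rw [hdot']
      exact hv
    · rw [hφ', hLL, hrange]
      exact hLB

end Pool.Agent.V7H7.SZ
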