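import Pool.Agent.V7H7.SZ.Quat

/-! Lower bounds for the weights. -/

set_option autoImplicit false
set_option linter.unusedSectionVars false

namespace Pool.Agent.V7H7.SZ

open Module Pool.Agent.Helper381

universe u v w

section

variable {S : ℕ → Type v} {face : ∀ n, Fin (n + 2) → S (n + 1) → S n}
  {P : Type w} [Group P] {act : P → ∀ n, S n → S n}

/-- the action of the centralizer on the fixed simplices -/
def cAc (h : Act face act) (A : Set P) (p : Subgroup.centralizer A) (n : ℕ) (σ : Fx act A n) :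
    Fx act A n :=
  fxa h A p.1 (fun q hq => (Subgroup.mem_centralizer_iff.1 p.2 q hq).symm) n σ

theorem cAc_act (h : Act face act) (A : Set P) : Act (fxf h A) (cAc h A) := by
  refine ⟨fun n σ => ?_, fun p q n σ => ?_, fun p n i σ => ?_⟩
  · exact Subtype.ext (h.one n σ.1)
  · exact Subtype.ext (h.mul p.1 q.1 n σ.1)
  · exact Subtype.ext (h.fc p.1 n i σ.1)

variable [∀ n, Finite (S n)] [Finite P]

theorem Mod.ek (M : Mod face act) {A : Set P} {z : P} (hA : ElAb (insert z A)) :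
    ∃ hz : z ∈ Subgroup.centralizer A, ∀ n,
      hSub (EK_d (cAc_act M.h A) ⟨z, hz⟩ (Subgroup.zpowers ⟨z, hz⟩)) n =
        if nu M.h (insert z A) ≤ n ∧ n < nu M.h A then 1 else 0 := by
  have hz : z ∈ Subgroup.centralizer A :=
    Subgroup.mem_centralizer_iff.2 (fun q hq => (hA.comm z (by simp) q (by simp [hq])).symm)
  refine ⟨hz, fun n => ?_⟩
  obtain ⟨-, -, h3⟩ := M.insert_le hA (M.isSph (hA.subset (Set.subset_insert _ _)))
  rw [← h3 n]
  have h4 : (fun n => EK (cAc M.h A) ⟨z, hz⟩ (Subgroup.zpowers ⟨z, hz⟩) n) =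
      fun n => Isub (cAc M.h A ⟨z, hz⟩) n := by
    funext n
    exact EK_z (cAc_act M.h A) ⟨z, hz⟩ n
  exact hSub_congr (face := fxf M.h A) h4 _
    (fun n => Isub_d (fxf M.h A) (cAc M.h A ⟨z, hz⟩) (fun n i σ => (cAc_act M.h A).fc _ n i σ) n) n

theorem Mod.lb_four (M : Mod face act) {A : Set P} {z x : P} (hA : ElAb (insert z A))
    (hx : ∀ q ∈ A, x * q = q * x) (hxx : x * x = z)
    (hne : nu M.h (insert z A) ≠ nu M.h A) : nu M.h (insert z A) + 2 ≤ nu M.h A := by
  obtain ⟨N, hN⟩ := M.bd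
  obtain ⟨hz, h1⟩ := M.ek hA
  have hlt : nu M.h (insert z A) < nu M.h A := lt_of_le_of_ne (M.nu_insert_le hA) hne
  have hxA : x ∈ Subgroup.centralizer A :=
    Subgroup.mem_centralizer_iff.2 (fun q hq => (hx q hq).symm)
  exact (step_four (cAc_act M.h A) (fxf_ff M.h M.hf A) (N := N) (fun n hn => by
    have := hN n hn
    exact ⟨fun σ => IsEmpty.false σ.1⟩) (x := ⟨x, hxA⟩) (z := ⟨z, hz⟩)
    (Subtype.ext (hA.sq z (by simp))) (Subtype.ext hxx) hlt h1).1

theorem Mod.lb_quat (M : Mod face act) {A : Set P} {z x y : P} (hA : ElAb (insert z A))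
    (hx : ∀ q ∈ A, x * q = q * x) (hy : ∀ q ∈ A, y * q = q * y) (hxx : x * x = z)
    (hyy : y * y = z) (hyx : y * x * y⁻¹ = x⁻¹)
    (hne : nu M.h (insert z A) ≠ nu M.h A) : nu M.h (insert z A) + 4 ≤ nu M.h A := by
  obtain ⟨N, hN⟩ := M.bd
  obtain ⟨hz, h1⟩ := M.ek hA
  have hlt : nu M.h (insert z A) < nu M.h A := lt_of_le_of_ne (M.nu_insert_le hA) hne
  have hxA : x ∈ Subgroup.centralizer A :=
    Subgroup.mem_centralizer_iff.2 (fun q hq => (hx q hq).symm)
  have hyA : y ∈ Subgroup.centralizer A :=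
    Subgroup.mem_centralizer_iff.2 (fun q hq => (hy q hq).symm)
  exact step_quat (cAc_act M.h A) (fxf_ff M.h M.hf A) (N := N) (fun n hn => by
    have := hN n hn
    exact ⟨fun σ => IsEmpty.false σ.1⟩) (x := ⟨x, hxA⟩) (y := ⟨y, hyA⟩) (z := ⟨z, hz⟩)
    (Subtype.ext (hA.sq z (by simp))) (Subtype.ext hxx) (Subtype.ext hyy) (Subtype.ext hyx)
    hlt h1

variable {n : ℕ}

theorem nu_ik_insert (M : Mod face act) (φ : Multiplicative (V2 n) →* P) {c v : V2 n}
    (hv : c ⬝ᵥ v = 1) :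
    nu M.h (insert (φ (Multiplicative.ofAdd v)) (ik φ c)) = nu M.h (Set.range φ) := by
  apply nu_congr M.h M.hf
  intro m σ
  constructor
  · rintro h3 _ ⟨x, rfl⟩
    rcases v2_cases (c ⬝ᵥ x.toAdd) with h4 | h4
    · exact h3 _ (Or.inr ⟨x.toAdd, h4, rfl⟩)
    · have h5 : c ⬝ᵥ (x.toAdd + v) = 0 := by
        rw [dotProduct_add, h4, hv]
        decide
      have h6 : x = Multiplicative.ofAdd (x.toAdd + v) * Multiplicative.ofAdd v := by
        rw [← ofAdd_add]
        apply Multiplicative.toAdd.injective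
        change x.toAdd = x.toAdd + v + v
        funext i
        simp only [Pi.add_apply]
        rw [add_assoc, CharTwo.add_self_eq_zero, add_zero]
      rw [h6, map_mul, M.h.mul, h3 _ (Or.inl rfl), h3 _ (Or.inr ⟨_, h5, rfl⟩)]
  · rintro h3 q (rfl | hq)
    · exact h3 _ ⟨_, rfl⟩
    · exact h3 q (ik_subset φ c hq)

theorem exists_single {c : V2 n} (hc : c ≠ 0) : ∃ i, c ⬝ᵥ (Pi.single i 1 : V2 n) = 1 := by
  have hex : ∃ i, c i ≠ 0 := by
    by_contra hcon
    push Not at hcon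
    exact hc (funext hcon)
  obtain ⟨i, hi⟩ := hex
  refine ⟨i, ?_⟩
  rw [dotProduct_single, mul_one]
  rcases v2_cases (c i) with h1 | h1
  · exact absurd h1 hi
  · exact h1

/-- the lower bound of the weights -/
theorem wt_lb (M : Mod face act) (φ : Multiplicative (V2 n) →* P) (δ : ℕ)
    (hd : ∀ (A : Set P) (i : Fin n), A ⊆ Set.range φ →
      nu M.h (insert (φ (Multiplicative.ofAdd (Pi.single i 1))) A) ≠ nu M.h A →
      nu M.h (insert (φ (Multiplicative.ofAdd (Pi.single i 1))) A) + δ ≤ nu M.h A) (c : V2 n)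
    (hc : wt M φ c ≠ 0) : (δ : ℤ) ≤ wt M φ c := by
  by_cases hc0 : c = 0
  · rw [hc0, wt_zero] at hc
    exact absurd rfl hc
  · obtain ⟨i, hv⟩ := exists_single hc0
    have h1 := hd (ik φ c) i (ik_subset φ c)
    rw [nu_ik_insert M φ hv] at h1
    unfold wt at hc ⊢
    have h2 := h1 (fun h => hc (by rw [h]; simp))
    omega

/-- **The weights.** -/
theorem weights (M : Mod face act) (φ : Multiplicative (V2 n) →* P) (δ : ℕ)
    (hd : ∀ (A : Set P) (i : Fin n), A ⊆ Set.range φ →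
      nu M.h (insert (φ (Multiplicative.ofAdd (Pi.single i 1))) A) ≠ nu M.h A →
      nu M.h (insert (φ (Multiplicative.ofAdd (Pi.single i 1))) A) + δ ≤ nu M.h A) :
    ∃ T : Finset (V2 n), δ * T.card ≤ nu M.h ∅ ∧
      (∀ w : V2 n, (∀ c ∈ T, c ⬝ᵥ w = 0) → nu M.h {φ (Multiplicative.ofAdd w)} = nu M.h ∅) ∧
      (∀ c ∈ T, ∀ w : V2 n, φ (Multiplicative.ofAdd w) = 1 → c ⬝ᵥ w = 0) ∧
      ∀ (x : P) (σ : V2 n ≃ V2 n), (∀ v, x * φ (Multiplicative.ofAdd v) * x⁻¹ =
        φ (Multiplicative.ofAdd (σ v))) → ∀ c c' : V2 n, (∀ v, c' ⬝ᵥ σ v = c ⬝ᵥ v) →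
        c ∈ T → c' ∈ T := by
  classical
  refine ⟨Finset.univ.filter fun c : V2 n => wt M φ c ≠ 0, ?_, ?_, ?_, ?_⟩
  · have h1 := wt_total M φ
    have h2 : (δ : ℤ) * (Finset.univ.filter fun c : V2 n => wt M φ c ≠ 0).card ≤
        ∑ c : V2 n, wt M φ c := by
      rw [← Finset.sum_filter_ne_zero, mul_comm, ← nsmul_eq_mul]
      apply Finset.card_nsmul_le_sum
      intro c hc
      rw [Finset.mem_filter] at hc
      exact wt_lb M φ δ hd c hc.2
    have h3 : (δ : ℤ) * (Finset.univ.filter fun c : V2 n => wt M φ c ≠ 0).card ≤ nu M.h ∅ := by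
      rw [h1] at h2
      have : (0 : ℤ) ≤ nu M.h (Set.range φ) := by positivity
      linarith
    exact_mod_cast h3
  · intro w hw
    exact nu_of_orth M φ w (fun c hc => hw c (Finset.mem_filter.2 ⟨Finset.mem_univ _, hc⟩))
  · intro c hc w hw
    rcases v2_cases (c ⬝ᵥ w) with h1 | h1
    · exact h1
    · exfalso
      have h2 := nu_ik_insert M φ h1
      have h3 : insert (φ (Multiplicative.ofAdd w)) (ik φ c) = ik φ c := by
        apply Set.insert_eq_of_mem
        rw [hw]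
        exact ⟨0, dotProduct_zero _, map_one φ⟩
      rw [h3] at h2
      apply (Finset.mem_filter.1 hc).2
      unfold wt
      rw [h2, sub_self]
  · intro x σ hσ c c' hc hcT
    rw [Finset.mem_filter] at hcT ⊢
    refine ⟨Finset.mem_univ _, ?_⟩
    rw [wt_conj M φ x σ hσ c c' hc]
    exact hcT.2

end

end Pool.Agent.V7H7.SZ
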