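import Pool.Agent.V7H7.SZ.Ind

/-! The dimension function and the weights of an elementary abelian 2-group acting on a finite
semisimplicial set with the mod 2 cohomology of a sphere. -/

set_option autoImplicit false
set_option linter.unusedSectionVars false

namespace Pool.Agent.V7H7.SZ

open Module Pool.Agent.Helper381

universe u v w

/-- commuting involutions -/
structure ElAb {P : Type w} [Group P] (A : Set P) : Prop where
  sq : ∀ p ∈ A, p * p = 1
  comm : ∀ p ∈ A, ∀ q ∈ A, p * q = q * p

section

variable {P : Type w} [Group P]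

theorem ElAb.subset {A B : Set P} (h : ElAb B) (hAB : A ⊆ B) : ElAb A :=
  ⟨fun p hp => h.sq p (hAB hp), fun p hp q hq => h.comm p (hAB hp) q (hAB hq)⟩

theorem ElAb.insert_mul {A : Set P} {g h : P} (hA : ElAb (insert g (insert h A))) :
    ElAb (insert (h * g) (insert g (insert h A))) := by
  have hg : g ∈ insert g (insert h A) := by simp
  have hh : h ∈ insert g (insert h A) := by simp
  have key : ∀ q ∈ insert g (insert h A), h * g * q = q * (h * g) := fun q hq => by
    rw [mul_assoc, hA.comm g hg q hq, ← mul_assoc, hA.comm h hh q hq, mul_assoc]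
  have hsq : h * g * (h * g) = 1 := by
    rw [mul_assoc, ← mul_assoc g, hA.comm g hg h hh, mul_assoc, hA.sq g hg, mul_one, hA.sq h hh]
  refine ⟨?_, ?_⟩
  · rintro p (rfl | hp)
    · exact hsq
    · exact hA.sq p hp
  · rintro p (rfl | hp) q (rfl | hq)
    · rfl
    · exact key q hq
    · exact (key p hp).symm
    · exact hA.comm p hp q hq

end

section

variable {S : ℕ → Type v} {face : ∀ n, Fin (n + 2) → S (n + 1) → S n}
  {P : Type w} [Group P] {act : P → ∀ n, S n → S n} [∀ n, Finite (S n)]

/-- the dimension function -/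
noncomputable def nu (h : Act face act) (A : Set P) : ℕ := by
  classical
  exact if hc : ∃ c, IsSph (fxf h A) c then hc.choose else 0

theorem nu_eq (h : Act face act) {A : Set P} {c : ℕ} (hc : IsSph (fxf h A) c) : nu h A = c := by
  classical
  have hc' : ∃ c, IsSph (fxf h A) c := ⟨c, hc⟩
  have h1 : nu h A = hc'.choose := by
    unfold nu
    rw [dif_pos hc']
  rw [h1]
  exact IsSph.unique _ hc'.choose_spec hc

/-- the data of the simplicial model of an action on a sphere -/
structure Mod (face : ∀ n, Fin (n + 2) → S (n + 1) → S n) (act : P → ∀ n, S n → S n) : Prop where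
  h : Act face act
  hf : FF face
  bd : ∃ N, ∀ n, N ≤ n → IsEmpty (S n)
  sph : ∃ a, IsSph (fxf h (∅ : Set P)) a

variable [Finite P]

theorem Mod.insert_le (M : Mod face act) {A : Set P} {z : P} (hA : ElAb (insert z A))
    (hs : IsSph (fxf M.h A) (nu M.h A)) :
    nu M.h (insert z A) ≤ nu M.h A ∧ IsSph (fxf M.h (insert z A)) (nu M.h (insert z A)) ∧
      ∀ n, hE (fxf M.h A) (fxa M.h A z fun q hq => hA.comm z (by simp) q (by simp [hq]))
        (fxa_invol M.h A z _ (hA.sq z (by simp))).gf n =
          if nu M.h (insert z A) ≤ n ∧ n < nu M.h A then 1 else 0 := by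
  obtain ⟨N, hN⟩ := M.bd
  obtain ⟨c, hca, hc, hce⟩ := smith_fx M.h M.hf hN A (insert z A) (Set.subset_insert _ _) z
    (fun q hq => hA.comm z (by simp) q (by simp [hq])) (hA.sq z (by simp)) (by
      intro n σ
      constructor
      · rintro h1 q (rfl | hq)
        · exact h1
        · exact σ.2 q hq
      · intro h1
        exact h1 z (Set.mem_insert _ _)) hs
  have h1 := nu_eq M.h hc
  rw [h1]
  exact ⟨hca, hc, hce⟩

theorem Mod.isSph (M : Mod face act) {A : Set P} (hA : ElAb A) :
    IsSph (fxf M.h A) (nu M.h A) := by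
  classical
  have hfin : A.Finite := Set.toFinite A
  induction A, hfin using Set.Finite.induction_on with
  | empty =>
    obtain ⟨a, ha⟩ := M.sph
    rw [nu_eq M.h ha]
    exact ha
  | insert _ _ ih =>
    exact (M.insert_le hA (ih (hA.subset (Set.subset_insert _ _)))).2.1

theorem Mod.nu_insert_le (M : Mod face act) {A : Set P} {z : P} (hA : ElAb (insert z A)) :
    nu M.h (insert z A) ≤ nu M.h A :=
  (M.insert_le hA (M.isSph (hA.subset (Set.subset_insert _ _)))).1

theorem Mod.nu_mono (M : Mod face act) {A B : Set P} (hAB : A ⊆ B) (hB : ElAb B) :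
    nu M.h B ≤ nu M.h A := by
  classical
  have hfin : B.Finite := Set.toFinite B
  have key : ∀ C : Set P, C.Finite → ElAb (C ∪ A) → nu M.h (C ∪ A) ≤ nu M.h A := by
    intro C hC
    induction C, hC using Set.Finite.induction_on with
    | empty => intro _; rw [Set.empty_union]
    | insert _ _ ih =>
      intro h1
      rw [Set.insert_union] at h1 ⊢
      exact (M.nu_insert_le h1).trans (ih (h1.subset (Set.subset_insert _ _)))
  have h1 := key B hfin (by rw [Set.union_eq_self_of_subset_right hAB]; exact hB)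
  rwa [Set.union_eq_self_of_subset_right hAB] at h1

theorem nu_congr (h : Act face act) (hf : FF face) {A B : Set P}
    (hAB : ∀ n (σ : S n), (∀ p ∈ A, act p n σ = σ) ↔ ∀ p ∈ B, act p n σ = σ) :
    nu h A = nu h B := by
  classical
  have key : ∀ A B : Set P, (∀ n (σ : S n), (∀ p ∈ A, act p n σ = σ) ↔
      ∀ p ∈ B, act p n σ = σ) → ∀ c, IsSph (fxf h A) c → IsSph (fxf h B) c := by
    intro A B hAB c hc n
    rw [← hc n]
    symm
    let e : ∀ n, Fx act A n ≃ Fx act B n := fun n =>
      { toFun := fun σ => ⟨σ.1, (hAB n σ.1).1 σ.2⟩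
        invFun := fun σ => ⟨σ.1, (hAB n σ.1).2 σ.2⟩
        left_inv := fun σ => rfl
        right_inv := fun σ => rfl }
    exact hS_congr (fxf_ff h hf _) (fxf_ff h hf _) e (fun n i σ => rfl) n
  by_cases hc : ∃ c, IsSph (fxf h A) c
  · obtain ⟨c, hc⟩ := hc
    rw [nu_eq h hc, nu_eq h (key A B hAB c hc)]
  · have hc' : ¬ ∃ c, IsSph (fxf h B) c := by
      rintro ⟨c, hc'⟩
      exact hc ⟨c, key B A (fun n σ => (hAB n σ).symm) c hc'⟩
    unfold nu
    rw [dif_neg hc, dif_neg hc']

theorem nu_conj (h : Act face act) (hf : FF face) {A B : Set P} (x : P)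
    (hAB : ∀ q, q ∈ A ↔ x * q * x⁻¹ ∈ B) : nu h A = nu h B := by
  classical
  have key : ∀ (A B : Set P) (x : P), (∀ q, q ∈ A ↔ x * q * x⁻¹ ∈ B) →
      ∀ c, IsSph (fxf h A) c → IsSph (fxf h B) c := by
    intro A B x hAB c hc n
    rw [← hc n]
    symm
    have hx1 : ∀ n σ, act x⁻¹ n (act x n σ) = σ := fun n σ => by
      rw [← h.mul, inv_mul_cancel, h.one]
    have hx2 : ∀ n σ, act x n (act x⁻¹ n σ) = σ := fun n σ => by
      rw [← h.mul, mul_inv_cancel, h.one]
    let e : ∀ n, Fx act A n ≃ Fx act B n := fun n =>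
      { toFun := fun σ => ⟨act x n σ.1, fun q hq => by
          have h1 : x⁻¹ * q * x ∈ A := by
            rw [hAB]
            have : x * (x⁻¹ * q * x) * x⁻¹ = q := by group
            rw [this]
            exact hq
          have h2 := σ.2 _ h1
          rw [h.mul, h.mul] at h2
          rw [← hx2 n (act q n (act x n σ.1)), h2]⟩
        invFun := fun σ => ⟨act x⁻¹ n σ.1, fun q hq => by
          have h1 := (hAB q).1 hq
          have h2 := σ.2 _ h1
          rw [h.mul, h.mul] at h2
          rw [← hx1 n (act q n (act x⁻¹ n σ.1)), h2]⟩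
        left_inv := fun σ => Subtype.ext (hx1 n σ.1)
        right_inv := fun σ => Subtype.ext (hx2 n σ.1) }
    exact hS_congr (fxf_ff h hf _) (fxf_ff h hf _) e
      (fun n i σ => Subtype.ext (h.fc x n i σ.1)) n
  have hBA : ∀ q, q ∈ B ↔ x⁻¹ * q * x⁻¹⁻¹ ∈ A := by
    intro q
    rw [hAB]
    have : x * (x⁻¹ * q * x⁻¹⁻¹) * x⁻¹ = q := by group
    rw [this]
  by_cases hc : ∃ c, IsSph (fxf h A) c
  · obtain ⟨c, hc⟩ := hc
    rw [nu_eq h hc, nu_eq h (key A B x hAB c hc)]
  · have hc' : ¬ ∃ c, IsSph (fxf h B) c := by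
      rintro ⟨c, hc'⟩
      exact hc ⟨c, key B A x⁻¹ hBA c hc'⟩
    unfold nu
    rw [dif_neg hc, dif_neg hc']

/-- **The formula for Klein four groups.** -/
theorem Mod.klein (M : Mod face act) {A : Set P} {g b : P} (hA : ElAb (insert g (insert b A))) :
    nu M.h A + 2 * nu M.h (insert g (insert b A)) =
      nu M.h (insert g A) + nu M.h (insert b A) + nu M.h (insert (b * g) A) := by
  obtain ⟨N, hN⟩ := M.bd
  have hAb := hA.insert_mul
  have hg : g ∈ insert g (insert b A) := by simp
  have hb : b ∈ insert g (insert b A) := by simp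
  have hgb : g * b = b * g := hA.comm g hg b hb
  have s0 : ElAb A := hA.subset (fun x hx => by simp [hx])
  have s1 : ElAb (insert g A) := hA.subset (by
    rintro x (rfl | hx)
    · simp
    · simp [hx])
  have s2 : ElAb (insert b A) := hA.subset (Set.subset_insert _ _)
  have s3 : ElAb (insert (b * g) A) := hAb.subset (by
    rintro x (rfl | hx)
    · simp
    · simp [hx])
  have s4 : ElAb (insert g (insert (b * g) A)) := hAb.subset (by
    rintro x (rfl | rfl | hx)
    · simp
    · simp
    · simp [hx])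
  have i0 := M.isSph s0
  have i1 := M.insert_le s1 i0
  have i2 := M.insert_le s2 i0
  have i3 := M.insert_le s3 i0
  have i4 := M.insert_le hA i2.2.1
  have i5 := M.insert_le s4 i3.2.1
  have hcong : nu M.h (insert g (insert (b * g) A)) = nu M.h (insert g (insert b A)) := by
    apply nu_congr M.h M.hf
    intro n σ
    constructor
    · rintro h1 q (rfl | rfl | hq)
      · exact h1 _ (by simp)
      · have h2 := h1 g (by simp)
        have h3 := h1 (q * g) (by simp)
        rw [M.h.mul, h2] at h3
        exact h3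
      · exact h1 q (by simp [hq])
    · rintro h1 q (rfl | rfl | hq)
      · exact h1 _ (by simp)
      · rw [M.h.mul, h1 g (by simp), h1 b (by simp)]
      · exact h1 q (by simp [hq])
  have gen : ∀ (A : Set P) (z : P) (n : ℕ) (σ : Fx act A n),
      act z n σ.1 = σ.1 ↔ ∀ q ∈ insert z A, act q n σ.1 = σ.1 := by
    intro A z n σ
    constructor
    · rintro h1 q (rfl | hq)
      · exact h1
      · exact σ.2 q hq
    · intro h1
      exact h1 z (Set.mem_insert _ _)
  have hgA : ∀ q ∈ A, g * q = q * g := fun q hq => hA.comm g hg q (by simp [hq])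
  have hbA : ∀ q ∈ A, b * q = q * b := fun q hq => hA.comm b hb q (by simp [hq])
  have hgF : ∀ q ∈ insert b A, g * q = q * g := fun q hq =>
    hA.comm g hg q (Set.mem_insert_of_mem _ hq)
  have hgK : ∀ q ∈ insert (b * g) A, g * q = q * g := fun q hq =>
    s4.comm g (by simp) q (Set.mem_insert_of_mem _ hq)
  have hbor := borel_formula (fxf_ff M.h M.hf A) (fxa_invol M.h A g hgA (hA.sq g hg))
    (fxa_invol M.h A b hbA (hA.sq b hb))
    (fun n σ => Subtype.ext (by
      change act g n (act b n σ.1) = act b n (act g n σ.1)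
      rw [← M.h.mul, ← M.h.mul, hgb]))
    (fxi_sub M.h (Set.subset_insert b A) g hgA hgF)
    (fxi_sub M.h (Set.subset_insert (b * g) A) g hgA hgK)
    (fun n σ => by
      constructor
      · intro h1
        have h3 : act b n σ.1 = σ.1 := congrArg Subtype.val h1
        exact ⟨⟨σ.1, (gen A b n σ).1 h3⟩, rfl⟩
      · rintro ⟨τ, rfl⟩
        exact Subtype.ext (τ.2 b (Set.mem_insert _ _)))
    (fun n σ => by
      constructor
      · intro h1
        have h3 : act b n (act g n σ.1) = σ.1 := congrArg Subtype.val h1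
        rw [← M.h.mul] at h3
        exact ⟨⟨σ.1, (gen A (b * g) n σ).1 h3⟩, rfl⟩
      · rintro ⟨τ, rfl⟩
        apply Subtype.ext
        change act b n (act g n τ.1) = τ.1
        rw [← M.h.mul]
        exact τ.2 (b * g) (Set.mem_insert _ _))
    (N := N) (fun n hn => by
      have := hN n hn
      exact ⟨fun σ => IsEmpty.false σ.1⟩)
    i0 i1.2.2 i4.2.2 i5.2.2 i2.1 i3.1
  have := i1.1
  have := i2.1
  have := i3.1
  have := i4.1
  have := i5.1
  omega

end

end Pool.Agent.V7H7.SZ
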