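import Pool.Agent.Helper381.Small
import Pool.Agent.Helper381.Order

/-! The comparison of the cohomology of an order complex with singular cohomology, as a relation
which is compatible with restrictions. -/

set_option autoImplicit false
set_option linter.unusedSectionVars false

namespace Pool.Agent.V7H7.SZ

open Module Pool.Agent.Helper381

universe u v w

section abstractDouble

variable {k : Type u} [CommRing k]
  {A : ℕ → Type v} [∀ n, AddCommGroup (A n)] [∀ n, Module k (A n)]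
  {D : ℕ → ℕ → Type v} [∀ p q, AddCommGroup (D p q)] [∀ p q, Module k (D p q)]

/-- `x` is connected with `α` by a zigzag -/
def Gz (d1 : ∀ p q, D p q →ₗ[k] D (p + 1) q) (d2 : ∀ p q, D p q →ₗ[k] D p (q + 1))
    (ε : ∀ q, A q →ₗ[k] D 0 q) (α : ∀ n, A n) : (p q : ℕ) → D p q → Prop
  | 0, q, x => d2 0 q x = ε (q + 1) (α (q + 1))
  | p + 1, q, x => ∃ x' : D p (q + 1), d1 p (q + 1) x' = d2 (p + 1) q x ∧
      Gz d1 d2 ε α p (q + 1) x'

theorem gz_exists (dA : ∀ n, A n →ₗ[k] A (n + 1))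
    (d1 : ∀ p q, D p q →ₗ[k] D (p + 1) q) (d2 : ∀ p q, D p q →ₗ[k] D p (q + 1))
    (ε : ∀ q, A q →ₗ[k] D 0 q)
    (d22 : ∀ p q x, d2 p (q + 1) (d2 p q x) = 0)
    (d12 : ∀ p q x, d1 p (q + 1) (d2 p q x) = d2 (p + 1) q (d1 p q x))
    (εd : ∀ q x, d2 0 q (ε q x) = ε (q + 1) (dA q x))
    (εinj : ∀ q, Function.Injective (ε q))
    (εex : ∀ q x, d1 0 q x = 0 → ∃ a, ε q a = x)
    (ex1 : ∀ p q x, d1 (p + 1) q x = 0 → ∃ y, d1 p q y = x) :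
    ∀ p q x, d1 p (q + 1) (d2 p q x) = 0 → ∃ α : ∀ n, A n, (∀ n, dA n (α n) = 0) ∧
      Gz d1 d2 ε α p q x := by
  classical
  intro p
  induction p with
  | zero =>
    intro q x hx
    obtain ⟨a, ha⟩ := εex _ _ hx
    refine ⟨Function.update (fun n => (0 : A n)) (q + 1) a, fun n => ?_, ?_⟩
    · by_cases hn : n = q + 1
      · subst hn
        rw [Function.update_self]
        apply εinj
        rw [← εd, ha, d22, map_zero]
      · rw [Function.update_of_ne hn]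
        exact map_zero _
    · show d2 0 q x = ε (q + 1) (Function.update (fun n => (0 : A n)) (q + 1) a (q + 1))
      rw [Function.update_self, ha]
  | succ p ih =>
    intro q x hx
    obtain ⟨x', hx'⟩ := ex1 p (q + 1) (d2 (p + 1) q x) hx
    obtain ⟨α, hα, hG⟩ := ih (q + 1) x' (by rw [d12, hx', d22])
    exact ⟨α, hα, x', hx', hG⟩

theorem gz_split (dA : ∀ n, A n →ₗ[k] A (n + 1))
    (d1 : ∀ p q, D p q →ₗ[k] D (p + 1) q) (d2 : ∀ p q, D p q →ₗ[k] D p (q + 1))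
    (ε : ∀ q, A q →ₗ[k] D 0 q)
    (d11 : ∀ p q x, d1 (p + 1) q (d1 p q x) = 0)
    (d12 : ∀ p q x, d1 p (q + 1) (d2 p q x) = d2 (p + 1) q (d1 p q x))
    (εd : ∀ q x, d2 0 q (ε q x) = ε (q + 1) (dA q x))
    (ε0 : ∀ q x, d1 0 q (ε q x) = 0)
    (ex2 : ∀ p q x, d2 p (q + 1) x = 0 → ∃ y, d2 p q y = x)
    (α g : ∀ n, A n) :
    ∀ p q x, (∀ n, n = p + q → α (n + 1) = dA n (g n)) → Gz d1 d2 ε α p q x →
      ∃ u v, u + v = x ∧ d1 p q u = 0 ∧ d2 p q v = 0 := by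
  intro p
  induction p with
  | zero =>
    intro q x hα hG
    have h1 : d2 0 q x = ε (q + 1) (α (q + 1)) := hG
    refine ⟨ε q (g q), x - ε q (g q), by abel, ε0 _ _, ?_⟩
    rw [map_sub, h1, hα q (by omega), εd, sub_self]
  | succ p ih =>
    intro q x hα hG
    obtain ⟨x', hx', hG'⟩ := hG
    obtain ⟨u, v, huv, hu, hv⟩ := ih (q + 1) x' (fun n hn => hα n (by omega)) hG'
    obtain ⟨w, hw⟩ := ex2 p q v hv
    refine ⟨d1 p q w, x - d1 p q w, by abel, d11 _ _ _, ?_⟩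
    rw [map_sub, ← hx', ← huv, map_add, hu, zero_add, ← hw, d12, sub_self]

variable {A' : ℕ → Type v} [∀ n, AddCommGroup (A' n)] [∀ n, Module k (A' n)]
  {D' : ℕ → ℕ → Type v} [∀ p q, AddCommGroup (D' p q)] [∀ p q, Module k (D' p q)]

theorem gz_map (d1 : ∀ p q, D p q →ₗ[k] D (p + 1) q) (d2 : ∀ p q, D p q →ₗ[k] D p (q + 1))
    (ε : ∀ q, A q →ₗ[k] D 0 q)
    (d1' : ∀ p q, D' p q →ₗ[k] D' (p + 1) q) (d2' : ∀ p q, D' p q →ₗ[k] D' p (q + 1))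
    (ε' : ∀ q, A' q →ₗ[k] D' 0 q) (rA : ∀ n, A n → A' n) (rD : ∀ p q, D p q → D' p q)
    (h1 : ∀ p q x, d1' p q (rD p q x) = rD (p + 1) q (d1 p q x))
    (h2 : ∀ p q x, d2' p q (rD p q x) = rD p (q + 1) (d2 p q x))
    (hε : ∀ q a, ε' q (rA q a) = rD 0 q (ε q a)) (α : ∀ n, A n) :
    ∀ p q x, Gz d1 d2 ε α p q x → Gz d1' d2' ε' (fun n => rA n (α n)) p q (rD p q x) := by
  intro p
  induction p with
  | zero =>
    intro q x hG
    have h3 : d2 0 q x = ε (q + 1) (α (q + 1)) := hG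
    show d2' 0 q (rD 0 q x) = ε' (q + 1) (rA (q + 1) (α (q + 1)))
    rw [h2, h3, hε]
  | succ p ih =>
    intro q x hG
    obtain ⟨x', hx', hG'⟩ := hG
    exact ⟨rD p (q + 1) x', by rw [h1, hx', h2], ih (q + 1) x' hG'⟩

end abstractDouble

section concrete

variable {k : Type v} [CommRing k] {X : Type u} [TopologicalSpace X] (𝒞 : Set (Set X))

/-- first differential -/
noncomputable def e1 (k : Type v) [CommRing k] (𝒞 : Set (Set X)) (p q : ℕ) :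
    (ZZ 𝒞 p q → k) →ₗ[k] (ZZ 𝒞 (p + 1) q → k) :=
  altd k (S := fun p => ZZ 𝒞 p q) (fun p => face1 q p) p

/-- second differential -/
noncomputable def e2 (k : Type v) [CommRing k] (𝒞 : Set (Set X)) (p q : ℕ) :
    (ZZ 𝒞 p q → k) →ₗ[k] (ZZ 𝒞 p (q + 1) → k) :=
  altd k (S := fun q => ZZ 𝒞 p q) (fun q => face2 p q) q

/-- augmentation -/
def eA (k : Type v) [CommRing k] (𝒞 : Set (Set X)) (q : ℕ) :
    (Small 𝒞 q → k) →ₗ[k] (ZZ 𝒞 0 q → k) where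
  toFun := fun f z => f ⟨z.1.2, z.1.1.1 0, z.1.1.2.2 0, z.2⟩
  map_add' := fun _ _ => rfl
  map_smul' := fun _ _ => rfl

/-- augmentation -/
def eB (k : Type v) [CommRing k] (𝒞 : Set (Set X)) (p : ℕ) :
    (Ch 𝒞 p → k) →ₗ[k] (ZZ 𝒞 p 0 → k) where
  toFun := fun b z => b z.1.1
  map_add' := fun _ _ => rfl
  map_smul' := fun _ _ => rfl

theorem e11 (p q : ℕ) (f : ZZ 𝒞 p q → k) : e1 k 𝒞 (p + 1) q (e1 k 𝒞 p q f) = 0 := by
  apply altd_altd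
  intro n i j z hij
  apply Subtype.ext
  apply Prod.ext
  · exact cface_cface _ _ _ _ hij
  · rfl

theorem e22 (p q : ℕ) (f : ZZ 𝒞 p q → k) : e2 k 𝒞 p (q + 1) (e2 k 𝒞 p q f) = 0 := by
  apply altd_altd
  intro n i j z hij
  apply Subtype.ext
  apply Prod.ext
  · rfl
  · exact sface_sface _ _ _ _ hij

theorem e12 (p q : ℕ) (f : ZZ 𝒞 p q → k) :
    e1 k 𝒞 p (q + 1) (e2 k 𝒞 p q f) = e2 k 𝒞 (p + 1) q (e1 k 𝒞 p q f) := by
  funext z
  simp only [e1, e2, altd_apply, Finset.mul_sum]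
  rw [Finset.sum_comm]
  refine Finset.sum_congr rfl fun j _ => Finset.sum_congr rfl fun i _ => ?_
  have : face2 (𝒞 := 𝒞) p q j (face1 (q + 1) p i z) = face1 q p i (face2 (p + 1) q j z) := rfl
  rw [this]
  ring

theorem eA_d (q : ℕ) (f : Small 𝒞 q → k) :
    e2 k 𝒞 0 q (eA k 𝒞 q f) = eA k 𝒞 (q + 1) (altd k (smface (𝒞 := 𝒞)) q f) := rfl

theorem eB_d (p : ℕ) (b : Ch 𝒞 p → k) :
    e1 k 𝒞 p 0 (eB k 𝒞 p b) = eB k 𝒞 (p + 1) (altd k (cface (Q := 𝒞)) p b) := rfl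

theorem eA_inj (q : ℕ) : Function.Injective (eA k 𝒞 q) := by
  intro f g hfg
  funext σ
  obtain ⟨σ, C, hC, hσ⟩ := σ
  have := congrFun hfg ⟨(⟨fun _ => C, fun a b hab => absurd hab (by
    have := Subsingleton.elim (α := Fin 1) a b; rw [this]; exact lt_irrefl _), fun _ => hC⟩, σ), hσ⟩
  exact this

theorem eA_zero (q : ℕ) (f : Small 𝒞 q → k) : e1 k 𝒞 0 q (eA k 𝒞 q f) = 0 := by
  funext z
  change altd k (S := fun p => ZZ 𝒞 p q) (fun p => face1 q p) 0 _ z = 0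
  rw [altd_apply, Fin.sum_univ_two]
  simp [face1, eA]

theorem eB_zero (p : ℕ) (b : Ch 𝒞 p → k) : e2 k 𝒞 p 0 (eB k 𝒞 p b) = 0 := by
  funext z
  change altd k (S := fun q => ZZ 𝒞 p q) (fun q => face2 p q) 0 _ z = 0
  rw [altd_apply, Fin.sum_univ_two]
  simp [face2, eB]

/-- existence of least members -/
def HCap (𝒞 : Set (Set X)) : Prop :=
  ∀ σ : Σ n, Sing X n, (∃ C ∈ 𝒞, Set.range σ.2 ⊆ C) →
      ∃ J ∈ 𝒞, Set.range σ.2 ⊆ J ∧ ∀ C ∈ 𝒞, Set.range σ.2 ⊆ C → J ⊆ C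

theorem exists_J (hcap : HCap 𝒞) : ∃ J : (q : ℕ) → Sing X q → Set X, ∀ q (σ : Sing X q),
    (∃ C ∈ 𝒞, Set.range σ ⊆ C) →
      (J q σ ∈ 𝒞 ∧ Set.range σ ⊆ J q σ ∧ ∀ C ∈ 𝒞, Set.range σ ⊆ C → J q σ ⊆ C) := by
  classical
  have hJ' : ∀ (q : ℕ) (σ : Sing X q), ∃ J : Set X, (∃ C ∈ 𝒞, Set.range σ ⊆ C) →
      (J ∈ 𝒞 ∧ Set.range σ ⊆ J ∧ ∀ C ∈ 𝒞, Set.range σ ⊆ C → J ⊆ C) := by
    intro q σ
    by_cases h : ∃ C ∈ 𝒞, Set.range σ ⊆ C
    · obtain ⟨J, h1, h2, h3⟩ := hcap ⟨q, σ⟩ h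
      exact ⟨J, fun _ => ⟨h1, h2, h3⟩⟩
    · exact ⟨∅, fun h' => absurd h' h⟩
  choose J hJ using hJ'
  exact ⟨J, hJ⟩

theorem eA_ex (hcap : HCap 𝒞) (q : ℕ) (f : ZZ 𝒞 0 q → k) (hf : e1 k 𝒞 0 q f = 0) :
    ∃ a, eA k 𝒞 q a = f := by
  classical
  obtain ⟨J, hJ⟩ := exists_J 𝒞 hcap
  have key : ∀ (z z' : ZZ 𝒞 0 q), z.1.2 = z'.1.2 → f z = f z' := by
    have key1 : ∀ z : ZZ 𝒞 0 q, ∀ (h : J q z.1.2 ∈ 𝒞) (h' : Set.range z.1.2 ⊆ J q z.1.2),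
        f z = f ⟨(⟨fun _ => J q z.1.2, fun a b hab => absurd hab (by
          have := Subsingleton.elim (α := Fin 1) a b; rw [this]; exact lt_irrefl _),
          fun _ => h⟩, z.1.2), h'⟩ := by
      rintro ⟨⟨c, σ⟩, hz⟩ h h'
      have hz' : Set.range σ ⊆ c.1 0 := hz
      obtain ⟨hJ1, hJ2, hJ3⟩ := hJ q σ ⟨_, c.2.2 0, hz'⟩
      have hle : J q σ ⊆ c.1 0 := hJ3 _ (c.2.2 0) hz'
      rcases eq_or_lt_of_le (show J q σ ≤ c.1 0 from hle) with heq | hlt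
      · congr 1
        apply Subtype.ext
        apply Prod.ext
        · apply Subtype.ext
          funext i
          have hi0 : i = 0 := Subsingleton.elim (α := Fin 1) i 0
          rw [hi0]
          exact heq.symm
        · rfl
      · have h2 := congrFun hf (⟨(c.consC (J q σ) hJ1 hlt, σ), hJ2⟩ : ZZ 𝒞 1 q)
        unfold e1 at h2
        rw [altd_apply, Fin.sum_univ_two] at h2
        simp only [Fin.val_zero, pow_zero, one_mul, Fin.val_one, pow_one, neg_mul,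
          Pi.zero_apply] at h2
        have e0 : face1 q 0 0 (⟨(c.consC (J q σ) hJ1 hlt, σ), hJ2⟩ : ZZ 𝒞 1 q)
            = ⟨(c, σ), hz⟩ := by
          apply Subtype.ext
          apply Prod.ext
          · exact consC_face_zero c _ hJ1 hlt
          · rfl
        rw [e0] at h2
        rw [← sub_eq_add_neg, sub_eq_zero] at h2
        rw [h2]
        congr 1
        apply Subtype.ext
        apply Prod.ext
        · apply Subtype.ext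
          funext i
          have hi0 : i = 0 := Subsingleton.elim (α := Fin 1) i 0
          rw [hi0]
          simp [face1, cface, Ch.consC]
        · rfl
    intro z z' hzz
    obtain ⟨⟨c, σ⟩, hz⟩ := z
    obtain ⟨⟨c', σ'⟩, hz'⟩ := z'
    simp only at hzz
    subst hzz
    obtain ⟨hJ1, hJ2, hJ3⟩ := hJ q σ ⟨_, c.2.2 0, hz⟩
    rw [key1 ⟨(c, σ), hz⟩ hJ1 hJ2, key1 ⟨(c', σ), hz'⟩ hJ1 hJ2]
  refine ⟨fun σ => f ⟨(⟨fun _ => J q σ.1, fun a b hab => absurd hab (by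
    have := Subsingleton.elim (α := Fin 1) a b; rw [this]; exact lt_irrefl _),
    fun _ => (hJ q σ.1 σ.2).1⟩, σ.1), (hJ q σ.1 σ.2).2.1⟩, ?_⟩
  funext z
  exact key _ _ rfl

theorem ex1' (hcap : HCap 𝒞) (p q : ℕ) (f : ZZ 𝒞 (p + 1) q → k) (hf : e1 k 𝒞 (p + 1) q f = 0) :
    ∃ g, e1 k 𝒞 p q g = f := by
  classical
  obtain ⟨J, hJ⟩ := exists_J 𝒞 hcap
  let g : ZZ 𝒞 p q → k := fun z =>
    if h : J q z.1.2 ∈ 𝒞 ∧ Set.range z.1.2 ⊆ J q z.1.2 ∧ J q z.1.2 < z.1.1.1 0 then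
    f ⟨(z.1.1.consC (J q z.1.2) h.1 h.2.2, z.1.2), h.2.1⟩ else 0
  have gpos : ∀ (z : ZZ 𝒞 p q) (h : J q z.1.2 ∈ 𝒞 ∧ Set.range z.1.2 ⊆ J q z.1.2 ∧
      J q z.1.2 < z.1.1.1 0), g z = f ⟨(z.1.1.consC (J q z.1.2) h.1 h.2.2, z.1.2), h.2.1⟩ :=
    fun z h => dif_pos h
  have gneg : ∀ (z : ZZ 𝒞 p q) (h : ¬ (J q z.1.2 < z.1.1.1 0)), g z = 0 :=
    fun z h => dif_neg (fun h' => h h'.2.2)
  refine ⟨g, ?_⟩
  funext z
  obtain ⟨⟨c, σ⟩, hz⟩ := z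
  have hz' : Set.range σ ⊆ c.1 0 := hz
  obtain ⟨hJ1, hJ2, hJ3⟩ := hJ q σ ⟨_, c.2.2 0, hz'⟩
  have hle : J q σ ⊆ c.1 0 := hJ3 _ (c.2.2 0) hz'
  unfold e1 at hf ⊢
  rw [altd_apply]
  rcases eq_or_lt_of_le (show J q σ ≤ c.1 0 from hle) with heq | hlt
  · rw [Fin.sum_univ_succ]
    have hlt1 : J q σ < (cface p 0 c).1 0 := by
      rw [heq]
      simp only [cface, Function.comp_apply]
      exact c.2.1 (by simp [Fin.succAbove])
    have hs : ∀ i : Fin (p + 1), (cface p i.succ c).1 0 = c.1 0 := by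
      intro i
      simp [cface]
    have e : ∑ i : Fin (p + 1), (-1 : k) ^ ((i.succ : Fin (p + 2)) : ℕ) *
        g (face1 q p i.succ ⟨(c, σ), hz⟩) = 0 := by
      apply Finset.sum_eq_zero
      intro i _
      rw [gneg, mul_zero]
      change ¬ (J q σ < (cface p i.succ c).1 0)
      rw [hs i, heq]; exact lt_irrefl _
    rw [e, gpos (face1 q p 0 ⟨(c, σ), hz⟩) ⟨hJ1, hJ2, hlt1⟩]
    simp only [Fin.val_zero, pow_zero, one_mul, add_zero]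
    congr 1
    apply Subtype.ext
    apply Prod.ext
    · apply Subtype.ext
      funext x
      refine Fin.cases ?_ (fun x => ?_) x
      · simp [Ch.consC, heq, face1]
      · simp [Ch.consC, cface, face1]
    · rfl
  · have hlti : ∀ i : Fin (p + 2), J q σ < (cface p i c).1 0 := by
      intro i
      refine lt_of_lt_of_le hlt ?_
      exact c.2.1.monotone (Fin.zero_le _)
    have h2 := congrFun hf (⟨(c.consC (J q σ) hJ1 hlt, σ), hJ2⟩ : ZZ 𝒞 (p + 2) q)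
    rw [altd_apply, Fin.sum_univ_succ] at h2
    simp only [Fin.val_zero, pow_zero, one_mul, Pi.zero_apply] at h2
    have e0 : face1 q (p + 1) 0 (⟨(c.consC (J q σ) hJ1 hlt, σ), hJ2⟩ : ZZ 𝒞 (p + 2) q)
        = ⟨(c, σ), hz⟩ := by
      apply Subtype.ext
      apply Prod.ext
      · exact consC_face_zero c _ hJ1 hlt
      · rfl
    rw [e0] at h2
    rw [eq_neg_of_add_eq_zero_left h2, ← Finset.sum_neg_distrib]
    refine Finset.sum_congr rfl fun i _ => ?_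
    have e1 : face1 q (p + 1) i.succ (⟨(c.consC (J q σ) hJ1 hlt, σ), hJ2⟩ : ZZ 𝒞 (p + 2) q)
        = ⟨((cface p i c).consC (J q σ) hJ1 (hlti i), σ), hJ2⟩ := by
      apply Subtype.ext
      apply Prod.ext
      · exact consC_face_succ c _ hJ1 hlt i (hlti i)
      · rfl
    rw [e1, gpos (face1 q p i ⟨(c, σ), hz⟩) ⟨hJ1, hJ2, hlti i⟩]
    simp only [face1, Fin.val_succ, pow_succ]
    ring

theorem exists_K [Nonempty X] (hcone : ∀ C ∈ 𝒞, ConeData C) :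
    ∃ (pt : Set X → X) (K : Set X → ∀ q, Sing X q → Sing X (q + 1)), ∀ C ∈ 𝒞, (pt C ∈ C ∧
    (∀ q (σ : Sing X q), Set.range σ ⊆ C → Set.range (K C q σ) ⊆ C ∧ sface q 0 (K C q σ) = σ) ∧
    (∀ q (σ : Sing X (q + 1)), Set.range σ ⊆ C → ∀ i : Fin (q + 2),
      sface (q + 1) i.succ (K C (q + 1) σ) = K C q (sface q i σ)) ∧
    (∀ σ : Sing X 0, Set.range σ ⊆ C →
      sface 0 1 (K C 0 σ) = ContinuousMap.const _ (pt C))) := by
  classical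
  have hcone' : ∀ C : Set X, ∃ (pt : X) (K : ∀ q, Sing X q → Sing X (q + 1)), C ∈ 𝒞 → (pt ∈ C ∧
    (∀ q (σ : Sing X q), Set.range σ ⊆ C → Set.range (K q σ) ⊆ C ∧ sface q 0 (K q σ) = σ) ∧
    (∀ q (σ : Sing X (q + 1)), Set.range σ ⊆ C → ∀ i : Fin (q + 2),
      sface (q + 1) i.succ (K (q + 1) σ) = K q (sface q i σ)) ∧
    (∀ σ : Sing X 0, Set.range σ ⊆ C → sface 0 1 (K 0 σ) = ContinuousMap.const _ pt)) := by
    intro C
    by_cases h : C ∈ 𝒞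
    · obtain ⟨pt, K, hh⟩ := hcone C h
      exact ⟨pt, K, fun _ => hh⟩
    · exact ⟨Classical.arbitrary X, fun q _ => ContinuousMap.const _ (Classical.arbitrary X),
        fun h' => absurd h' h⟩
  choose pt K hcone' using hcone'
  exact ⟨pt, K, hcone'⟩

theorem eB_inj [Nonempty X] (hcone : ∀ C ∈ 𝒞, ConeData C) (p : ℕ) :
    Function.Injective (eB k 𝒞 p) := by
  obtain ⟨pt, K, hK⟩ := exists_K 𝒞 hcone
  intro b b' hb
  funext c
  have hc0 := c.2.2 0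
  have := congrFun hb ⟨(c, ContinuousMap.const _ (pt (c.1 0))), by
    rintro _ ⟨x, rfl⟩
    exact (hK _ hc0).1⟩
  exact this

theorem eB_ex [Nonempty X] (hcone : ∀ C ∈ 𝒞, ConeData C) (p : ℕ) (f : ZZ 𝒞 p 0 → k)
    (hf : e2 k 𝒞 p 0 f = 0) : ∃ b, eB k 𝒞 p b = f := by
  obtain ⟨pt, K, hK⟩ := exists_K 𝒞 hcone
  refine ⟨fun c => f ⟨(c, ContinuousMap.const _ (pt (c.1 0))), by
    rintro _ ⟨x, rfl⟩
    exact (hK _ (c.2.2 0)).1⟩, ?_⟩
  funext z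
  obtain ⟨⟨c, σ⟩, hz⟩ := z
  have hz' : Set.range σ ⊆ c.1 0 := hz
  have hc0 := c.2.2 0
  have h2 := congrFun hf (⟨(c, K (c.1 0) 0 σ), ((hK _ hc0).2.1 0 σ hz').1⟩ : ZZ 𝒞 p 1)
  unfold e2 at h2
  rw [altd_apply, Fin.sum_univ_two] at h2
  simp only [Fin.val_zero, pow_zero, one_mul, Fin.val_one, pow_one, neg_mul,
    Pi.zero_apply] at h2
  have h3 := h2
  rw [← sub_eq_add_neg, sub_eq_zero] at h3
  have e0 : face2 p 0 0 (⟨(c, K (c.1 0) 0 σ), ((hK _ hc0).2.1 0 σ hz').1⟩ : ZZ 𝒞 p 1)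
      = ⟨(c, σ), hz⟩ := by
    apply Subtype.ext
    apply Prod.ext
    · rfl
    · exact ((hK _ hc0).2.1 0 σ hz').2
  have e1 : face2 p 0 1 (⟨(c, K (c.1 0) 0 σ), ((hK _ hc0).2.1 0 σ hz').1⟩ : ZZ 𝒞 p 1)
      = ⟨(c, ContinuousMap.const _ (pt (c.1 0))), by
          rintro _ ⟨x, rfl⟩
          exact (hK _ hc0).1⟩ := by
    apply Subtype.ext
    apply Prod.ext
    · rfl
    · exact (hK _ hc0).2.2.2 σ hz'
  rw [e0, e1] at h3
  exact h3.symm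

theorem ex2' [Nonempty X] (hcone : ∀ C ∈ 𝒞, ConeData C) (p q : ℕ) (f : ZZ 𝒞 p (q + 1) → k)
    (hf : e2 k 𝒞 p (q + 1) f = 0) : ∃ g, e2 k 𝒞 p q g = f := by
  obtain ⟨pt, K, hK⟩ := exists_K 𝒞 hcone
  refine ⟨fun z => f ⟨(z.1.1, K (z.1.1.1 0) q z.1.2),
    ((hK _ (z.1.1.2.2 0)).2.1 q z.1.2 z.2).1⟩, ?_⟩
  funext z
  obtain ⟨⟨c, σ⟩, hz⟩ := z
  have hz' : Set.range σ ⊆ c.1 0 := hz
  have hc0 := c.2.2 0
  have h2 := congrFun hf (⟨(c, K (c.1 0) (q + 1) σ), ((hK _ hc0).2.1 _ σ hz').1⟩ :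
    ZZ 𝒞 p (q + 2))
  unfold e2 at h2 ⊢
  rw [altd_apply, Fin.sum_univ_succ] at h2
  simp only [Fin.val_zero, pow_zero, one_mul, Pi.zero_apply] at h2
  have e0 : face2 p (q + 1) 0 (⟨(c, K (c.1 0) (q + 1) σ), ((hK _ hc0).2.1 _ σ hz').1⟩ :
      ZZ 𝒞 p (q + 2)) = ⟨(c, σ), hz⟩ := by
    apply Subtype.ext
    apply Prod.ext
    · rfl
    · exact ((hK _ hc0).2.1 _ σ hz').2
  rw [e0] at h2
  rw [altd_apply, eq_neg_of_add_eq_zero_left h2, ← Finset.sum_neg_distrib]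
  refine Finset.sum_congr rfl fun i _ => ?_
  have e1 : face2 p (q + 1) i.succ
      (⟨(c, K (c.1 0) (q + 1) σ), ((hK _ hc0).2.1 _ σ hz').1⟩ : ZZ 𝒞 p (q + 2))
      = ⟨(c, K (c.1 0) q (sface q i σ)),
          ((hK _ hc0).2.1 q _ ((range_sface q i σ).trans hz')).1⟩ := by
    apply Subtype.ext
    apply Prod.ext
    · rfl
    · exact (hK _ hc0).2.2.1 q σ hz' i
  rw [e1]
  simp only [face2, Fin.val_succ, pow_succ]
  ring

end concrete

end Pool.Agent.V7H7.SZ
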